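import Pool.Agent.Lib.MP_7bc610_gt.Defs

/-!
Abstract diagrams on a torus: strands `X`, oriented with black on the left; `σ` follows the
boundary of a black region, `α` exchanges the two strands entering a crossing, `η y` is the
homology class picked up on arriving at `y`.
-/

namespace Pool.Agent.Lib.MP_7bc610_gt.Ta

open Equiv Finset LaurentPolynomial

def det (u v : ℤ × ℤ) : ℤ := u.1 * v.2 - u.2 * v.1

structure TD (X : Type) [Fintype X] [DecidableEq X] where
  σ : Perm X
  α : Perm X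
  η : X → ℤ × ℤ
  D : Finset X
  αα : ∀ y, α (α y) = y
  ne : ∀ y ∈ D, α y ∉ D
  cov : ∀ y, α y ≠ y → y ∈ D ∨ α y ∈ D
  stream : ∀ s : X → ℤ, (∀ y, s y + s (α y) = s (σ y) + s (σ (α y))) →
    ∃ g : X → ℤ, (∀ y, g (σ y) + det (η (σ y)) (∑ z, s z • η z) = g y) ∧
      ∀ y, g (σ (α y)) + s (σ (α y)) + det (η (σ (α y))) (∑ z, s z • η z) = g y + s y

variable {X : Type} [Fintype X] [DecidableEq X]

open Classical in
/-- The cycle of `π` through `y`. -/
noncomputable def orb (π : Perm X) (y : X) : Finset X := univ.filter fun z => π.SameCycle y z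

/-- The set of cycles of `π`. -/
noncomputable def cyc (π : Perm X) : Finset (Finset X) := univ.image (orb π)

def x1 (v : ℤ × ℤ) : ℤ := (v.1 + 1) * (v.2 + 1) - 1

def x2 (v : ℤ × ℤ) : ℤ := (v.1 + 1) * (v.2 - 1)

/-- The value in the 3-sphere of the class `2 v`, multiplied by `A^2 - A^(-2)`. -/
noncomputable def phi (v : ℤ × ℤ) : ℤ[T;T⁻¹] := T (4 * x1 v + 2) - T (4 * x2 v + 2)

/-- The linear form `v ↦ a v₁ + b v₂`. -/
def lin (a b : ℝ) (v : ℤ × ℤ) : ℝ := a * v.1 + b * v.2

namespace TD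

variable (G : TD X)

theorem al_invol (H : Finset X) :
    Function.Involutive fun y => if y ∈ H ∨ G.α y ∈ H then G.α y else y := by
  intro y
  by_cases h : y ∈ H ∨ G.α y ∈ H
  · simp only [if_pos h, G.αα, if_pos h.symm]
  · simp only [if_neg h]

/-- Exchange the two strands at the crossings in `H` only. -/
def al (H : Finset X) : Perm X := (G.al_invol H).toPerm

/-- The loops of the state `H` are the cycles of `pi H`. -/
def pi (H : Finset X) : Perm X := G.σ * G.al H

def cls (O : Finset X) : ℤ × ℤ := ∑ z ∈ O, G.η z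

/-- The essential loops of a state. -/
noncomputable def ess (H : Finset X) : Finset (Finset X) :=
  (cyc (G.pi H)).filter fun O => G.cls O ≠ 0

/-- The number of inessential loops of a state. -/
noncomputable def tr (H : Finset X) : ℕ := ((cyc (G.pi H)).filter fun O => G.cls O = 0).card

noncomputable def term (H : Finset X) : ℤ[T;T⁻¹] :=
  T ((G.D.card : ℤ) - 2 * H.card) * loopVal ^ G.tr H *
    ∑ S ∈ (G.ess H).powerset, phi (∑ O ∈ S, G.cls O)

noncomputable def Rsum : ℤ[T;T⁻¹] := ∑ H ∈ G.D.powerset, G.term H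

/-- Steps in the black part of the state `H`, in the universal cover. -/
inductive BS (H : Finset X) : X × (ℤ × ℤ) → X × (ℤ × ℤ) → Prop where
  | face (y : X) (x : ℤ × ℤ) : BS H (y, x) (G.σ y, x + G.η (G.σ y))
  | edge (y : X) (x : ℤ × ℤ) : y ∈ H → BS H (y, x) (G.α y, x)

def BW (H : Finset X) : X × (ℤ × ℤ) → X × (ℤ × ℤ) → Prop := Relation.EqvGen (G.BS H)

def Bc (H : Finset X) (y z : X) : Prop := ∃ v, G.BW H (y, 0) (z, v)

open Classical in
noncomputable def comp (H : Finset X) (y : X) : Finset X := univ.filter fun z => G.Bc H y z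

/-- The number of black components of a state. -/
noncomputable def kB (H : Finset X) : ℕ := (univ.image (G.comp H)).card

/-- The number of black regions. -/
noncomputable def V : ℕ := (cyc G.σ).card

/-- Twice the genus of the black surface of a state. -/
noncomputable def gen (H : Finset X) : ℤ :=
  2 * G.kB H - G.V + H.card - (cyc (G.pi H)).card

/-- Twice the level of a state. -/
noncomputable def lev (H : Finset X) : ℤ := G.V + H.card - G.tr H

def Full (H : Finset X) : Prop :=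
  ∃ y u v, G.BW H (y, 0) (y, u) ∧ G.BW H (y, 0) (y, v) ∧ det u v ≠ 0

noncomputable def top : ℤ := G.D.card + 2 * G.V + 2

/-- The sum of the absolute values of the classes of the loops. -/
noncomputable def mu (H : Finset X) : ℤ × ℤ :=
  ∑ O ∈ cyc (G.pi H), (|(G.cls O).1|, |(G.cls O).2|)

theorem det_neg (u v : ℤ × ℤ) : det (u.1, -u.2) (v.1, -v.2) = - det u v := by
  simp only [det]; ring

/-- Exchange the colours and reflect the torus. -/
def dual : TD X where
  σ := G.σ * G.α
  α := G.α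
  η := fun y => ((G.η y).1, -(G.η y).2)
  D := G.D
  αα := G.αα
  ne := G.ne
  cov := G.cov
  stream := by
    intro s hs
    have hs' : ∀ y, s y + s (G.α y) = s (G.σ y) + s (G.σ (G.α y)) := by
      intro y
      have := hs y
      simp only [Perm.mul_apply, G.αα] at this
      linarith
    obtain ⟨g, h1, h2⟩ := G.stream s hs'
    have hc : (∑ z, s z • (((G.η z).1, -(G.η z).2) : ℤ × ℤ)) =
        ((∑ z, s z • G.η z).1, -(∑ z, s z • G.η z).2) := by
      ext <;> simp [Prod.fst_sum, Prod.snd_sum]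
    refine ⟨fun y => -(g y + s y), fun y => ?_, fun y => ?_⟩
    · have := h2 y
      simp only [Perm.mul_apply, hc, det_neg]
      linarith
    · have := h1 y
      simp only [Perm.mul_apply, hc, det_neg, G.αα]
      linarith

/-- A height function with slope `ω` changing by at most one across a strand. -/
def Pot (ω : ℤ × ℤ → ℝ) : Prop :=
  ∃ hB hW : X → ℝ, (∀ y, |hB y - hW y| ≤ 1) ∧ (∀ y, hB (G.σ y) + ω (G.η (G.σ y)) = hB y) ∧
    ∀ y, hW (G.σ (G.α y)) + ω (G.η (G.σ (G.α y))) = hW y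

structure Good (r : ℝ) : Prop where
  conn : ∀ y z, G.Bc G.D y z
  discB : ∀ y, G.cls (orb G.σ y) = 0
  discW : ∀ y, G.cls (orb (G.σ * G.α) y) = 0
  redB : ∀ y ∈ G.D, ¬ G.BW ∅ (y, 0) (G.α y, 0)
  redW : ∀ y ∈ G.D, ¬ G.dual.BW ∅ (y, 0) (G.α y, 0)
  pot1 : ∃ θ, G.Pot (lin r θ)
  pot2 : ∃ θ, G.Pot (lin θ r)
  cross : G.D.Nonempty

/-- A system of black cycles with `L` edges and class `v`. -/
def Sys (L : ℕ) (v : ℤ × ℤ) : Prop :=
  ∃ H ⊆ G.D, ∃ s : X → ℤ, H.card = L ∧ (∀ y, s (G.pi H y) = s y) ∧ (∀ y, s y = 0 ∨ s y = 1) ∧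
    ∑ z, s z • G.η z = v

/-- There is a short system of black cycles of nonnegative slope. -/
def Crit (j : ℤ) : Prop :=
  ∃ L v, G.Sys L v ∧ 0 ≤ v.1 ∧ 0 ≤ v.2 ∧ v ≠ 0 ∧ (L : ℤ) ≤ x1 v + j

/-- The only short systems have class `(2, 2)` and eight edges. -/
def Spec : Prop :=
  ∀ L v, G.Sys L v → 0 ≤ v.1 → 0 ≤ v.2 → v ≠ 0 → (L : ℤ) ≤ x1 v → L = 8 ∧ v = (2, 2)

def TopAt : Prop := (∀ m, G.top < m → G.Rsum.coeff m = 0) ∧ G.Rsum.coeff G.top ≠ 0

/-- The two crossings `y`, `z` join the same two black regions in the universal cover. -/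
def Par (y z : X) : Prop :=
  ∃ x, (G.BW ∅ (y, 0) (z, x) ∧ G.BW ∅ (G.α y, 0) (G.α z, x)) ∨
    (G.BW ∅ (y, 0) (G.α z, x) ∧ G.BW ∅ (G.α y, 0) (z, x))

end TD

end Pool.Agent.Lib.MP_7bc610_gt.Ta
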