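import Pool.Agent.Lib.MP_7bc610_gt.Ta.Defs

/-! The spin model for the Kauffman bracket (`true` is a strand oriented upwards). -/

namespace Pool.Agent.Lib.MP_7bc610_gt.Ta

open LaurentPolynomial Finset

abbrev RR : Type := ℤ[T;T⁻¹]

abbrev Vec : Type := List Bool →₀ RR

def sg (b : Bool) : ℤ := if b then 1 else -1

def wt (u : List Bool) : ℤ := (u.map sg).sum

def words : ℕ → Finset (List Bool)
  | 0 => {[]}
  | n + 1 => (words n).image (true :: ·) ∪ (words n).image (false :: ·)

noncomputable def bas (u : List Bool) : Vec := Finsupp.single u 1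

noncomputable def lext (f : List Bool → Vec) : Vec →ₗ[RR] Vec := Finsupp.linearCombination RR f

noncomputable def cupL (i : ℕ) : Vec →ₗ[RR] Vec :=
  lext fun u => bas (u.take i ++ false :: true :: u.drop i) -
    (T (-2) : RR) • bas (u.take i ++ true :: false :: u.drop i)

noncomputable def capW : Option Bool → Option Bool → RR
  | some true, some false => 1
  | some false, some true => -T 2
  | _, _ => 0

noncomputable def capL (i : ℕ) : Vec →ₗ[RR] Vec :=
  lext fun u => capW u[i]? u[i + 1]? • bas (u.take i ++ u.drop (i + 2))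

noncomputable def gen : Kind × ℕ → Vec →ₗ[RR] Vec
  | (.cup, i) => cupL i
  | (.cap, i) => capL i
  | (.cr e, i) => (T (if e then 1 else -1) : RR) • LinearMap.id +
      (T (if e then -1 else 1) : RR) • (cupL i ∘ₗ capL i)

noncomputable def rho : Word → Vec →ₗ[RR] Vec
  | [] => LinearMap.id
  | g :: w => rho w ∘ₗ gen g

noncomputable def pre (l : List Bool) : Vec →ₗ[RR] Vec := lext fun u => bas (l ++ u)

noncomputable def suf (l : List Bool) : Vec →ₗ[RR] Vec := lext fun u => bas (u ++ l)

/-- The span of the words of length `n` and weight `Q`. -/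
noncomputable def W (n : ℕ) (Q : ℤ) : Submodule RR Vec :=
  Finsupp.supported RR RR {u | u.length = n ∧ wt u = Q}

noncomputable def Fb : List Bool → Vec
  | [] => 0
  | a :: u => (if a then bas (false :: u) else 0) + (T (2 * sg a) : RR) • pre [a] (Fb u)

/-- The lowering operator of the quantum group. -/
noncomputable def Fop : Vec →ₗ[RR] Vec := lext Fb

noncomputable def stripL (x : List Bool) : Vec →ₗ[RR] Vec :=
  lext fun u => if u.take x.length = x then bas (u.drop x.length) else 0

noncomputable def stripR (q : ℕ) (x : List Bool) : Vec →ₗ[RR] Vec :=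
  lext fun u => if u.drop q = x then bas (u.take q) else 0

noncomputable def psi (P Q : ℤ) : RR :=
  (if 0 ≤ Q then T (P * (Q + 2)) * (T (2 * Q + 2) - T (-(2 * Q + 2))) else 0) -
    (if 2 ≤ Q then T (P * (Q - 2)) * (T (2 * Q - 2) - T (-(2 * Q - 2))) else 0)

variable {n m : ℕ} {Q : ℤ} {u : List Bool} {v : Vec} {w : Word}

@[simp] theorem lext_bas (f : List Bool → Vec) (u : List Bool) : lext f (bas u) = f u := by
  simp [lext, bas]

theorem lin_ext {S S' : Vec →ₗ[RR] Vec} (h : ∀ u, S (bas u) = S' (bas u)) : S = S' := by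
  apply Finsupp.lhom_ext'
  intro u
  apply LinearMap.ext_ring
  simpa [bas] using h u

theorem wt_nil : wt [] = 0 := rfl

theorem wt_cons (a : Bool) (u : List Bool) : wt (a :: u) = sg a + wt u := by simp [wt]

theorem wt_append (u v : List Bool) : wt (u ++ v) = wt u + wt v := by simp [wt]

theorem mem_words : u ∈ words n ↔ u.length = n := by
  induction n generalizing u with
  | zero => simp [words]
  | succ n ih =>
    cases u with
    | nil => simp [words]
    | cons a u => cases a <;> simp [words, ih]

theorem abs_wt_le (u : List Bool) : |wt u| ≤ u.length := by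
  induction u with
  | nil => simp [wt]
  | cons a u ih =>
    rw [wt_cons, List.length_cons]
    rw [abs_le] at ih ⊢
    cases a <;> simp [sg] <;> omega

theorem even_wt (u : List Bool) : Even (wt u - u.length) := by
  induction u with
  | nil => simp [wt]
  | cons a u ih =>
    rw [wt_cons, List.length_cons]
    obtain ⟨k, hk⟩ := ih
    cases a
    · exact ⟨k - 1, by simp [sg]; omega⟩
    · exact ⟨k, by simp [sg]; omega⟩

theorem bas_mem (u : List Bool) : bas u ∈ W u.length (wt u) :=
  Finsupp.single_mem_supported _ _ ⟨rfl, rfl⟩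

theorem bas_mem' (h : u.length = n) (h' : wt u = Q) : bas u ∈ W n Q :=
  Finsupp.single_mem_supported _ _ ⟨h, h'⟩

/-- To prove that a linear map sends `W n Q` into a submodule, check the basis. -/
theorem W_induct {S : Vec →ₗ[RR] Vec} {N : Submodule RR Vec}
    (h : ∀ u, u.length = n → wt u = Q → S (bas u) ∈ N) (hv : v ∈ W n Q) : S v ∈ N := by
  have : W n Q ≤ N.comap S := by
    unfold W
    rw [Finsupp.supported_eq_span_single, Submodule.span_le]
    rintro _ ⟨u, hu, rfl⟩
    exact h u hu.1 hu.2
  exact this hv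

theorem W_apply (hv : v ∈ W n Q) (h : ¬ (u.length = n ∧ wt u = Q)) : v u = 0 :=
  (Finsupp.mem_supported' _ _).1 hv u h

theorem rho_append (u v : Word) : rho (u ++ v) = rho v ∘ₗ rho u := by
  induction u with
  | nil => rfl
  | cons g u ih => simp only [List.cons_append, rho, ih, LinearMap.comp_assoc]

theorem sd_sum_words_succ {M : Type} [AddCommMonoid M] (n : ℕ) (f : List Bool → M) :
    ∑ u ∈ words (n + 1), f u = ∑ u ∈ words n, (f (true :: u) + f (false :: u)) := by
  rw [words, sum_union, sum_image (fun _ _ _ _ h => List.tail_eq_of_cons_eq h),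
    sum_image (fun _ _ _ _ h => List.tail_eq_of_cons_eq h), sum_add_distrib]
  rw [disjoint_left]
  intro u h1 h2
  obtain ⟨a, -, rfl⟩ := mem_image.1 h1
  obtain ⟨b, -, h⟩ := mem_image.1 h2
  cases h

theorem sum_words_append {M : Type} [AddCommMonoid M] (p q : ℕ) (f : List Bool → M) :
    ∑ u ∈ words (p + q), f u = ∑ x ∈ words p, ∑ y ∈ words q, f (x ++ y) := by
  induction p generalizing f with
  | zero => simp [words]
  | succ p ih =>
    rw [Nat.succ_add, sd_sum_words_succ, sd_sum_words_succ, ih]
    simp only [sum_add_distrib, List.cons_append]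

theorem sd_pre_bas (l u : List Bool) : pre l (bas u) = bas (l ++ u) := lext_bas _ _

theorem sd_cupL_app {i : ℕ} {x : List Bool} (h : x.length = i) (y : List Bool) :
    cupL i (bas (x ++ y)) =
      bas (x ++ false :: true :: y) - (T (-2) : RR) • bas (x ++ true :: false :: y) := by
  subst h
  simp [cupL]

theorem sd_capL_app {i : ℕ} {x : List Bool} (h : x.length = i) (a b : Bool) (y : List Bool) :
    capL i (bas (x ++ a :: b :: y)) = capW (some a) (some b) • bas (x ++ y) := by
  subst h
  simp [capL]

theorem sd_split1 {i : ℕ} (h : i ≤ u.length) : ∃ x y, u = x ++ y ∧ x.length = i :=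
  ⟨u.take i, u.drop i, (List.take_append_drop i u).symm, by simp [h]⟩

theorem sd_split2 {i : ℕ} (h : i + 2 ≤ u.length) :
    ∃ x a b y, u = x ++ a :: b :: y ∧ x.length = i := by
  obtain ⟨x, y, rfl, e⟩ := sd_split1 (u := u) (i := i) (by omega)
  rw [List.length_append] at h
  match y, h with
  | a :: b :: y, _ => exact ⟨x, a, b, y, rfl, e⟩
  | [], h => simp at h; omega
  | [_], h => simp at h; omega

/-- Linear maps that agree on the basis agree on `W n Q`. -/
theorem sd_W_ext {M : Type} [AddCommGroup M] [Module RR M] {S S' : Vec →ₗ[RR] M}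
    (h : ∀ u, u.length = n → wt u = Q → S (bas u) = S' (bas u)) (hv : v ∈ W n Q) :
    S v = S' v := by
  have : W n Q ≤ LinearMap.eqLocus S S' := by
    unfold W
    rw [Finsupp.supported_eq_span_single, Submodule.span_le]
    rintro _ ⟨u, hu, rfl⟩
    exact h u hu.1 hu.2
  exact this hv

theorem sd_cup_pre (l : List Bool) (i : ℕ) : cupL (i + l.length) ∘ₗ pre l = pre l ∘ₗ cupL i := by
  refine lin_ext fun u => ?_
  simp only [LinearMap.comp_apply, sd_pre_bas, cupL, lext_bas, map_sub, map_smul]
  rw [Nat.add_comm, List.take_length_add_append, List.drop_length_add_append]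
  simp only [List.append_assoc]

theorem sd_cap_pre (l : List Bool) (i : ℕ) : capL (i + l.length) ∘ₗ pre l = pre l ∘ₗ capL i := by
  refine lin_ext fun u => ?_
  simp only [LinearMap.comp_apply, sd_pre_bas, capL, lext_bas, map_smul]
  rw [List.getElem?_append_right (by omega), List.getElem?_append_right (by omega),
    show i + l.length - l.length = i by omega, show i + l.length + 1 - l.length = i + 1 by omega,
    show i + l.length + 2 = l.length + (i + 2) by omega, Nat.add_comm i l.length,
    List.take_length_add_append, List.drop_length_add_append, List.append_assoc]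

theorem sd_gen_cup (i : ℕ) : gen (.cup, i) = cupL i := by rw [gen]

theorem sd_gen_cap (i : ℕ) : gen (.cap, i) = capL i := by rw [gen]

theorem sd_gen_cr (e : Bool) (i : ℕ) (v : Vec) : gen (.cr e, i) v =
    (T (if e then 1 else -1) : RR) • v + (T (if e then -1 else 1) : RR) • cupL i (capL i v) := by
  rw [gen, LinearMap.add_apply, LinearMap.smul_apply, LinearMap.smul_apply, LinearMap.id_apply,
    LinearMap.comp_apply]

theorem sd_gen_pre (l : List Bool) (k : Kind) (i : ℕ) :
    gen (k, i + l.length) ∘ₗ pre l = pre l ∘ₗ gen (k, i) := by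
  rcases k with _ | _ | e
  · rw [sd_gen_cup, sd_gen_cup, sd_cup_pre]
  · rw [sd_gen_cap, sd_gen_cap, sd_cap_pre]
  · refine LinearMap.ext fun v => ?_
    have h1 := LinearMap.congr_fun (sd_cap_pre l i) v
    have h2 := LinearMap.congr_fun (sd_cup_pre l i) (capL i v)
    rw [LinearMap.comp_apply, LinearMap.comp_apply] at h1 h2
    rw [LinearMap.comp_apply, LinearMap.comp_apply, sd_gen_cr, sd_gen_cr, map_add, map_smul,
      map_smul, h1, h2]

theorem rho_shift (l : List Bool) (w : Word) :
    rho (shift l.length w) ∘ₗ pre l = pre l ∘ₗ rho w := by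
  induction w with
  | nil => rfl
  | cons g w ih =>
    obtain ⟨k, i⟩ := g
    change (rho (shift l.length w) ∘ₗ gen (k, i + l.length)) ∘ₗ pre l =
      pre l ∘ₗ (rho w ∘ₗ gen (k, i))
    rw [LinearMap.comp_assoc, sd_gen_pre, ← LinearMap.comp_assoc, ih, LinearMap.comp_assoc]

theorem sd_cupL_mem {i : ℕ} (h : i ≤ n) (hv : v ∈ W n Q) : cupL i v ∈ W (n + 2) Q := by
  refine W_induct (fun u h1 h2 => ?_) hv
  obtain ⟨x, y, rfl, e⟩ := sd_split1 (u := u) (i := i) (by omega)
  rw [sd_cupL_app e]
  rw [List.length_append] at h1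
  rw [wt_append] at h2
  refine sub_mem (bas_mem' ?_ ?_) (Submodule.smul_mem _ _ (bas_mem' ?_ ?_))
  · simp; omega
  · simp [wt_append, wt_cons, sg]; omega
  · simp; omega
  · simp [wt_append, wt_cons, sg]; omega

theorem sd_capL_mem {i : ℕ} (h : i ≤ n) (hv : v ∈ W (n + 2) Q) : capL i v ∈ W n Q := by
  refine W_induct (fun u h1 h2 => ?_) hv
  obtain ⟨x, a, b, y, rfl, e⟩ := sd_split2 (u := u) (i := i) (by omega)
  rw [sd_capL_app e]
  have h3 : (x ++ y).length = n := by simp at h1 ⊢; omega
  simp only [wt_append, wt_cons] at h2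
  cases a <;> cases b
  · simp [capW]
  · exact Submodule.smul_mem _ _ (bas_mem' h3 (by simp [wt_append, sg] at h2 ⊢; omega))
  · exact Submodule.smul_mem _ _ (bas_mem' h3 (by simp [wt_append, sg] at h2 ⊢; omega))
  · simp [capW]

theorem gen_mem {k : Kind} {i : ℕ} (h : i + k.inp ≤ n) (hv : v ∈ W n Q) :
    gen (k, i) v ∈ W (n - k.inp + k.out) Q := by
  rcases k with _ | _ | e
  · rw [sd_gen_cup]
    exact sd_cupL_mem h hv
  · simp only [Kind.inp, Kind.out] at h ⊢
    obtain ⟨n, rfl⟩ : ∃ n', n = n' + 2 := ⟨n - 2, by omega⟩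
    rw [sd_gen_cap, Nat.add_sub_cancel, Nat.add_zero]
    exact sd_capL_mem (by omega) hv
  · simp only [Kind.inp, Kind.out] at h ⊢
    obtain ⟨n, rfl⟩ : ∃ n', n = n' + 2 := ⟨n - 2, by omega⟩
    have h' : i ≤ n := by omega
    rw [sd_gen_cr, Nat.add_sub_cancel]
    exact add_mem (Submodule.smul_mem _ _ hv)
      (Submodule.smul_mem _ _ (sd_cupL_mem h' (sd_capL_mem h' hv)))

theorem rho_mem (hw : Valid n w m) (hv : v ∈ W n Q) : rho w v ∈ W m Q := by
  induction w generalizing n v with
  | nil => exact (show n = m from hw) ▸ hv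
  | cons g w ih => exact ih hw.2 (gen_mem hw.1 hv)

theorem sd_valid_append {k : ℕ} {w' : Word} (h : Valid n w m) (h' : Valid m w' k) :
    Valid n (w ++ w') k := by
  induction w generalizing n with
  | nil => exact (show n = m from h) ▸ h'
  | cons g w ih => exact ⟨h.1, ih h.2⟩

theorem sd_valid_shift (h : Valid n w m) (k : ℕ) : Valid (n + k) (shift k w) (m + k) := by
  induction w generalizing n with
  | nil => exact congrArg (· + k) (show n = m from h)
  | cons g w ih =>
    obtain ⟨a, i⟩ := g
    have h1 : i + a.inp ≤ n := h.1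
    refine ⟨show i + k + a.inp ≤ n + k by omega, ?_⟩
    change Valid (n + k - a.inp + a.out) (shift k w) (m + k)
    rw [show n + k - a.inp + a.out = n - a.inp + a.out + k by omega]
    exact ih h.2

theorem sd_valid_under {i q : ℕ} (h : i + q + 1 ≤ n) : Valid n (under i q) n := by
  induction q with
  | zero => rfl
  | succ q ih =>
    refine ⟨h, ?_⟩
    rw [show n - (Kind.cr true).inp + (Kind.cr true).out = n by
      simp only [Kind.inp, Kind.out]; omega]
    exact ih (by omega)

theorem sd_valid_block {i p q : ℕ} (h : i + p + q ≤ n) : Valid n (block q i p) n := by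
  induction p generalizing i with
  | zero => rfl
  | succ p ih => exact sd_valid_append (sd_valid_under (by omega)) (ih (by omega))

theorem valid_block (p q : ℕ) : Valid (p + q) (block q 0 p) (p + q) :=
  sd_valid_block (by omega)

theorem sd_valid_cups (n : ℕ) : Valid 0 (cups n) (n + n) := by
  induction n with
  | zero => rfl
  | succ n ih =>
    refine sd_valid_append ih ⟨by simp [Kind.inp], ?_⟩
    change n + n - 0 + 2 = _
    omega

theorem sd_valid_caps (n : ℕ) : Valid (n + n) (caps n) 0 := by
  induction n with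
  | zero => rfl
  | succ n ih =>
    refine ⟨by simp only [Kind.inp]; omega, ?_⟩
    rw [show n + 1 + (n + 1) - Kind.cap.inp + Kind.cap.out = n + n by
      simp only [Kind.inp, Kind.out]; omega]
    exact ih

theorem valid_torusWord {p q : ℕ} (hw : Valid (p + q) w (p + q)) : Valid 0 (torusWord p q w) 0 :=
  sd_valid_append (sd_valid_append (sd_valid_cups _)
    (sd_valid_shift (sd_valid_append hw (valid_block p q)) _)) (sd_valid_caps _)

end Pool.Agent.Lib.MP_7bc610_gt.Ta
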