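import Pool.Agent.Lib.MP_7bc610_gt.Ta.Rot
import Pool.Agent.Lib.MP_7bc610_gt.Ta.SpinDefs

/-! The partition function on the torus as a sum over states and orientations of loops. -/

namespace Pool.Agent.Lib.MP_7bc610_gt.Ta

open Finset Equiv LaurentPolynomial

/-- `(-A^2)^n`. -/
noncomputable def mono (n : ℤ) : RR := ((n.negOnePow : ℤ) : RR) * T (2 * n)

theorem mono_add (a b : ℤ) : mono (a + b) = mono a * mono b := by
  simp only [mono, Int.negOnePow_add, Units.val_mul, Int.cast_mul, mul_add, T_add]
  ring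

theorem cfg_mono_zero : mono 0 = 1 := by simp [mono]

theorem cfg_mono_one : mono 1 = -T 2 := by simp [mono]

theorem cfg_mono_neg : mono (-1) = -T (-2) := by simp [mono]

theorem cfg_mono_sum {ι : Type} (s : Finset ι) (f : ι → ℤ) :
    mono (∑ i ∈ s, f i) = ∏ i ∈ s, mono (f i) := by
  classical
  induction s using Finset.induction_on with
  | empty => simp [cfg_mono_zero]
  | insert a s ha ih => rw [sum_insert ha, prod_insert ha, mono_add, ih]

/-- The spins at height `l`, when `A` is the set of strands whose spin agrees with the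
orientation. -/
def row (p q : ℕ) (w : Word) (c : Bool) (A : Finset (ℕ × ℕ)) (l : ℕ) : List Bool :=
  (List.range (wd (p + q) w l)).map fun i => decide ((l, i) ∈ A) == up c i

/-- The piece at height `l`. -/
noncomputable def genAt (w : Word) (l : ℕ) : Vec →ₗ[RR] Vec :=
  match w[l]? with
  | some g => gen g
  | none => LinearMap.id

/-- The smoothed piece at height `l`. -/
noncomputable def resAt (w : Word) (hz : ℕ → Bool) (l : ℕ) : Vec →ₗ[RR] Vec :=
  match w[l]? with
  | some (.cup, i) => cupL i
  | some (.cap, i) => capL i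
  | some (.cr _, i) => if hz l then cupL i ∘ₗ capL i else LinearMap.id
  | none => LinearMap.id

variable {p q : ℕ} {w : Word} {c : Bool}

theorem cfg_sum_union {α M : Type} [DecidableEq α] [AddCommMonoid M] (S R : Finset α)
    (hd : Disjoint S R) (F : Finset α → M) :
    ∑ A ∈ (S ∪ R).powerset, F A = ∑ A ∈ S.powerset, ∑ B ∈ R.powerset, F (A ∪ B) := by
  induction R using Finset.induction_on generalizing F with
  | empty => simp
  | insert a R ha ih =>
    rw [disjoint_insert_right] at hd
    have hn : a ∉ S ∪ R := by simp [hd.1, ha]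
    rw [union_insert, sum_powerset_insert hn, ih hd.2, ih hd.2, ← sum_add_distrib]
    refine sum_congr rfl fun A _ => ?_
    rw [sum_powerset_insert ha]
    simp only [union_insert]

theorem cfg_sum_row {M : Type} [AddCommMonoid M] (c : Bool) (t m : ℕ) (f : List Bool → M) :
    ∑ B ∈ ((range m).image fun i => (t, i)).powerset,
      f ((List.range m).map fun i => decide ((t, i) ∈ B) == up c i) = ∑ v ∈ words m, f v := by
  refine sum_nbij' (fun B => (List.range m).map fun i => decide ((t, i) ∈ B) == up c i)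
    (fun v => ((range m).filter fun i => v.getD i false = up c i).image fun i => (t, i))
    (fun B _ => ?_) (fun v _ => ?_) (fun B hB => ?_) (fun v hv => ?_) fun B _ => rfl
  · simp [mem_words]
  · rw [mem_powerset]
    exact image_subset_image (filter_subset _ _)
  · rw [mem_powerset] at hB
    ext y
    simp only [mem_image, mem_filter, mem_range]
    constructor
    · rintro ⟨i, ⟨hi, h⟩, rfl⟩
      rw [List.getD_eq_getElem?_getD, List.getElem?_map, List.getElem?_range hi] at h
      by_contra hn
      cases hu : up c i <;> simp [hn, hu] at h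
    · intro hy
      obtain ⟨i, hi, rfl⟩ := mem_image.1 (hB hy)
      refine ⟨i, ⟨mem_range.1 hi, ?_⟩, rfl⟩
      rw [List.getD_eq_getElem?_getD, List.getElem?_map, List.getElem?_range (mem_range.1 hi)]
      cases hu : up c i <;> simp [hy, hu]
  · rw [mem_words] at hv
    apply List.ext_getElem
    · simp [hv]
    · intro i h1 h2
      have hi : i < m := hv ▸ h2
      have : ((t, i) ∈ ((range m).filter fun i => v.getD i false = up c i).image fun i => (t, i))
          ↔ v[i] = up c i := by
        simp [hi, List.getD_eq_getElem?_getD, List.getElem?_eq_getElem h2]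
      simp only [List.getElem_map, List.getElem_range, this]
      cases v[i] <;> cases up c i <;> simp

theorem cfg_apply {m : ℕ} {Q : ℤ} (S : Vec →ₗ[RR] Vec) {X : Vec} (hX : X ∈ W m Q)
    (v' : List Bool) : S X v' = ∑ v ∈ words m, X v * S (bas v) v' := by
  have e : X = ∑ v ∈ words m, X v • bas v := by
    ext a
    rw [Finsupp.finsetSum_apply]
    simp only [bas, Finsupp.smul_apply, Finsupp.single_apply, smul_eq_mul, mul_ite, mul_one,
      mul_zero, sum_ite_eq']
    split_ifs with h
    · rfl
    · rw [W_apply hX fun h' => h (mem_words.2 h'.1)]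
  conv_lhs => rw [e]
  rw [map_sum, Finsupp.finsetSum_apply]
  simp only [map_smul, Finsupp.smul_apply, smul_eq_mul]

theorem cfg_rho_take {l : ℕ} {g : Kind × ℕ} (hl : w[l]? = some g) :
    rho (w.take (l + 1)) = gen g ∘ₗ rho (w.take l) := by
  rw [List.take_add_one, hl, rho_append]
  rfl

theorem cfg_take_mem (h : Ok p q w c) {u : List Bool} (hu : u.length = p + q) {l : ℕ}
    (hl : l ≤ w.length) : rho (w.take l) (bas u) ∈ W (wd (p + q) w l) (wt u) := by
  induction l with
  | zero =>
    rw [wd_zero]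
    exact bas_mem' hu rfl
  | succ l ih =>
    obtain ⟨k, i, hk⟩ := exists_get (show l < w.length by omega)
    have hw := wd_succ h.valid hk
    rw [cfg_rho_take hk, hw.2]
    exact gen_mem hw.1 (ih (by omega))

/-- The strands of height at most `l`. -/
def cfgSeg (p q : ℕ) (w : Word) (l : ℕ) : Finset (ℕ × ℕ) :=
  (range (l + 1)).biUnion fun t => (range (wd (p + q) w t)).image fun i => (t, i)

theorem cfg_transfer (h : Ok p q w c) {l : ℕ} (hl : l ≤ w.length)
    (Φ : List Bool → List Bool → RR) :
    ∑ u ∈ words (p + q), ∑ v ∈ words (wd (p + q) w l), rho (w.take l) (bas u) v * Φ u v =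
      ∑ A ∈ (cfgSeg p q w l).powerset,
        (∏ t ∈ range l, genAt w t (bas (row p q w c A t)) (row p q w c A (t + 1))) *
          Φ (row p q w c A 0) (row p q w c A l) := by
  induction l generalizing Φ with
  | zero =>
    have e : cfgSeg p q w 0 = (range (wd (p + q) w 0)).image fun i => (0, i) := by simp [cfgSeg]
    rw [e]
    simp only [range_zero, prod_empty, one_mul, row]
    rw [cfg_sum_row c 0 _ fun v => Φ v v, wd_zero]
    refine sum_congr rfl fun u hu => ?_
    simp [rho, bas, Finsupp.single_apply, hu]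
  | succ l ih =>
    obtain ⟨k, i, hk⟩ := exists_get (show l < w.length by omega)
    have hg : genAt w l = gen (k, i) := by simp [genAt, hk]
    have e : cfgSeg p q w (l + 1) = cfgSeg p q w l ∪
        (range (wd (p + q) w (l + 1))).image fun i => (l + 1, i) := by
      rw [cfgSeg, range_add_one, biUnion_insert, union_comm]
      rfl
    have hlow : ∀ y ∈ cfgSeg p q w l, y.1 ≤ l := by
      intro y hy
      simp only [cfgSeg, mem_biUnion, mem_range, mem_image] at hy
      obtain ⟨t, ht, j, -, rfl⟩ := hy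
      exact Nat.lt_succ_iff.1 ht
    have hhigh : ∀ y ∈ (range (wd (p + q) w (l + 1))).image fun i => (l + 1, i), y.1 = l + 1 := by
      intro y hy
      obtain ⟨j, -, rfl⟩ := mem_image.1 hy
      rfl
    have hd : Disjoint (cfgSeg p q w l)
        ((range (wd (p + q) w (l + 1))).image fun i => (l + 1, i)) := by
      rw [disjoint_left]
      intro y h1 h2
      have := hlow y h1
      have := hhigh y h2
      omega
    have step : ∀ u ∈ words (p + q), ∑ v' ∈ words (wd (p + q) w (l + 1)),
        rho (w.take (l + 1)) (bas u) v' * Φ u v' =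
        ∑ v ∈ words (wd (p + q) w l), rho (w.take l) (bas u) v *
          ∑ v' ∈ words (wd (p + q) w (l + 1)), genAt w l (bas v) v' * Φ u v' := by
      intro u hu
      simp only [mul_sum]
      rw [sum_comm]
      refine sum_congr rfl fun v' _ => ?_
      rw [cfg_rho_take hk, LinearMap.comp_apply,
        cfg_apply _ (cfg_take_mem h (mem_words.1 hu) (l := l) (by omega)), sum_mul, hg]
      simp only [mul_assoc]
    rw [sum_congr rfl step, ih (by omega), e, cfg_sum_union _ _ hd]
    refine sum_congr rfl fun A hA => ?_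
    rw [← cfg_sum_row c (l + 1), mul_sum]
    refine sum_congr rfl fun B hB => ?_
    rw [mem_powerset] at hA hB
    have r1 : ∀ t ≤ l, row p q w c (A ∪ B) t = row p q w c A t := by
      intro t ht
      refine List.map_congr_left fun j _ => ?_
      have : (t, j) ∉ B := fun hh => by
        have := hhigh _ (hB hh)
        simp only at this
        omega
      simp [this]
    have r2 : row p q w c (A ∪ B) (l + 1) = row p q w c B (l + 1) := by
      refine List.map_congr_left fun j _ => ?_
      have : (l + 1, j) ∉ A := fun hh => by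
        have := hlow _ (hA hh)
        simp only at this
        omega
      simp [this]
    rw [prod_range_succ, r2, r1 0 (by omega), r1 l le_rfl, mul_assoc]
    congr 1
    refine prod_congr rfl fun t ht => ?_
    have := mem_range.1 ht
    rw [r1 t (by omega), r1 (t + 1) (by omega)]

theorem transfer (h : Ok p q w c) (Φ : List Bool → List Bool → RR) :
    ∑ u ∈ words (p + q), ∑ v ∈ words (p + q), rho w (bas u) v * Φ u v =
      ∑ A ∈ (segs p q w).powerset,
        (∏ l ∈ range w.length, genAt w l (bas (row p q w c A l)) (row p q w c A (l + 1))) *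
          Φ (row p q w c A 0) (row p q w c A w.length) := by
  have := cfg_transfer h le_rfl Φ
  rwa [List.take_length, wd_length h.valid] at this

theorem expand_cr (h : Ok p q w c) (u : ℕ → List Bool) :
    ∏ l ∈ range w.length, genAt w l (bas (u l)) (u (l + 1)) =
      ∑ H ∈ (DD p q w c).powerset, T (((DD p q w c).card : ℤ) - 2 * H.card) *
        ∏ l ∈ range w.length, resAt w (hzOf c H) l (bas (u l)) (u (l + 1)) := by
  set C := (DD p q w c).image fun y => y.1.1 with hC
  have hsub : C ⊆ range w.length := by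
    intro l hl
    obtain ⟨y, hy, rfl⟩ := mem_image.1 hl
    obtain ⟨-, i, hc, -⟩ := mem_DD.1 hy
    obtain ⟨e, he⟩ := crAt_eq.1 hc
    exact mem_range.2 (lt_length he)
  have split : ∀ f : ℕ → RR, ∏ l ∈ range w.length, f l =
      (∏ l ∈ range w.length \ C, f l) * ∏ y ∈ DD p q w c, f y.1.1 := by
    intro f
    rw [← prod_sdiff hsub, hC, prod_image fun y hy z hz e => DD_inj hy hz e]
  have out : ∀ (hz : ℕ → Bool), ∀ l ∈ range w.length \ C, resAt w hz l = genAt w l := by
    intro hz l hl
    rw [mem_sdiff] at hl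
    obtain ⟨k, i, hk⟩ := exists_get (mem_range.1 hl.1)
    cases k with
    | cup => simp [resAt, genAt, hk, gen]
    | cap => simp [resAt, genAt, hk, gen]
    | cr e =>
      obtain ⟨y, hy, e'⟩ := exists_DD h (crAt_eq.2 ⟨e, hk⟩)
      exact (hl.2 (mem_image.2 ⟨y, hy, e'⟩)).elim
  set a : Seg p q w → RR := fun y =>
    resAt w (hzOf c (DD p q w c)) y.1.1 (bas (u y.1.1)) (u (y.1.1 + 1)) with ha
  set b : Seg p q w → RR := fun y =>
    resAt w (hzOf c (∅ : Finset (Seg p q w))) y.1.1 (bas (u y.1.1)) (u (y.1.1 + 1)) with hb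
  have inn : ∀ y ∈ DD p q w c, genAt w y.1.1 (bas (u y.1.1)) (u (y.1.1 + 1)) =
      T (-1) * a y + T 1 * b y := by
    intro y hy
    obtain ⟨-, i, hc, -⟩ := mem_DD.1 hy
    obtain ⟨e, he⟩ := crAt_eq.1 hc
    have h1 : hzOf c (DD p q w c) y.1.1 = e := by
      rw [h.alt _ _ _ he]
      simp only [hzOf, hc]
      exact if_pos ⟨y, hy, rfl⟩
    have h2 : hzOf c (∅ : Finset (Seg p q w)) y.1.1 = !e := by
      rw [h.alt _ _ _ he]
      simp [hzOf, hc]
    simp only [ha, hb, resAt, genAt, he, h1, h2, gen]
    cases e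
    · simp
    · simp [add_comm]
  rw [split, prod_congr rfl inn, prod_add, mul_sum]
  refine sum_congr rfl fun H hH => ?_
  rw [mem_powerset] at hH
  have hres : ∀ (hz hz' : ℕ → Bool) (l : ℕ), hz l = hz' l → resAt w hz l = resAt w hz' l := by
    intro hz hz' l e
    unfold resAt
    rw [e]
  have e1 : ∀ y ∈ H, resAt w (hzOf c H) y.1.1 (bas (u y.1.1)) (u (y.1.1 + 1)) = a y := by
    intro y hy
    obtain ⟨-, i, hc, -⟩ := mem_DD.1 (hH hy)
    rw [hres (hzOf c H) (hzOf c (DD p q w c))]
    simp only [hzOf, hc]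
    rw [if_pos ⟨y, hy, rfl⟩, if_pos ⟨y, hH hy, rfl⟩]
  have e2 : ∀ y ∈ DD p q w c \ H,
      resAt w (hzOf c H) y.1.1 (bas (u y.1.1)) (u (y.1.1 + 1)) = b y := by
    intro y hy
    rw [mem_sdiff] at hy
    obtain ⟨-, i, hc, -⟩ := mem_DD.1 hy.1
    rw [hres (hzOf c H) (hzOf c (∅ : Finset (Seg p q w)))]
    simp only [hzOf, hc]
    rw [if_neg, if_neg (by simp)]
    rintro ⟨z, hz, e⟩
    exact hy.2 (DD_inj (hH hz) hy.1 e ▸ hz)
  have e3 : ∀ l ∈ range w.length \ C, resAt w (hzOf c H) l (bas (u l)) (u (l + 1)) =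
      genAt w l (bas (u l)) (u (l + 1)) := fun l hl => by rw [out (hzOf c H) l hl]
  rw [split fun l => resAt w (hzOf c H) l (bas (u l)) (u (l + 1)), ← prod_sdiff hH,
    prod_congr rfl e1, prod_congr rfl e2, prod_congr rfl e3,
    prod_mul_distrib, prod_mul_distrib, prod_const, prod_const, T_pow, T_pow,
    card_sdiff_of_subset hH, Nat.cast_sub (card_le_card hH),
    show ((DD p q w c).card : ℤ) - 2 * H.card =
      H.card * (-1) + ((DD p q w c).card - H.card) * 1 by ring, T_add]
  ring

/-- The weight of a minimum. -/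
noncomputable def cfgCup : Option Bool → Option Bool → RR
  | some false, some true => 1
  | some true, some false => -T (-2)
  | _, _ => 0

theorem cfg_split2 {a r b : List Bool} {i : ℕ} (hi : a.length = i) (x y : Bool) :
    a ++ x :: y :: r = b ↔
      (b.take i = a ∧ b.drop (i + 2) = r) ∧ b[i]? = some x ∧ b[i + 1]? = some y := by
  subst hi
  constructor
  · rintro rfl
    refine ⟨⟨by simp, by simp⟩, by simp, by simp⟩
  · rintro ⟨⟨h1, h2⟩, h3, h4⟩
    obtain ⟨l3, e3⟩ := List.getElem?_eq_some_iff.1 h3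
    obtain ⟨l4, e4⟩ := List.getElem?_eq_some_iff.1 h4
    conv_rhs => rw [← List.take_append_drop a.length b, List.drop_eq_getElem_cons l3,
      List.drop_eq_getElem_cons l4, h1, h2, e3, e4]

theorem cfg_split0 {a r b : List Bool} {i : ℕ} (hi : a.length = i) :
    a ++ r = b ↔ b.take i = a ∧ b.drop i = r := by
  subst hi
  constructor
  · rintro rfl
    simp
  · rintro ⟨h1, h2⟩
    conv_rhs => rw [← List.take_append_drop a.length b, h1, h2]

theorem cfg_cup {a r : List Bool} {i : ℕ} (hi : a.length = i) (b : List Bool) :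
    cupL i (bas (a ++ r)) b =
      cfgCup b[i]? b[i + 1]? * if b.take i = a ∧ b.drop (i + 2) = r then 1 else 0 := by
  rw [cupL, lext_bas, List.take_left' hi, List.drop_left' hi]
  simp only [bas, Finsupp.sub_apply, Finsupp.smul_apply, Finsupp.single_apply, cfg_split2 hi,
    smul_eq_mul]
  by_cases h : b.take i = a ∧ b.drop (i + 2) = r
  · simp only [h, true_and, and_self, if_true, mul_one]
    rcases b[i]? with _ | _ | _ <;> rcases b[i + 1]? with _ | _ | _ <;> simp [cfgCup]
  · simp [h]

theorem cfg_res {hz : ℕ → Bool} {l i : ℕ} {k : Kind} (hk : w[l]? = some (k, i))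
    {a : List Bool} (ha : i + k.inp ≤ a.length) (b : List Bool) :
    resAt w hz l (bas a) b =
      if turn k (hz l) then
        (if k.inp = 2 then capW a[i]? a[i + 1]? else 1) *
          ((if k.out = 2 then cfgCup b[i]? b[i + 1]? else 1) *
            if b.take i = a.take i ∧ b.drop (i + k.out) = a.drop (i + k.inp) then 1 else 0)
      else if a = b then 1 else 0 := by
  have hi : (a.take i).length = i := by
    rw [List.length_take]
    omega
  cases k with
  | cup =>
    have := cfg_cup (r := a.drop i) hi b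
    rw [List.take_append_drop] at this
    simp [resAt, hk, turn, Kind.inp, Kind.out, this]
  | cap =>
    simp [resAt, hk, turn, Kind.inp, Kind.out, capL, bas, lext, Finsupp.single_apply,
      cfg_split0 hi]
  | cr e =>
    cases hh : hz l
    · simp [resAt, hk, turn, hh, bas, Finsupp.single_apply]
    · have := cfg_cup (r := a.drop (i + 2)) hi b
      simp only [resAt, hk, turn, hh, if_true, LinearMap.comp_apply, capL, lext_bas, map_smul,
        Finsupp.smul_apply, this, smul_eq_mul, Kind.inp, Kind.out]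
      rfl

theorem cfg_row_get (A : Finset (ℕ × ℕ)) {l j : ℕ} (hj : j < wd (p + q) w l) :
    (row p q w c A l)[j]? = some (decide ((l, j) ∈ A) == up c j) := by
  rw [row, List.getElem?_map, List.getElem?_range hj]
  rfl

theorem cfg_row_length (A : Finset (ℕ × ℕ)) (l : ℕ) :
    (row p q w c A l).length = wd (p + q) w l := by simp [row]

theorem cfg_row_iff (A : Finset (ℕ × ℕ)) {l j l' j' : ℕ} (hj : j < wd (p + q) w l)
    (hj' : j' < wd (p + q) w l') (hp : j % 2 = j' % 2) :
    (row p q w c A l)[j]? = (row p q w c A l')[j']? ↔ ((l, j) ∈ A ↔ (l', j') ∈ A) := by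
  rw [cfg_row_get A hj, cfg_row_get A hj', up_congr hp]
  by_cases h1 : (l, j) ∈ A <;> by_cases h2 : (l', j') ∈ A <;> cases up c j' <;> simp [h1, h2]

theorem cfg_take_iff (A : Finset (ℕ × ℕ)) {l l' i : ℕ} (hi : i ≤ wd (p + q) w l)
    (hi' : i ≤ wd (p + q) w l') :
    (row p q w c A l').take i = (row p q w c A l).take i ↔
      ∀ j < i, ((l, j) ∈ A ↔ (l', j) ∈ A) := by
  constructor
  · intro e j hj
    have := congrArg (·[j]?) e
    simp only [List.getElem?_take, hj, if_true] at this
    exact ((cfg_row_iff A (by omega) (by omega) rfl).1 this).symm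
  · intro e
    apply List.ext_getElem?
    intro j
    simp only [List.getElem?_take]
    split_ifs with hj
    · exact (cfg_row_iff A (by omega) (by omega) rfl).2 (e j hj).symm
    · rfl

theorem cfg_drop_iff (A : Finset (ℕ × ℕ)) {l l' s s' : ℕ}
    (hw : wd (p + q) w l' + s = wd (p + q) w l + s') (hp : s % 2 = s' % 2) :
    (row p q w c A l').drop s' = (row p q w c A l).drop s ↔
      ∀ j, s + j < wd (p + q) w l → ((l, s + j) ∈ A ↔ (l', s' + j) ∈ A) := by
  constructor
  · intro e j hj
    have := congrArg (·[j]?) e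
    simp only [List.getElem?_drop] at this
    exact ((cfg_row_iff A (by omega) hj (by omega)).1 this).symm
  · intro e
    apply List.ext_getElem?
    intro j
    simp only [List.getElem?_drop]
    by_cases hj : s + j < wd (p + q) w l
    · exact (cfg_row_iff A (by omega) hj (by omega)).2 (e j hj).symm
    · rw [List.getElem?_eq_none (by rw [cfg_row_length]; omega),
        List.getElem?_eq_none (by rw [cfg_row_length]; omega)]

theorem cfg_top_iff (h : Ok p q w c) (A : Finset (ℕ × ℕ)) :
    row p q w c A w.length = (row p q w c A 0).drop p ++ (row p q w c A 0).take p ↔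
      (∀ j < q, ((w.length, j) ∈ A ↔ (0, p + j) ∈ A)) ∧
        ∀ j < p, ((w.length, q + j) ∈ A ↔ (0, j) ∈ A) := by
  have hp := Nat.even_iff.1 h.ep
  have hq := Nat.even_iff.1 h.eq
  have w0 : wd (p + q) w 0 = p + q := wd_zero _ _
  have wN : wd (p + q) w w.length = p + q := wd_length h.valid
  have hl : ((row p q w c A 0).drop p).length = q := by
    rw [List.length_drop, cfg_row_length]
    omega
  constructor
  · intro e
    refine ⟨fun j hj => ?_, fun j hj => ?_⟩
    · have := congrArg (·[j]?) e
      simp only [List.getElem?_append, hl, hj, if_true, List.getElem?_drop] at this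
      exact (cfg_row_iff A (by omega) (by omega) (by omega)).1 this
    · have := congrArg (·[q + j]?) e
      simp only [List.getElem?_append, hl, show ¬ q + j < q by omega, if_false,
        List.getElem?_take, Nat.add_sub_cancel_left, hj, if_true] at this
      exact (cfg_row_iff A (by omega) (by omega) (by omega)).1 this
  · rintro ⟨e1, e2⟩
    apply List.ext_getElem?
    intro j
    simp only [List.getElem?_append, hl, List.getElem?_drop, List.getElem?_take]
    split_ifs with h1 h2
    · exact (cfg_row_iff A (by omega) (by omega) (by omega)).2 (e1 j h1)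
    · have := e2 (j - q) h2
      rw [show q + (j - q) = j by omega] at this
      exact (cfg_row_iff A (by omega) (by omega) (by omega)).2 this
    · exact List.getElem?_eq_none (by rw [cfg_row_length]; omega)

/-- The set `A` is a union of loops. -/
structure CfgAg (p q : ℕ) (w : Word) (hz : ℕ → Bool) (A : Finset (ℕ × ℕ)) : Prop where
  th : ∀ y z v, Th p q w hz y z v → (y ∈ A ↔ z ∈ A)
  cap : ∀ l i, Cap w hz l i → ((l, i) ∈ A ↔ (l, i + 1) ∈ A)
  cup : ∀ l i, Cup w hz l i → ((l + 1, i) ∈ A ↔ (l + 1, i + 1) ∈ A)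

theorem cfg_inv_iff (h : Ok p q w c) (hz : ℕ → Bool) (A : Finset (ℕ × ℕ)) :
    (∀ y ∈ segs p q w, (nx p q w c hz y ∈ A ↔ y ∈ A)) ↔ CfgAg p q w hz A := by
  constructor
  · intro hA
    refine ⟨fun y z v ht => ?_, fun l i hc => ?_, fun l i hc => ?_⟩
    · cases hu : up c y.2 with
      | true => rw [← ht.nx_up hu, hA y (ht.mem h).1]
      | false => rw [← ht.nx_down ((ht.up h).trans hu), hA z (ht.mem h).2]
    · cases hu : up c i with
      | true =>
        have := hA _ (hc.mem h (Or.inl rfl))
        rw [hc.nx (Or.inl rfl) hu, show 2 * i + 1 - i = i + 1 by omega] at this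
        exact this.symm
      | false =>
        have := hA _ (hc.mem h (Or.inr rfl))
        rwa [hc.nx (Or.inr rfl) (by rw [up_succ, hu]; rfl),
          show 2 * i + 1 - (i + 1) = i by omega] at this
    · cases hu : up c i with
      | false =>
        have := hA _ (hc.mem h (Or.inl rfl))
        rw [hc.nx (Or.inl rfl) hu, show 2 * i + 1 - i = i + 1 by omega] at this
        exact this.symm
      | true =>
        have := hA _ (hc.mem h (Or.inr rfl))
        rwa [hc.nx (Or.inr rfl) (by rw [up_succ, hu]; rfl),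
          show 2 * i + 1 - (i + 1) = i by omega] at this
  · rintro ag ⟨l, j⟩ hy
    rcases nx_cases h hz hy with ⟨-, -, t⟩ | ⟨-, -, t⟩ | ⟨-, -, -, i, hc, hj, e⟩ |
      ⟨-, -, -, l', i, hl, hc, hj, e⟩
    · exact (ag.th _ _ _ t).symm
    · exact ag.th _ _ _ t
    · rw [e]
      simp only at hj hc ⊢
      rcases hj with rfl | rfl
      · rw [show 2 * j + 1 - j = j + 1 by omega]
        exact (ag.cap _ _ hc).symm
      · rw [show 2 * i + 1 - (i + 1) = i by omega]
        exact ag.cap _ _ hc
    · rw [e]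
      simp only at hj hl ⊢
      subst hl
      rcases hj with rfl | rfl
      · rw [show 2 * j + 1 - j = j + 1 by omega]
        exact (ag.cup _ _ hc).symm
      · rw [show 2 * i + 1 - (i + 1) = i by omega]
        exact ag.cup _ _ hc

/-- The turning exponent of the maximum above height `l`. -/
def cfgU (p q : ℕ) (w : Word) (c : Bool) (hz : ℕ → Bool) (A : Finset (ℕ × ℕ)) (l : ℕ) : ℤ :=
  ∑ j ∈ range (wd (p + q) w l),
    if up c j = true then tw p q w c hz (l, j) (decide ((l, j) ∈ A)) else 0

/-- The turning exponent of the minimum below height `l`. -/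
def cfgD (p q : ℕ) (w : Word) (c : Bool) (hz : ℕ → Bool) (A : Finset (ℕ × ℕ)) (l : ℕ) : ℤ :=
  ∑ j ∈ range (wd (p + q) w l),
    if up c j = true then 0 else tw p q w c hz (l, j) (decide ((l, j) ∈ A))

theorem cfg_tw_up (h : Ok p q w c) {hz : ℕ → Bool} {l j : ℕ} (hy : (l, j) ∈ segs p q w)
    (hn : ∀ i, Cap w hz l i → ¬ (j = i ∨ j = i + 1)) (b : Bool) :
    (if up c j = true then tw p q w c hz (l, j) b else 0) = 0 := by
  split_ifs with hu
  · rcases above h hz hy with ⟨z, v, ht⟩ | ⟨i, hc, hj⟩
    · have := ht.up h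
      simp only at this
      simp [tw, ht.nx_up hu, this]
    · exact (hn i hc hj).elim
  · rfl

theorem cfg_tw_down (h : Ok p q w c) {hz : ℕ → Bool} {l j : ℕ} (hy : (l, j) ∈ segs p q w)
    (hn : ∀ l' i, l = l' + 1 → Cup w hz l' i → ¬ (j = i ∨ j = i + 1)) (b : Bool) :
    (if up c j = true then 0 else tw p q w c hz (l, j) b) = 0 := by
  split_ifs with hu
  · rfl
  · rcases below h hz hy with ⟨z, v, ht⟩ | ⟨l', i, hl, hc, hj⟩
    · have := ht.up h
      simp only at this
      simp [tw, ht.nx_down (Bool.eq_false_iff.2 hu), this]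
    · exact (hn l' i hl hc hj).elim

theorem cfgU_zero (h : Ok p q w c) {hz : ℕ → Bool} (A : Finset (ℕ × ℕ)) {l : ℕ}
    (hl : l ≤ w.length) (hn : ∀ i, ¬ Cap w hz l i) : cfgU p q w c hz A l = 0 :=
  sum_eq_zero fun _ hj =>
    cfg_tw_up h (mem_segs.2 ⟨hl, mem_range.1 hj⟩) (fun i hc => (hn i hc).elim) _

theorem cfgD_zero (h : Ok p q w c) {hz : ℕ → Bool} (A : Finset (ℕ × ℕ)) {l : ℕ}
    (hl : l ≤ w.length) (hn : ∀ l' i, l = l' + 1 → ¬ Cup w hz l' i) : cfgD p q w c hz A l = 0 :=
  sum_eq_zero fun _ hj =>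
    cfg_tw_down h (mem_segs.2 ⟨hl, mem_range.1 hj⟩) (fun l' i e hc => (hn l' i e hc).elim) _

theorem cfgU_cap (h : Ok p q w c) {hz : ℕ → Bool} {A : Finset (ℕ × ℕ)} {l i : ℕ}
    (hc : Cap w hz l i) (hA : (l, i) ∈ A ↔ (l, i + 1) ∈ A) :
    capW (row p q w c A l)[i]? (row p q w c A l)[i + 1]? = mono (cfgU p q w c hz A l) := by
  have m0 := mem_segs.1 (hc.mem h (Or.inl rfl))
  have m1 := mem_segs.1 (hc.mem h (Or.inr rfl))
  simp only at m0 m1
  rw [cfgU, sum_eq_add_of_mem i (i + 1) (mem_range.2 m0.2) (mem_range.2 m1.2) (by omega),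
    cfg_row_get A m0.2, cfg_row_get A m1.2, up_succ]
  · cases hu : up c i with
    | true =>
      have e := hc.nx (p := p) (q := q) (Or.inl rfl) hu
      rw [show 2 * i + 1 - i = i + 1 by omega] at e
      by_cases hm : (l, i) ∈ A
      · simp [tw, e, hu, up_succ, hm, hA.1 hm, capW, cfg_mono_zero]
      · simp [tw, e, hu, up_succ, hm, mt hA.2 hm, capW, cfg_mono_one]
    | false =>
      have e := hc.nx (p := p) (q := q) (c := c) (Or.inr rfl) (by rw [up_succ, hu]; rfl)
      rw [show 2 * i + 1 - (i + 1) = i by omega] at e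
      by_cases hm : (l, i) ∈ A
      · simp [tw, e, hu, up_succ, hm, hA.1 hm, capW, cfg_mono_one]
      · simp [tw, e, hu, up_succ, hm, mt hA.2 hm, capW, cfg_mono_zero]
  · intro j hj hne
    refine cfg_tw_up h (j := j) (mem_segs.2 ⟨m0.1, mem_range.1 hj⟩) (fun i' hc' => ?_) _
    obtain ⟨k, hk, -⟩ := hc
    obtain ⟨k', hk', -⟩ := hc'
    rw [hk] at hk'
    obtain ⟨-, rfl⟩ := Prod.mk.inj (Option.some.inj hk')
    omega

theorem cfgD_cup (h : Ok p q w c) {hz : ℕ → Bool} {A : Finset (ℕ × ℕ)} {l i : ℕ}
    (hc : Cup w hz l i) (hA : (l + 1, i) ∈ A ↔ (l + 1, i + 1) ∈ A) :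
    cfgCup (row p q w c A (l + 1))[i]? (row p q w c A (l + 1))[i + 1]? =
      mono (cfgD p q w c hz A (l + 1)) := by
  have m0 := mem_segs.1 (hc.mem h (Or.inl rfl))
  have m1 := mem_segs.1 (hc.mem h (Or.inr rfl))
  simp only at m0 m1
  rw [cfgD, sum_eq_add_of_mem i (i + 1) (mem_range.2 m0.2) (mem_range.2 m1.2) (by omega),
    cfg_row_get A m0.2, cfg_row_get A m1.2, up_succ]
  · cases hu : up c i with
    | false =>
      have e := hc.nx (p := p) (q := q) (Or.inl rfl) hu
      rw [show 2 * i + 1 - i = i + 1 by omega] at e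
      by_cases hm : (l + 1, i) ∈ A
      · simp [tw, e, hu, up_succ, hm, hA.1 hm, cfgCup, cfg_mono_zero]
      · simp [tw, e, hu, up_succ, hm, mt hA.2 hm, cfgCup, cfg_mono_neg]
    | true =>
      have e := hc.nx (p := p) (q := q) (c := c) (Or.inr rfl) (by rw [up_succ, hu]; rfl)
      rw [show 2 * i + 1 - (i + 1) = i by omega] at e
      by_cases hm : (l + 1, i) ∈ A
      · simp [tw, e, hu, up_succ, hm, hA.1 hm, cfgCup, cfg_mono_neg]
      · simp [tw, e, hu, up_succ, hm, mt hA.2 hm, cfgCup, cfg_mono_zero]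
  · intro j hj hne
    refine cfg_tw_down h (j := j) (mem_segs.2 ⟨m0.1, mem_range.1 hj⟩) (fun l' i' e hc' => ?_) _
    obtain rfl : l = l' := by omega
    obtain ⟨k, hk, -⟩ := hc
    obtain ⟨k', hk', -⟩ := hc'
    rw [hk] at hk'
    obtain ⟨-, rfl⟩ := Prod.mk.inj (Option.some.inj hk')
    omega

theorem cfg_sum_tw (h : Ok p q w c) (hz : ℕ → Bool) (A : Finset (ℕ × ℕ)) :
    ∑ y ∈ segs p q w, tw p q w c hz y (decide (y ∈ A)) =
      ∑ l ∈ range w.length, (cfgU p q w c hz A l + cfgD p q w c hz A (l + 1)) := by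
  have e : ∑ y ∈ segs p q w, tw p q w c hz y (decide (y ∈ A)) =
      ∑ l ∈ range (w.length + 1), (cfgU p q w c hz A l + cfgD p q w c hz A l) := by
    rw [segs, sum_biUnion]
    · refine sum_congr rfl fun l _ => ?_
      rw [sum_image fun a _ b _ e => (Prod.mk.inj e).2, cfgU, cfgD, ← sum_add_distrib]
      refine sum_congr rfl fun j _ => ?_
      split_ifs <;> simp
    · intro a _ b _ hab
      rw [Function.onFun, disjoint_left]
      intro y h1 h2
      obtain ⟨i, -, rfl⟩ := mem_image.1 h1
      obtain ⟨j, -, e⟩ := mem_image.1 h2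
      exact hab (Prod.mk.inj e).1.symm
  rw [e, sum_add_distrib, sum_add_distrib, sum_range_succ, sum_range_succ',
    cfgU_zero h A le_rfl, cfgD_zero h A (Nat.zero_le _), add_zero, add_zero]
  · intro l' i e
    omega
  · rintro i ⟨k, hk, -⟩
    exact absurd (lt_length hk) (lt_irrefl _)

theorem cfg_level_eq (h : Ok p q w c) {hz : ℕ → Bool} {A : Finset (ℕ × ℕ)}
    (ag : CfgAg p q w hz A) {l : ℕ} (hl : l < w.length) :
    resAt w hz l (bas (row p q w c A l)) (row p q w c A (l + 1)) =
      mono (cfgU p q w c hz A l + cfgD p q w c hz A (l + 1)) := by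
  obtain ⟨k, i, hk⟩ := exists_get hl
  have hw := wd_succ h.valid hk
  have hio := io k
  have uq : ∀ {k' i'}, w[l]? = some (k', i') → k' = k ∧ i' = i := fun e =>
    Prod.mk.inj (Option.some.inj (e.symm.trans hk))
  have hleft : ∀ j < i, ((l, j) ∈ A ↔ (l + 1, j) ∈ A) := fun j hj =>
    ag.th _ _ _ (.left l j i k hk hj)
  have hright : ∀ j, i + k.inp + j < wd (p + q) w l →
      ((l, i + k.inp + j) ∈ A ↔ (l + 1, i + k.out + j) ∈ A) := fun j hj => by
    have := ag.th _ _ _ (.right l (i + k.inp + j) i k hk (by omega) hj)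
    rwa [show i + k.inp + j - k.inp + k.out = i + k.out + j by omega] at this
  rw [cfg_res hk (by rw [cfg_row_length]; exact hw.1), mono_add]
  by_cases t : turn k (hz l) = true
  · rw [if_pos t, if_pos (show _ ∧ _ from ⟨(cfg_take_iff A (by omega) (by omega)).2 hleft,
      (cfg_drop_iff A (by omega) (by omega)).2 hright⟩), mul_one]
    congr 1
    · split_ifs with h2
      · exact cfgU_cap h ⟨k, hk, h2, t⟩ (ag.cap l i ⟨k, hk, h2, t⟩)
      · rw [cfgU_zero h A hl.le, cfg_mono_zero]
        rintro i' ⟨k', hk', h3, -⟩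
        exact h2 ((uq hk').1 ▸ h3)
    · split_ifs with h2
      · exact cfgD_cup h ⟨k, hk, h2, t⟩ (ag.cup l i ⟨k, hk, h2, t⟩)
      · rw [cfgD_zero h A hl, cfg_mono_zero]
        rintro l' i' e ⟨k', hk', h3, -⟩
        obtain rfl : l = l' := by omega
        exact h2 ((uq hk').1 ▸ h3)
  · rw [if_neg t, cfgU_zero h A hl.le, cfgD_zero h A hl, cfg_mono_zero, mul_one, if_pos]
    · obtain ⟨e, rfl⟩ : ∃ e, k = .cr e := by
        cases k with
        | cup => simp [turn] at t
        | cap => simp [turn] at t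
        | cr e => exact ⟨e, rfl⟩
      have hh : hz l = false := by simpa [turn] using t
      simp only [Kind.inp, Kind.out] at hw hright
      refine ((cfg_drop_iff A (s := 0) (s' := 0) (by omega) rfl).2 fun j hj => ?_).symm
      rw [zero_add] at hj ⊢
      by_cases h1 : j < i
      · exact hleft j h1
      by_cases h2 : i + 2 ≤ j
      · obtain ⟨t, rfl⟩ := Nat.exists_eq_add_of_le h2
        exact hright t hj
      · exact ag.th _ _ _ (.vert l j i e hk hh (by omega))
    · rintro l' i' e ⟨k', hk', -, h3⟩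
      obtain rfl : l = l' := by omega
      exact t ((uq hk').1 ▸ h3)
    · rintro i' ⟨k', hk', -, h3⟩
      exact t ((uq hk').1 ▸ h3)

theorem cfg_level_ne (h : Ok p q w c) {hz : ℕ → Bool} {A : Finset (ℕ × ℕ)} {l i : ℕ} {k : Kind}
    (hk : w[l]? = some (k, i))
    (hne : resAt w hz l (bas (row p q w c A l)) (row p q w c A (l + 1)) ≠ 0) :
    (∀ j < i, ((l, j) ∈ A ↔ (l + 1, j) ∈ A)) ∧
      (∀ j, i + k.inp + j < wd (p + q) w l →
        ((l, i + k.inp + j) ∈ A ↔ (l + 1, i + k.out + j) ∈ A)) ∧
      (¬ turn k (hz l) = true → ∀ j < wd (p + q) w l, ((l, j) ∈ A ↔ (l + 1, j) ∈ A)) ∧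
      (turn k (hz l) = true → k.inp = 2 → ((l, i) ∈ A ↔ (l, i + 1) ∈ A)) ∧
      (turn k (hz l) = true → k.out = 2 → ((l + 1, i) ∈ A ↔ (l + 1, i + 1) ∈ A)) := by
  have hw := wd_succ h.valid hk
  have hio := io k
  rw [cfg_res hk (by rw [cfg_row_length]; exact hw.1)] at hne
  by_cases t : turn k (hz l) = true
  · rw [if_pos t] at hne
    obtain ⟨n1, n2⟩ := mul_ne_zero_iff.1 hne
    obtain ⟨n2, n3⟩ := mul_ne_zero_iff.1 n2
    have n4 := (ite_ne_right_iff.1 n3).1
    refine ⟨(cfg_take_iff A (by omega) (by omega)).1 n4.1,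
      (cfg_drop_iff A (by omega) (by omega)).1 n4.2, fun t' => (t' t).elim, fun _ h2 => ?_,
      fun _ h2 => ?_⟩
    · rw [if_pos h2, cfg_row_get A (by omega), cfg_row_get A (by omega), up_succ] at n1
      revert n1
      by_cases h1 : (l, i) ∈ A <;> by_cases h2 : (l, i + 1) ∈ A <;> cases up c i <;>
        simp [h1, h2, capW]
    · rw [if_pos h2, cfg_row_get A (by omega), cfg_row_get A (by omega), up_succ] at n2
      revert n2
      by_cases h1 : (l + 1, i) ∈ A <;> by_cases h2 : (l + 1, i + 1) ∈ A <;> cases up c i <;>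
        simp [h1, h2, cfgCup]
  · rw [if_neg t] at hne
    have n4 := (ite_ne_right_iff.1 hne).1
    obtain ⟨e, rfl⟩ : ∃ e, k = .cr e := by
      cases k with
      | cup => simp [turn] at t
      | cap => simp [turn] at t
      | cr e => exact ⟨e, rfl⟩
    simp only [Kind.inp, Kind.out] at hw ⊢
    have hall := (cfg_drop_iff A (s := 0) (s' := 0) (l := l) (l' := l + 1) (by omega) rfl).1
      n4.symm
    simp only [zero_add] at hall
    exact ⟨fun j hj => hall j (by omega), fun j hj => hall _ hj, fun _ => hall,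
      fun t' => (t t').elim, fun t' => (t t').elim⟩

open Classical in
theorem local_weight (h : Ok p q w c) (hz : ℕ → Bool) (A : Finset (ℕ × ℕ)) :
    (∏ l ∈ range w.length, resAt w hz l (bas (row p q w c A l)) (row p q w c A (l + 1))) *
        (if row p q w c A w.length = (row p q w c A 0).drop p ++ (row p q w c A 0).take p
          then 1 else 0) =
      if ∀ y ∈ segs p q w, (nx p q w c hz y ∈ A ↔ y ∈ A) then
        mono (∑ y ∈ segs p q w, tw p q w c hz y (decide (y ∈ A)))
      else 0 := by
  by_cases hinv : ∀ y ∈ segs p q w, (nx p q w c hz y ∈ A ↔ y ∈ A)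
  · have ag := (cfg_inv_iff h hz A).1 hinv
    rw [if_pos hinv, if_pos ((cfg_top_iff h A).2 ⟨fun j hj => ag.th _ _ _ (.upper j hj),
      fun j hj => ag.th _ _ _ (.side j hj)⟩), mul_one, cfg_sum_tw h, cfg_mono_sum]
    exact prod_congr rfl fun l hl => cfg_level_eq h ag (mem_range.1 hl)
  · rw [if_neg hinv]
    by_contra hne
    obtain ⟨n1, n2⟩ := mul_ne_zero_iff.1 hne
    have top := (cfg_top_iff h A).1 (ite_ne_right_iff.1 n2).1
    have lev := fun (l i : ℕ) (k : Kind) (hk : w[l]? = some (k, i)) =>
      cfg_level_ne h hk (prod_ne_zero_iff.1 n1 l (mem_range.2 (lt_length hk)))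
    refine hinv ((cfg_inv_iff h hz A).2 ⟨fun y z v ht => ?_, ?_, ?_⟩)
    · cases ht with
      | left l j i k hk hj => exact (lev l i k hk).1 j hj
      | right l j i k hk hj hj' =>
        obtain ⟨t, rfl⟩ := Nat.exists_eq_add_of_le hj
        rw [show i + k.inp + t - k.inp + k.out = i + k.out + t by omega]
        exact (lev l i k hk).2.1 t hj'
      | vert l j i e hk hh hj =>
        have := (wd_succ h.valid hk).1
        simp only [Kind.inp] at this
        exact (lev l i _ hk).2.2.1 (by simp [turn, hh]) j (by omega)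
      | upper j hj => exact top.1 j hj
      | side j hj => exact top.2 j hj
    · rintro l i ⟨k, hk, h2, t⟩
      exact (lev l i k hk).2.2.2.1 t h2
    · rintro l i ⟨k, hk, h2, t⟩
      exact (lev l i k hk).2.2.2.2 t h2

theorem cfg_wt_map (m : ℕ) (f : ℕ → Bool) :
    wt ((List.range m).map f) = ∑ j ∈ range m, sg (f j) := by
  induction m with
  | zero => rfl
  | succ m ih =>
    rw [List.range_succ, List.map_append, wt_append, ih, sum_range_succ]
    simp [wt]

theorem cfg_sum_up (c : Bool) {m : ℕ} (hm : Even m) :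
    ∑ j ∈ range m, (if up c j then 1 else -1 : ℤ) = 0 := by
  obtain ⟨k, rfl⟩ := hm
  induction k with
  | zero => rfl
  | succ k ih =>
    rw [show k + 1 + (k + 1) = k + k + 1 + 1 by omega, sum_range_succ, sum_range_succ, ih, up_succ]
    cases up c (k + k) <;> simp

theorem cfg_wt_spin (c : Bool) {m : ℕ} (hm : Even m) (P : ℕ → Prop) [DecidablePred P] :
    ∑ j ∈ range m, sg (decide (P j) == up c j) =
      2 * ∑ j ∈ range m, (if up c j then 1 else -1 : ℤ) * if P j then 1 else 0 := by
  have e : ∀ j ∈ range m, sg (decide (P j) == up c j) =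
      2 * ((if up c j then 1 else -1 : ℤ) * if P j then 1 else 0) - if up c j then 1 else -1 := by
    intro j _
    by_cases hP : P j <;> cases up c j <;> simp [hP, sg]
  rw [sum_congr rfl e, sum_sub_distrib, cfg_sum_up c hm, sub_zero, mul_sum]

theorem cfg_mem_image (A : Finset (Seg p q w)) (y : Seg p q w) :
    y.1 ∈ A.image Subtype.val ↔ y ∈ A :=
  Subtype.val_injective.mem_finset_image

theorem cfg_inv_image (h : Ok p q w c) (hz : ℕ → Bool) (A : Finset (Seg p q w)) :
    (∀ y ∈ segs p q w, (nx p q w c hz y ∈ A.image Subtype.val ↔ y ∈ A.image Subtype.val)) ↔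
      ∀ y, nxP h hz y ∈ A ↔ y ∈ A := by
  constructor
  · intro e y
    rw [← cfg_mem_image, ← cfg_mem_image A y]
    exact e y.1 y.2
  · intro e y hy
    have := e ⟨y, hy⟩
    rwa [← cfg_mem_image, ← cfg_mem_image A ⟨y, hy⟩] at this

theorem flux (h : Ok p q w c) (hz : ℕ → Bool) (A : Finset (Seg p q w))
    (hA : ∀ y, nxP h hz y ∈ A ↔ y ∈ A) :
    wt ((row p q w c (A.image Subtype.val) 0).take p) = 2 * ((model h).cls A).1 ∧
      wt ((row p q w c (A.image Subtype.val) 0).drop p) = 2 * ((model h).cls A).2 := by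
  have ag := (cfg_inv_iff h hz _).1 ((cfg_inv_image h hz A).2 hA)
  have e := sum_eta h (fun y => if y ∈ A.image Subtype.val then 1 else 0)
    (fun j hj => by simp only [ag.th _ _ _ (.upper j hj)])
    (fun j hj => by simp only [ag.th _ _ _ (.side j hj)])
  have e' : (model h).cls A = ∑ z : Seg p q w,
      (if z.1 ∈ A.image Subtype.val then (1 : ℤ) else 0) • eta p q w c z.1 := by
    simp only [cfg_mem_image, ite_smul, one_smul, zero_smul, sum_ite_mem, univ_inter]
    rfl
  rw [e', e, row, wd_zero, List.range_add, List.map_append, List.take_left' (by simp),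
    List.drop_left' (by simp), List.map_map, cfg_wt_map, cfg_wt_map]
  refine ⟨cfg_wt_spin c h.ep fun j => (0, j) ∈ A.image Subtype.val, ?_⟩
  rw [← cfg_wt_spin c h.eq fun j => (0, p + j) ∈ A.image Subtype.val]
  refine sum_congr rfl fun j _ => ?_
  have hp := Nat.even_iff.1 h.ep
  simp only [Function.comp]
  rw [up_congr (show (p + j) % 2 = j % 2 by omega)]

theorem cfg_sum_sub {α M : Type} [DecidableEq α] [AddCommMonoid M] (S : Finset α)
    (f : Finset α → M) :
    ∑ B ∈ S.powerset, f B = ∑ A : Finset {y // y ∈ S}, f (A.image Subtype.val) := by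
  symm
  refine sum_nbij' (fun A : Finset {y // y ∈ S} => A.image Subtype.val)
    (fun B : Finset α => B.subtype (· ∈ S))
    (fun A _ => ?_) (fun B _ => mem_univ _) (fun A _ => ?_) (fun B hB => ?_) fun A _ => rfl
  · rw [mem_powerset]
    intro y hy
    obtain ⟨z, -, rfl⟩ := mem_image.1 hy
    exact z.2
  · ext y
    rw [mem_subtype]
    exact Subtype.val_injective.mem_finset_image
  · ext y
    simp only [mem_image, mem_subtype]
    exact ⟨fun ⟨z, hz, e⟩ => e ▸ hz, fun hy => ⟨⟨y, mem_powerset.1 hB hy⟩, hy, rfl⟩⟩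

theorem cfg (h : Ok p q w c) :
    ∑ x ∈ words p, ∑ y ∈ words q, rho w (bas (x ++ y)) (y ++ x) * psi (wt x) (wt y) =
      ∑ H ∈ (DD p q w c).powerset, T (((DD p q w c).card : ℤ) - 2 * H.card) *
        ∑ A ∈ (univ : Finset (Finset (Seg p q w))).filter
            (fun A => ∀ y, nxP h (hzOf c H) y ∈ A ↔ y ∈ A),
          mono (∑ y, tw p q w c (hzOf c H) y.1 (decide (y ∈ A))) *
            psi (2 * ((model h).cls A).1) (2 * ((model h).cls A).2) := by
  have t := transfer h fun u v =>
    (if v = u.drop p ++ u.take p then 1 else 0) * psi (wt (u.take p)) (wt (u.drop p))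
  have l : ∑ x ∈ words p, ∑ y ∈ words q, rho w (bas (x ++ y)) (y ++ x) * psi (wt x) (wt y) =
      ∑ u ∈ words (p + q), ∑ v ∈ words (p + q), rho w (bas u) v *
        ((if v = u.drop p ++ u.take p then 1 else 0) * psi (wt (u.take p)) (wt (u.drop p))) := by
    rw [sum_words_append]
    refine sum_congr rfl fun x hx => sum_congr rfl fun y hy => ?_
    rw [mem_words] at hx hy
    have hm : y ++ x ∈ words (p + q) := by
      rw [mem_words, List.length_append]
      omega
    simp only [List.take_left' hx, List.drop_left' hx, ite_mul, one_mul, zero_mul, mul_ite,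
      mul_zero, sum_ite_eq', hm, if_true]
  rw [l, t]
  simp only [expand_cr h, sum_mul]
  rw [sum_comm]
  refine sum_congr rfl fun H _ => ?_
  rw [cfg_sum_sub, sum_filter, mul_sum]
  refine sum_congr rfl fun A _ => ?_
  rw [mul_assoc, ← mul_assoc (∏ l ∈ _, _), local_weight h]
  congr 1
  by_cases hA : ∀ y, nxP h (hzOf c H) y ∈ A ↔ y ∈ A
  · rw [if_pos hA, if_pos ((cfg_inv_image h _ A).2 hA), (flux h _ A hA).1, (flux h _ A hA).2,
      ← sum_coe_sort]
    simp only [cfg_mem_image]
  · rw [if_neg hA, if_neg (mt (cfg_inv_image h _ A).1 hA), zero_mul]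

end Pool.Agent.Lib.MP_7bc610_gt.Ta
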