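import Pool.Agent.Lib.MP_7bc610_gt.Ta.Sys

/-! Leading coefficients of the terms of the state sum. -/

namespace Pool.Agent.Lib.MP_7bc610_gt.Ta

open Equiv Finset LaurentPolynomial

variable {X : Type} [Fintype X] [DecidableEq X]

theorem coef_T_mul (a : ℤ) (f : ℤ[T;T⁻¹]) (m : ℤ) : (T a * f).coeff m = f.coeff (m - a) := by
  have h := AddMonoidAlgebra.coeff_single_mul_add f (1 : ℤ) a (m - a)
  rw [show a + (m - a) = m by ring, one_mul] at h
  exact h

theorem coef_sub (f g : ℤ[T;T⁻¹]) (m : ℤ) : (f - g).coeff m = f.coeff m - g.coeff m := by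
  have h := map_sub (AddMonoidAlgebra.coeffAddEquiv (R := ℤ) (M := ℤ)) f g
  exact DFunLike.congr_fun h m

theorem coef_neg (f : ℤ[T;T⁻¹]) (m : ℤ) : (-f).coeff m = - f.coeff m := by
  have h := map_neg (AddMonoidAlgebra.coeffAddEquiv (R := ℤ) (M := ℤ)) f
  exact DFunLike.congr_fun h m

theorem coef_sum {ι : Type} (s : Finset ι) (f : ι → ℤ[T;T⁻¹]) (m : ℤ) :
    (∑ i ∈ s, f i).coeff m = ∑ i ∈ s, (f i).coeff m := by
  rw [AddMonoidAlgebra.coeff_sum, Finset.sum_apply']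

theorem coef_loop (f : ℤ[T;T⁻¹]) (m : ℤ) :
    (loopVal * f).coeff m = - f.coeff (m - 2) - f.coeff (m + 2) := by
  have h : loopVal * f = -(T 2 * f) - T (-2) * f := by
    rw [loopVal]; ring
  rw [h, coef_sub, coef_neg, coef_T_mul, coef_T_mul, sub_neg_eq_add]

theorem coeff_dpow (a : ℤ) (t : ℕ) :
    (∀ m, a + 2 * t < m → (T a * loopVal ^ t).coeff m = 0) ∧
      (T a * loopVal ^ t).coeff (a + 2 * t) = (-1) ^ t ∧
      (T a * loopVal ^ t).coeff (a + 2 * t - 4) = (-1) ^ t * (t : ℤ) := by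
  induction t with
  | zero =>
    refine ⟨fun m hm => ?_, ?_, ?_⟩
    · rw [pow_zero, mul_one, T_apply, if_neg]
      omega
    · rw [pow_zero, mul_one, T_apply, if_pos]
      · simp
      · simp
    · rw [pow_zero, mul_one, T_apply, if_neg]
      · simp
      · omega
  | succ t ih =>
    obtain ⟨h1, h2, h3⟩ := ih
    have e : T a * loopVal ^ (t + 1) = loopVal * (T a * loopVal ^ t) := by ring
    rw [e]
    refine ⟨fun m hm => ?_, ?_, ?_⟩
    · rw [coef_loop, h1 _ (by push_cast at hm; omega), h1 _ (by push_cast at hm; omega)]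
      simp
    · rw [coef_loop, show a + 2 * ((t + 1 : ℕ) : ℤ) - 2 = a + 2 * t by push_cast; ring, h2,
        h1 _ (by push_cast; omega)]
      ring
    · rw [coef_loop, show a + 2 * ((t + 1 : ℕ) : ℤ) - 4 - 2 = a + 2 * t - 4 by push_cast; ring,
        show a + 2 * ((t + 1 : ℕ) : ℤ) - 4 + 2 = a + 2 * t by push_cast; ring, h2, h3]
      push_cast
      ring

namespace TD

variable {G : TD X} {H : Finset X} {r : ℝ}

theorem coeff_Rsum (G : TD X) (m : ℤ) :
    G.Rsum.coeff m = ∑ H ∈ G.D.powerset, (G.term H).coeff m := by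
  rw [Rsum, coef_sum]

theorem coef_term (G : TD X) (H : Finset X) (m : ℤ) :
    (G.term H).coeff m = ∑ S ∈ (G.ess H).powerset,
      ((T ((G.D.card : ℤ) - 2 * H.card + (4 * x1 (∑ O ∈ S, G.cls O) + 2)) *
          loopVal ^ G.tr H).coeff m -
        (T ((G.D.card : ℤ) - 2 * H.card + (4 * x2 (∑ O ∈ S, G.cls O) + 2)) *
          loopVal ^ G.tr H).coeff m) := by
  rw [term, Finset.mul_sum, coef_sum]
  refine Finset.sum_congr rfl fun S _ => ?_
  rw [← coef_sub, T_add ((G.D.card : ℤ) - 2 * H.card), T_add ((G.D.card : ℤ) - 2 * H.card), phi]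
  congr 2
  ring

theorem coef_one (G : TD X) (H : Finset X) (n x : ℤ) (hx : 2 * x - G.lev H ≤ n) :
    (∀ m, G.top + 2 * n < m →
      (T ((G.D.card : ℤ) - 2 * H.card + (4 * x + 2)) * loopVal ^ G.tr H).coeff m = 0) ∧
    (T ((G.D.card : ℤ) - 2 * H.card + (4 * x + 2)) * loopVal ^ G.tr H).coeff (G.top + 2 * n) =
      (-1) ^ G.tr H * (if 2 * x - G.lev H = n then 1 else 0) := by
  obtain ⟨h1, h2, -⟩ := coeff_dpow ((G.D.card : ℤ) - 2 * H.card + (4 * x + 2)) (G.tr H)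
  have e : (G.D.card : ℤ) - 2 * H.card + (4 * x + 2) + 2 * (G.tr H : ℤ) =
      G.top + 2 * (2 * x - G.lev H) := by
    rw [top, lev]; ring
  rw [e] at h1 h2
  refine ⟨fun m hm => h1 m (by omega), ?_⟩
  by_cases hn : 2 * x - G.lev H = n
  · rw [if_pos hn, ← hn, h2, mul_one]
  · rw [if_neg hn, h1 _ (by omega), mul_zero]

theorem term_coeff (n : ℤ) (h : ∀ S ⊆ G.ess H, 2 * x1 (∑ O ∈ S, G.cls O) - G.lev H ≤ n ∧
      2 * x2 (∑ O ∈ S, G.cls O) - G.lev H ≤ n) :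
    (∀ m, G.top + 2 * n < m → (G.term H).coeff m = 0) ∧
      (G.term H).coeff (G.top + 2 * n) = (-1) ^ G.tr H * ∑ S ∈ (G.ess H).powerset,
        ((if 2 * x1 (∑ O ∈ S, G.cls O) - G.lev H = n then 1 else 0) -
          (if 2 * x2 (∑ O ∈ S, G.cls O) - G.lev H = n then 1 else 0) : ℤ) := by
  refine ⟨fun m hm => ?_, ?_⟩
  · rw [coef_term]
    refine Finset.sum_eq_zero fun S hS => ?_
    obtain ⟨h1, h2⟩ := h S (Finset.mem_powerset.1 hS)
    rw [(coef_one G H n _ h1).1 m hm, (coef_one G H n _ h2).1 m hm, sub_zero]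
  · rw [coef_term, Finset.mul_sum]
    refine Finset.sum_congr rfl fun S hS => ?_
    obtain ⟨h1, h2⟩ := h S (Finset.mem_powerset.1 hS)
    rw [(coef_one G H n _ h1).2, (coef_one G H n _ h2).2, mul_sub]

theorem term_empty (hG : G.Good r) :
    (∀ m, G.top < m → (G.term ∅).coeff m = 0) ∧ (G.term ∅).coeff G.top = (-1) ^ G.V ∧
      (G.term ∅).coeff (G.top - 4) = (-1) ^ G.V * ((G.V : ℤ) - 1) := by
  have key : ∀ m, (G.term ∅).coeff m =
      (T ((G.D.card : ℤ) + 2) * loopVal ^ G.V).coeff m -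
        (T ((G.D.card : ℤ) - 2) * loopVal ^ G.V).coeff m := by
    intro m
    rw [coef_term, ess_empty hG, tr_empty hG, Finset.powerset_empty, Finset.sum_singleton,
      Finset.sum_empty]
    have e1 : (G.D.card : ℤ) - 2 * ((∅ : Finset X).card : ℤ) + (4 * x1 0 + 2) =
        (G.D.card : ℤ) + 2 := by
      simp [x1]
    have e2 : (G.D.card : ℤ) - 2 * ((∅ : Finset X).card : ℤ) + (4 * x2 0 + 2) =
        (G.D.card : ℤ) - 2 := by
      simp [x2]; ring
    rw [e1, e2]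
  obtain ⟨a1, a2, a3⟩ := coeff_dpow ((G.D.card : ℤ) + 2) G.V
  obtain ⟨b1, b2, -⟩ := coeff_dpow ((G.D.card : ℤ) - 2) G.V
  have e1 : (G.D.card : ℤ) + 2 + 2 * (G.V : ℤ) = G.top := by rw [top]; ring
  have e2 : (G.D.card : ℤ) - 2 + 2 * (G.V : ℤ) = G.top - 4 := by rw [top]; ring
  rw [e1] at a1 a2 a3
  rw [e2] at b1 b2
  refine ⟨fun m hm => ?_, ?_, ?_⟩
  · rw [key, a1 m hm, b1 m (by omega), sub_zero]
  · rw [key, a2, b1 _ (by omega), sub_zero]
  · rw [key, a3, b2]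
    ring

/-- Either all essential loops have negative slope, or there is a system of cycles that bounds
the exponents. -/
theorem bound (hG : G.Good r) (hH : H ⊆ G.D) :
    (∀ O ∈ G.ess H, (G.cls O).1 * (G.cls O).2 < 0) ∨
      ∃ L v, G.Sys L v ∧ 0 ≤ v.1 ∧ 0 ≤ v.2 ∧ v ≠ 0 ∧ 2 * (L : ℤ) ≤ G.lev H ∧ 1 ≤ x1 v ∧
        (∃ O ∈ G.ess H, 0 ≤ (G.cls O).1 * (G.cls O).2) ∧
        ∀ S ⊆ G.ess H, |(∑ O ∈ S, G.cls O).1| ≤ v.1 ∧ |(∑ O ∈ S, G.cls O).2| ≤ v.2 ∧
          x1 (∑ O ∈ S, G.cls O) ≤ x1 v ∧ x2 (∑ O ∈ S, G.cls O) < x1 v := by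
  by_cases h : ∀ O ∈ G.ess H, (G.cls O).1 * (G.cls O).2 < 0
  · exact Or.inl h
  · right
    push Not at h
    obtain ⟨O, hO, hp⟩ := h
    obtain ⟨L, v, hS, h1, h2, h0, hL, hm⟩ := short hG hH hO hp
    have hm1 : (G.mu H).1 ≤ 2 * v.1 := by
      have := hm.1
      simpa using this
    have hm2 : (G.mu H).2 ≤ 2 * v.2 := by
      have := hm.2
      simpa using this
    have hx : 1 ≤ x1 v :=
      (x_le (u := 0) (by simpa using h1) (by simpa using h2) h0).2.2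
    refine ⟨L, v, hS, h1, h2, h0, hL, hx, ⟨O, hO, hp⟩, fun S hS => ?_⟩
    obtain ⟨c1, c2⟩ := cls_sub hG hS
    have d1 : |(∑ O ∈ S, G.cls O).1| ≤ v.1 := by omega
    have d2 : |(∑ O ∈ S, G.cls O).2| ≤ v.2 := by omega
    obtain ⟨e1, e2, -⟩ := x_le d1 d2 h0
    exact ⟨d1, d2, e1, e2⟩

theorem coeff_par (hG : G.Good r) (hH : H ⊆ G.D) {e f : X} (he : e ∈ G.D) (hn : e ∉ H)
    (hf : f ∈ H) (h : G.Par e f) (m : ℤ) :
    (G.term (insert e H)).coeff m = - (G.term H).coeff m - (G.term H).coeff (m + 4) := by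
  rw [term_par hG hH he hn hf h, mul_assoc, coef_T_mul, coef_loop,
    show m - -2 - 2 = m by ring, show m - -2 + 2 = m + 4 by ring]

theorem topAt_of_not_crit (hG : G.Good r) (h : ¬ G.Crit 0) : G.TopAt := by
  have key : ∀ H ⊆ G.D, H.Nonempty → ∀ m, G.top ≤ m → (G.term H).coeff m = 0 := by
    intro H hH hne m hm
    have h2 := lev_two hG hH hne
    refine (term_coeff (G := G) (H := H) (-1) fun S hS => ?_).1 m (by omega)
    rcases bound hG hH with hb | ⟨L, v, hS', h1, h2', h0, hL, -, -, hb⟩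
    · rcases neg_cls hb hS with h0 | h0
      · rw [h0]
        have e1 : x1 0 = 0 := by simp [x1]
        have e2 : x2 0 = -1 := by simp [x2]
        rw [e1, e2]
        omega
      · obtain ⟨e1, e2, -⟩ := x_neg h0
        omega
    · obtain ⟨-, -, e1, e2⟩ := hb S hS
      have e3 : ¬ (L : ℤ) ≤ x1 v + 0 := fun e => h ⟨L, v, hS', h1, h2', h0, e⟩
      omega
  have key2 : ∀ m, G.top ≤ m → G.Rsum.coeff m = (G.term ∅).coeff m := by
    intro m hm
    rw [coeff_Rsum]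
    refine Finset.sum_eq_single_of_mem ∅ (Finset.empty_mem_powerset _) fun H hH hne => ?_
    exact key H (Finset.mem_powerset.1 hH) (Finset.nonempty_iff_ne_empty.2 hne) m hm
  obtain ⟨a1, a2, -⟩ := term_empty hG
  refine ⟨fun m hm => ?_, ?_⟩
  · rw [key2 m hm.le, a1 m hm]
  · rw [key2 _ le_rfl, a2]
    exact pow_ne_zero _ (by norm_num)

end TD

end Pool.Agent.Lib.MP_7bc610_gt.Ta
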