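import Pool.Agent.Lib.MP_7bc610_gt.Ta.Walk

/-! Short black and short white systems of cycles cannot coexist. -/

namespace Pool.Agent.Lib.MP_7bc610_gt.Ta

open Equiv Finset

variable {X : Type} [Fintype X] [DecidableEq X]

theorem cost_arA (x y d e : ℤ) (hx : 0 ≤ x) (hy : 0 ≤ y) (hd : 0 ≤ d) (he : 0 ≤ e)
    (k3 : x * y + (1 + x) * e + d * (1 + y) ≤ 2)
    (k1 : 2 * (1 + x) * (1 + y + e) + 2 * (1 + x + d) * (1 + y) ≤
      (1 + x + d) * (1 + y) * e + 2 * (1 + y) * (1 + y + e) + (1 + y + e))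
    (k2 : 2 * (1 + x) * (1 + y + e) + 2 * (1 + x + d) * (1 + y) ≤
      (1 + x) * (1 + y + e) * d + 2 * (1 + x) * (1 + x + d) + (1 + x + d)) :
    x = 0 ∧ y = 0 ∧ d = 1 ∧ e = 1 := by
  have h1 := mul_nonneg hx hy
  have h2 := mul_nonneg hx he
  have h3 := mul_nonneg hd hy
  have hd2 : d ≤ 2 := by nlinarith
  have he2 : e ≤ 2 := by nlinarith
  rcases eq_or_lt_of_le hx with rfl | hx1
  · have hy2 : y ≤ 2 := by
      interval_cases d <;> interval_cases e <;> nlinarith
    interval_cases d <;> interval_cases e <;> interval_cases y <;> omega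
  · rcases eq_or_lt_of_le hy with rfl | hy1
    · have hx2 : x ≤ 2 := by
        interval_cases d <;> interval_cases e <;> nlinarith
      interval_cases d <;> interval_cases e <;> interval_cases x <;> omega
    · have hx2 : x ≤ 2 := by nlinarith
      have hy2 : y ≤ 2 := by nlinarith
      interval_cases d <;> interval_cases e <;> interval_cases x <;> interval_cases y <;> omega

theorem cost_arB (x y d e : ℤ) (hx : 0 ≤ x) (hy : 0 ≤ y) (hd : 0 ≤ d) (he : 0 ≤ e)
    (k4 : x * y + (1 + x) * e + d * (1 + y) ≤ 1)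
    (k1 : 2 * (1 + x) * (1 + y + e) + 2 * (1 + x + d) * (1 + y) ≤
      (1 + x + d) * (1 + y) * e + 2 * (1 + y) * (1 + y + e) + (1 + y))
    (k2 : 2 * (1 + x) * (1 + y + e) + 2 * (1 + x + d) * (1 + y) ≤
      (1 + x) * (1 + y + e) * d + 2 * (1 + x) * (1 + x + d) + (1 + x)) : False := by
  have h := cost_arA x y d e hx hy hd he (by linarith) (by linarith) (by linarith)
  obtain ⟨rfl, rfl, rfl, rfl⟩ := h
  omega

theorem cost_arC (x y d e : ℤ) (hx : 0 ≤ x) (hy : 0 ≤ y) (hd : 0 ≤ d) (he : 0 ≤ e)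
    (k3 : d * (1 + y + e) + (1 + x) * y ≤ 2 + y + e)
    (k4 : (1 + x + d) * e + (1 + y) * x ≤ 2 + x + d)
    (k1 : 2 * (1 + x) * (1 + y) + 2 * (1 + x + d) * (1 + y + e) ≤
      (1 + x) * (1 + y) * e + 2 * (1 + y) * (1 + y + e) + (1 + y + e))
    (k2 : 2 * (1 + x) * (1 + y) + 2 * (1 + x + d) * (1 + y + e) ≤
      (1 + x) * (1 + y) * d + 2 * (1 + x) * (1 + x + d) + (1 + x + d)) : False := by
  have h1 := mul_nonneg hx hy
  have hd2 : d ≤ 2 := by nlinarith
  have he2 : e ≤ 2 := by nlinarith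
  interval_cases d <;> interval_cases e <;> nlinarith

theorem cost_key (a b a' b' L L' J m : ℤ) (hb : 0 ≤ b) (hb' : 0 ≤ b') (hm : 0 ≤ m)
    (hL : L ≤ (a + 1) * (b + 1)) (hL' : L' ≤ (a' + 1) * (b' + 1) - 1)
    (hI : a * b' + a' * b ≤ J)
    (h1 : 3 * (a * b' + a' * b) + m * J ≤ b' * L + b * L') :
    (2 + m) * (a * b' + a' * b) ≤ b * b' * (a + a' + 2) + b' := by
  have e1 := mul_le_mul_of_nonneg_left hL hb'
  have e2 := mul_le_mul_of_nonneg_left hL' hb
  have e3 := mul_le_mul_of_nonneg_left hI hm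
  nlinarith

theorem arith (a b a' b' L L' J : ℤ) (ha : 0 ≤ a) (hb : 0 ≤ b) (ha' : 0 ≤ a') (hb' : 0 ≤ b')
    (hv : a ≠ 0 ∨ b ≠ 0) (hv' : a' ≠ 0 ∨ b' ≠ 0)
    (hL : L ≤ (a + 1) * (b + 1)) (hL' : L' ≤ (a' + 1) * (b' + 1) - 1)
    (hI : a * b' + a' * b ≤ J) (hJ : J ≤ L) (hJ' : J ≤ L')
    (z1 : b = 0 → 3 * a ≤ L) (z2 : a = 0 → 3 * b ≤ L)
    (z3 : b' = 0 → 3 * a' ≤ L') (z4 : a' = 0 → 3 * b' ≤ L')
    (h1 : 3 * (a * b' + a' * b) + min b b' * J ≤ b' * L + b * L')
    (h2 : 3 * (a * b' + a' * b) + min a a' * J ≤ a' * L + a * L') :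
    L = 4 ∧ a = 1 ∧ b = 1 ∧ L' = 8 ∧ a' = 2 ∧ b' = 2 := by
  have pb : b ≠ 0 := by
    rintro rfl
    have := z1 rfl
    omega
  have pa : a ≠ 0 := by
    rintro rfl
    have := z2 rfl
    omega
  have pb' : b' ≠ 0 := by
    rintro rfl
    have := z3 rfl
    omega
  have pa' : a' ≠ 0 := by
    rintro rfl
    have := z4 rfl
    omega
  have k1 := cost_key a b a' b' L L' J _ hb hb' (le_min hb hb') hL hL' hI h1
  have k2 := cost_key b a b' a' L L' J _ ha ha' (le_min ha ha') (by linarith) (by linarith)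
    (by linarith) (by linarith)
  have k3 : a * b' + a' * b ≤ (a + 1) * (b + 1) := by linarith
  have k4 : a * b' + a' * b ≤ (a' + 1) * (b' + 1) - 1 := by linarith
  have key : a = 1 ∧ b = 1 ∧ a' = 2 ∧ b' = 2 := by
    rcases le_total a a' with c1 | c1 <;> rcases le_total b b' with c2 | c2
    · rw [min_eq_left c2] at k1
      rw [min_eq_left c1] at k2
      have := cost_arA (a - 1) (b - 1) (a' - a) (b' - b) (by omega) (by omega) (by omega)
        (by omega) (by linarith) (by linarith) (by linarith)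
      omega
    · rw [min_eq_right c2] at k1
      rw [min_eq_left c1] at k2
      exact (cost_arC (a - 1) (b' - 1) (a' - a) (b - b') (by omega) (by omega) (by omega)
        (by omega) (by linarith) (by linarith) (by linarith) (by linarith)).elim
    · rw [min_eq_left c2] at k1
      rw [min_eq_right c1] at k2
      exact (cost_arC (a' - 1) (b - 1) (a - a') (b' - b) (by omega) (by omega) (by omega)
        (by omega) (by linarith) (by linarith) (by linarith) (by linarith)).elim
    · rw [min_eq_right c2] at k1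
      rw [min_eq_right c1] at k2
      exact (cost_arB (a' - 1) (b' - 1) (a - a') (b - b') (by omega) (by omega) (by omega)
        (by omega) (by linarith) (by linarith) (by linarith)).elim
  obtain ⟨rfl, rfl, rfl, rfl⟩ := key
  norm_num at h1 hL hL' hI
  omega

namespace TD

variable {G : TD X} {H : Finset X} {L L' : ℕ} {v v' : ℤ × ℤ}

/-- The change of a height function along a flow is picked up at the crossings of the state. -/
theorem flow {K : Type} [CommRing K] (hH : H ⊆ G.D) (ω : ℤ × ℤ →+ K) (h : X → K)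
    (hh : ∀ t, h (G.σ t) + ω (G.η (G.σ t)) = h t) (s : X → ℤ) (hs : ∀ t, s (G.pi H t) = s t) :
    ω (∑ t, s t • G.η t) = ∑ t ∈ H, ((s t : K) - s (G.α t)) * (h (G.α t) - h t) := by
  have e1 : ω (∑ t, s t • G.η t) = ∑ t, (s t : K) * ω (G.η (G.pi H t)) := by
    rw [map_sum, ← Equiv.sum_comp (G.pi H)]
    refine sum_congr rfl fun t _ => ?_
    rw [map_zsmul, zsmul_eq_mul, hs]
  have e2 : ∑ t, (s t : K) * h (G.pi H t) = ∑ t, (s t : K) * h t := by
    rw [← Equiv.sum_comp (G.pi H) fun t => (s t : K) * h t]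
    refine sum_congr rfl fun t _ => ?_
    rw [hs]
  have e3 : ∀ t, (s t : K) * ω (G.η (G.pi H t)) =
      (s t : K) * h t - (s t : K) * h (G.pi H t) +
        ((if t ∈ H then (s t : K) * (h (G.α t) - h t) else 0) +
          if G.α t ∈ H then (s t : K) * (h (G.α t) - h t) else 0) := by
    intro t
    rw [pi_apply]
    by_cases c1 : t ∈ H
    · have c2 : G.α t ∉ H := fun c => G.ne t (hH c1) (hH c)
      simp only [c1, c2, true_or, if_true, if_false]
      linear_combination (s t : K) * hh (G.α t)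
    · by_cases c2 : G.α t ∈ H
      · simp only [c1, c2, or_true, if_true, if_false]
        linear_combination (s t : K) * hh (G.α t)
      · simp only [c1, c2, or_self, if_false]
        linear_combination (s t : K) * hh t
  have e4 : (∑ t, if G.α t ∈ H then (s t : K) * (h (G.α t) - h t) else 0) =
      ∑ t, if t ∈ H then (s (G.α t) : K) * (h t - h (G.α t)) else 0 := by
    rw [← Equiv.sum_comp G.α]
    refine sum_congr rfl fun t _ => ?_
    simp only [G.αα]
  rw [e1, sum_congr rfl fun t _ => e3 t, sum_add_distrib, sum_sub_distrib, e2, sub_self, zero_add,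
    sum_add_distrib, e4, sum_ite_mem, sum_ite_mem, univ_inter, ← sum_add_distrib]
  refine sum_congr rfl fun t _ => ?_
  ring

/-- The linear form as a homomorphism. -/
def cost_lin (p q : ℝ) : ℤ × ℤ →+ ℝ where
  toFun := lin p q
  map_zero' := by simp [lin]
  map_add' := fun u w => by
    simp only [lin, Prod.fst_add, Prod.snd_add, Int.cast_add]
    ring

/-- The determinant with a fixed vector as a homomorphism. -/
def cost_det (w : ℤ × ℤ) : ℤ × ℤ →+ ℤ where
  toFun := fun u => det u w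
  map_zero' := by simp [det]
  map_add' := fun u u' => by
    simp only [det, Prod.fst_add, Prod.snd_add]
    ring

theorem cost_pt (l l' c c' B1 B2 W1 W2 : ℝ) (hl : 0 ≤ l) (hl' : 0 ≤ l') (hc : |c| ≤ 1)
    (hc' : |c'| ≤ 1) (h11 : |B1 - W1| ≤ 1) (h12 : |B1 - W2| ≤ 1) (h21 : |B2 - W1| ≤ 1)
    (h22 : |B2 - W2| ≤ 1) :
    l * (c * (B2 - B1)) ≤ 2 * l ∧ l' * (c' * (W2 - W1)) ≤ 2 * l' ∧
      l * (c * (B2 - B1)) + l' * (c' * (W2 - W1)) + 2 * min l l' ≤ 2 * l + 2 * l' := by
  have hs : |B2 - B1| + |W2 - W1| ≤ 2 := by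
    rw [abs_le] at h11 h12 h21 h22
    rcases abs_cases (B2 - B1) with e | e <;> rcases abs_cases (W2 - W1) with e' | e' <;>
      linarith [e.1, e'.1, h11.1, h11.2, h12.1, h12.2, h21.1, h21.2, h22.1, h22.2]
  have a1 : c * (B2 - B1) ≤ |B2 - B1| := by
    refine (le_abs_self _).trans ?_
    rw [abs_mul]
    exact mul_le_of_le_one_left (abs_nonneg _) hc
  have a2 : c' * (W2 - W1) ≤ |W2 - W1| := by
    refine (le_abs_self _).trans ?_
    rw [abs_mul]
    exact mul_le_of_le_one_left (abs_nonneg _) hc'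
  have n1 := abs_nonneg (B2 - B1)
  have n2 := abs_nonneg (W2 - W1)
  have b1 := mul_le_mul_of_nonneg_left a1 hl
  have b2 := mul_le_mul_of_nonneg_left a2 hl'
  refine ⟨by nlinarith, by nlinarith, ?_⟩
  rcases le_total l l' with e | e
  · rw [min_eq_left e]
    nlinarith
  · rw [min_eq_right e]
    nlinarith

theorem cost (hS : G.Sys L v) (hS' : G.dual.Sys L' v') :
    ∃ J : ℕ, J ≤ L ∧ J ≤ L' ∧ |v.1 * v'.2 + v'.1 * v.2| ≤ J ∧
      ∀ (p q l l' ε : ℝ), G.Pot (lin p q) → 0 ≤ l → 0 ≤ l' → (ε = 1 ∨ ε = -1) →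
        l * lin p q v + ε * l' * lin p q (v'.1, -v'.2) + 2 * min l l' * J ≤
          2 * l * L + 2 * l' * L' := by
  obtain ⟨H, hH, s, hL, hs, h01, hv⟩ := hS
  obtain ⟨H', hH', s', hL', hs', h01', hv'⟩ := hS'
  have hD : H' ⊆ G.D := hH'
  have hw : ∑ z, s' z • G.η z = (v'.1, -v'.2) := by
    rw [← hv']
    ext <;> simp [Prod.fst_sum, Prod.snd_sum, dual]
  have d1 : ∀ t u, |s t - s u| ≤ 1 := fun t u => by
    rcases h01 t with a | a <;> rcases h01 u with b | b <;> simp [a, b]
  have d2 : ∀ t u, |s' t - s' u| ≤ 1 := fun t u => by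
    rcases h01' t with a | a <;> rcases h01' u with b | b <;> simp [a, b]
  refine ⟨(H ∩ H').card, hL ▸ card_le_card inter_subset_left,
    hL' ▸ card_le_card inter_subset_right, ?_, ?_⟩
  · have hpi : G.dual.pi H' = G.pi (G.D \ H') := by
      rw [← dual_pi (sdiff_subset : G.D \ H' ⊆ G.D), Finset.sdiff_sdiff_eq_self hD]
    obtain ⟨g, g1, -, g3, g4⟩ := stream_inv (G := G) (H := G.D \ H') s' (by
      rw [← hpi]; exact hs')
    have f := flow hH (cost_det (∑ z, s' z • G.η z)) g g1 s hs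
    have e : v.1 * v'.2 + v'.1 * v.2 =
        -∑ t ∈ H, ((s t : ℤ) - s (G.α t)) * (g (G.α t) - g t) := by
      have f' : det v (v'.1, -v'.2) =
          ∑ t ∈ H, ((s t : ℤ) - s (G.α t)) * (g (G.α t) - g t) := by
        rw [← hw, ← hv]
        exact f
      rw [← f']
      simp only [det]
      ring
    rw [e, abs_neg]
    refine (abs_sum_le_sum_abs _ _).trans ?_
    have e5 : ((H ∩ H').card : ℤ) = ∑ t ∈ H, if t ∈ H' then (1 : ℤ) else 0 := by
      rw [sum_ite_mem]
      simp
    rw [e5]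
    refine sum_le_sum fun t ht => ?_
    by_cases c : t ∈ H'
    · rw [if_pos c, abs_mul]
      have g5 := g4 t (by
        rintro (c' | c')
        · exact (mem_sdiff.mp c').2 c
        · exact G.ne t (hH ht) (mem_sdiff.mp c').1)
      have g6 : g (G.α t) - g t = s' t - s' (G.α t) := by linarith
      rw [g6]
      exact mul_le_one₀ (d1 _ _) (abs_nonneg _) (d2 _ _)
    · rw [if_neg c, g3 t (Or.inl (mem_sdiff.mpr ⟨hH ht, c⟩))]
      simp
  · rintro p q l l' ε ⟨hB, hW, b1, b2, b3⟩ hl hl' hε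
    have f1 := flow hH (cost_lin p q) hB b2 s hs
    have f2 := flow (G := G.dual) hH' (cost_lin p (-q)) hW (fun t => by
      have := b3 t
      simp only [cost_lin, lin, dual, AddMonoidHom.coe_mk, ZeroHom.coe_mk, Perm.mul_apply,
        Int.cast_neg] at this ⊢
      linarith) s' hs'
    rw [hv] at f1
    rw [hv'] at f2
    have f1' : lin p q v = ∑ t ∈ H, ((s t : ℝ) - s (G.α t)) * (hB (G.α t) - hB t) := f1
    have f2' : lin p q (v'.1, -v'.2) =
        ∑ t ∈ H', ((s' t : ℝ) - s' (G.α t)) * (hW (G.α t) - hW t) := by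
      refine Eq.trans ?_ f2
      simp only [cost_lin, lin, AddMonoidHom.coe_mk, ZeroHom.coe_mk, Int.cast_neg]
      ring
    have pt : ∀ t, l * (((s t : ℝ) - s (G.α t)) * (hB (G.α t) - hB t)) ≤ 2 * l ∧
        l' * ((ε * ((s' t : ℝ) - s' (G.α t))) * (hW (G.α t) - hW t)) ≤ 2 * l' ∧
        l * (((s t : ℝ) - s (G.α t)) * (hB (G.α t) - hB t)) +
          l' * ((ε * ((s' t : ℝ) - s' (G.α t))) * (hW (G.α t) - hW t)) + 2 * min l l' ≤
            2 * l + 2 * l' := by
      intro t
      refine cost_pt l l' _ _ _ _ _ _ hl hl' (by exact_mod_cast d1 _ _) ?_ (b1 t) ?_ ?_ (b1 _)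
      · have : |(s' t : ℝ) - s' (G.α t)| ≤ 1 := by exact_mod_cast d2 _ _
        rcases hε with rfl | rfl
        · rwa [one_mul]
        · rwa [neg_one_mul, abs_neg]
      · have c1 := b1 (G.σ t)
        have c2 := b2 t
        have c3 := b3 (G.α t)
        rw [G.αα] at c3
        have : hB t - hW (G.α t) = hB (G.σ t) - hW (G.σ t) := by linarith
        rwa [this]
      · have c1 := b1 (G.σ (G.α t))
        have c2 := b2 (G.α t)
        have c3 := b3 t
        have : hB (G.α t) - hW t = hB (G.σ (G.α t)) - hW (G.σ (G.α t)) := by linarith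
        rwa [this]
    have tot : ∑ t, ((if t ∈ H then
          l * (((s t : ℝ) - s (G.α t)) * (hB (G.α t) - hB t)) - 2 * l else 0) +
        (if t ∈ H' then
          l' * ((ε * ((s' t : ℝ) - s' (G.α t))) * (hW (G.α t) - hW t)) - 2 * l' else 0) +
        if t ∈ H ∩ H' then 2 * min l l' else 0) ≤ 0 := by
      refine sum_nonpos fun t _ => ?_
      obtain ⟨p1, p2, p3⟩ := pt t
      by_cases c1 : t ∈ H <;> by_cases c2 : t ∈ H' <;>
        simp only [mem_inter, c1, c2, and_self, and_true, and_false, if_true, if_false] <;>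
        linarith
    rw [sum_add_distrib, sum_add_distrib, sum_ite_mem, sum_ite_mem, sum_ite_mem, univ_inter,
      univ_inter, univ_inter, sum_sub_distrib, sum_sub_distrib, sum_const, sum_const, sum_const,
      ← mul_sum, ← mul_sum, ← f1', hL, hL'] at tot
    have e6 : ∑ t ∈ H', (ε * ((s' t : ℝ) - s' (G.α t))) * (hW (G.α t) - hW t) =
        ε * lin p q (v'.1, -v'.2) := by
      rw [f2', mul_sum]
      exact sum_congr rfl fun t _ => by ring
    rw [e6] at tot
    simp only [nsmul_eq_mul] at tot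
    linarith

theorem crit_crit (hG : G.Good 6) (hS : G.Sys L v) (h1 : 0 ≤ v.1) (h2 : 0 ≤ v.2) (h0 : v ≠ 0)
    (hL : (L : ℤ) ≤ x1 v + 1) (hS' : G.dual.Sys L' v') (h1' : 0 ≤ v'.1) (h2' : 0 ≤ v'.2)
    (h0' : v' ≠ 0) (hL' : (L' : ℤ) ≤ x1 v') : L = 4 ∧ v = (1, 1) ∧ L' = 8 ∧ v' = (2, 2) := by
  obtain ⟨J, j1, j2, j3, hc⟩ := cost hS hS'
  obtain ⟨θ1, p1⟩ := hG.pot1
  obtain ⟨θ2, p2⟩ := hG.pot2
  obtain ⟨a, b⟩ := v
  obtain ⟨a', b'⟩ := v'
  simp only [x1] at h1 h2 h1' h2' hL hL' j3
  have r1 : (0 : ℝ) ≤ a := by exact_mod_cast h1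
  have r2 : (0 : ℝ) ≤ b := by exact_mod_cast h2
  have r1' : (0 : ℝ) ≤ a' := by exact_mod_cast h1'
  have r2' : (0 : ℝ) ≤ b' := by exact_mod_cast h2'
  have m1 : min (1 : ℝ) 0 = 0 := by norm_num
  have m2 : min (0 : ℝ) 1 = 0 := by norm_num
  have key := arith a b a' b' L L' J h1 h2 h1' h2'
    (by
      by_contra c
      rw [not_or, not_not, not_not] at c
      exact h0 (Prod.ext c.1 c.2))
    (by
      by_contra c
      rw [not_or, not_not, not_not] at c
      exact h0' (Prod.ext c.1 c.2))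
    (by linarith) hL' ((le_abs_self _).trans j3) (by exact_mod_cast j1) (by exact_mod_cast j2)
    (by
      rintro rfl
      have := hc 6 θ1 1 0 1 p1 zero_le_one le_rfl (Or.inl rfl)
      simp only [lin, m1] at this
      have e : (3 : ℝ) * a ≤ L := by
        push_cast at this
        linarith
      exact_mod_cast e)
    (by
      rintro rfl
      have := hc θ2 6 1 0 1 p2 zero_le_one le_rfl (Or.inl rfl)
      simp only [lin, m1] at this
      have e : (3 : ℝ) * b ≤ L := by
        push_cast at this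
        linarith
      exact_mod_cast e)
    (by
      rintro rfl
      have := hc 6 θ1 0 1 1 p1 le_rfl zero_le_one (Or.inl rfl)
      simp only [lin, m2] at this
      have e : (3 : ℝ) * a' ≤ L' := by
        push_cast at this
        linarith
      exact_mod_cast e)
    (by
      rintro rfl
      have := hc θ2 6 0 1 (-1) p2 le_rfl zero_le_one (Or.inr rfl)
      simp only [lin, m2] at this
      have e : (3 : ℝ) * b' ≤ L' := by
        push_cast at this
        linarith
      exact_mod_cast e)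
    (by
      have := hc 6 θ1 b' b 1 p1 r2' r2 (Or.inl rfl)
      simp only [lin] at this
      have e : (3 : ℝ) * (a * b' + a' * b) + min (b : ℝ) b' * J ≤ b' * L + b * L' := by
        push_cast at this
        rw [min_comm] at this
        linarith
      exact_mod_cast e)
    (by
      have := hc θ2 6 a' a (-1) p2 r1' r1 (Or.inr rfl)
      simp only [lin] at this
      have e : (3 : ℝ) * (a * b' + a' * b) + min (a : ℝ) a' * J ≤ a' * L + a * L' := by
        push_cast at this
        rw [min_comm] at this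
        linarith
      exact_mod_cast e)
  obtain ⟨k1, rfl, rfl, k2, rfl, rfl⟩ := key
  exact ⟨by exact_mod_cast k1, rfl, by exact_mod_cast k2, rfl⟩

end TD

end Pool.Agent.Lib.MP_7bc610_gt.Ta
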