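import Pool.Agent.Lib.MP_7bc610_gt.Defs

/-!
Link diagrams on the standard torus in the 3-sphere.

The torus is a square with opposite sides glued.  The diagram inside the square is a word `w`
with `p + q` ends at the bottom (first the `p` ends on the left side, then the `q` ends on the
lower side of the square, which is drawn tilted) and `p + q` ends at the top (first the `q` ends
on the upper side, then the `p` ends on the right side).
-/

namespace Pool.Agent.Lib.MP_7bc610_gt.Ta

/-- The strand at position `i + q` passes to the left under `q` strands. -/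
def under (i : ℕ) : ℕ → Word
  | 0 => []
  | q + 1 => (.cr true, i + q) :: under i q

/-- The `p` strands at positions `i + q, …` pass to the left under the `q` strands at `i, …`. -/
def block (q : ℕ) : ℕ → ℕ → Word
  | _, 0 => []
  | i, p + 1 => under i q ++ block q (i + 1) p

/-- `n` nested minima. -/
def cups : ℕ → Word
  | 0 => []
  | n + 1 => cups n ++ [(.cup, n)]

/-- `n` nested maxima. -/
def caps : ℕ → Word
  | 0 => []
  | n + 1 => (.cap, n) :: caps n

/-- The planar diagram of the link drawn on the standard torus: the sides of the square are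
joined up around the two holes. -/
def torusWord (p q : ℕ) (w : Word) : Word :=
  cups (p + q) ++ shift (p + q) (w ++ block q 0 p) ++ caps (p + q)

/-- Number of strands at height `l` (after the first `l` pieces). -/
def wd : ℕ → Word → ℕ → ℕ
  | n, _, 0 => n
  | n, [], _ + 1 => n
  | n, g :: w, l + 1 => wd (n - g.1.inp + g.1.out) w l

/-- A point of the torus off the diagram is a pair (height `l`, number `j` of strands to its
left).  `Hop a b v m`: an elementary path from `a` to `b` that meets the diagram `m` times and
crosses the sides of the square as recorded by `v`. -/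
inductive Hop (p q : ℕ) (w : Word) : ℕ × ℕ → ℕ × ℕ → ℤ × ℤ → ℕ → Prop where
  | across (l j : ℕ) : l ≤ w.length → j < wd (p + q) w l → Hop p q w (l, j) (l, j + 1) 0 1
  | left (l j i : ℕ) (k : Kind) : w[l]? = some (k, i) → j ≤ i → Hop p q w (l, j) (l + 1, j) 0 0
  | right (l j i : ℕ) (k : Kind) : w[l]? = some (k, i) → i + k.inp ≤ j → j ≤ wd (p + q) w l →
      Hop p q w (l, j) (l + 1, j - k.inp + k.out) 0 0
  | upper (j : ℕ) : j ≤ q → Hop p q w (w.length, j) (0, p + j) (0, 1) 0
  | side (j : ℕ) : j ≤ p → Hop p q w (w.length, q + j) (0, j) (1, 0) 0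

/-- Paths on the torus transverse to the diagram and missing the crossings; for a closed path
`v` is its homology class, and `m` counts its intersections with the diagram. -/
inductive Path (p q : ℕ) (w : Word) : ℕ × ℕ → ℕ × ℕ → ℤ × ℤ → ℕ → Prop where
  | nil (a : ℕ × ℕ) : Path p q w a a 0 0
  | fwd {a b c : ℕ × ℕ} {v u : ℤ × ℤ} {m k : ℕ} :
      Path p q w a b v m → Hop p q w b c u k → Path p q w a c (v + u) (m + k)
  | bwd {a b c : ℕ × ℕ} {v u : ℤ × ℤ} {m k : ℕ} :
      Path p q w a b v m → Hop p q w c b u k → Path p q w a c (v - u) (m + k)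

/-- A point of the diagram is a pair (height, position of the strand).  Two such points are
joined if they lie on one strand at consecutive heights, are ends of the same piece, or are
glued along the sides of the square. -/
inductive Joined (p q : ℕ) (w : Word) : ℕ × ℕ → ℕ × ℕ → Prop where
  | left (l j i : ℕ) (k : Kind) : w[l]? = some (k, i) → j < i → Joined p q w (l, j) (l + 1, j)
  | right (l j i : ℕ) (k : Kind) : w[l]? = some (k, i) → i + k.inp ≤ j → j < wd (p + q) w l →
      Joined p q w (l, j) (l + 1, j - k.inp + k.out)
  | cup (l i : ℕ) : w[l]? = some (.cup, i) → Joined p q w (l + 1, i) (l + 1, i + 1)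
  | cap (l i : ℕ) : w[l]? = some (.cap, i) → Joined p q w (l, i) (l, i + 1)
  | cr (l i a b : ℕ) (e : Bool) : w[l]? = some (.cr e, i) → a < 2 → b < 2 →
      Joined p q w (l, i + a) (l + 1, i + b)
  | upper (j : ℕ) : j < q → Joined p q w (w.length, j) (0, p + j)
  | side (j : ℕ) : j < p → Joined p q w (w.length, q + j) (0, j)

/-- A connected, reduced, alternating diagram on the torus, with a checkerboard colouring and at
least one crossing, whose regions are discs, of representativity at least `r`. -/
structure TorAlt (r p q : ℕ) (w : Word) : Prop where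
  valid : Valid (p + q) w (p + q)
  colourable : Even p ∧ Even q
  alternating : ∃ c : Bool, ∀ e i, (Kind.cr e, i) ∈ w → e = (c == decide (Even i))
  crossing : ∃ e i, (Kind.cr e, i) ∈ w
  connected : ∀ l j l' j', l ≤ w.length → j < wd (p + q) w l → l' ≤ w.length →
    j' < wd (p + q) w l' → Relation.EqvGen (Joined p q w) (l, j) (l', j')
  discs : ∀ a v, Path p q w a a v 0 → v = 0
  reduced : ∀ l i e, w[l]? = some (.cr e, i) →
    ¬ Path p q w (l, i) (l, i + 2) 0 0 ∧ ¬ Path p q w (l, i + 1) (l + 1, i + 1) 0 0
  representativity : ∀ a (k : ℤ) m, Path p q w a a (k, 0) m ∨ Path p q w a a (0, k) m →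
    r * k.natAbs ≤ m

end Pool.Agent.Lib.MP_7bc610_gt.Ta
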