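import Pool.Agent.Lib.MP_7bc610_gt.Ta.Coef

/-! The second coefficient does not vanish. -/

namespace Pool.Agent.Lib.MP_7bc610_gt.Ta

open Equiv Finset LaurentPolynomial

variable {X : Type} [Fintype X] [DecidableEq X]

namespace TD

variable {G : TD X} {H Rep : Finset X} {r : ℝ}

/-- Equal, or both loops of the black graph at the same black region. -/
def Near (G : TD X) (e f : X) : Prop :=
  e = f ∨ (G.σ.SameCycle e (G.α e) ∧ G.σ.SameCycle f (G.α f) ∧ G.σ.SameCycle e f)

theorem near_equiv (G : TD X) : Equivalence G.Near := by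
  refine ⟨fun _ => Or.inl rfl, ?_, ?_⟩
  · rintro e f (h | ⟨h1, h2, h3⟩)
    · exact Or.inl h.symm
    · exact Or.inr ⟨h2, h1, h3.symm⟩
  · rintro e f g (h | ⟨h1, h2, h3⟩) h'
    · exact h ▸ h'
    · rcases h' with h' | ⟨-, h5, h6⟩
      · exact h' ▸ Or.inr ⟨h1, h2, h3⟩
      · exact Or.inr ⟨h1, h5, h3.trans h6⟩

theorem second_bw_of {H' : Finset X} (h : ∀ e ∈ H, ∀ x, G.BW H' (e, x) (G.α e, x))
    {a b : X × (ℤ × ℤ)} (hab : G.BW H a b) : G.BW H' a b := by
  induction hab with
  | rel a b hab =>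
    cases hab with
    | face y x => exact bw_sigma y x
    | edge y x hy => exact h y hy x
  | refl a => exact BW.refl a
  | symm a b _ ih => exact ih.symm
  | trans a b c _ _ ih ih' => exact ih.trans ih'

theorem second_bc_of {H' : Finset X} (h : ∀ e ∈ H, G.Bc H' e (G.α e)) {y z : X}
    (hyz : G.Bc H y z) : G.Bc H' y z := by
  have key : ∀ a b : X × (ℤ × ℤ), G.BW H a b → G.Bc H' a.1 b.1 := by
    intro a b hab
    induction hab with
    | rel a b hab =>
      cases hab with
      | face y x => exact ⟨_, bw_sigma y 0⟩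
      | edge y x hy => exact h y hy
    | refl a => exact (bc_equiv G H').refl _
    | symm a b _ ih => exact (bc_equiv G H').symm ih
    | trans a b c _ _ ih ih' => exact (bc_equiv G H').trans ih ih'
  obtain ⟨v, hv⟩ := hyz
  exact key _ _ hv

theorem second_bc_loops (h : ∀ e ∈ H, G.σ.SameCycle e (G.α e)) {y z : X} (hyz : G.Bc H y z) :
    G.σ.SameCycle y z :=
  bc_empty.1 (second_bc_of (fun e he => bc_empty.2 (h e he)) hyz)

theorem second_bc {y z : X} (h : G.σ.SameCycle y z) : G.Bc H y z :=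
  (bc_empty.2 h).mono (empty_subset _)

theorem second_kB_loops (h : ∀ e ∈ H, G.σ.SameCycle e (G.α e)) : G.kB H = G.V := by
  induction H using Finset.induction_on with
  | empty => exact kB_empty G
  | insert y H _ ih =>
    rw [kB_same (second_bc (h y (mem_insert_self _ _)))]
    exact ih fun e he => h e (mem_insert_of_mem he)

theorem second_kB_le (G : TD X) (H : Finset X) : G.kB H ≤ G.V :=
  (kB_anti (empty_subset H)).trans (kB_empty G).le

theorem second_kB_single {e : X} (h : ¬ G.σ.SameCycle e (G.α e)) : G.kB {e} + 1 = G.V := by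
  have := kB_join (G := G) (H := ∅) (y := e) (fun hb => h (bc_empty.1 hb))
  rwa [kB_empty, insert_empty_eq] at this

theorem second_loop_of_kB (h : G.kB H = G.V) {e : X} (he : e ∈ H) : G.σ.SameCycle e (G.α e) := by
  by_contra hn
  have h1 := second_kB_single hn
  have h2 : G.kB H ≤ G.kB {e} := kB_anti (singleton_subset_iff.2 he)
  omega

theorem second_gen_nonneg (hH : H ⊆ G.D) : 0 ≤ G.gen H := by
  rcases gen_cases hH with h | h <;> omega

theorem second_dart (hG : G.Good r) {O : Finset X} (hO : O ∈ G.ess H) :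
    ∃ t ∈ O, t ∈ H ∨ G.α t ∈ H := by
  by_contra hn
  push Not at hn
  obtain ⟨hO1, hO2⟩ := mem_ess.1 hO
  obtain ⟨y, rfl⟩ := exists_orb hO1
  have : orb G.σ y = orb (G.pi H) y := orb_congr fun t ht => by
    rw [pi_apply, if_neg (not_or.2 (hn t ht))]
  exact hO2 (this ▸ hG.discB y)

theorem second_split (hH : H ⊆ G.D) {e : X} (he : e ∈ G.D) (hn : e ∉ H)
    (hs : (G.pi H).SameCycle e (G.α e)) : Mrg (G.pi (insert e H)) (G.pi H) e (G.α e) := by
  rw [pi_insert hH he hn]
  exact split (ne_alpha he) hs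

theorem second_split_single {e : X} (he : e ∈ G.D) (hs : G.σ.SameCycle e (G.α e)) :
    ¬ (G.pi {e}).SameCycle e (G.α e) := by
  have := second_split (G := G) (H := ∅) (empty_subset _) he (notMem_empty _)
    (by rwa [pi_empty])
  rw [insert_empty_eq] at this
  exact this.not

/-- An inessential loop split off from a state with one crossing passes both its strands. -/
theorem second_both (hG : G.Good r) {e f z : X} (he : e ∈ G.D) (hf : f ∈ G.D) (hef : e ≠ f)
    (hp : ¬ G.Par f e) (hz : z = f ∨ z = G.α f) (hs : (G.pi {e}).SameCycle f (G.α f))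
    (h0 : G.cls (orb (G.pi (insert f {e})) z) = 0) :
    e ∈ orb (G.pi (insert f {e})) z ∧ G.α e ∈ orb (G.pi (insert f {e})) z := by
  obtain ⟨z₁, z₂, hne, h1, h2, d1, d2⟩ := two_more hG (singleton_subset_iff.2 he) hf
    (by rw [mem_singleton]; exact hef.symm) hz hs h0 (by
      intro g hg; rw [mem_singleton.1 hg]; exact hp)
  have key : ∀ t, (t ∈ ({e} : Finset X) ∨ G.α t ∈ ({e} : Finset X)) → t = e ∨ t = G.α e := by
    rintro t (h | h)
    · exact Or.inl (mem_singleton.1 h)
    · exact Or.inr (by rw [← mem_singleton.1 h, G.αα])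
  rcases key _ d1 with rfl | rfl <;> rcases key _ d2 with h | h
  · exact absurd h.symm hne
  · exact ⟨h1, h ▸ h2⟩
  · exact ⟨h ▸ h2, h1⟩
  · exact absurd h.symm hne

/-- Loops of the black graph at different regions do not interact. -/
theorem second_far (hG : G.Good r) {e f : X} (he : e ∈ G.D) (hf : f ∈ G.D)
    (le : G.σ.SameCycle e (G.α e)) (lf : G.σ.SameCycle f (G.α f)) (hn : ¬ G.σ.SameCycle e f) :
    orb (G.pi (insert f {e})) e ∈ G.ess (insert f {e}) ∧
      orb (G.pi (insert f {e})) (G.α e) ∈ G.ess (insert f {e}) ∧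
      G.α e ∉ orb (G.pi (insert f {e})) e := by
  have hl : ∀ g ∈ ({e} : Finset X), G.σ.SameCycle g (G.α g) := fun g hg => by
    rw [mem_singleton.1 hg]; exact le
  have hE : ({e} : Finset X) ⊆ G.D := singleton_subset_iff.2 he
  have hfe : f ∉ ({e} : Finset X) := fun h => hn (by rw [mem_singleton.1 h])
  have hc : ∀ z, G.σ.SameCycle e z → orb (G.pi (insert f {e})) z = orb (G.pi {e}) z := by
    intro z hz
    refine orb_congr fun t ht => ?_
    have h1 : G.σ.SameCycle e t := hz.trans (second_bc_loops hl (bc_of_orb ht))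
    rw [pi_insert hE hf hfe, Perm.mul_apply, swap_apply_of_ne_of_ne]
    · rintro rfl; exact hn h1
    · rintro rfl; exact hn (h1.trans lf.symm)
  have hs := second_split_single he le
  have key : ∀ t, (t ∈ ({e} : Finset X) ∨ G.α t ∈ ({e} : Finset X)) → t = e ∨ t = G.α e := by
    rintro t (h | h)
    · exact Or.inl (mem_singleton.1 h)
    · exact Or.inr (by rw [← mem_singleton.1 h, G.αα])
  refine ⟨mem_ess.2 ⟨orb_mem_cyc _ _, ?_⟩, mem_ess.2 ⟨orb_mem_cyc _ _, ?_⟩, ?_⟩
  · rw [hc e (Perm.SameCycle.refl _ _)]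
    refine one_dart hG hE (Or.inl (mem_singleton_self _)) fun t ht hd => ?_
    rcases key t hd with h | h
    · exact h
    · exact absurd (mem_orb.1 (h ▸ ht)) hs
  · rw [hc _ le]
    refine one_dart hG hE (Or.inr (by rw [G.αα]; exact mem_singleton_self _)) fun t ht hd => ?_
    rcases key t hd with h | h
    · exact absurd (mem_orb.1 (h ▸ ht)).symm hs
    · exact h
  · rw [hc e (Perm.SameCycle.refl _ _)]
    exact fun h => hs (mem_orb.1 h)

theorem second_near (hG : G.Good r) {e f : X} (he : e ∈ G.D) (hf : f ∈ G.D) (hef : e ≠ f)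
    (hp : ¬ G.Par f e) (hl : G.lev (insert f {e}) = 2) : G.Near e f := by
  have hE : ({e} : Finset X) ⊆ G.D := singleton_subset_iff.2 he
  have hK : insert f {e} ⊆ G.D := insert_subset hf hE
  have hfe : f ∉ ({e} : Finset X) := fun h => hef (mem_singleton.1 h).symm
  have heK : e ∈ (insert f {e} : Finset X) := mem_insert_of_mem (mem_singleton_self _)
  have hfK : f ∈ (insert f {e} : Finset X) := mem_insert_self _ _
  have h1 := lev_eq G (insert f {e})
  have h2 := second_kB_le G (insert f {e})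
  have h3 := second_gen_nonneg hK
  rcases h2.lt_or_eq with h2 | h2
  · exfalso
    have hg : G.gen (insert f {e}) = 0 := by omega
    have hess : G.ess (insert f {e}) = ∅ := card_eq_zero.1 (by omega)
    have hne : ¬ G.σ.SameCycle e (G.α e) := by
      intro hs
      obtain ⟨u, hu⟩ := bc_empty.2 hs
      have hw : G.BW (insert f {e}) (e, 0) (e, u) :=
        (hu.mono (empty_subset _)).trans (bw_alpha (Or.inl heK) u).symm
      have := holTriv hG hK hg (by rw [hess]; simp) hw
      exact hG.redB e he (this ▸ hu)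
    have h4 := second_kB_single hne
    have hb : G.Bc {e} f (G.α f) := by
      by_contra hb
      have := kB_join hb
      omega
    have hs : (G.pi {e}).SameCycle f (G.α f) := by
      by_contra hs
      have := gen_full hG hK (merge_in hE hf hfe hs hb).2
      omega
    have h0 : ∀ z, G.cls (orb (G.pi (insert f {e})) z) = 0 := fun z => by
      by_contra h
      have : orb (G.pi (insert f {e})) z ∈ G.ess (insert f {e}) := mem_ess.2 ⟨orb_mem_cyc _ _, h⟩
      rw [hess] at this
      exact notMem_empty _ this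
    exact disjoint_left.1 (second_split hE hf hfe hs).disj
      (second_both hG he hf hef hp (Or.inl rfl) hs (h0 _)).1
      (second_both hG he hf hef hp (Or.inr rfl) hs (h0 _)).1
  · have le := second_loop_of_kB h2 heK
    have lf := second_loop_of_kB h2 hfK
    refine Or.inr ⟨le, lf, ?_⟩
    by_contra hn
    obtain ⟨a1, a2, a3⟩ := second_far hG he hf le lf hn
    obtain ⟨a4, -, -⟩ := second_far hG hf he lf le fun h => hn h.symm
    rw [show (insert e {f} : Finset X) = insert f {e} from pair_comm e f] at a4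
    have hl' : ∀ g ∈ (insert f {e} : Finset X), G.σ.SameCycle g (G.α g) := fun g hg =>
      second_loop_of_kB h2 hg
    have b1 : orb (G.pi (insert f {e})) e ≠ orb (G.pi (insert f {e})) (G.α e) := fun h =>
      a3 (h ▸ self_mem_orb _ _)
    have b2 : orb (G.pi (insert f {e})) e ≠ orb (G.pi (insert f {e})) f := fun h =>
      hn (second_bc_loops hl' (bc_of_orb (h ▸ self_mem_orb _ f)))
    have b3 : orb (G.pi (insert f {e})) (G.α e) ≠ orb (G.pi (insert f {e})) f := fun h =>
      hn (le.trans (second_bc_loops hl' (bc_of_orb (h ▸ self_mem_orb _ f))))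
    have : 2 < (G.ess (insert f {e})).card := two_lt_card_iff.2 ⟨_, _, _, a1, a2, a4, b1, b2, b3⟩
    omega

theorem lev_two_iff (hG : G.Good r) (hH : H ⊆ G.D) (hne : H.Nonempty)
    (hp : ∀ e ∈ H, ∀ f ∈ H, G.Par e f → e = f) :
    G.lev H = 2 ↔ ∀ e ∈ H, ∀ f ∈ H, G.Near e f := by
  constructor
  · intro hl e he f hf
    by_cases hef : e = f
    · exact Or.inl hef
    have hK : (insert f {e} : Finset X) ⊆ H := insert_subset hf (singleton_subset_iff.2 he)
    refine second_near hG (hH he) (hH hf) hef (fun h => hef (hp f hf e he h).symm) ?_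
    exact le_antisymm (hl ▸ lev_mono hH hK) (lev_two hG (hK.trans hH) (insert_nonempty _ _))
  · intro h
    obtain ⟨e0, he0⟩ := hne
    by_cases hc : ∀ f ∈ H, f = e0
    · rw [show H = {e0} from eq_singleton_iff_unique_mem.2 ⟨he0, hc⟩]
      exact lev_single hG (hH he0)
    push Not at hc
    obtain ⟨f0, hf0, hfe⟩ := hc
    have l0 : G.σ.SameCycle e0 (G.α e0) := ((h f0 hf0 e0 he0).resolve_left hfe).2.1
    have hl : ∀ e ∈ H, G.σ.SameCycle e (G.α e) ∧ G.σ.SameCycle e0 e := by
      intro e he
      rcases h e0 he0 e he with rfl | h'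
      · exact ⟨l0, Perm.SameCycle.refl _ _⟩
      · exact ⟨h'.2.1, h'.2.2⟩
    have hk := second_kB_loops fun e he => (hl e he).1
    have h1 := lev_eq G H
    have h2 := lev_two hG hH ⟨e0, he0⟩
    by_cases hF : G.Full H
    · rw [hk, gen_full hG hH hF, hF.ess] at h1
      simpa using h1
    rw [hk, gen_zero hH hF] at h1
    have hd : ∀ O ∈ G.ess H, ∃ t ∈ O, G.σ.SameCycle e0 t := by
      intro O hO
      obtain ⟨t, ht, hd | hd⟩ := second_dart hG hO
      · exact ⟨t, ht, (hl t hd).2⟩
      · refine ⟨t, ht, (hl _ hd).2.trans ?_⟩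
        have := (hl _ hd).1
        rwa [G.αα] at this
    have ht : ∀ O ∈ G.ess H, ∀ O' ∈ G.ess H, O ≠ O' → G.cls O = - G.cls O' := by
      intro O hO O' hO' hne
      obtain ⟨t, ht, hs⟩ := hd O hO
      obtain ⟨t', ht', hs'⟩ := hd O' hO'
      exact two hG hO hO' hne ht ht' (second_bc (hs.symm.trans hs'))
    have hc : ¬ 2 < (G.ess H).card := by
      intro hc
      obtain ⟨A, B, C, hA, hB, hC, hAB, hAC, hBC⟩ := two_lt_card_iff.1 hc
      have e1 := ht A hA B hB hAB
      have e2 := ht A hA C hC hAC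
      have e3 := ht B hB C hC hBC
      refine (mem_ess.1 hC).2 ?_
      rw [e2, e3, neg_neg] at e1
      have f1 := congrArg Prod.fst e1
      have f2 := congrArg Prod.snd e1
      simp only [Prod.fst_neg, Prod.snd_neg] at f1 f2
      ext
      · simp only [Prod.fst_zero]; omega
      · simp only [Prod.snd_zero]; omega
    omega

theorem ess_of_lev_two (hG : G.Good r) (hH : H ⊆ G.D) (hc : 2 ≤ H.card)
    (hp : ∀ e ∈ H, ∀ f ∈ H, G.Par e f → e = f) (hl : G.lev H = 2) : G.ess H = ∅ := by
  by_contra hne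
  have h0 : 0 < (G.ess H).card := card_pos.2 (nonempty_iff_ne_empty.2 hne)
  have h1 := lev_eq G H
  have h2 := second_kB_le G H
  have h3 := second_gen_nonneg hH
  have hk : G.kB H = G.V := by omega
  have hF : ¬ G.Full H := fun h => hne h.ess
  obtain ⟨e, he, f, hf, hef⟩ := one_lt_card.1 hc
  have hE : ({e} : Finset X) ⊆ G.D := singleton_subset_iff.2 (hH he)
  have hfe : f ∉ ({e} : Finset X) := fun h => hef (mem_singleton.1 h).symm
  have hK : (insert f {e} : Finset X) ⊆ H := insert_subset hf (singleton_subset_iff.2 he)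
  have hs : (G.pi {e}).SameCycle f (G.α f) := by
    by_contra hs
    exact hF ((merge_in hE (hH hf) hfe hs (second_bc (second_loop_of_kB hk hf))).2.mono hK)
  have hM := second_split hE (hH hf) hfe hs
  have l1 : G.lev {e} = 2 := lev_single hG (hH he)
  have l2 : G.lev (insert f {e}) = 2 :=
    le_antisymm (hl ▸ lev_mono hH hK) (lev_two hG (hK.trans hH) (insert_nonempty _ _))
  have hsum := hM.sum (fun O => if G.cls O = 0 then (1 : ℕ) else 0)
  rw [← card_filter, ← card_filter] at hsum
  change G.tr _ + _ = G.tr _ + _ + _ at hsum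
  simp only [lev, card_insert_of_notMem hfe, card_singleton] at l1 l2
  have hpar : ¬ G.Par f e := fun h => hef (hp f hf e he h).symm
  have fin : ∀ z, z = f ∨ z = G.α f → G.cls (orb (G.pi (insert f {e})) z) ≠ 0 := by
    intro z hz h0
    obtain ⟨a1, a2⟩ := second_both hG (hH he) (hH hf) hef hpar hz hs h0
    have hsub : orb (G.pi (insert f {e})) z ⊆ orb (G.pi {e}) f := by
      rw [hM.union]
      rcases hz with rfl | rfl
      exacts [subset_union_left, subset_union_right]
    exact second_split_single (hH he) (second_loop_of_kB hk he)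
      ((mem_orb.1 (hsub a1)).symm.trans (mem_orb.1 (hsub a2)))
  rw [if_neg (fin _ (Or.inl rfl)), if_neg (fin _ (Or.inr rfl))] at hsum
  omega

theorem second_x_zero : x1 0 = 0 ∧ x2 0 = -1 := by
  simp [x1, x2]

theorem coeff_lev (hG : G.Good r) (h : ¬ G.Crit 1) (hH : H ⊆ G.D) (hne : H.Nonempty) :
    (∀ m, G.top - 4 < m → (G.term H).coeff m = 0) ∧
      (G.lev H ≠ 2 → (G.term H).coeff (G.top - 4) = 0) ∧
      (G.lev H = 2 → ∃ n : ℤ, 1 ≤ n ∧ (G.ess H = ∅ → n = 1) ∧
        (G.term H).coeff (G.top - 4) = (-1) ^ (G.V + H.card) * n) := by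
  have h2 := lev_two hG hH hne
  have htop : G.top + 2 * (-2) = G.top - 4 := by ring
  rcases bound hG hH with hneg | ⟨L, v, hs, v1, v2, v0, hL, hx, -, hS⟩
  · have hb : ∀ S ⊆ G.ess H, x1 (∑ O ∈ S, G.cls O) ≤ 0 ∧ x2 (∑ O ∈ S, G.cls O) ≤ 0 := by
      intro S hS
      rcases neg_cls hneg hS with h0 | h0
      · rw [h0, second_x_zero.1, second_x_zero.2]; omega
      · exact ⟨(x_neg h0).1.le, (x_neg h0).2.1⟩
    obtain ⟨t1, t2⟩ := term_coeff (G := G) (H := H) (-2) fun S hS => by
      have := hb S hS; omega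
    rw [htop] at t1 t2
    refine ⟨t1, fun hl => ?_, fun hl => ?_⟩
    · rw [t2, sum_eq_zero, mul_zero]
      intro S hS
      have := hb S (mem_powerset.1 hS)
      rw [if_neg (by omega), if_neg (by omega), sub_self]
    · have hsign : ((-1 : ℤ)) ^ G.tr H = (-1) ^ (G.V + H.card) := by
        have : G.V + H.card = G.tr H + 2 := by
          simp only [lev] at hl; omega
        rw [this, pow_add]; simp
      rw [hsign, hl] at t2
      refine ⟨_, ?_, ?_, t2⟩
      · have h1 := lev_eq G H
        have h3 := second_kB_le G H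
        have h4 := second_gen_nonneg hH
        rcases (G.ess H).eq_empty_or_nonempty with he | ⟨O, hO⟩
        · rw [he, powerset_empty, sum_singleton, sum_empty, second_x_zero.1, second_x_zero.2]; simp
        obtain ⟨y, hy⟩ := exists_orb (mem_ess.1 hO).1
        obtain ⟨O', hO', hOO, -⟩ := exists_other hG hO (hy ▸ self_mem_orb _ y)
        have he : G.ess H = insert O' {O} := by
          refine (eq_of_subset_of_card_le (insert_subset hO' (singleton_subset_iff.2 hO)) ?_).symm
          rw [card_pair hOO]; omega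
        have hn : O' ∉ ({O} : Finset (Finset X)) := fun h => hOO (mem_singleton.1 h)
        have hsum := sum_cls hG H
        rw [he, sum_insert hn, sum_singleton] at hsum
        have hu : G.cls O' = - G.cls O := eq_neg_of_add_eq_zero_left hsum
        obtain ⟨a1, a2, a3⟩ := x_neg (hneg O hO)
        obtain ⟨b1, b2, -⟩ := x_neg (hneg O' hO')
        have hpw : ({O} : Finset (Finset X)).powerset = insert ∅ {{O}} := by
          ext S; simp [subset_singleton_iff]
        have hne' : (∅ : Finset (Finset X)) ∉ ({{O}} : Finset (Finset (Finset X))) := by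
          rw [mem_singleton]; exact (singleton_ne_empty O).symm
        rw [he, sum_powerset_insert hn, hpw, sum_insert hne', sum_insert hne', sum_singleton,
          sum_singleton, sum_empty, sum_singleton, insert_empty_eq, sum_singleton, sum_insert hn,
          sum_singleton, hsum, second_x_zero.1, second_x_zero.2]
        rw [hu] at b1 b2 ⊢
        split_ifs <;> omega
      · intro he
        rw [he, powerset_empty, sum_singleton, sum_empty, second_x_zero.1, second_x_zero.2]; simp
  · have hL' : x1 v + 1 < L := by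
      by_contra hc
      exact h ⟨L, v, hs, v1, v2, v0, not_lt.1 hc⟩
    obtain ⟨t1, t2⟩ := term_coeff (G := G) (H := H) (-2) fun S hS' => by
      have := hS S hS'; omega
    rw [htop] at t1 t2
    refine ⟨t1, fun _ => ?_, fun hl => by omega⟩
    rw [t2, sum_eq_zero, mul_zero]
    intro S hS'
    have := hS S (mem_powerset.1 hS')
    rw [if_neg (by omega), if_neg (by omega), sub_self]

theorem second_par_bc {e f : X} (h : G.Par e f) (hf : G.Bc H f (G.α f)) : G.Bc H e (G.α e) := by
  have E := bc_equiv G H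
  have sh : ∀ {a b : X} {x : ℤ × ℤ}, G.BW ∅ (a, 0) (b, x) → G.Bc H a b := fun h =>
    Bc.mono (empty_subset _) ⟨_, h⟩
  obtain ⟨x, ⟨h1, h2⟩ | ⟨h1, h2⟩⟩ := h
  · exact E.trans (sh h1) (E.trans hf (E.symm (sh h2)))
  · exact E.trans (sh h1) (E.trans (E.symm hf) (E.symm (sh h2)))

theorem V_le_card (hG : G.Good r) (hne : ∃ y u, u ≠ 0 ∧ G.BW G.D (y, 0) (y, u))
    {Rep Rep' : Finset X} (hR : Rep ⊆ G.D) (hR' : Rep' ⊆ Rep)
    (h1 : ∀ e ∈ G.D, ∃ f ∈ Rep, G.Par e f) (h2 : ∀ e ∈ Rep, ∃ f ∈ Rep', G.Near e f) :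
    G.V ≤ Rep'.card := by
  classical
  obtain ⟨y, u, hu, hw⟩ := hne
  set N := Rep'.filter fun e => ¬ G.σ.SameCycle e (G.α e) with hN
  have hall : ∀ a b, G.Bc N a b := by
    intro a b
    refine second_bc_of (fun e he => ?_) (hG.conn a b)
    obtain ⟨f, hf, hp⟩ := h1 e he
    refine second_par_bc hp ?_
    by_cases hl : G.σ.SameCycle f (G.α f)
    · exact second_bc hl
    obtain ⟨g, hg, rfl | hg'⟩ := h2 f hf
    · exact ⟨_, bw_alpha (Or.inl (mem_filter.2 ⟨hg, hl⟩)) 0⟩
    · exact absurd hg'.1 hl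
  have hV := V_le G N
  rw [kB_one y hall] at hV
  by_cases hl : ∃ e ∈ Rep', G.σ.SameCycle e (G.α e)
  · obtain ⟨e, he, hl⟩ := hl
    have : N.card < Rep'.card :=
      card_lt_card (filter_ssubset.2 ⟨e, he, not_not.2 hl⟩)
    omega
  push Not at hl
  have hNR : N = Rep' := filter_true_of_mem hl
  rw [hNR] at hall
  by_contra hc
  have hD : Rep' ⊆ G.D := hR'.trans hR
  have hw' : G.BW Rep' (y, 0) (y, u) := by
    refine second_bw_of (fun e he x => ?_) hw
    obtain ⟨f, hf, hp⟩ := h1 e he
    obtain ⟨g, hg, rfl | hg'⟩ := h2 f hf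
    · rw [← bw_par hg hp]
      exact bw_alpha (Or.inl (mem_insert_self _ _)) x
    · exact absurd hg'.2.1 (hl g hg)
  have hk := kB_one y hall
  have hpos : 0 < (cyc (G.pi Rep')).card := card_pos.2 ⟨_, orb_mem_cyc _ y⟩
  have hg := second_gen_nonneg hD
  have hgd : G.gen Rep' = 2 * G.kB Rep' - G.V + Rep'.card - (cyc (G.pi Rep')).card := rfl
  have hcc := card_cyc G Rep'
  refine hu (holTriv hG hD (by omega) (fun O hO _ => ?_) hw')
  obtain ⟨t, ht⟩ := exists_orb (mem_ess.1 hO).1
  obtain ⟨O', hO', hOO, -⟩ := exists_other hG hO (ht ▸ self_mem_orb _ t)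
  have : 1 < (G.ess Rep').card := one_lt_card.2 ⟨O', hO', O, hO, hOO⟩
  omega

theorem second (hG : G.Good r) (h : ¬ G.Crit 1)
    (hne : ∃ y u, u ≠ 0 ∧ G.BW G.D (y, 0) (y, u)) : G.Rsum.coeff (G.top - 4) ≠ 0 := by
  classical
  obtain ⟨Rep, hR, hp, h1, hF⟩ := toggle G.Par (par_equiv G) G.D
  obtain ⟨Rep', hR', hp', h2, hF'⟩ := toggle G.Near (near_equiv G) Rep
  have hV := V_le_card hG hne hR hR' h1 h2
  have E := near_equiv G
  have e1 := hF (fun H => (G.term H).coeff (G.top - 4)) (fun H hH e he hn f hf hef => by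
    rw [coeff_par hG hH he hn hf hef,
      (coeff_lev hG h hH ⟨f, hf⟩).1 (G.top - 4 + 4) (by omega), sub_zero])
  let F : Finset X → ℤ := fun H =>
    if H.Nonempty ∧ ∀ e ∈ H, ∀ f ∈ H, G.Near e f then (-1) ^ (H.card + 1) else 0
  have e2 := hF' F (fun H _ e _ hn f hf hef => by
    have hiff : ((insert e H).Nonempty ∧ ∀ a ∈ insert e H, ∀ b ∈ insert e H, G.Near a b) ↔
        (H.Nonempty ∧ ∀ a ∈ H, ∀ b ∈ H, G.Near a b) := by
      refine ⟨fun hh => ⟨⟨f, hf⟩, fun a ha b hb =>
        hh.2 a (mem_insert_of_mem ha) b (mem_insert_of_mem hb)⟩, fun hh =>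
        ⟨insert_nonempty _ _, ?_⟩⟩
      have hf' : ∀ a ∈ insert e H, G.Near a f := fun a ha => by
        rcases mem_insert.1 ha with rfl | ha
        exacts [hef, hh.2 a ha f hf]
      exact fun a ha b hb => E.trans (hf' a ha) (E.symm (hf' b hb))
    simp only [F, hiff, card_insert_of_notMem hn]
    split_ifs
    · ring
    · simp)
  have e3 : ∑ H ∈ Rep'.powerset, F H = Rep'.card := by
    have : ∀ H ∈ Rep'.powerset, F H = if H.card = 1 then 1 else 0 := by
      intro H hH
      have hH' := mem_powerset.1 hH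
      by_cases hc : H.card = 1
      · obtain ⟨a, rfl⟩ := card_eq_one.1 hc
        simp [F, E.refl]
      · rw [if_neg hc]
        refine if_neg fun hh => hc ?_
        obtain ⟨a, ha⟩ := hh.1
        exact card_eq_one.2 ⟨a, eq_singleton_iff_unique_mem.2
          ⟨ha, fun b hb => hp' b (hH' hb) a (hH' ha) (hh.2 b hb a ha)⟩⟩
    rw [sum_congr rfl this, sum_boole, ← powersetCard_eq_filter, card_powersetCard,
      Nat.choose_one_right]
  have hsq : ∀ k : ℕ, ((-1 : ℤ)) ^ (G.V + 1) * (-1) ^ (G.V + k) = (-1) ^ (k + 1) := by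
    intro k
    rw [← pow_add, show G.V + 1 + (G.V + k) = 2 * G.V + (k + 1) by ring, pow_add, pow_mul]
    simp
  have e4 : ∀ H ∈ Rep.powerset, F H + (if H = ∅ then 1 - (G.V : ℤ) else 0) ≤
      (-1) ^ (G.V + 1) * (G.term H).coeff (G.top - 4) := by
    intro H hH
    have hH' := mem_powerset.1 hH
    rcases H.eq_empty_or_nonempty with rfl | hn
    · have := hsq 0
      rw [add_zero] at this
      rw [(term_empty hG).2.2, ← mul_assoc, this]
      simp [F]
    rw [if_neg hn.ne_empty, add_zero]
    have hpH : ∀ e ∈ H, ∀ f ∈ H, G.Par e f → e = f := fun e he f hf => hp e (hH' he) f (hH' hf)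
    have hiff := lev_two_iff hG (hH'.trans hR) hn hpH
    obtain ⟨-, c1, c2⟩ := coeff_lev hG h (hH'.trans hR) hn
    by_cases hl : G.lev H = 2
    · obtain ⟨n, n1, n2, n3⟩ := c2 hl
      rw [n3, ← mul_assoc, hsq]
      simp only [F, if_pos (And.intro hn (hiff.1 hl))]
      by_cases hc : 2 ≤ H.card
      · rw [n2 (ess_of_lev_two hG (hH'.trans hR) hc hpH hl), mul_one]
      · have : H.card = 1 := by have := card_pos.2 hn; omega
        rw [this]; simpa using n1
    · rw [c1 hl, mul_zero]
      exact (if_neg fun hh => hl (hiff.2 hh.2)).le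
  have e5 := sum_le_sum e4
  rw [sum_add_distrib, e2, e3, sum_ite_eq', if_pos (empty_mem_powerset _), ← mul_sum, ← e1,
    ← coeff_Rsum] at e5
  intro h0
  rw [h0, mul_zero] at e5
  omega

end TD

end Pool.Agent.Lib.MP_7bc610_gt.Ta
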