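import Pool.Agent.Lib.MP_7bc610_gt.Ta.Coef

/-! The exceptional case: all short systems have class `(2, 2)` and eight edges. -/

namespace Pool.Agent.Lib.MP_7bc610_gt.Ta

open Equiv Finset LaurentPolynomial

variable {X : Type} [Fintype X] [DecidableEq X]

namespace TD

variable {G : TD X} {H O : Finset X} {r : ℝ}

theorem spec_state (hG : G.Good r) (h : G.Spec) (hH : H ⊆ G.D) (hO : O ∈ G.ess H)
    (hpos : 0 ≤ (G.cls O).1 * (G.cls O).2) {K : Finset X} (hK : K ⊆ H) (hm : (4, 4) ≤ G.mu K)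
    (hc : K.card ≤ 8) : K.card = 8 ∧ G.mu K = (4, 4) := by
  obtain ⟨v, hv, h2⟩ := sys_of_state hG (hK.trans hH) (pos_sub hK hO hpos)
  rw [← h2] at hm
  have h1 : 4 ≤ 2 * v.1 := by simpa using hm.1
  have h3 : 4 ≤ 2 * v.2 := by simpa using hm.2
  have hne : v ≠ 0 := by
    rintro rfl
    simp at h1
  have hc' : (K.card : ℤ) ≤ 8 := by exact_mod_cast hc
  obtain ⟨a, b⟩ := h K.card v hv (by omega) (by omega) hne (by unfold x1; nlinarith)
  refine ⟨a, ?_⟩
  rw [← h2, b]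
  rfl

theorem spec_erase {K : Finset X} (hK : K ⊆ G.D) {z : X} (hz : z ∈ K ∨ G.α z ∈ K) :
    ∃ y ∈ K, (y = z ∨ y = G.α z) ∧ z ≠ G.α z ∧ G.pi (K.erase y) = G.pi K * swap z (G.α z) := by
  have key : ∀ y ∈ K, G.pi (K.erase y) = G.pi K * swap y (G.α y) := by
    intro y hy
    have := pi_insert (G := G) ((erase_subset y K).trans hK) (hK hy) (notMem_erase y K)
    rw [insert_erase hy] at this
    rw [this, mul_assoc, swap_mul_self, mul_one]
  rcases hz with hz | hz
  · exact ⟨z, hz, Or.inl rfl, ne_alpha (hK hz), key z hz⟩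
  · refine ⟨G.α z, hz, Or.inr rfl, ?_, ?_⟩
    · have := ne_alpha (hK hz)
      rw [G.αα] at this
      exact this.symm
    · rw [key _ hz, G.αα, swap_comm]

theorem spec_mu {K K' : Finset X} {a b : X} (h : Mrg (G.pi K) (G.pi K') a b) :
    G.cls (orb (G.pi K') a) = G.cls (orb (G.pi K) a) + G.cls (orb (G.pi K) b) ∧
    (G.mu K).1 + |(G.cls (orb (G.pi K') a)).1| =
      (G.mu K').1 + |(G.cls (orb (G.pi K) a)).1| + |(G.cls (orb (G.pi K) b)).1| ∧
    (G.mu K).2 + |(G.cls (orb (G.pi K') a)).2| =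
      (G.mu K').2 + |(G.cls (orb (G.pi K) a)).2| + |(G.cls (orb (G.pi K) b)).2| ∧
    (G.tr K : ℤ) + (if G.cls (orb (G.pi K') a) = 0 then 1 else 0) =
      G.tr K' + (if G.cls (orb (G.pi K) a) = 0 then 1 else 0) +
        (if G.cls (orb (G.pi K) b) = 0 then 1 else 0) := by
  have h1 := h.sum fun O => ((|(G.cls O).1|, |(G.cls O).2|) : ℤ × ℤ)
  have h2 := h.sum fun O => (if G.cls O = 0 then 1 else 0 : ℤ)
  refine ⟨h.add G.η, congrArg Prod.fst h1, congrArg Prod.snd h1, ?_⟩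
  simp only [tr, card_filter, Nat.cast_sum, Nat.cast_ite, Nat.cast_one, Nat.cast_zero]
  exact h2

theorem spec_disj {π : Perm X} {A B : Finset X} (hA : A ∈ cyc π) (hB : B ∈ cyc π) {y : X}
    (ha : y ∈ A) (hb : y ∈ B) : A = B := (eq_orb hA ha).trans (eq_orb hB hb).symm

theorem eight (hG : G.Good r) (h : G.Spec) (hH : H ⊆ G.D)
    (hp : ∀ e ∈ H, ∀ f ∈ H, G.Par e f → e = f) (hl : G.lev H = 16) (hm : (4, 4) ≤ G.mu H)
    (hO : O ∈ G.ess H) (hpos : 0 ≤ (G.cls O).1 * (G.cls O).2) : H.card = 8 := by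
  obtain ⟨H0, hs0, hmu0, hc0, hx⟩ := extract hG hH ⟨O, hO⟩
  have hl0 : G.lev H0 ≤ 16 := hl ▸ lev_mono hH hs0
  obtain ⟨h8, hm0⟩ := spec_state hG h hH hO hpos hs0 (hm.trans hmu0) (by omega)
  have hl0' : G.lev H0 = 16 := by omega
  by_contra hne
  obtain ⟨e, heH, he0⟩ : ∃ e ∈ H, e ∉ H0 := by
    by_contra hcon
    push Not at hcon
    exact hne (by rw [← h8, Subset.antisymm hs0 hcon])
  have hD0 : H0 ⊆ G.D := hs0.trans hH
  have hs1 : insert e H0 ⊆ H := insert_subset heH hs0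
  have hD1 : insert e H0 ⊆ G.D := hs1.trans hH
  have hl1 : G.lev (insert e H0) = 16 :=
    le_antisymm (hl ▸ lev_mono hH hs1) (hl0' ▸ lev_mono hD1 (subset_insert _ _))
  have hm1 : G.mu (insert e H0) = (4, 4) :=
    le_antisymm (hm0 ▸ mu_anti hD1 (subset_insert _ _) (hl1.trans hl0'.symm))
      (hm.trans (mu_anti hH hs1 (hl.trans hl1.symm)))
  have hc1 : (insert e H0).card = 9 := by rw [card_insert_of_notMem he0, h8]
  have htr : (G.tr (insert e H0) : ℤ) = G.tr H0 + 1 := by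
    have a := hl1
    have b := hl0'
    unfold lev at a b
    rw [hc1] at a
    rw [h8] at b
    push_cast at a b
    omega
  have hpi := pi_insert hD0 (hH heH) he0
  by_cases hsc : (G.pi H0).SameCycle e (G.α e)
  swap
  · have hM := merge hsc
    rw [← hpi] at hM
    obtain ⟨-, a1, a2, a3⟩ := spec_mu hM
    rw [hm0, hm1] at a1 a2
    rw [htr] at a3
    have hz : G.cls (orb (G.pi (insert e H0)) e) = 0 ∧ G.cls (orb (G.pi H0) e) ≠ 0 := by
      split_ifs at a3 <;> first | omega | exact ⟨by assumption, by assumption⟩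
    rw [hz.1] at a1 a2
    apply hz.2
    have b1 := abs_nonneg (G.cls (orb (G.pi H0) e)).1
    have b2 := abs_nonneg (G.cls (orb (G.pi H0) e)).2
    have b3 := abs_nonneg (G.cls (orb (G.pi H0) (G.α e))).1
    have b4 := abs_nonneg (G.cls (orb (G.pi H0) (G.α e))).2
    simp only [Prod.fst_zero, Prod.snd_zero, abs_zero] at a1 a2
    ext
    · exact abs_eq_zero.1 (by omega)
    · exact abs_eq_zero.1 (by omega)
  have hM := split (ne_alpha (hH heH)) hsc
  rw [← hpi] at hM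
  obtain ⟨z, hz, hz0⟩ : ∃ z, (z = e ∨ z = G.α e) ∧ G.cls (orb (G.pi (insert e H0)) z) = 0 := by
    obtain ⟨-, -, -, a3⟩ := spec_mu hM
    rw [htr] at a3
    by_cases b : G.cls (orb (G.pi (insert e H0)) e) = 0
    · exact ⟨e, Or.inl rfl, b⟩
    · refine ⟨G.α e, Or.inr rfl, ?_⟩
      split_ifs at a3 <;> first | omega | assumption
  obtain ⟨z₁, z₂, hne12, hz1, hz2, hd1, hd2⟩ := two_more hG hD0 (hH heH) he0 hz hsc hz0
    fun f hf hpar => he0 (hp e heH f (hs0 hf) hpar ▸ hf)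
  have hsub : orb (G.pi (insert e H0)) z ⊆ orb (G.pi H0) e := by
    rw [hM.union]
    rcases hz with rfl | rfl
    · exact subset_union_left
    · exact subset_union_right
  have hx' : ∀ y, y ∈ H0 ∨ G.α y ∈ H0 → ¬ (G.pi H0).SameCycle y (G.α y) ∧
      G.cls (orb (G.pi H0) y) ≠ 0 ∧ G.cls (orb (G.pi H0) (G.α y)) ≠ 0 := by
    rintro y (hy | hy)
    · exact hx y hy
    · obtain ⟨a, b, c⟩ := hx _ hy
      rw [G.αα] at a c
      exact ⟨fun hc => a hc.symm, c, b⟩
  have hoth : ∀ y, y ∈ orb (G.pi H0) e → y ∈ H0 ∨ G.α y ∈ H0 →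
      orb (G.pi H0) (G.α y) ∈ G.ess H0 ∧ orb (G.pi H0) e ≠ orb (G.pi H0) (G.α y) ∧
        G.Bc H0 e (G.α y) ∧ G.cls (orb (G.pi H0) e) = - G.cls (orb (G.pi H0) (G.α y)) := by
    intro y hy hd
    obtain ⟨a, b, c⟩ := hx' y hd
    have e1 : orb (G.pi H0) (G.α y) ∈ G.ess H0 := mem_ess.2 ⟨orb_mem_cyc _ _, c⟩
    have e2 : orb (G.pi H0) e ≠ orb (G.pi H0) (G.α y) := by
      intro hc
      rw [hc] at hy
      exact a (mem_orb.1 hy).symm
    have e3 : G.Bc H0 e (G.α y) :=
      (G.bc_equiv H0).trans (bc_of_orb hy) ⟨0, bw_alpha hd 0⟩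
    refine ⟨e1, e2, e3, two hG (mem_ess.2 ⟨orb_mem_cyc _ _, ?_⟩) e1 e2 (self_mem_orb _ _)
      (self_mem_orb _ _) e3⟩
    rw [← orb_eq hy]
    exact b
  obtain ⟨p1, p2, p3, p4⟩ := hoth z₁ (hsub hz1) hd1
  obtain ⟨q1, q2, q3, q4⟩ := hoth z₂ (hsub hz2) hd2
  have hsame : orb (G.pi H0) (G.α z₁) = orb (G.pi H0) (G.α z₂) := by
    by_contra hc
    have a := two hG p1 q1 hc (self_mem_orb _ _) (self_mem_orb _ _)
      ((G.bc_equiv H0).trans ((G.bc_equiv H0).symm p3) q3)
    rw [← q4, p4] at a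
    apply (mem_ess.1 p1).2
    have a1 := congrArg Prod.fst a
    have a2 := congrArg Prod.snd a
    simp only [Prod.fst_neg, Prod.snd_neg] at a1 a2
    ext
    · simp only [Prod.fst_zero]; omega
    · simp only [Prod.snd_zero]; omega
  have hcyc : orb (G.pi H0) (G.α z₁) ∈ cyc (G.pi (insert e H0)) := by
    refine (hM.mem (fun hc => p2 ?_) (fun hc => p2 ?_)).2 (orb_mem_cyc _ _)
    · exact spec_disj (orb_mem_cyc _ _) (orb_mem_cyc _ _) (self_mem_orb _ _) hc
    · exact spec_disj (orb_mem_cyc _ _) (orb_mem_cyc _ _) (mem_orb.2 hsc) hc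
  have ho1 : orb (G.pi (insert e H0)) (G.α z₁) = orb (G.pi H0) (G.α z₁) :=
    (eq_orb hcyc (self_mem_orb _ _)).symm
  have ho2 : orb (G.pi (insert e H0)) z₁ = orb (G.pi (insert e H0)) z := orb_eq hz1
  have hdis : ∀ y ∈ orb (G.pi (insert e H0)) z, y ∉ orb (G.pi H0) (G.α z₁) := fun y a b =>
    p2 (spec_disj (orb_mem_cyc _ _) (orb_mem_cyc _ _) (hsub a) b)
  have hns : ¬ (G.pi (insert e H0)).SameCycle z₁ (G.α z₁) := by
    intro hc
    have := mem_orb.2 hc
    rw [ho2] at this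
    exact hdis _ this (self_mem_orb _ _)
  obtain ⟨y₁, hy1, hy1', -, hpi1⟩ := spec_erase hD1 (z := z₁)
    (hd1.imp mem_insert_of_mem mem_insert_of_mem)
  have hM1 := merge hns
  rw [← hpi1] at hM1
  obtain ⟨c0, c1, c2, -⟩ := spec_mu hM1
  rw [ho2, hz0] at c0 c1 c2
  rw [c0, hm1, zero_add] at c1 c2
  simp only [Prod.fst_zero, Prod.snd_zero, abs_zero] at c1 c2
  have hun := hM1.union
  rw [ho1, ho2] at hun
  have hz2' : G.α z₂ ∈ orb (G.pi H0) (G.α z₁) := hsame ▸ self_mem_orb _ _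
  have hsc2 : (G.pi ((insert e H0).erase y₁)).SameCycle z₂ (G.α z₂) := by
    have a : z₂ ∈ orb (G.pi ((insert e H0).erase y₁)) z₁ := hun ▸ mem_union_left _ hz2
    have b : G.α z₂ ∈ orb (G.pi ((insert e H0).erase y₁)) z₁ := hun ▸ mem_union_right _ hz2'
    exact (mem_orb.1 a).symm.trans (mem_orb.1 b)
  have hd2' : z₂ ∈ (insert e H0).erase y₁ ∨ G.α z₂ ∈ (insert e H0).erase y₁ := by
    have a : z₂ ≠ y₁ := by
      rcases hy1' with rfl | rfl
      · exact hne12.symm
      · intro hc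
        exact hdis _ hz2 (hc ▸ self_mem_orb _ _)
    have b : G.α z₂ ≠ y₁ := by
      rcases hy1' with rfl | rfl
      · intro hc
        exact hdis _ hz1 (hc ▸ hz2')
      · exact fun hc => hne12 (G.α.injective hc).symm
    exact hd2.imp (fun hc => mem_erase.2 ⟨a, mem_insert_of_mem hc⟩)
      fun hc => mem_erase.2 ⟨b, mem_insert_of_mem hc⟩
  obtain ⟨y₂, hy2, -, hne2, hpi2⟩ := spec_erase ((erase_subset _ _).trans hD1) hd2'
  have hM2 := split hne2 hsc2
  rw [← hpi2] at hM2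
  obtain ⟨d0, d1, d2, -⟩ := spec_mu hM2
  rw [d0] at d1 d2
  have t1 := abs_add_le (G.cls (orb (G.pi (((insert e H0).erase y₁).erase y₂)) z₂)).1
    (G.cls (orb (G.pi (((insert e H0).erase y₁).erase y₂)) (G.α z₂))).1
  have t2 := abs_add_le (G.cls (orb (G.pi (((insert e H0).erase y₁).erase y₂)) z₂)).2
    (G.cls (orb (G.pi (((insert e H0).erase y₁).erase y₂)) (G.α z₂))).2
  simp only [Prod.fst_add, Prod.snd_add] at d1 d2
  have hc2 : (((insert e H0).erase y₁).erase y₂).card = 7 := by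
    rw [card_erase_of_mem hy2, card_erase_of_mem hy1, hc1]
  have := (spec_state hG h hH hO hpos (K := ((insert e H0).erase y₁).erase y₂)
    (((erase_subset _ _).trans (erase_subset _ _)).trans hs1)
    ⟨by simp only; omega, by simp only; omega⟩ (by omega)).1
  omega

theorem spec_bound (hG : G.Good r) (h : G.Spec) (hH : H ⊆ G.D) (hne : H.Nonempty)
    {S : Finset (Finset X)} (hS : S ⊆ G.ess H) :
    2 * x1 (∑ O ∈ S, G.cls O) - G.lev H ≤ 0 ∧ 2 * x2 (∑ O ∈ S, G.cls O) - G.lev H < 0 ∧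
      (2 * x1 (∑ O ∈ S, G.cls O) - G.lev H = 0 → G.lev H = 16 ∧ (4, 4) ≤ G.mu H ∧
        ∃ O ∈ G.ess H, 0 ≤ (G.cls O).1 * (G.cls O).2) := by
  have h2 := lev_two hG hH hne
  rcases bound hG hH with hb | ⟨L, v, hs, h1, h1', hv, hL, hx, hO, hb⟩
  · rcases neg_cls hb hS with h0 | h0
    · rw [h0]
      simp only [x1, x2, Prod.fst_zero, Prod.snd_zero]
      exact ⟨by omega, by omega, fun _ => by omega⟩
    · obtain ⟨a, b, -⟩ := x_neg h0
      exact ⟨by omega, by omega, fun _ => by omega⟩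
  · obtain ⟨b1, b2, b3, b4⟩ := hb S hS
    have hs' := h L v hs h1 h1' hv
    have hle : x1 v ≤ L := by
      by_contra hc
      obtain ⟨rfl, rfl⟩ := hs' (by omega)
      simp [x1] at hc
    refine ⟨by omega, by omega, fun h0 => ?_⟩
    obtain ⟨rfl, rfl⟩ := hs' (by omega)
    have e8 : x1 (2, 2) = 8 := by simp [x1]
    rw [e8] at b3
    have hx8 : x1 (∑ O ∈ S, G.cls O) = 8 := by push_cast at hL; omega
    obtain ⟨c1, c2⟩ := cls_sub hG hS
    refine ⟨by omega, ?_, hO⟩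
    generalize ∑ O ∈ S, G.cls O = u at *
    obtain ⟨u1, u2⟩ := u
    simp only [x1, abs_le] at b1 b2 hx8
    obtain ⟨b1, b1'⟩ := b1
    obtain ⟨b2, b2'⟩ := b2
    have e1 : u1 = 2 := by nlinarith
    have e2 : u2 = 2 := by nlinarith
    subst e1 e2
    exact ⟨by simpa using c1, by simpa using c2⟩

theorem topAt_of_spec (hG : G.Good r) (h : G.Spec) : G.TopAt := by
  have hc : ∀ H ⊆ G.D, H.Nonempty → (∀ m, G.top < m → (G.term H).coeff m = 0) ∧
      (G.term H).coeff G.top = (-1) ^ G.tr H * ∑ S ∈ (G.ess H).powerset,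
        (if 2 * x1 (∑ O ∈ S, G.cls O) - G.lev H = 0 then 1 else 0 : ℤ) := by
    intro H hH hne
    have := term_coeff (G := G) (H := H) 0 fun S hS =>
      ⟨(spec_bound hG h hH hne hS).1, (spec_bound hG h hH hne hS).2.1.le⟩
    simp only [mul_zero, add_zero] at this
    refine ⟨this.1, this.2.trans ?_⟩
    congr 1
    refine sum_congr rfl fun S hS => ?_
    rw [if_neg (spec_bound hG h hH hne (mem_powerset.1 hS)).2.1.ne, sub_zero]
  constructor
  · intro m hm
    rw [coeff_Rsum]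
    refine sum_eq_zero fun H hH => ?_
    rcases H.eq_empty_or_nonempty with rfl | hne
    · exact (term_empty hG).1 m hm
    · exact (hc H (mem_powerset.1 hH) hne).1 m hm
  · obtain ⟨Rep, hRD, hR, -, hF⟩ := toggle G.Par G.par_equiv G.D
    rw [coeff_Rsum, hF (fun H => (G.term H).coeff G.top) fun H hH e he hn f hf hpar => by
      rw [coeff_par hG hH he hn hf hpar, (hc H hH ⟨f, hf⟩).1 (G.top + 4) (by omega), sub_zero]]
    have hpos : 0 < ∑ H ∈ Rep.powerset, (-1) ^ G.V * (G.term H).coeff G.top := by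
      refine sum_pos' (fun H hH => ?_) ⟨∅, empty_mem_powerset _, ?_⟩
      · rcases H.eq_empty_or_nonempty with rfl | hne
        · rw [(term_empty hG).2.1, ← sq]
          exact sq_nonneg _
        · have hH' := mem_powerset.1 hH
          have hHD := hH'.trans hRD
          rw [(hc H hHD hne).2]
          by_cases hex : ∃ S ⊆ G.ess H, 2 * x1 (∑ O ∈ S, G.cls O) - G.lev H = 0
          · obtain ⟨S, hS, h0⟩ := hex
            obtain ⟨a, b, O, hO, hp⟩ := (spec_bound hG h hHD hne hS).2.2 h0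
            have h8 := eight hG h hHD (fun e he f hf => hR e (hH' he) f (hH' hf)) a b hO hp
            have hV : G.V = G.tr H + 8 := by
              unfold lev at a
              rw [h8] at a
              push_cast at a
              omega
            rw [hV, ← mul_assoc, ← pow_add, Even.neg_one_pow ⟨G.tr H + 4, by ring⟩, one_mul]
            exact sum_nonneg fun S _ => by split_ifs <;> norm_num
          · push Not at hex
            rw [sum_eq_zero fun S hS => if_neg (hex S (mem_powerset.1 hS))]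
            simp
      · rw [(term_empty hG).2.1, ← pow_add, Even.neg_one_pow ⟨G.V, rfl⟩]
        exact one_pos
    rw [← mul_sum] at hpos
    intro h0
    rw [h0, mul_zero] at hpos
    exact lt_irrefl _ hpos

end TD

end Pool.Agent.Lib.MP_7bc610_gt.Ta
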