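import Pool.Agent.Lib.MP_7bc610_gt.Ta.Cost
import Pool.Agent.Lib.MP_7bc610_gt.Ta.Spec
import Pool.Agent.Lib.MP_7bc610_gt.Ta.Second

/-! Duality and the abstract form of the theorem. -/

namespace Pool.Agent.Lib.MP_7bc610_gt.Ta

open Equiv Finset LaurentPolynomial

variable {X : Type} [Fintype X] [DecidableEq X]

namespace TD

variable {G : TD X} {r : ℝ}

theorem dual_ext {G G' : TD X} (h1 : G.σ = G'.σ) (h2 : G.α = G'.α) (h3 : G.η = G'.η)
    (h4 : G.D = G'.D) : G = G' := by
  cases G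
  cases G'
  simp only at h1 h2 h3 h4
  subst h1 h2 h3 h4
  rfl

theorem dual_sigma (G : TD X) : G.dual.σ = G.σ * G.α := rfl

theorem dual_alpha (G : TD X) : G.dual.α = G.α := rfl

theorem dual_D (G : TD X) : G.dual.D = G.D := rfl

theorem dual_eta (G : TD X) (y : X) : G.dual.η y = ((G.η y).1, -(G.η y).2) := rfl

theorem dual_sigma_alpha (G : TD X) : G.dual.σ * G.dual.α = G.σ := by
  ext y
  simp only [dual_sigma, dual_alpha, Perm.mul_apply, G.αα]

theorem dual_cls (G : TD X) (O : Finset X) : G.dual.cls O = ((G.cls O).1, -(G.cls O).2) := by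
  ext
  · simp [cls, dual_eta, Prod.fst_sum]
  · simp [cls, dual_eta, Prod.snd_sum]

theorem dual_cls_zero (G : TD X) (O : Finset X) : G.dual.cls O = 0 ↔ G.cls O = 0 := by
  rw [dual_cls, Prod.ext_iff, Prod.ext_iff]
  simp

theorem dual_dual (G : TD X) : G.dual.dual = G := by
  refine dual_ext (dual_sigma_alpha G) rfl ?_ rfl
  funext y
  rw [dual_eta, dual_eta]
  simp

theorem dual_bc_alpha (G : TD X) (y : X) : G.dual.Bc G.D y (G.α y) := by
  by_cases h : G.α y = y
  · rw [h]
    exact (bc_equiv G.dual G.D).refl y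
  · exact ⟨0, bw_alpha (G := G.dual) (G.cov y h) 0⟩

theorem dual_bc_sigma (G : TD X) (y : X) : G.dual.Bc G.D y (G.σ y) := by
  refine (bc_equiv G.dual G.D).trans (dual_bc_alpha G y) ?_
  have h := bw_sigma (G := G.dual) (H := G.D) (G.α y) 0
  have e : G.dual.σ (G.α y) = G.σ y := by
    simp only [dual_sigma, Perm.mul_apply, G.αα]
  rw [e] at h
  exact ⟨_, h⟩

theorem dual_bc_of_bw {a b : X × (ℤ × ℤ)} (h : G.BW G.D a b) : G.dual.Bc G.D a.1 b.1 := by
  induction h with
  | rel a b hab =>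
    cases hab with
    | face y x => exact dual_bc_sigma G y
    | edge y x _ => exact dual_bc_alpha G y
  | refl a => exact (bc_equiv G.dual G.D).refl _
  | symm a b _ ih => exact (bc_equiv G.dual G.D).symm ih
  | trans a b c _ _ ih1 ih2 => exact (bc_equiv G.dual G.D).trans ih1 ih2

theorem Good.dual (hG : G.Good r) : G.dual.Good r := by
  refine ⟨fun y z => ?_, fun y => ?_, fun y => ?_, hG.redW, ?_, ?_, ?_, hG.cross⟩
  · obtain ⟨v, hv⟩ := hG.conn y z
    exact dual_bc_of_bw hv
  · rw [dual_cls_zero]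
    exact hG.discW y
  · rw [dual_cls_zero, dual_sigma_alpha]
    exact hG.discB y
  · rw [dual_dual]
    exact hG.redB
  · obtain ⟨θ, hB, hW, h1, h2, h3⟩ := hG.pot1
    refine ⟨-θ, hW, hB, fun y => ?_, fun y => ?_, fun y => ?_⟩
    · rw [abs_sub_comm]
      exact h1 y
    · have := h3 y
      simp only [lin, dual_sigma, dual_eta, Perm.mul_apply, Int.cast_neg] at this ⊢
      linarith
    · have := h2 y
      simp only [lin, dual_sigma, dual_alpha, dual_eta, Perm.mul_apply, G.αα, Int.cast_neg]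
        at this ⊢
      linarith
  · obtain ⟨θ, hB, hW, h1, h2, h3⟩ := hG.pot2
    refine ⟨-θ, fun y => -hW y, fun y => -hB y, fun y => ?_, fun y => ?_, fun y => ?_⟩
    · rw [show -hW y - -hB y = hB y - hW y by ring]
      exact h1 y
    · have := h3 y
      simp only [lin, dual_sigma, dual_eta, Perm.mul_apply, Int.cast_neg] at this ⊢
      linarith
    · have := h2 y
      simp only [lin, dual_sigma, dual_alpha, dual_eta, Perm.mul_apply, G.αα, Int.cast_neg]
        at this ⊢
      linarith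

theorem dual_phi (v : ℤ × ℤ) : phi (v.1, -v.2) = - invert (phi v) := by
  rw [phi, phi, map_sub, invert_T, invert_T, neg_sub]
  congr 2
  · simp only [x1, x2]; ring
  · simp only [x1, x2]; ring

theorem dual_loop : invert loopVal = loopVal := by
  rw [loopVal, map_sub, map_neg, invert_T, invert_T, neg_neg]
  ring

theorem dual_term {H : Finset X} (hH : H ⊆ G.D) :
    G.dual.term (G.D \ H) = - invert (G.term H) := by
  have he : G.dual.ess (G.D \ H) = G.ess H := by
    rw [ess, ess, dual_pi hH]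
    refine Finset.filter_congr fun O _ => ?_
    rw [Ne, Ne, dual_cls_zero]
  have ht : G.dual.tr (G.D \ H) = G.tr H := by
    rw [tr, tr, dual_pi hH]
    congr 1
    exact Finset.filter_congr fun O _ => dual_cls_zero G O
  have hc : ((G.D \ H).card : ℤ) = G.D.card - H.card := by
    rw [Finset.card_sdiff_of_subset hH, Nat.cast_sub (Finset.card_le_card hH)]
  have hs : ∀ S : Finset (Finset X), ∑ O ∈ S, G.dual.cls O =
      ((∑ O ∈ S, G.cls O).1, -(∑ O ∈ S, G.cls O).2) := by
    intro S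
    ext
    · simp [dual_cls, Prod.fst_sum]
    · simp [dual_cls, Prod.snd_sum]
  rw [term, term, he, ht, hc, dual_D, map_mul, map_mul, map_pow, invert_T, dual_loop, map_sum,
    ← mul_neg, ← Finset.sum_neg_distrib]
  congr 1
  · congr 2
    ring
  · exact Finset.sum_congr rfl fun S _ => by rw [hs, dual_phi]

theorem dual_Rsum (G : TD X) : G.dual.Rsum = - invert G.Rsum := by
  rw [Rsum, Rsum, map_sum, ← Finset.sum_neg_distrib, dual_D]
  symm
  refine Finset.sum_nbij' (fun H => G.D \ H) (fun H => G.D \ H) ?_ ?_ ?_ ?_ ?_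
  · intro H _
    exact Finset.mem_powerset.2 Finset.sdiff_subset
  · intro H _
    exact Finset.mem_powerset.2 Finset.sdiff_subset
  · intro H hH
    exact Finset.sdiff_sdiff_eq_self (Finset.mem_powerset.1 hH)
  · intro H hH
    exact Finset.sdiff_sdiff_eq_self (Finset.mem_powerset.1 hH)
  · intro H hH
    exact (dual_term (Finset.mem_powerset.1 hH)).symm

/-- The state sum has the shape of that of a trivial knot. -/
def Triv (G : TD X) : Prop :=
  ∃ k : ℤ, G.Rsum = T (k + 4) - T (k - 4) ∨ G.Rsum = -(T (k + 4) - T (k - 4))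

theorem dual_shape {k : ℤ}
    (h : G.Rsum = T (k + 4) - T (k - 4) ∨ G.Rsum = -(T (k + 4) - T (k - 4))) :
    G.dual.Rsum = T (-k + 4) - T (-k - 4) ∨ G.dual.Rsum = -(T (-k + 4) - T (-k - 4)) := by
  have e : - invert (T (k + 4) - T (k - 4) : ℤ[T;T⁻¹]) = T (-k + 4) - T (-k - 4) := by
    rw [map_sub, invert_T, invert_T, neg_sub, show -(k - 4) = -k + 4 by ring,
      show -(k + 4) = -k - 4 by ring]
  rcases h with h | h
  · left
    rw [dual_Rsum, h, e]
  · right
    rw [dual_Rsum, h, map_neg, ← e]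

theorem dual_coeff {k : ℤ}
    (h : G.Rsum = T (k + 4) - T (k - 4) ∨ G.Rsum = -(T (k + 4) - T (k - 4))) (m : ℤ) :
    G.Rsum.coeff m ≠ 0 ↔ m = k + 4 ∨ m = k - 4 := by
  have e : (T (k + 4) - T (k - 4) : ℤ[T;T⁻¹]).coeff m ≠ 0 ↔ m = k + 4 ∨ m = k - 4 := by
    rw [coef_sub, T_apply, T_apply]
    by_cases h1 : k + 4 = m
    · rw [if_pos h1, if_neg (by omega)]
      simp [h1.symm]
    · by_cases h2 : k - 4 = m
      · rw [if_neg h1, if_pos h2]
        simp [h2.symm]
      · rw [if_neg h1, if_neg h2]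
        simp only [sub_self, ne_eq, not_true_eq_false, false_iff]
        omega
  rcases h with h | h
  · rw [h, e]
  · rw [h, coef_neg, neg_ne_zero, e]

theorem dual_top {k : ℤ}
    (h : G.Rsum = T (k + 4) - T (k - 4) ∨ G.Rsum = -(T (k + 4) - T (k - 4))) (h1 : G.TopAt) :
    G.top = k + 4 := by
  have a1 := (dual_coeff h G.top).1 h1.2
  have a2 : ¬ G.top < k + 4 := fun hl => (dual_coeff h (k + 4)).2 (Or.inl rfl) (h1.1 _ hl)
  omega

theorem dual_five (hG : G.Good r) : 5 ≤ G.top := by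
  obtain ⟨y, hy⟩ := hG.cross
  have h1 : 1 ≤ G.D.card := Finset.card_pos.2 ⟨y, hy⟩
  have h2 : 1 ≤ G.V := Finset.card_pos.2 ⟨_, orb_mem_cyc G.σ y⟩
  rw [top]
  omega

theorem Triv.dual (h : G.Triv) : G.dual.Triv := by
  obtain ⟨k, hk⟩ := h
  exact ⟨-k, dual_shape hk⟩

theorem not_triv_of_tops (hG : G.Good r) (h1 : G.TopAt) (h2 : G.dual.TopAt) : ¬ G.Triv := by
  rintro ⟨k, hk⟩
  have a1 := dual_top hk h1
  have a2 := dual_top (dual_shape hk) h2
  have b1 := dual_five hG
  have b2 := dual_five hG.dual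
  omega

theorem not_triv_of_second (h1 : G.TopAt) (h2 : G.Rsum.coeff (G.top - 4) ≠ 0) : ¬ G.Triv := by
  rintro ⟨k, hk⟩
  have a1 := dual_top hk h1
  have a2 := (dual_coeff hk _).1 h2
  omega

theorem not_triv_of_crit (hG : G.Good 6) (h : G.dual.Crit 0) : ¬ G.Triv := by
  obtain ⟨L', v', hS', h1', h2', h0', hL'⟩ := h
  rw [add_zero] at hL'
  have hn : ¬ G.Crit 0 := by
    rintro ⟨L, v, hS, h1, h2, h0, hL⟩
    obtain ⟨e1, e2, -, -⟩ := crit_crit hG hS h1 h2 h0 (by omega) hS' h1' h2' h0' hL'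
    rw [e1, e2] at hL
    simp [x1] at hL
  have ht := topAt_of_not_crit hG hn
  by_cases hc : G.Crit 1
  · obtain ⟨L, v, hS, h1, h2, h0, hL⟩ := hc
    have hs : G.dual.Spec := by
      intro L2 v2 hS2 a1 a2 a0 aL
      obtain ⟨-, -, e1, e2⟩ := crit_crit hG hS h1 h2 h0 hL hS2 a1 a2 a0 aL
      exact ⟨e1, e2⟩
    exact not_triv_of_tops hG ht (topAt_of_spec hG.dual hs)
  · exact not_triv_of_second ht (second hG hc (walk_of_sys hS' h0'))

theorem not_triv (hG : G.Good 6) : ¬ G.Triv := by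
  by_cases h1 : G.dual.Crit 0
  · exact not_triv_of_crit hG h1
  · by_cases h2 : G.Crit 0
    · intro h
      refine not_triv_of_crit hG.dual ?_ h.dual
      rw [dual_dual]
      exact h2
    · exact not_triv_of_tops hG (topAt_of_not_crit hG h2) (topAt_of_not_crit hG.dual h1)

end TD

end Pool.Agent.Lib.MP_7bc610_gt.Ta
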