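import Pool.Agent.Lib.MP_7bc610_gt.Ta.Perm

/-! Black walks in the universal cover, and consequences of the existence of stream functions. -/

namespace Pool.Agent.Lib.MP_7bc610_gt.Ta

open Equiv Finset

variable {X : Type} [Fintype X] [DecidableEq X]

namespace TD

variable {G : TD X} {H H' C O O' : Finset X} {y z e f : X} {x x' u : ℤ × ℤ} {r : ℝ}
  {a b c : X × (ℤ × ℤ)}

theorem pi_apply (G : TD X) (H : Finset X) (y : X) :
    G.pi H y = G.σ (if y ∈ H ∨ G.α y ∈ H then G.α y else y) := rfl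

theorem walk_pi_dart (h : y ∈ H ∨ G.α y ∈ H) : G.pi H y = G.σ (G.α y) := by
  rw [pi_apply, if_pos h]

theorem walk_pi_not (h : ¬ (y ∈ H ∨ G.α y ∈ H)) : G.pi H y = G.σ y := by
  rw [pi_apply, if_neg h]

theorem walk_dart : (G.α y ∈ H ∨ G.α (G.α y) ∈ H) ↔ (y ∈ H ∨ G.α y ∈ H) := by
  rw [G.αα, or_comm]

/-- The determinant with a fixed vector as an additive map. -/
def walkDet (c : ℤ × ℤ) : ℤ × ℤ →+ ℤ where
  toFun v := det v c
  map_zero' := by simp [det]
  map_add' u v := by simp only [det, Prod.fst_add, Prod.snd_add]; ring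

theorem walk_ind (G : TD X) (O : Finset X) :
    ∑ z, (if z ∈ O then (1 : ℤ) else 0) • G.η z = G.cls O := by
  simp [cls]

theorem walk_dep {u v : ℤ × ℤ} (hu : u ≠ 0) (hv : v ≠ 0) (h : det v u = 0) :
    ∃ m m' : ℤ, m ≠ 0 ∧ m' ≠ 0 ∧ m • u + m' • v = 0 := by
  simp only [det] at h
  by_cases c : u.1 = 0
  · have c' : u.2 ≠ 0 := fun d => hu (Prod.ext c d)
    have h1 : v.1 = 0 := by simpa [c, c'] using h
    refine ⟨v.2, -u.2, fun d => hv (Prod.ext h1 d), neg_ne_zero.2 c', Prod.ext ?_ ?_⟩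
    · simp [c, h1]
    · simp [mul_comm]
  · refine ⟨v.1, -u.1, fun d => hv (Prod.ext d ?_), neg_ne_zero.2 c, Prod.ext ?_ ?_⟩
    · simpa [c, d] using h
    · simp [mul_comm]
    · simp only [Prod.snd_add, Prod.smul_snd, smul_eq_mul, Prod.snd_zero]
      linear_combination h

theorem walk_cls {π : Perm X} (h : ∀ y, G.cls (orb π y) = 0) (hC : ∀ t ∈ C, π t ∈ C) :
    G.cls C = 0 := by
  rw [cls, sum_closed G.η C hC]
  refine sum_eq_zero fun O hO => ?_
  obtain ⟨y, rfl⟩ := exists_orb (mem_filter.1 hO).1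
  exact h y

theorem pi_empty (G : TD X) : G.pi ∅ = G.σ := by
  ext y
  simp [pi_apply]

theorem ne_alpha (hy : y ∈ G.D) : y ≠ G.α y := by
  exact fun h => G.ne y hy (h ▸ hy)

theorem pi_insert (hH : H ⊆ G.D) (hy : y ∈ G.D) (hn : y ∉ H) :
    G.pi (insert y H) = G.pi H * swap y (G.α y) := by
  have h1 : G.α y ∉ H := fun h => G.ne y hy (hH h)
  ext t
  rw [Perm.mul_apply]
  by_cases c : t = y
  · subst c
    rw [swap_apply_left, pi_apply, pi_apply, if_pos (Or.inl (mem_insert_self _ _)), G.αα,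
      if_neg (by tauto)]
  · by_cases c' : t = G.α y
    · subst c'
      rw [swap_apply_right, pi_apply, pi_apply, G.αα, if_pos (Or.inr (mem_insert_self _ _)),
        if_neg (by tauto)]
    · have c'' : G.α t ≠ y := fun h => c' (by rw [← h, G.αα])
      rw [swap_apply_of_ne_of_ne c c', pi_apply, pi_apply]
      simp only [mem_insert, c, c'', false_or]

theorem dual_pi (hH : H ⊆ G.D) : G.dual.pi (G.D \ H) = G.pi H := by
  ext t
  change G.σ (G.α (if t ∈ G.D \ H ∨ G.α t ∈ G.D \ H then G.α t else t)) = _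
  rw [pi_apply]
  congr 1
  by_cases c : G.α t = t
  · simp only [c, ite_self]
  · have h1 := G.cov t c
    have h2 := G.ne t
    have h3 := @hH t
    have h4 := @hH (G.α t)
    simp only [mem_sdiff]
    by_cases d : t ∈ H ∨ G.α t ∈ H
    · rw [if_pos d, if_neg (by tauto)]
    · rw [if_neg d, if_pos (by tauto), G.αα]

theorem BW.refl (a : X × (ℤ × ℤ)) : G.BW H a a := by
  exact Relation.EqvGen.refl a

theorem BW.symm (h : G.BW H a b) : G.BW H b a := by
  exact Relation.EqvGen.symm _ _ h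

theorem BW.trans (h : G.BW H a b) (h' : G.BW H b c) : G.BW H a c := by
  exact Relation.EqvGen.trans _ _ _ h h'

theorem BW.mono (hH : H ⊆ H') (h : G.BW H a b) : G.BW H' a b := by
  refine Relation.EqvGen.mono (fun a b hab => ?_) _ _ h
  cases hab with
  | face y x => exact BS.face y x
  | edge y x hy => exact BS.edge y x (hH hy)

theorem BW.shift (h : G.BW H (y, x) (z, x')) (t : ℤ × ℤ) : G.BW H (y, x + t) (z, x' + t) := by
  have key : ∀ a b, G.BW H a b → G.BW H (a.1, a.2 + t) (b.1, b.2 + t) := by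
    intro a b hab
    induction hab with
    | rel a b hab =>
      cases hab with
      | face y x =>
        rw [add_right_comm]
        exact Relation.EqvGen.rel _ _ (BS.face y (x + t))
      | edge y x hy => exact Relation.EqvGen.rel _ _ (BS.edge y (x + t) hy)
    | refl a => exact BW.refl _
    | symm a b _ ih => exact ih.symm
    | trans a b c _ _ ih ih' => exact ih.trans ih'
  exact key _ _ h

theorem walk_inv (h : G.BW H (y, 0) (z, x)) : G.BW H (z, 0) (y, -x) := by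
  have := (h.shift (-x)).symm
  rwa [add_neg_cancel, zero_add] at this

theorem walk_add (h : G.BW H (y, 0) (z, x)) (h' : G.BW H (z, 0) (e, x')) :
    G.BW H (y, 0) (e, x' + x) := by
  have := h'.shift x
  rw [zero_add] at this
  exact h.trans this

theorem bw_sigma (y : X) (x : ℤ × ℤ) : G.BW H (y, x) (G.σ y, x + G.η (G.σ y)) := by
  exact Relation.EqvGen.rel _ _ (BS.face y x)

theorem bw_alpha (h : y ∈ H ∨ G.α y ∈ H) (x : ℤ × ℤ) : G.BW H (y, x) (G.α y, x) := by
  rcases h with h | h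
  · exact Relation.EqvGen.rel _ _ (BS.edge y x h)
  · have : G.BW H (G.α y, x) (G.α (G.α y), x) := Relation.EqvGen.rel _ _ (BS.edge _ x h)
    rw [G.αα] at this
    exact this.symm

theorem bw_pi (y : X) (x : ℤ × ℤ) : G.BW H (y, x) (G.pi H y, x + G.η (G.pi H y)) := by
  by_cases c : y ∈ H ∨ G.α y ∈ H
  · rw [walk_pi_dart c]
    exact (bw_alpha c x).trans (bw_sigma _ x)
  · rw [walk_pi_not c]
    exact bw_sigma y x

theorem bw_orb (y : X) : G.BW H (y, 0) (y, G.cls (orb (G.pi H) y)) := by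
  refine orb_walk (G.pi H) G.η y (fun t x => G.BW H (y, 0) (t, x)) ?_ fun t x _ _ h => ?_
  · simpa only [zero_add] using bw_pi (G := G) (H := H) y 0
  · exact h.trans (bw_pi t x)

theorem bc_equiv (G : TD X) (H : Finset X) : Equivalence (G.Bc H) := by
  exact ⟨fun y => ⟨0, BW.refl _⟩, fun ⟨_, h⟩ => ⟨_, walk_inv h⟩,
    fun ⟨_, h⟩ ⟨_, h'⟩ => ⟨_, walk_add h h'⟩⟩

theorem Bc.mono (hH : H ⊆ H') (h : G.Bc H y z) : G.Bc H' y z := by
  obtain ⟨v, h⟩ := h
  exact ⟨v, h.mono hH⟩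

theorem bc_of_orb (h : z ∈ orb (G.pi H) y) : G.Bc H y z := by
  exact orb_induct (G.Bc H y) (fun t ⟨v, ht⟩ => ⟨_, ht.trans (bw_pi t v)⟩) ⟨0, BW.refl _⟩ h

theorem bc_empty : G.Bc ∅ y z ↔ G.σ.SameCycle y z := by
  refine ⟨fun ⟨v, h⟩ => ?_, fun h => bc_of_orb (by rwa [pi_empty, mem_orb])⟩
  have key : ∀ a b, G.BW ∅ a b → G.σ.SameCycle a.1 b.1 := by
    intro a b hab
    induction hab with
    | rel a b hab =>
      cases hab with
      | face y x => exact (Perm.SameCycle.refl _ _).apply_right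
      | edge y x hy => exact absurd hy (notMem_empty _)
    | refl a => exact Perm.SameCycle.refl _ _
    | symm a b _ ih => exact ih.symm
    | trans a b c _ _ ih ih' => exact ih.trans ih'
  exact key _ _ h

theorem mem_comp : z ∈ G.comp H y ↔ G.Bc H y z := by
  simp [comp]

/-- Unions of black components. -/
def Closed (G : TD X) (H C : Finset X) : Prop :=
  (∀ y, G.σ y ∈ C ↔ y ∈ C) ∧ ∀ y ∈ H, (G.α y ∈ C ↔ y ∈ C)

theorem closed_comp (y : X) : G.Closed H (G.comp H y) := by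
  have e := G.bc_equiv H
  refine ⟨fun t => ?_, fun t ht => ?_⟩
  · have : G.Bc H t (G.σ t) := ⟨_, bw_sigma t 0⟩
    rw [mem_comp, mem_comp]
    exact ⟨fun h => e.trans h (e.symm this), fun h => e.trans h this⟩
  · have : G.Bc H t (G.α t) := ⟨_, bw_alpha (Or.inl ht) 0⟩
    rw [mem_comp, mem_comp]
    exact ⟨fun h => e.trans h (e.symm this), fun h => e.trans h this⟩

theorem closed_univ : G.Closed H univ := by
  exact ⟨fun _ => by simp, fun _ _ => by simp⟩

theorem Closed.pi (hC : G.Closed H C) (y : X) : G.pi H y ∈ C ↔ y ∈ C := by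
  by_cases c : y ∈ H ∨ G.α y ∈ H
  · rw [walk_pi_dart c, hC.1]
    rcases c with c | c
    · exact hC.2 y c
    · have := hC.2 _ c
      rw [G.αα] at this
      exact this.symm
  · rw [walk_pi_not c, hC.1]

theorem BW.pot {M : Type} [AddCommGroup M] (ω : ℤ × ℤ →+ M) (κ : X → M) (hC : G.Closed H C)
    (h1 : ∀ t ∈ C, κ (G.σ t) + ω (G.η (G.σ t)) = κ t) (h2 : ∀ t ∈ H, t ∈ C → κ (G.α t) = κ t)
    (h : G.BW H (y, x) (z, x')) (hy : y ∈ C) : z ∈ C ∧ κ z + ω x' = κ y + ω x := by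
  have key : ∀ a b, G.BW H a b →
      (a.1 ∈ C ↔ b.1 ∈ C) ∧ (a.1 ∈ C → κ b.1 + ω b.2 = κ a.1 + ω a.2) := by
    intro a b hab
    induction hab with
    | rel a b hab =>
      cases hab with
      | face y x =>
        refine ⟨(hC.1 y).symm, fun hy => ?_⟩
        rw [map_add, ← h1 y hy]
        abel
      | edge y x hy => exact ⟨(hC.2 y hy).symm, fun hy' => by rw [h2 y hy hy']⟩
    | refl a => exact ⟨Iff.rfl, fun _ => rfl⟩
    | symm a b _ ih => exact ⟨ih.1.symm, fun hb => (ih.2 (ih.1.2 hb)).symm⟩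
    | trans a b c _ _ ih ih' =>
      exact ⟨ih.1.trans ih'.1, fun ha => (ih'.2 (ih.1.1 ha)).trans (ih.2 ha)⟩
  exact ⟨(key _ _ h).1.1 hy, (key _ _ h).2 hy⟩

theorem stream_inv (s : X → ℤ) (hs : ∀ t, s (G.pi H t) = s t) :
    ∃ g : X → ℤ, (∀ t, g (G.σ t) + det (G.η (G.σ t)) (∑ z, s z • G.η z) = g t) ∧
      (∀ t, g (G.σ (G.α t)) + s (G.σ (G.α t)) + det (G.η (G.σ (G.α t))) (∑ z, s z • G.η z) =
        g t + s t) ∧
      (∀ t, t ∈ H ∨ G.α t ∈ H → g (G.α t) = g t) ∧
      ∀ t, ¬ (t ∈ H ∨ G.α t ∈ H) → g (G.α t) + s (G.α t) = g t + s t := by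
  have a1 : ∀ t, t ∈ H ∨ G.α t ∈ H → s (G.σ (G.α t)) = s t := fun t c => by
    rw [← walk_pi_dart c, hs]
  have a2 : ∀ t, ¬ (t ∈ H ∨ G.α t ∈ H) → s (G.σ t) = s t := fun t c => by
    rw [← walk_pi_not c, hs]
  obtain ⟨g, h1, h2⟩ := G.stream s fun t => by
    by_cases c : t ∈ H ∨ G.α t ∈ H
    · have := a1 _ (walk_dart.2 c)
      rw [G.αα] at this
      rw [this, a1 t c, add_comm]
    · rw [a2 t c, a2 _ fun d => c (walk_dart.1 d)]
  refine ⟨g, h1, h2, fun t c => ?_, fun t c => ?_⟩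
  · have := h1 (G.α t)
    have := h2 t
    have := a1 t c
    linarith
  · have := h1 (G.α t)
    have := h2 t
    have := a2 _ fun d => c (walk_dart.1 d)
    linarith

theorem det_loop (hO : O ∈ cyc (G.pi H)) (h : G.BW H (y, 0) (y, u)) : det u (G.cls O) = 0 := by
  obtain ⟨g, h1, -, h3, -⟩ := stream_inv (G := G) (H := H) (fun t => if t ∈ O then 1 else 0)
    fun t => by simp only [apply_mem_iff hO]
  rw [walk_ind] at h1
  have := (BW.pot (walkDet (G.cls O)) g closed_univ (fun t _ => h1 t)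
    (fun t ht _ => h3 t (Or.inl ht)) h (mem_univ _)).2
  rw [map_zero, add_zero, add_eq_left] at this
  exact this

theorem det_loops (hH : H' ⊆ H) (hO : O ∈ cyc (G.pi H)) (hO' : O' ∈ cyc (G.pi H')) :
    det (G.cls O') (G.cls O) = 0 := by
  obtain ⟨y, rfl⟩ := exists_orb hO'
  exact det_loop hO ((bw_orb y).mono hH)

theorem Full.mono (hH : H ⊆ H') (h : G.Full H) : G.Full H' := by
  obtain ⟨y, u, v, h1, h2, h3⟩ := h
  exact ⟨y, u, v, h1.mono hH, h2.mono hH, h3⟩

theorem Full.ess (h : G.Full H) : G.ess H = ∅ := by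
  obtain ⟨y, u, v, h1, h2, h3⟩ := h
  refine filter_eq_empty_iff.2 fun O hO c => c ?_
  have a1 := det_loop hO h1
  have a2 := det_loop hO h2
  simp only [det] at a1 a2 h3
  refine Prod.ext (mul_left_cancel₀ h3 ?_) (mul_left_cancel₀ h3 ?_)
  · rw [Prod.fst_zero]
    linear_combination v.1 * a1 - u.1 * a2
  · rw [Prod.snd_zero]
    linear_combination v.2 * a1 - u.2 * a2

theorem mem_ess : O ∈ G.ess H ↔ O ∈ cyc (G.pi H) ∧ G.cls O ≠ 0 := by
  exact mem_filter

theorem card_cyc (G : TD X) (H : Finset X) : (cyc (G.pi H)).card = G.tr H + (G.ess H).card := by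
  exact (card_filter_add_card_filter_not _).symm

theorem cls_closed (hG : G.Good r) (hC : ∀ t ∈ C, G.σ t ∈ C) : G.cls C = 0 := by
  exact walk_cls hG.discB hC

theorem sum_cls (hG : G.Good r) (H : Finset X) : ∑ O ∈ G.ess H, G.cls O = 0 := by
  rw [TD.ess, sum_filter_ne_zero]
  exact (sum_cyc (G.pi H) G.η).symm.trans (cls_closed hG fun _ _ => mem_univ _)

theorem exists_other (hG : G.Good r) (hO : O ∈ G.ess H) (hy : y ∈ O) :
    ∃ O' ∈ G.ess H, O' ≠ O ∧ O' ⊆ G.comp H y := by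
  have hC := closed_comp (G := G) (H := H) y
  have h0 := cls_closed hG fun t ht => (hC.1 t).2 ht
  rw [cls, sum_closed (π := G.pi H) G.η _ fun t ht => (hC.pi t).2 ht] at h0
  obtain ⟨h1, h2⟩ := mem_ess.1 hO
  by_contra hcon
  push Not at hcon
  rw [sum_eq_single_of_mem O] at h0
  · exact h2 h0
  · refine mem_filter.2 ⟨h1, fun t ht => mem_comp.2 (bc_of_orb ?_)⟩
    rwa [← eq_orb h1 hy]
  · intro O' hO' hne
    by_contra c
    exact hcon O' (mem_ess.2 ⟨(mem_filter.1 hO').1, c⟩) hne (mem_filter.1 hO').2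

/-- Two essential loops on one black component have opposite classes. -/
theorem two (hG : G.Good r) (hO : O ∈ G.ess H) (hO' : O' ∈ G.ess H) (hne : O ≠ O')
    (hy : y ∈ O) (hz : z ∈ O') (h : G.Bc H y z) : G.cls O = - G.cls O' := by
  obtain ⟨h1, h2⟩ := mem_ess.1 hO
  obtain ⟨h1', h2'⟩ := mem_ess.1 hO'
  obtain ⟨m, m', hm, -, hmm⟩ := walk_dep h2 h2' (det_loops Subset.rfl h1 h1')
  by_cases c : m = m'
  · subst c
    rw [← smul_add, smul_eq_zero_iff_right hm] at hmm
    exact eq_neg_of_add_eq_zero_left hmm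
  exfalso
  have hd : ∀ t ∈ O, t ∉ O' := fun t ht ht' => hne ((eq_orb h1 ht).trans (eq_orb h1' ht').symm)
  obtain ⟨g, g1, g2, g3, -⟩ := stream_inv (G := G) (H := H)
    (fun t => m * (if t ∈ O then 1 else 0) + m' * (if t ∈ O' then 1 else 0))
    fun t => by simp only [apply_mem_iff h1, apply_mem_iff h1']
  have e : ∑ t, (m * (if t ∈ O then 1 else 0) + m' * (if t ∈ O' then 1 else 0)) • G.η t = 0 := by
    simp only [add_smul, mul_smul, sum_add_distrib, ← smul_sum, walk_ind]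
    exact hmm
  have d0 : ∀ v, det v 0 = 0 := fun v => by simp [det]
  simp only [e, d0, add_zero] at g1 g2
  have gc : ∀ t, G.Bc H y t → g t = g y := fun t ⟨v, hv⟩ => by
    simpa using (BW.pot 0 g closed_univ (fun t _ => by simpa using g1 t)
      (fun t ht _ => g3 t (Or.inl ht)) hv (mem_univ _)).2
  have gO : ∀ t ∈ O, g t = g y := fun t ht => gc t (bc_of_orb (by rwa [← eq_orb h1 hy]))
  have gO' : ∀ t ∈ O', g t = g y := fun t ht =>
    gc t ((G.bc_equiv H).trans h (bc_of_orb (by rwa [← eq_orb h1' hz])))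
  have hA : G.cls (univ.filter fun t => g t = g y + m) = 0 :=
    cls_closed hG fun t ht => by simpa [g1] using ht
  have hB : G.cls (univ.filter fun t => g t +
      (m * (if t ∈ O then 1 else 0) + m' * (if t ∈ O' then 1 else 0)) = g y + m) = 0 :=
    walk_cls hG.discW fun t ht => by
      rw [mem_filter] at ht ⊢
      exact ⟨mem_univ _, (g2 t).trans ht.2⟩
  have hU : (univ.filter fun t => g t +
      (m * (if t ∈ O then 1 else 0) + m' * (if t ∈ O' then 1 else 0)) = g y + m) =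
      (univ.filter fun t => g t = g y + m) ∪ O := by
    ext t
    by_cases c1 : t ∈ O
    · simp [c1, hd t c1, gO t c1]
    · by_cases c2 : t ∈ O'
      · simp [c1, c2, gO' t c2, hm, Ne.symm c]
      · simp [c1, c2]
  have hD : Disjoint (univ.filter fun t => g t = g y + m) O := by
    rw [disjoint_right]
    intro t ht
    simp [gO t ht, hm]
  rw [hU, cls, sum_union hD] at hB
  rw [cls] at hA
  rw [hA, zero_add] at hB
  exact h2 hB

theorem merge_in (hH : H ⊆ G.D) (hy : y ∈ G.D) (hn : y ∉ H)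
    (hs : ¬ (G.pi H).SameCycle y (G.α y)) (hb : G.Bc H y (G.α y)) :
    G.cls (orb (G.pi H) y) ≠ 0 ∧ G.Full (insert y H) := by
  have hO := orb_mem_cyc (G.pi H) y
  obtain ⟨u, hu⟩ := hb
  obtain ⟨g, h1, -, h3, h4⟩ := stream_inv (G := G) (H := H)
    (fun t => if t ∈ orb (G.pi H) y then 1 else 0) fun t => by simp only [apply_mem_iff hO]
  rw [walk_ind] at h1
  have a1 := (BW.pot (walkDet (G.cls (orb (G.pi H) y))) g closed_univ (fun t _ => h1 t)
    (fun t ht _ => h3 t (Or.inl ht)) hu (mem_univ _)).2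
  have a2 := h4 y fun c => c.elim hn fun d => G.ne y hy (hH d)
  rw [if_pos (self_mem_orb _ _), if_neg (mem_orb.not.2 hs)] at a2
  rw [map_zero] at a1
  have a3 : det u (G.cls (orb (G.pi H) y)) ≠ 0 := by
    change g (G.α y) + det u (G.cls (orb (G.pi H) y)) = _ at a1
    omega
  refine ⟨fun c => a3 (by simp [c, det]), y, u, _, ?_, (bw_orb y).mono (subset_insert _ _), a3⟩
  exact (hu.mono (subset_insert _ _)).trans (bw_alpha (Or.inl (mem_insert_self _ _)) u).symm

theorem arc (hH : H ⊆ G.D) (hy : y ∈ G.D) (hn : y ∉ H) (hs : (G.pi H).SameCycle y (G.α y)) :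
    G.BW H (y, 0) (G.α y, G.cls (orb (G.pi (insert y H)) (G.α y))) := by
  have hm := (split (ne_alpha hy) hs).not
  rw [pi_insert hH hy hn]
  refine orb_walk _ G.η _ (fun t x => G.BW H (y, 0) (t, x)) ?_ fun t x ht hne h => ?_
  · rw [Perm.mul_apply, swap_apply_right]
    simpa only [zero_add] using bw_pi (G := G) (H := H) y 0
  · have : t ≠ y := fun c => hm (mem_orb.1 (c ▸ ht)).symm
    rw [Perm.mul_apply, swap_apply_of_ne_of_ne this hne]
    exact h.trans (bw_pi t x)

theorem par_equiv (G : TD X) : Equivalence G.Par := by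
  refine ⟨fun y => ⟨0, Or.inl ⟨BW.refl _, BW.refl _⟩⟩, ?_, ?_⟩
  · rintro y z ⟨x, ⟨h1, h2⟩ | ⟨h1, h2⟩⟩
    · exact ⟨_, Or.inl ⟨walk_inv h1, walk_inv h2⟩⟩
    · exact ⟨_, Or.inr ⟨walk_inv h2, walk_inv h1⟩⟩
  · rintro y z w ⟨x, ⟨h1, h2⟩ | ⟨h1, h2⟩⟩ ⟨x', ⟨h3, h4⟩ | ⟨h3, h4⟩⟩
    · exact ⟨_, Or.inl ⟨walk_add h1 h3, walk_add h2 h4⟩⟩
    · exact ⟨_, Or.inr ⟨walk_add h1 h3, walk_add h2 h4⟩⟩
    · exact ⟨_, Or.inr ⟨walk_add h1 h4, walk_add h2 h3⟩⟩
    · exact ⟨_, Or.inl ⟨walk_add h1 h4, walk_add h2 h3⟩⟩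

theorem par_alpha (G : TD X) (y : X) : G.Par y (G.α y) := by
  exact ⟨0, Or.inr ⟨by rw [G.αα]; exact BW.refl _, BW.refl _⟩⟩

theorem bw_par (hf : f ∈ H) (h : G.Par e f) : G.BW (insert e H) = G.BW H := by
  have key : ∀ x, G.BW H (e, x) (G.α e, x) := fun x => by
    obtain ⟨t, ⟨h1, h2⟩ | ⟨h1, h2⟩⟩ := h
    all_goals
      have a1 := (h1.mono (empty_subset H)).shift x
      have a2 := (h2.mono (empty_subset H)).shift x
      have a3 := bw_alpha (G := G) (Or.inl hf) (t + x)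
      rw [zero_add] at a1 a2
    · exact (a1.trans a3).trans a2.symm
    · exact (a1.trans a3.symm).trans a2.symm
  funext a b
  refine propext ⟨fun hab => ?_, fun hab => hab.mono (subset_insert _ _)⟩
  induction hab with
  | rel a b hab =>
    cases hab with
    | face y x => exact bw_sigma y x
    | edge y x hy =>
      rcases mem_insert.1 hy with rfl | hy
      · exact key x
      · exact bw_alpha (Or.inl hy) x
  | refl a => exact BW.refl _
  | symm a b _ ih => exact ih.symm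
  | trans a b c _ _ ih ih' => exact ih.trans ih'

theorem one_dart (hG : G.Good r) (hH : H ⊆ G.D) (hz : z ∈ H ∨ G.α z ∈ H)
    (h : ∀ t ∈ orb (G.pi H) z, t ∈ H ∨ G.α t ∈ H → t = z) : G.cls (orb (G.pi H) z) ≠ 0 := by
  intro h0
  have key : G.BW ∅ (G.α z, 0) (z, G.cls (orb (G.pi H) z)) := by
    refine orb_walk _ G.η _ (fun t x => G.BW ∅ (G.α z, 0) (t, x)) ?_ fun t x ht hne h' => ?_
    · rw [walk_pi_dart hz]
      simpa only [zero_add] using bw_sigma (G := G) (H := ∅) (G.α z) 0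
    · rw [walk_pi_not fun c => hne (h t ht c)]
      exact h'.trans (bw_sigma t x)
  rw [h0] at key
  rcases hz with hz | hz
  · exact hG.redB z (hH hz) key.symm
  · exact hG.redB _ (hH hz) (by rwa [G.αα])

theorem two_darts (hne : y ≠ z) (hy : y ∈ H ∨ G.α y ∈ H) (hz : z ∈ H ∨ G.α z ∈ H)
    (hyz : y ∈ orb (G.pi H) z)
    (h : ∀ t ∈ orb (G.pi H) z, t ∈ H ∨ G.α t ∈ H → t = z ∨ t = y)
    (h0 : G.cls (orb (G.pi H) z) = 0) : G.Par z y := by
  have hm := split hne.symm (mem_orb.1 hyz)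
  have k1 : G.BW ∅ (G.α z, 0) (y, G.cls (orb (G.pi H * swap z y) y)) := by
    refine orb_walk _ G.η _ (fun t x => G.BW ∅ (G.α z, 0) (t, x)) ?_ fun t x ht hn h' => ?_
    · rw [Perm.mul_apply, swap_apply_right, walk_pi_dart hz]
      simpa only [zero_add] using bw_sigma (G := G) (H := ∅) (G.α z) 0
    · have hn' : t ≠ z := fun c => hm.not (mem_orb.1 (c ▸ ht)).symm
      rw [Perm.mul_apply, swap_apply_of_ne_of_ne hn' hn, walk_pi_not fun c =>
        (h t (by rw [hm.union]; exact mem_union_right _ ht) c).elim hn' hn]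
      exact h'.trans (bw_sigma t x)
  have k2 : G.BW ∅ (G.α y, 0) (z, G.cls (orb (G.pi H * swap z y) z)) := by
    refine orb_walk _ G.η _ (fun t x => G.BW ∅ (G.α y, 0) (t, x)) ?_ fun t x ht hn h' => ?_
    · rw [Perm.mul_apply, swap_apply_left, walk_pi_dart hy]
      simpa only [zero_add] using bw_sigma (G := G) (H := ∅) (G.α y) 0
    · have hn' : t ≠ y := fun c => hm.not (mem_orb.1 (c ▸ ht))
      rw [Perm.mul_apply, swap_apply_of_ne_of_ne hn hn', walk_pi_not fun c =>
        (h t (by rw [hm.union]; exact mem_union_left _ ht) c).elim hn hn']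
      exact h'.trans (bw_sigma t x)
  have e := hm.add G.η
  rw [cls] at h0
  rw [h0] at e
  refine ⟨_, Or.inr ⟨?_, k1⟩⟩
  have := walk_inv k2
  rwa [cls, neg_eq_of_add_eq_zero_right e.symm] at this

/-- An inessential loop split off by a crossing that is not parallel to an old one passes
at least two old crossings. -/
theorem two_more (hG : G.Good r) (hH : H ⊆ G.D) (he : e ∈ G.D) (hn : e ∉ H)
    (hz : z = e ∨ z = G.α e) (hs : (G.pi H).SameCycle e (G.α e))
    (h0 : G.cls (orb (G.pi (insert e H)) z) = 0) (hp : ∀ f ∈ H, ¬ G.Par e f) :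
    ∃ z₁ z₂, z₁ ≠ z₂ ∧ z₁ ∈ orb (G.pi (insert e H)) z ∧ z₂ ∈ orb (G.pi (insert e H)) z ∧
      (z₁ ∈ H ∨ G.α z₁ ∈ H) ∧ (z₂ ∈ H ∨ G.α z₂ ∈ H) := by
  have hm := (split (ne_alpha he) hs).not
  rw [← pi_insert hH he hn] at hm
  have hα : G.α e ∉ H := fun h => G.ne e he (hH h)
  have hH' : insert e H ⊆ G.D := insert_subset he hH
  have d1 : z ∈ insert e H ∨ G.α z ∈ insert e H := by
    rcases hz with rfl | rfl
    · exact Or.inl (mem_insert_self _ _)
    · exact Or.inr (by rw [G.αα]; exact mem_insert_self _ _)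
  have d2 : ¬ (z ∈ H ∨ G.α z ∈ H) := by
    rcases hz with rfl | rfl
    · tauto
    · rw [G.αα]; tauto
  have d3 : ∀ t ∈ orb (G.pi (insert e H)) z, t ∈ insert e H ∨ G.α t ∈ insert e H →
      t = z ∨ (t ∈ H ∨ G.α t ∈ H) := by
    intro t ht c
    rw [mem_orb] at ht
    rw [mem_insert, mem_insert] at c
    rcases c with (c | c) | (c | c)
    · rcases hz with h | h
      · exact Or.inl (c.trans h.symm)
      · rw [c] at ht
        exact absurd (h ▸ ht.symm) hm
    · exact Or.inr (Or.inl c)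
    · have c' : t = G.α e := by rw [← c, G.αα]
      rcases hz with h | h
      · rw [c'] at ht
        exact absurd (h ▸ ht) hm
      · exact Or.inl (c'.trans h.symm)
    · exact Or.inr (Or.inr c)
  by_contra hcon
  push Not at hcon
  by_cases c : ∃ w ∈ orb (G.pi (insert e H)) z, w ∈ H ∨ G.α w ∈ H
  · obtain ⟨w, hw, hd⟩ := c
    have p1 : G.Par z w := two_darts (fun c => d2 (c ▸ hd))
      (hd.imp mem_insert_of_mem mem_insert_of_mem) d1 hw (fun t ht c => (d3 t ht c).imp_right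
        fun d => by
          by_contra n
          have := hcon t w n ht hw d
          tauto) h0
    have p2 : G.Par e z := by
      rcases hz with rfl | rfl
      · exact G.par_equiv.refl _
      · exact G.par_alpha _
    have p3 := G.par_equiv.trans p2 p1
    rcases hd with hd | hd
    · exact hp w hd p3
    · exact hp _ hd (G.par_equiv.trans p3 (G.par_alpha w))
  · exact one_dart hG hH' d1
      (fun t ht d => (d3 t ht d).resolve_right fun d' => c ⟨t, ht, d'⟩) h0

end TD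

end Pool.Agent.Lib.MP_7bc610_gt.Ta
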