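import Pool.Agent.Lib.MP_7bc610_gt.Ta.MTD
import Pool.Agent.Lib.MP_7bc610_gt.Ta.Walk

/-! The hypotheses on the diagram give the hypotheses of the abstract theorem. -/

namespace Pool.Agent.Lib.MP_7bc610_gt.Ta

open Finset Equiv

variable {r p q : ℕ} {w : Word} {c : Bool}

theorem good_lin_add (a b : ℝ) (u v : ℤ × ℤ) : lin a b (u + v) = lin a b u + lin a b v := by
  simp only [lin, Prod.fst_add, Prod.snd_add, Int.cast_add]
  ring

theorem good_slope (C : ℤ × ℤ → ℕ → Prop) (ρ : ℝ) (h0 : C 0 0)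
    (hadd : ∀ u v m k, C u m → C v k → C (u + v) (m + k)) (hneg : ∀ u m, C u m → C (-u) m)
    (hrep : ∀ (k : ℤ) m, C (k, 0) m → ρ * k ≤ m) : ∃ θ : ℝ, ∀ v m, C v m → lin ρ θ v ≤ m := by
  have hn : ∀ (n : ℕ) v m, C v m → C (n • v) (n * m) := by
    intro n v m h
    induction n with
    | zero => simpa using h0
    | succ n ih =>
      rw [succ_nsmul, Nat.succ_mul]
      exact hadd _ _ _ _ ih h
  have hz : ∀ (θ : ℝ) v m, C v m → v.2 = 0 → lin ρ θ v ≤ m := by
    rintro θ ⟨a, b⟩ m h hb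
    simp only at hb
    subst hb
    simpa [lin] using hrep a m h
  by_cases hex : ∃ v m, C v m ∧ v.2 ≠ 0
  · have hpos : ∃ v m, C v m ∧ 0 < v.2 := by
      obtain ⟨v, m, h, hv⟩ := hex
      rcases lt_or_gt_of_ne hv with e | e
      · exact ⟨-v, m, hneg _ _ h, by simpa using e⟩
      · exact ⟨v, m, h, e⟩
    obtain ⟨v0, m0, hv0, hp0⟩ := hpos
    obtain ⟨θ, h1, h2⟩ := exists_between_of_forall_le
      (s := {x : ℝ | ∃ v m, C v m ∧ 0 < v.2 ∧ x = (-(ρ * v.1) - m) / v.2})
      (t := {x : ℝ | ∃ v m, C v m ∧ 0 < v.2 ∧ x = (m - ρ * v.1) / v.2})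
      ⟨_, v0, m0, hv0, hp0, rfl⟩ ⟨_, v0, m0, hv0, hp0, rfl⟩ (by
        rintro _ ⟨⟨a', b'⟩, m', hv', hp', rfl⟩ _ ⟨⟨a, b⟩, m, hv, hp, rfl⟩
        simp only at hp hp' ⊢
        lift b to ℕ using hp.le
        lift b' to ℕ using hp'.le
        have h3 := hadd _ _ _ _ (hn b' _ _ hv) (hn b _ _ (hneg _ _ hv'))
        have e : b' • ((a, (b : ℤ)) : ℤ × ℤ) + b • (-((a', (b' : ℤ)) : ℤ × ℤ)) =
            ((b' : ℤ) * a - b * a', 0) := by
          ext
          · simp; ring
          · simp; ring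
        rw [e] at h3
        have h4 := hrep _ _ h3
        have h5 : (0 : ℝ) < ((b : ℤ) : ℝ) := by exact_mod_cast hp
        have h6 : (0 : ℝ) < ((b' : ℤ) : ℝ) := by exact_mod_cast hp'
        rw [div_le_div_iff₀ h6 h5]
        push_cast at h4 ⊢
        linarith)
    refine ⟨θ, fun v m h => ?_⟩
    rcases lt_trichotomy v.2 0 with e | e | e
    · have h3 := h1 ⟨-v, m, hneg _ _ h, by simpa using e, rfl⟩
      have h4 : (0 : ℝ) < (((-v).2 : ℤ) : ℝ) := by simpa using e
      rw [div_le_iff₀ h4] at h3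
      simp only [Prod.fst_neg, Prod.snd_neg, Int.cast_neg] at h3
      unfold lin
      linarith
    · exact hz θ v m h e
    · have h3 := h2 ⟨v, m, h, e, rfl⟩
      have h4 : (0 : ℝ) < ((v.2 : ℤ) : ℝ) := by exact_mod_cast e
      rw [le_div_iff₀ h4] at h3
      unfold lin
      linarith
  · exact ⟨0, fun v m h => hz 0 v m h (by
      by_contra e
      exact hex ⟨v, m, h, e⟩)⟩

/-- Duality of linear programming for walks with a class and a cost. -/
theorem exists_height {Y : Type} (P : Y → Y → ℤ × ℤ → ℕ → Prop) (S : Set Y) (ρ : ℝ)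
    (hrefl : ∀ a, P a a 0 0)
    (htrans : ∀ a b d u v m k, P a b u m → P b d v k → P a d (u + v) (m + k))
    (hsymm : ∀ a b u m, P a b u m → P b a (-u) m)
    (hconn : ∀ a ∈ S, ∀ b ∈ S, ∃ u m, P a b u m)
    (hrep : ∀ a (k : ℤ) m, P a a (k, 0) m → ρ * k ≤ m) :
    ∃ (θ : ℝ) (F : Y → ℝ), ∀ a ∈ S, ∀ b ∈ S, ∀ u m, P a b u m → F b + lin ρ θ u - F a ≤ m := by
  rcases S.eq_empty_or_nonempty with rfl | ⟨o, ho⟩
  · exact ⟨0, fun _ => 0, fun a ha => absurd ha (Set.notMem_empty a)⟩
  obtain ⟨θ, hθ⟩ := good_slope (P o o) ρ (hrefl o) (fun u v m k => htrans o o o u v m k)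
    (hsymm o o) (hrep o)
  refine ⟨θ, fun b => sInf {x : ℝ | ∃ v m, P o b v m ∧ x = m - lin ρ θ v}, ?_⟩
  intro a ha b hb u m h
  have hbdd : BddBelow {x : ℝ | ∃ v m, P o b v m ∧ x = m - lin ρ θ v} := by
    obtain ⟨u0, m0, h0⟩ := hconn b hb o ho
    refine ⟨lin ρ θ u0 - m0, ?_⟩
    rintro _ ⟨v, k, hv, rfl⟩
    have := hθ _ _ (htrans _ _ _ _ _ _ _ hv h0)
    rw [good_lin_add] at this
    push_cast at this
    linarith
  have h1 : sInf {x : ℝ | ∃ v m, P o b v m ∧ x = m - lin ρ θ v} + lin ρ θ u - m ≤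
      sInf {x : ℝ | ∃ v m, P o a v m ∧ x = m - lin ρ θ v} := by
    obtain ⟨u0, m0, h0⟩ := hconn o ho a ha
    refine le_csInf ⟨_, u0, m0, h0, rfl⟩ ?_
    rintro _ ⟨v, k, hv, rfl⟩
    have := csInf_le hbdd ⟨_, _, htrans _ _ _ _ _ _ _ hv h, rfl⟩
    rw [good_lin_add] at this
    push_cast at this
    linarith
  linarith

theorem TorAlt.ok (h : TorAlt r p q w) : ∃ c, Ok p q w c := by
  obtain ⟨c, hc⟩ := h.alternating
  exact ⟨c, h.valid, h.colourable.1, h.colourable.2, fun l e i hl =>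
    hc e i (List.mem_of_getElem? hl)⟩

theorem bw_path (h : Ok p q w c) {y z : Seg p q w} {x x' : ℤ × ℤ}
    (hw : (model h).BW ∅ (y, x) (z, x')) :
    Path p q w (gap c true y.1) (gap c true z.1) (x' - x) 0 := by
  have key : ∀ a b, Relation.EqvGen ((model h).BS ∅) a b →
      Path p q w (gap c true a.1.1) (gap c true b.1.1) (b.2 - a.2) 0 := by
    intro a b hab
    induction hab with
    | rel a b hab =>
      cases hab with
      | face y x =>
        simp only [add_sub_cancel_left]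
        exact path_black h y
      | edge y x hy => exact absurd hy (notMem_empty y)
    | refl a =>
      rw [sub_self]
      exact Path.nil _
    | symm a b _ ih => simpa only [neg_sub] using ih.symm
    | trans a b d _ _ ih ih' => simpa only [sub_add_sub_cancel'] using ih.trans ih'
  exact key _ _ hw

theorem bw_path_dual (h : Ok p q w c) {y z : Seg p q w} {x x' : ℤ × ℤ}
    (hw : (model h).dual.BW ∅ (y, x) (z, x')) :
    Path p q w (gap c false y.1) (gap c false z.1) (x'.1 - x.1, x.2 - x'.2) 0 := by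
  have key : ∀ a b, Relation.EqvGen ((model h).dual.BS ∅) a b →
      Path p q w (gap c false a.1.1) (gap c false b.1.1) (b.2.1 - a.2.1, a.2.2 - b.2.2) 0 := by
    intro a b hab
    induction hab with
    | rel a b hab =>
      cases hab with
      | face y x =>
        have e : ∀ t : ℤ × ℤ, ((x + (t.1, -t.2)).1 - x.1, x.2 - (x + (t.1, -t.2)).2) = t := by
          intro t
          ext <;> simp
        have h1 := path_white h y
        rw [← e (eta p q w c _)] at h1
        exact h1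
      | edge y x hy => exact absurd hy (notMem_empty y)
    | refl a =>
      rw [sub_self, sub_self]
      exact Path.nil _
    | symm a b _ ih => simpa only [Prod.neg_mk, neg_sub] using ih.symm
    | trans a b d _ _ ih ih' =>
      simpa only [Prod.mk_add_mk, sub_add_sub_cancel', sub_add_sub_cancel] using ih.trans ih'
  exact key _ _ hw

/-- Two strands on one black component of the full state. -/
def GoodCn (h : Ok p q w c) (a b : ℕ × ℕ) : Prop :=
  ∃ ha hb, (model h).Bc (model h).D ⟨a, ha⟩ ⟨b, hb⟩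

theorem GoodCn.symm {h : Ok p q w c} {a b : ℕ × ℕ} (hab : GoodCn h a b) : GoodCn h b a := by
  obtain ⟨ha, hb, e⟩ := hab
  exact ⟨hb, ha, ((model h).bc_equiv _).symm e⟩

theorem GoodCn.trans {h : Ok p q w c} {a b d : ℕ × ℕ} (hab : GoodCn h a b) (hbd : GoodCn h b d) :
    GoodCn h a d := by
  obtain ⟨ha, hb, e⟩ := hab
  obtain ⟨_, hd, e'⟩ := hbd
  exact ⟨ha, hd, ((model h).bc_equiv _).trans e e'⟩

theorem good_nx (h : Ok p q w c) {H : Finset (Seg p q w)} (hH : H ⊆ DD p q w c) {a b : ℕ × ℕ}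
    (ha : a ∈ segs p q w) (e : nx p q w c (hzOf c H) a = b) : GoodCn h a b := by
  subst e
  refine ⟨ha, nx_mem h _ ha, ?_⟩
  have h1 := TD.bw_pi (G := model h) (H := H) ⟨a, ha⟩ 0
  rw [model_pi h hH] at h1
  exact ⟨_, h1.mono hH⟩

theorem good_th (h : Ok p q w c) {H : Finset (Seg p q w)} (hH : H ⊆ DD p q w c) {a b : ℕ × ℕ}
    {v : ℤ × ℤ} (ht : Th p q w (hzOf c H) a b v) : GoodCn h a b := by
  cases u : up c a.2 with
  | true => exact good_nx h hH (ht.mem h).1 (ht.nx_up u)
  | false => exact (good_nx h hH (ht.mem h).2 (ht.nx_down ((ht.up h).trans u))).symm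

theorem good_cap (h : Ok p q w c) {H : Finset (Seg p q w)} (hH : H ⊆ DD p q w c) {l i : ℕ}
    (hc : Cap w (hzOf c H) l i) : GoodCn h (l, i) (l, i + 1) := by
  cases u : up c i with
  | true =>
    refine good_nx h hH (hc.mem h (Or.inl rfl)) ?_
    rw [hc.nx (Or.inl rfl) u, show 2 * i + 1 - i = i + 1 by omega]
  | false =>
    refine (good_nx h hH (hc.mem h (Or.inr rfl)) ?_).symm
    rw [hc.nx (Or.inr rfl) (by rw [up_succ, u]; rfl), show 2 * i + 1 - (i + 1) = i by omega]

theorem good_cup (h : Ok p q w c) {H : Finset (Seg p q w)} (hH : H ⊆ DD p q w c) {l i : ℕ}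
    (hc : Cup w (hzOf c H) l i) : GoodCn h (l + 1, i) (l + 1, i + 1) := by
  cases u : up c i with
  | false =>
    refine good_nx h hH (hc.mem h (Or.inl rfl)) ?_
    rw [hc.nx (Or.inl rfl) u, show 2 * i + 1 - i = i + 1 by omega]
  | true =>
    refine (good_nx h hH (hc.mem h (Or.inr rfl)) ?_).symm
    rw [hc.nx (Or.inr rfl) (by rw [up_succ, u]; rfl), show 2 * i + 1 - (i + 1) = i by omega]

theorem good_hz (h : Ok p q w c) {l i : ℕ} (hc : crAt w l = some i) (b : Bool) :
    ∃ H ⊆ DD p q w c, hzOf c H l = b := by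
  by_cases e : up c i = b
  · refine ⟨DD p q w c, Subset.refl _, ?_⟩
    simp only [hzOf, hc, if_pos (exists_DD h hc), e]
  · refine ⟨∅, empty_subset _, ?_⟩
    simp only [hzOf, hc, notMem_empty, false_and, exists_false, if_false]
    revert e
    cases up c i <;> cases b <;> simp

theorem good_joined (h : Ok p q w c) {a b : ℕ × ℕ} (hj : Joined p q w a b) : GoodCn h a b := by
  have h0 : (∅ : Finset (Seg p q w)) ⊆ DD p q w c := empty_subset _
  cases hj with
  | left l j i k hl hj => exact good_th h h0 (.left l j i k hl hj)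
  | right l j i k hl hj hj' => exact good_th h h0 (.right l j i k hl hj hj')
  | cup l i hl => exact good_cup h h0 ⟨_, hl, rfl, rfl⟩
  | cap l i hl => exact good_cap h h0 ⟨_, hl, rfl, rfl⟩
  | cr l i a b e hl ha hb =>
    have hc : crAt w l = some i := crAt_eq.2 ⟨e, hl⟩
    obtain ⟨H0, hH0, e0⟩ := good_hz h hc false
    obtain ⟨H1, hH1, e1⟩ := good_hz h hc true
    have k0 := good_th h hH0 (.vert l i i e hl e0 (Or.inl rfl))
    have k1 := good_th h hH0 (.vert l (i + 1) i e hl e0 (Or.inr rfl))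
    have k2 := good_cap h hH1 (l := l) (i := i) ⟨_, hl, rfl, e1⟩
    obtain rfl | rfl : a = 0 ∨ a = 1 := by omega
    · obtain rfl | rfl : b = 0 ∨ b = 1 := by omega
      · exact k0
      · exact k2.trans k1
    · obtain rfl | rfl : b = 0 ∨ b = 1 := by omega
      · exact k2.symm.trans k0
      · exact k1
  | upper j hj => exact good_th h h0 (.upper j hj)
  | side j hj => exact good_th h h0 (.side j hj)

theorem conn_model (ht : TorAlt r p q w) (h : Ok p q w c) (y z : Seg p q w) :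
    (model h).Bc (model h).D y z := by
  have key : ∀ a b, Relation.EqvGen (Joined p q w) a b → a = b ∨ GoodCn h a b := by
    intro a b hab
    induction hab with
    | rel a b hab => exact Or.inr (good_joined h hab)
    | refl a => exact Or.inl rfl
    | symm a b _ ih => exact ih.imp Eq.symm GoodCn.symm
    | trans a b d _ _ ih ih' =>
      rcases ih with rfl | ih
      · exact ih'
      · rcases ih' with rfl | ih'
        · exact Or.inr ih
        · exact Or.inr (ih.trans ih')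
  obtain ⟨h1, h2⟩ := mem_segs.1 y.2
  obtain ⟨h3, h4⟩ := mem_segs.1 z.2
  rcases key _ _ (ht.connected _ _ _ _ h1 h2 h3 h4) with e | ⟨_, _, e⟩
  · obtain rfl : y = z := Subtype.ext e
    exact ((model h).bc_equiv _).refl y
  · exact e

theorem good_gap (b : Bool) (y : Seg p q w) :
    (gap c b y.1).1 ≤ w.length ∧ (gap c b y.1).2 ≤ wd (p + q) w (gap c b y.1).1 := by
  obtain ⟨h1, h2⟩ := mem_segs.1 y.2
  unfold gap
  split_ifs
  · exact ⟨h1, h2.le⟩
  · exact ⟨h1, h2⟩

theorem pot_model (h : Ok p q w c) (ω : ℤ × ℤ → ℝ) (h0 : ω 0 = 0) (hn : ∀ v, ω (-v) = -ω v)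
    (F : ℕ × ℕ → ℝ)
    (hF : ∀ a b u m, a.1 ≤ w.length → a.2 ≤ wd (p + q) w a.1 → b.1 ≤ w.length →
      b.2 ≤ wd (p + q) w b.1 → Path p q w a b u m → F b + ω u - F a ≤ m) :
    (model h).Pot ω := by
  have key : ∀ (b b' : Bool) (y z : Seg p q w) u m, Path p q w (gap c b y.1) (gap c b' z.1) u m →
      |F (gap c b' z.1) + ω u - F (gap c b y.1)| ≤ m := by
    intro b b' y z u m hp
    have h1 := hF _ _ _ _ (good_gap b y).1 (good_gap b y).2 (good_gap b' z).1 (good_gap b' z).2 hp
    have h2 := hF _ _ _ _ (good_gap b' z).1 (good_gap b' z).2 (good_gap b y).1 (good_gap b y).2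
      hp.symm
    rw [hn] at h2
    exact abs_le.2 ⟨by linarith, h1⟩
  refine ⟨fun y => F (gap c true y.1), fun y => F (gap c false y.1), fun y => ?_, fun y => ?_,
    fun y => ?_⟩
  · have := key true false y y _ _ (path_across y.2)
    rw [h0, add_zero, abs_sub_comm, Nat.cast_one] at this
    exact this
  · have := key true true y _ _ _ (path_black h y)
    rw [Nat.cast_zero, abs_nonpos_iff, sub_eq_zero] at this
    exact this
  · have := key false false y _ _ _ (path_white h y)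
    rw [Nat.cast_zero, abs_nonpos_iff, sub_eq_zero] at this
    exact this

theorem good_base {l j : ℕ} (hl : l ≤ w.length) (hj : j ≤ wd (p + q) w l) :
    Path p q w (0, 0) (l, j) 0 j := by
  induction j with
  | zero =>
    clear hj
    induction l with
    | zero => exact Path.nil _
    | succ l ih =>
      obtain ⟨k, i, e⟩ := exists_get (show l < w.length by omega)
      simpa using (ih (by omega)).fwd (Hop.left l 0 i k e (Nat.zero_le i))
  | succ j ih => simpa using (ih (by omega)).fwd (Hop.across l j hl (by omega))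

theorem good_gaps (a : ℕ × ℕ) (ha : a ∈ {a : ℕ × ℕ | a.1 ≤ w.length ∧ a.2 ≤ wd (p + q) w a.1})
    (b : ℕ × ℕ) (hb : b ∈ {a : ℕ × ℕ | a.1 ≤ w.length ∧ a.2 ≤ wd (p + q) w a.1}) :
    ∃ u m, Path p q w a b u m :=
  ⟨_, _, (good_base ha.1 ha.2).symm.trans (good_base hb.1 hb.2)⟩

theorem good_cast {k : ℤ} {m : ℕ} (h : r * k.natAbs ≤ m) : (r : ℝ) * k ≤ m := by
  have h1 : (r : ℤ) * k ≤ (r : ℤ) * (k.natAbs : ℤ) :=
    mul_le_mul_of_nonneg_left Int.le_natAbs (Int.natCast_nonneg r)
  have h2 : (r : ℤ) * (k.natAbs : ℤ) ≤ m := by exact_mod_cast h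
  exact_mod_cast h1.trans h2

theorem good_lin_zero (a b : ℝ) : lin a b 0 = 0 := by simp [lin]

theorem good_lin_neg (a b : ℝ) (v : ℤ × ℤ) : lin a b (-v) = -lin a b v := by
  simp only [lin, Prod.fst_neg, Prod.snd_neg, Int.cast_neg]
  ring

theorem good_red (ht : TorAlt r p q w) (h : Ok p q w c) {y : Seg p q w} (hy : y ∈ DD p q w c)
    (b : Bool) : ¬ Path p q w (gap c b y.1) (gap c b (alp w c y.1)) 0 0 := by
  obtain ⟨⟨l, j⟩, hm⟩ := y
  obtain ⟨u, i, hc, hj⟩ := mem_DD.1 hy
  simp only at u hc hj ⊢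
  obtain ⟨e, hl⟩ := crAt_eq.1 hc
  obtain ⟨r1, r2⟩ := ht.reduced l i e hl
  have hw := (wd_succ h.valid hl).1
  have u' : up c (2 * i + 1 - j) = false := by rw [up_flip hj, u]; rfl
  have k1 : Hop p q w (l, i + 2) (l + 1, i + 2) 0 0 := Hop.right l (i + 2) i _ hl le_rfl hw
  have k2 : Hop p q w (l, i) (l + 1, i) 0 0 := Hop.left l i i _ hl le_rfl
  rw [alp_up hc hj u]
  intro hp
  cases b with
  | true =>
    simp only [gap, u, u', if_true, Bool.false_eq_true, if_false] at hp
    rcases hj with rfl | rfl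
    · rw [show 2 * j + 1 - j + 1 = j + 2 by omega] at hp
      exact r1 (by simpa using hp.bwd k1)
    · rw [show 2 * i + 1 - (i + 1) + 1 = i + 1 by omega] at hp
      exact r2 hp
  | false =>
    simp only [gap, u, u', if_true, Bool.true_eq_false, if_false] at hp
    rcases hj with rfl | rfl
    · rw [show 2 * j + 1 - j = j + 1 by omega] at hp
      exact r2 hp
    · rw [show 2 * i + 1 - (i + 1) = i by omega] at hp
      exact r1 (by simpa using (hp.bwd k2).symm)

theorem good_model (ht : TorAlt r p q w) (h : Ok p q w c) : (model h).Good r := by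
  refine ⟨conn_model ht h, fun y => ?_, fun y => ?_, fun y hy hb => ?_, fun y hy hb => ?_, ?_, ?_,
    ?_⟩
  · have h1 := TD.bw_orb (G := model h) (H := ∅) y
    rw [TD.pi_empty] at h1
    simpa using ht.discs _ _ (bw_path h h1)
  · have h1 := TD.bw_orb (G := (model h).dual) (H := ∅) y
    rw [TD.pi_empty] at h1
    have h2 := ht.discs _ _ (bw_path_dual h h1)
    have h3 : ∀ O, (model h).dual.cls O = (((model h).cls O).1, -((model h).cls O).2) := by
      intro O
      ext <;> simp [TD.cls, TD.dual, Prod.fst_sum, Prod.snd_sum]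
    rw [h3] at h2
    have h4 : (((model h).cls (orb (model h).dual.σ y)).1,
        ((model h).cls (orb (model h).dual.σ y)).2) = 0 := by simpa using h2
    exact h4
  · have h1 := bw_path h hb
    rw [sub_self] at h1
    exact good_red ht h hy true h1
  · have h1 := bw_path_dual h hb
    rw [sub_self, sub_self] at h1
    exact good_red ht h hy false h1
  · obtain ⟨θ, F, hF⟩ := exists_height (Path p q w)
      {a : ℕ × ℕ | a.1 ≤ w.length ∧ a.2 ≤ wd (p + q) w a.1} r Path.nil
      (fun _ _ _ _ _ _ _ => Path.trans) (fun _ _ _ _ => Path.symm) good_gaps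
      (fun a k m hp => good_cast (ht.representativity a k m (Or.inl hp)))
    exact ⟨θ, pot_model h _ (good_lin_zero _ _) (good_lin_neg _ _) F
      fun a b u m h1 h2 h3 h4 hp => hF a ⟨h1, h2⟩ b ⟨h3, h4⟩ u m hp⟩
  · obtain ⟨θ, F, hF⟩ := exists_height (fun a b u m => Path p q w a b u.swap m)
      {a : ℕ × ℕ | a.1 ≤ w.length ∧ a.2 ≤ wd (p + q) w a.1} r Path.nil
      (fun _ _ _ _ _ _ _ => Path.trans) (fun _ _ _ _ => Path.symm)
      (fun a ha b hb => by
        obtain ⟨u, m, hp⟩ := good_gaps a ha b hb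
        exact ⟨u.swap, m, hp⟩)
      (fun a k m hp => good_cast (ht.representativity a k m (Or.inr hp)))
    refine ⟨θ, pot_model h _ (good_lin_zero _ _) (good_lin_neg _ _) F
      fun a b u m h1 h2 h3 h4 hp => ?_⟩
    have h5 := hF a ⟨h1, h2⟩ b ⟨h3, h4⟩ u.swap m hp
    have h6 : lin r θ u.swap = lin θ r u := add_comm _ _
    rwa [h6] at h5
  · obtain ⟨e, i, hm⟩ := ht.crossing
    obtain ⟨l, hl⟩ := List.getElem?_of_mem hm
    obtain ⟨y, hy, -⟩ := exists_DD h (crAt_eq.2 ⟨e, hl⟩)
    exact ⟨y, hy⟩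

end Pool.Agent.Lib.MP_7bc610_gt.Ta
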