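import Pool.Agent.Lib.MP_7bc610_gt.Ta.SpinDefs

/-! The lowering operator commutes with diagrams and is injective on positive weights. -/

namespace Pool.Agent.Lib.MP_7bc610_gt.Ta

open LaurentPolynomial Finset

variable {n p q : ℕ} {Q : ℤ} {v : Vec} {x x' y : List Bool}

theorem spinF_ext {S S' : Vec →ₗ[RR] Vec} (h : ∀ u, S (bas u) = S' (bas u)) (v : Vec) :
    S v = S' v := by rw [lin_ext h]

theorem spinF_extW {S S' : Vec →ₗ[RR] Vec}
    (h : ∀ u, u.length = n → wt u = Q → S (bas u) = S' (bas u)) (hv : v ∈ W n Q) :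
    S v = S' v := by
  have := W_induct (S := S - S') (N := ⊥) (fun u h1 h2 => by
    rw [Submodule.mem_bot, LinearMap.sub_apply, h u h1 h2, sub_self]) hv
  rwa [Submodule.mem_bot, LinearMap.sub_apply, sub_eq_zero] at this

theorem spinF_pre_bas (l u : List Bool) : pre l (bas u) = bas (l ++ u) := by simp [pre]

theorem spinF_suf_bas (l u : List Bool) : suf l (bas u) = bas (u ++ l) := by simp [suf]

theorem spinF_F_bas (u : List Bool) : Fop (bas u) = Fb u := by simp [Fop]

theorem spinF_pre_nil (v : Vec) : pre [] v = v :=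
  spinF_ext (S' := LinearMap.id) (fun u => by simp [spinF_pre_bas]) v

theorem spinF_suf_nil (v : Vec) : suf [] v = v :=
  spinF_ext (S' := LinearMap.id) (fun u => by simp [spinF_suf_bas]) v

theorem spinF_pre_pre (l l' : List Bool) (v : Vec) : pre l (pre l' v) = pre (l ++ l') v :=
  spinF_ext (S := pre l ∘ₗ pre l') (fun u => by simp [spinF_pre_bas]) v

theorem spinF_suf_suf (l l' : List Bool) (v : Vec) : suf l (suf l' v) = suf (l' ++ l) v :=
  spinF_ext (S := suf l ∘ₗ suf l') (fun u => by simp [spinF_suf_bas]) v

theorem spinF_suf_pre (l l' : List Bool) (v : Vec) : suf l (pre l' v) = pre l' (suf l v) :=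
  spinF_ext (S := suf l ∘ₗ pre l') (S' := pre l' ∘ₗ suf l)
    (fun u => by simp [spinF_pre_bas, spinF_suf_bas]) v

theorem spinF_TT (a b : ℤ) : (T a : RR) * T b = T (a + b) := (T_add a b).symm

theorem spinF_F_nil : Fop (bas []) = 0 := by rw [spinF_F_bas]; rfl

theorem spinF_F_cons (a : Bool) (u : List Bool) : Fop (bas (a :: u)) =
    (if a then bas (false :: u) else 0) + (T (2 * sg a) : RR) • pre [a] (Fop (bas u)) := by
  rw [spinF_F_bas, spinF_F_bas]; rfl

theorem spinF_F_pre (a : Bool) (v : Vec) : Fop (pre [a] v) =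
    (if a then pre [false] v else 0) + (T (2 * sg a) : RR) • pre [a] (Fop v) := by
  have := spinF_ext (S := Fop ∘ₗ pre [a])
    (S' := (if a then pre [false] else 0) + (T (2 * sg a) : RR) • (pre [a] ∘ₗ Fop))
    (fun u => by cases a <;> simp [spinF_pre_bas, spinF_F_cons]) v
  cases a <;> simpa using this

theorem F_append (x y : List Bool) :
    Fop (bas (x ++ y)) = suf y (Fop (bas x)) + (T (2 * wt x) : RR) • pre x (Fop (bas y)) := by
  induction x with
  | nil => simp [spinF_F_nil, wt_nil, spinF_pre_nil]
  | cons a x ih =>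
    rw [List.cons_append, spinF_F_cons, spinF_F_cons, ih, wt_cons, mul_add, T_add]
    have e : pre [a] (pre x (Fop (bas y))) = pre (a :: x) (Fop (bas y)) := spinF_pre_pre _ _ _
    cases a <;>
      simp only [Bool.false_eq_true, if_false, if_true, map_add, map_smul, map_zero, spinF_suf_pre,
        e, spinF_suf_bas, List.cons_append] <;> module

theorem spinF_pre_mem (a : Bool) (hv : v ∈ W n Q) : pre [a] v ∈ W (n + 1) (sg a + Q) :=
  W_induct (fun u h1 h2 => by
    rw [spinF_pre_bas]
    exact bas_mem' (by simp [h1]) (by simp [wt_cons, h2])) hv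

theorem spinF_F_mem (u : List Bool) : Fop (bas u) ∈ W u.length (wt u - 2) := by
  induction u with
  | nil => rw [spinF_F_nil]; exact zero_mem _
  | cons a u ih =>
    rw [spinF_F_cons]
    refine add_mem ?_ (Submodule.smul_mem _ _ ?_)
    · cases a
      · exact zero_mem _
      · exact bas_mem' rfl (by simp only [wt_cons, sg]; simp; omega)
    · have := spinF_pre_mem a ih
      rwa [wt_cons, add_sub_assoc]

theorem F_mem (hv : v ∈ W n Q) : Fop v ∈ W n (Q - 2) :=
  W_induct (fun u h1 h2 => by rw [← h1, ← h2]; exact spinF_F_mem u) hv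

theorem spinF_cup_pre (i : ℕ) (a : Bool) (v : Vec) :
    cupL (i + 1) (pre [a] v) = pre [a] (cupL i v) := by
  simpa only [LinearMap.comp_apply] using
    spinF_ext (S := cupL (i + 1) ∘ₗ pre [a]) (S' := pre [a] ∘ₗ cupL i)
      (fun u => by simp [spinF_pre_bas, cupL]) v

theorem spinF_cap_pre (i : ℕ) (a : Bool) (v : Vec) :
    capL (i + 1) (pre [a] v) = pre [a] (capL i v) := by
  simpa only [LinearMap.comp_apply] using
    spinF_ext (S := capL (i + 1) ∘ₗ pre [a]) (S' := pre [a] ∘ₗ capL i)
      (fun u => by simp [spinF_pre_bas, capL]) v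

theorem spinF_cup_zero (v : Vec) :
    cupL 0 v = pre [false] (pre [true] v) - (T (-2) : RR) • pre [true] (pre [false] v) :=
  spinF_ext (S := cupL 0)
    (S' := pre [false] ∘ₗ pre [true] - (T (-2) : RR) • (pre [true] ∘ₗ pre [false]))
    (fun u => by simp [spinF_pre_bas, cupL]) v

theorem spinF_cap_zero (a b : Bool) (v : Vec) :
    capL 0 (pre [a] (pre [b] v)) = capW (some a) (some b) • v :=
  spinF_ext (S := capL 0 ∘ₗ pre [a] ∘ₗ pre [b]) (S' := capW (some a) (some b) • LinearMap.id)
    (fun u => by simp [spinF_pre_bas, capL]) v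

theorem spinF_bas_cons (a : Bool) (u : List Bool) : bas (a :: u) = pre [a] (bas u) := by
  rw [spinF_pre_bas]; rfl

theorem spinF_T2 : (T 2 : RR) * T (-2) = 1 := by rw [spinF_TT]; simp

theorem spinF_T2' : (T (-2) : RR) * T 2 = 1 := by rw [spinF_TT]; simp

theorem spinF_F_cup (i : ℕ) (v : Vec) : Fop (cupL i v) = cupL i (Fop v) := by
  have h0 : ∀ v, Fop (cupL 0 v) = cupL 0 (Fop v) := fun v => by
    simp only [spinF_cup_zero, map_sub, map_smul, map_add, spinF_F_pre, sg, Bool.false_eq_true,
      if_false, if_true, show (2 : ℤ) * -1 = -2 from rfl, mul_one, zero_add]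
    have t0 := spinF_T2
    generalize (T 2 : RR) = A at *
    generalize (T (-2) : RR) = B at *
    match_scalars
    · ring
    · linear_combination t0
    · linear_combination (-B) * t0
  induction i generalizing v with
  | zero => exact h0 v
  | succ i ih =>
    suffices h : ∀ u, (Fop ∘ₗ cupL (i + 1)) (bas u) = (cupL (i + 1) ∘ₗ Fop) (bas u) by
      simpa only [LinearMap.comp_apply] using spinF_ext h v
    intro u
    simp only [LinearMap.comp_apply]
    cases u with
    | nil =>
      have : cupL (i + 1) (bas []) = cupL 0 (bas []) := by simp [cupL]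
      rw [this, h0, spinF_F_nil, map_zero, map_zero]
    | cons a u =>
      rw [spinF_bas_cons, spinF_cup_pre, spinF_F_pre, spinF_F_pre, ih]
      cases a <;> simp [spinF_cup_pre]

theorem spinF_F_cap (i : ℕ) (v : Vec) : Fop (capL i v) = capL i (Fop v) := by
  induction i generalizing v with
  | zero =>
    suffices h : ∀ u, (Fop ∘ₗ capL 0) (bas u) = (capL 0 ∘ₗ Fop) (bas u) by
      simpa only [LinearMap.comp_apply] using spinF_ext h v
    intro u
    simp only [LinearMap.comp_apply]
    match u with
    | [] => simp [spinF_F_nil, capL, capW]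
    | [a] => cases a <;> simp [spinF_F_cons, spinF_F_nil, capL, capW]
    | a :: b :: u =>
      rw [spinF_bas_cons, spinF_bas_cons b, spinF_cap_zero, spinF_F_pre, spinF_F_pre]
      have t0 := spinF_T2
      cases a <;> cases b <;>
        simp only [spinF_cap_zero, capW, sg, map_smul, map_add, Bool.false_eq_true,
          if_false, if_true, show (2 : ℤ) * -1 = -2 from rfl, mul_one, zero_add, map_zero]
      all_goals
        generalize (T 2 : RR) = A at *
        generalize (T (-2) : RR) = B at *
        match_scalars <;> first | ring1 | linear_combination (-1) * t0 | linear_combination A * t0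
  | succ i ih =>
    suffices h : ∀ u, (Fop ∘ₗ capL (i + 1)) (bas u) = (capL (i + 1) ∘ₗ Fop) (bas u) by
      simpa only [LinearMap.comp_apply] using spinF_ext h v
    intro u
    simp only [LinearMap.comp_apply]
    cases u with
    | nil => simp [spinF_F_nil, capL, capW]
    | cons a u =>
      rw [spinF_bas_cons, spinF_cap_pre, spinF_F_pre, spinF_F_pre, ih]
      cases a <;> simp [spinF_cap_pre]

theorem F_rho (w : Word) : Fop ∘ₗ rho w = rho w ∘ₗ Fop := by
  induction w with
  | nil => rfl
  | cons g w ih =>
    have hg : Fop ∘ₗ gen g = gen g ∘ₗ Fop := by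
      obtain ⟨k, i⟩ := g
      refine LinearMap.ext fun v => ?_
      cases k <;> simp [gen, spinF_F_cup, spinF_F_cap]
    rw [rho, ← LinearMap.comp_assoc, ih, LinearMap.comp_assoc, hg, LinearMap.comp_assoc]

/-- The raising operator on words. -/
noncomputable def spinFEb : List Bool → Vec
  | [] => 0
  | a :: u => (if a then 0 else (T (-(2 * wt u)) : RR) • bas (true :: u)) + pre [a] (spinFEb u)

/-- The raising operator. -/
noncomputable def spinFE : Vec →ₗ[RR] Vec := lext spinFEb

theorem spinF_E_nil : spinFE (bas []) = 0 := by rw [spinFE, lext_bas]; rfl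

theorem spinF_E_cons (a : Bool) (u : List Bool) : spinFE (bas (a :: u)) =
    (if a then 0 else (T (-(2 * wt u)) : RR) • bas (true :: u)) + pre [a] (spinFE (bas u)) := by
  rw [spinFE, lext_bas, lext_bas]; rfl

theorem spinF_E_pre (a : Bool) (hv : v ∈ W n Q) : spinFE (pre [a] v) =
    (if a then 0 else (T (-(2 * Q)) : RR) • pre [true] v) + pre [a] (spinFE v) := by
  have := spinF_extW (S := spinFE ∘ₗ pre [a])
    (S' := (if a then 0 else (T (-(2 * Q)) : RR) • pre [true]) + (pre [a] ∘ₗ spinFE))
    (fun u _ h2 => by cases a <;> simp [spinF_pre_bas, spinF_E_cons, h2]) hv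
  cases a <;> simpa using this

theorem spinF_E_mem' (u : List Bool) : spinFE (bas u) ∈ W u.length (wt u + 2) := by
  induction u with
  | nil => rw [spinF_E_nil]; exact zero_mem _
  | cons a u ih =>
    rw [spinF_E_cons]
    refine add_mem ?_ ?_
    · cases a
      · exact Submodule.smul_mem _ _ (bas_mem' rfl (by simp only [wt_cons, sg]; simp; omega))
      · exact zero_mem _
    · have := spinF_pre_mem a ih
      rwa [wt_cons, add_assoc]

theorem spinF_E_mem (hv : v ∈ W n Q) : spinFE v ∈ W n (Q + 2) :=
  W_induct (fun u h1 h2 => by rw [← h1, ← h2]; exact spinF_E_mem' u) hv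

theorem spinF_comm' (u : List Bool) :
    (T 2 - T (-2) : RR) • (spinFE (Fop (bas u)) - Fop (spinFE (bas u))) =
      (T (2 * wt u) - T (-(2 * wt u)) : RR) • bas u := by
  induction u with
  | nil => simp [spinF_F_nil, spinF_E_nil, wt_nil]
  | cons a u ih =>
    have h1 := congrArg (pre [a]) ih
    rw [map_smul, map_smul, map_sub] at h1
    have hE := spinF_E_pre a (spinF_F_mem u)
    have hE' := spinF_E_pre false (bas_mem u)
    have t1 : (T (-(2 * (wt u - 2))) : RR) = T (-(2 * wt u)) * T 2 * T 2 := by
      rw [spinF_TT, spinF_TT]; congr 1; ring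
    have t2 : (T (2 * (1 + wt u)) : RR) = T 2 * T (2 * wt u) := by
      rw [spinF_TT]; congr 1; ring
    have t3 : (T (-(2 * (1 + wt u))) : RR) = T (-2) * T (-(2 * wt u)) := by
      rw [spinF_TT]; congr 1; ring
    have t4 : (T (2 * (-1 + wt u)) : RR) = T (-2) * T (2 * wt u) := by
      rw [spinF_TT]; congr 1; ring
    have t5 : (T (-(2 * (-1 + wt u))) : RR) = T 2 * T (-(2 * wt u)) := by
      rw [spinF_TT]; congr 1; ring
    have t0 := spinF_T2
    rw [spinF_F_cons, spinF_E_cons, wt_cons]
    cases a
    · simp only [Bool.false_eq_true, if_false, zero_add, map_add, map_smul, spinF_bas_cons, hE,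
        spinF_F_pre, if_true, sg, t1, t4, t5, show (2 : ℤ) * -1 = -2 from rfl, mul_one] at h1 ⊢
      generalize (T 2 : RR) = A at *
      generalize (T (-2) : RR) = B at *
      generalize (T (2 * wt u) : RR) = C at *
      generalize (T (-(2 * wt u)) : RR) = D at *
      linear_combination (norm := skip) B • h1
      match_scalars <;> first | ring1 | linear_combination (A - B) * D * A * t0
    · simp only [Bool.false_eq_true, if_false, zero_add, map_add, map_smul, spinF_bas_cons, hE, hE',
        spinF_F_pre, if_true, sg, t2, t3, mul_one] at h1 ⊢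
      generalize (T 2 : RR) = A at *
      generalize (T (-2) : RR) = B at *
      generalize (T (2 * wt u) : RR) = C at *
      generalize (T (-(2 * wt u)) : RR) = D at *
      linear_combination (norm := skip) A • h1
      match_scalars <;> ring1

theorem spinF_comm (hv : v ∈ W n Q) :
    (T 2 - T (-2) : RR) • (spinFE (Fop v) - Fop (spinFE v)) =
      (T (2 * Q) - T (-(2 * Q)) : RR) • v := by
  have := spinF_extW (S := (T 2 - T (-2) : RR) • (spinFE ∘ₗ Fop - Fop ∘ₗ spinFE))
    (S' := (T (2 * Q) - T (-(2 * Q)) : RR) • LinearMap.id) (fun u _ h2 => by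
      simpa only [LinearMap.smul_apply, LinearMap.sub_apply, LinearMap.comp_apply,
        LinearMap.id_apply, h2] using spinF_comm' u) hv
  simpa only [LinearMap.smul_apply, LinearMap.sub_apply, LinearMap.comp_apply,
    LinearMap.id_apply] using this

theorem spinF_pow_succ (j : ℕ) (v : Vec) : (Fop ^ (j + 1)) v = Fop ((Fop ^ j) v) := by
  rw [pow_succ', Module.End.mul_apply]

theorem spinF_pow_mem (j : ℕ) (hv : v ∈ W n Q) : (Fop ^ j) v ∈ W n (Q - 2 * j) := by
  induction j with
  | zero => simpa using hv
  | succ j ih =>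
    rw [spinF_pow_succ]
    have := F_mem ih
    rwa [show Q - 2 * (j : ℤ) - 2 = Q - 2 * ((j + 1 : ℕ) : ℤ) by push_cast; ring] at this

theorem spinF_comm_pow (j : ℕ) (hv : v ∈ W n Q) :
    ((T 2 - T (-2)) * (T 2 - T (-2)) : RR) •
        (spinFE ((Fop ^ (j + 1)) v) - (Fop ^ (j + 1)) (spinFE v)) =
      ((T (2 * (j + 1)) - T (-(2 * (j + 1)))) * (T (2 * (Q - j)) - T (-(2 * (Q - j)))) : RR) •
        (Fop ^ j) v := by
  induction j with
  | zero =>
    have h := spinF_comm hv
    simp only [zero_add, pow_one, pow_zero, Module.End.one_apply, Nat.cast_zero, sub_zero, mul_one]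
    rw [mul_smul, h, mul_smul]
  | succ j ih =>
    have h1 := congrArg Fop ih
    have h2 := spinF_comm (spinF_pow_mem (j + 1) hv)
    rw [map_smul, map_smul, map_sub, ← spinF_pow_succ, ← spinF_pow_succ j] at h1
    rw [← spinF_pow_succ] at h2
    have e : ((T (2 * (((j + 1 : ℕ) : ℤ) + 1)) - T (-(2 * (((j + 1 : ℕ) : ℤ) + 1)))) *
        (T (2 * (Q - ((j + 1 : ℕ) : ℤ))) - T (-(2 * (Q - ((j + 1 : ℕ) : ℤ))))) : RR) =
        (T (2 * (j + 1)) - T (-(2 * (j + 1)))) * (T (2 * (Q - j)) - T (-(2 * (Q - j)))) +
        (T 2 - T (-2)) * (T (2 * (Q - 2 * ((j + 1 : ℕ) : ℤ))) -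
          T (-(2 * (Q - 2 * ((j + 1 : ℕ) : ℤ))))) := by
      simp only [sub_mul, mul_sub, spinF_TT]
      push_cast
      ring_nf
    rw [e]
    linear_combination (norm := module) h1 + (T 2 - T (-2) : RR) • h2

theorem spinF_T_ne {a : ℤ} (ha : 0 < a) : (T a - T (-a) : RR) ≠ 0 := by
  intro h
  have h1 : (T a : RR) = T (-a) := sub_eq_zero.1 h
  have h2 := congrArg degree h1
  rw [degree_T, degree_T] at h2
  have h3 : a = -a := by exact_mod_cast h2
  omega

theorem spinF_W_zero (hQ : (n : ℤ) < Q) (hv : v ∈ W n Q) : v = 0 := by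
  ext u : 1
  refine W_apply hv ?_
  rintro ⟨h1, h2⟩
  have := abs_wt_le u
  rw [h1, h2, abs_le] at this
  omega

theorem spinF_inj (k : ℕ) : ∀ (Q : ℤ) (j : ℕ) (v : Vec), (n : ℤ) < Q + 2 * k → (j : ℤ) ≤ Q →
    v ∈ W n Q → (Fop ^ j) v = 0 → v = 0 := by
  induction k with
  | zero => exact fun Q j v h _ hv _ => spinF_W_zero (by simpa using h) hv
  | succ k ih =>
    intro Q j v hk hj hv h
    induction j with
    | zero => simpa using h
    | succ j ihj =>
      push_cast at hj hk
      have hd : ((T 2 - T (-2)) * (T 2 - T (-2)) : RR) ≠ 0 :=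
        mul_ne_zero (spinF_T_ne (by norm_num)) (spinF_T_ne (by norm_num))
      have h1 := spinF_comm_pow j hv
      have h2 := congrArg Fop h1
      rw [map_smul, map_smul, ← spinF_pow_succ j, h, map_zero, zero_sub, map_neg,
        ← spinF_pow_succ, smul_zero, smul_eq_zero, neg_eq_zero] at h2
      have h3 : spinFE v = 0 := ih (Q + 2) (j + 1 + 1) _ (by omega) (by push_cast; omega)
        (spinF_E_mem hv) (h2.resolve_left hd)
      rw [h, h3, map_zero, map_zero, sub_zero, smul_zero, eq_comm, smul_eq_zero] at h1
      exact ihj (by omega) (h1.resolve_left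
        (mul_ne_zero (spinF_T_ne (by omega)) (spinF_T_ne (by omega))))

theorem F_inj (j : ℕ) (hj : (j : ℤ) ≤ Q) (hv : v ∈ W n Q) (h : (Fop ^ j) v = 0) : v = 0 :=
  spinF_inj (n + 1) Q j v (by push_cast; omega) hj hv h

theorem spinF_cr (l s : List Bool) (b a : Bool) :
    gen (.cr true, l.length) (bas (l ++ b :: a :: s)) =
      (T (sg a * sg b) : RR) • bas (l ++ a :: b :: s) +
        if b = true ∧ a = false then (T 1 - T (-3) : RR) • bas (l ++ true :: false :: s) else 0 := by
  have h1 : capL l.length (bas (l ++ b :: a :: s)) = capW (some b) (some a) • bas (l ++ s) := by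
    simp [capL]
  have h2 : cupL l.length (bas (l ++ s)) =
      bas (l ++ false :: true :: s) - (T (-2) : RR) • bas (l ++ true :: false :: s) := by
    simp [cupL]
  have t1 : (T (-1) : RR) * T 2 = T 1 := by rw [spinF_TT]; rfl
  have t2 : (T (-1) : RR) * T (-2) = T (-3) := by rw [spinF_TT]; rfl
  have t0 := spinF_T2
  simp only [gen, if_true, LinearMap.add_apply, LinearMap.smul_apply, LinearMap.id_apply,
    LinearMap.comp_apply, h1, map_smul, h2]
  cases a <;> cases b <;>
    simp only [capW, sg, Bool.false_eq_true, if_false, if_true, and_self, and_true, and_false,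
      false_and, Bool.true_eq_false, mul_one, one_mul, neg_mul, mul_neg, neg_neg, ← t1, ← t2]
  all_goals
    generalize (T 2 : RR) = A at *
    generalize (T (-2) : RR) = B at *
    generalize (T (-1) : RR) = C at *
    match_scalars <;> first | ring1 | linear_combination C * t0

/-- One strand passing to the left under the strands `y`. -/
theorem under_eq (l y s : List Bool) (a : Bool) :
    rho (under l.length y.length) (bas (l ++ y ++ a :: s)) =
      (T (sg a * wt y) : RR) • bas (l ++ a :: y ++ s) +
        if a then 0 else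
          ((T 1 - T (-3)) * T (1 - wt y) : RR) • pre (l ++ [true]) (suf s (Fop (bas y))) := by
  induction y using List.reverseRecOn generalizing s a with
  | nil => cases a <;> simp [under, rho, wt_nil, spinF_F_nil]
  | append_singleton y b ih =>
    have e0 : l ++ (y ++ [b]) ++ a :: s = (l ++ y) ++ b :: a :: s := by simp
    have e1 : l ++ a :: (y ++ [b]) ++ s = l ++ a :: y ++ b :: s := by simp
    have e2 : wt (y ++ [b]) = wt y + sg b := by simp [wt]
    have e3 : pre (l ++ [true]) (suf s (pre y (bas [false]))) =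
        bas (l ++ true :: y ++ false :: s) := by
      simp [spinF_pre_bas, spinF_suf_bas]
    have e4 : suf s (suf [b] (Fop (bas y))) = suf (b :: s) (Fop (bas y)) := spinF_suf_suf _ _ _
    rw [List.length_append, List.length_singleton, under, rho, LinearMap.comp_apply,
      ← List.length_append, e0, spinF_cr, map_add, map_smul, ih, e1, e2, F_append, spinF_F_cons,
      spinF_F_nil]
    have t1 : (T (sg a * (wt y + sg b)) : RR) = T (sg a * sg b) * T (sg a * wt y) := by
      rw [spinF_TT]; congr 1; ring
    have t2 : (T (1 - (wt y + sg b)) : RR) = T (-1 * sg b) * T (1 - wt y) := by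
      rw [spinF_TT]; congr 1; ring
    have t3 : (T (-1 * 1) : RR) * T (1 - wt y) * T (2 * wt y) = T (1 * wt y) := by
      rw [spinF_TT, spinF_TT]; congr 1; ring
    rw [t1, t2]
    cases a <;> cases b <;>
      simp only [Bool.false_eq_true, if_false, if_true, and_self, and_true, and_false,
        false_and, Bool.true_eq_false, map_add, map_smul, map_zero, e4, ih, e3, sg, ← t3,
        smul_zero, add_zero] <;> module

theorem spinF_gen_pre (k : Kind) (i : ℕ) (a : Bool) (v : Vec) :
    gen (k, i + 1) (pre [a] v) = pre [a] (gen (k, i) v) := by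
  cases k <;> simp [gen, spinF_cup_pre, spinF_cap_pre]

theorem spinF_under_pre (i q : ℕ) (a : Bool) (v : Vec) :
    rho (under (i + 1) q) (pre [a] v) = pre [a] (rho (under i q) v) := by
  induction q generalizing v with
  | zero => simp only [under, rho, LinearMap.id_apply]
  | succ q ih =>
    simp only [under, rho, LinearMap.comp_apply]
    rw [Nat.add_right_comm, spinF_gen_pre, ih]

theorem spinF_block_pre (q p i : ℕ) (a : Bool) (v : Vec) :
    rho (block q (i + 1) p) (pre [a] v) = pre [a] (rho (block q i p) v) := by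
  induction p generalizing i v with
  | zero => simp only [block, rho, LinearMap.id_apply]
  | succ p ih =>
    simp only [block, rho_append, LinearMap.comp_apply]
    rw [spinF_under_pre, ih]

theorem spinF_strip_pre (a b : Bool) (r : List Bool) (v : Vec) :
    stripL (b :: r) (pre [a] v) = if a = b then stripL r v else 0 := by
  have := spinF_ext (S := stripL (b :: r) ∘ₗ pre [a]) (S' := if a = b then stripL r else 0)
    (fun u => by
      by_cases h : a = b <;> simp [spinF_pre_bas, stripL, h]) v
  by_cases h : a = b <;> simpa [h] using this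

theorem spinF_strip_nil (v : Vec) : stripL [] v = v :=
  spinF_ext (S' := LinearMap.id) (fun u => by simp [stripL]) v

theorem spinF_under (s : List Bool) (a : Bool) (hv : v ∈ W q Q) :
    rho (under 0 q) (suf (a :: s) v) = (T (sg a * Q) : RR) • pre [a] (suf s v) +
      if a then 0 else ((T 1 - T (-3)) * T (1 - Q) : RR) • pre [true] (suf s (Fop v)) := by
  have := spinF_extW (S := rho (under 0 q) ∘ₗ suf (a :: s))
    (S' := (T (sg a * Q) : RR) • (pre [a] ∘ₗ suf s) +
      if a then 0 else ((T 1 - T (-3)) * T (1 - Q) : RR) • (pre [true] ∘ₗ suf s ∘ₗ Fop))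
    (fun u h1 h2 => by
      have h := under_eq [] u s a
      rw [h1, h2] at h
      cases a <;> simpa [spinF_pre_bas, spinF_suf_bas] using h) hv
  cases a <;> simpa using this

theorem spinF_block (x' : List Bool) : ∀ (x : List Bool) (Q : ℤ) (z : Vec),
    x.length = x'.length → z ∈ W q Q → ∃ v ∈ W q (Q + wt x' - wt x + 2),
      stripL x (rho (block q 0 x'.length) (suf x' z)) =
        (if x = x' then (T (wt x * Q) : RR) • z else 0) + Fop v := by
  induction x' with
  | nil =>
    intro x Q z hx hz
    obtain rfl : x = [] := List.length_eq_zero_iff.1 hx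
    exact ⟨0, zero_mem _, by simp [block, rho, spinF_suf_nil, spinF_strip_nil, wt_nil]⟩
  | cons a s ih =>
    intro x Q z hx hz
    obtain _ | ⟨b, r⟩ := x
    · simp at hx
    have hr : r.length = s.length := by simpa using hx
    obtain ⟨v1, hv1, e1⟩ := ih r Q z hr hz
    obtain ⟨v2, hv2, e2⟩ := ih r (Q - 2) (Fop z) hr (F_mem hz)
    rw [List.length_cons, block, rho_append, LinearMap.comp_apply, spinF_under s a hz, map_add,
      map_smul, spinF_block_pre, map_add, map_smul, spinF_strip_pre, e1]
    have t1 : ∀ c : Bool, (T (wt (c :: r) * Q) : RR) = T (sg c * Q) * T (wt r * Q) := fun c => by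
      rw [spinF_TT, wt_cons]; congr 1; ring
    have m1 : ∀ c : Bool, Q + wt (c :: s) - wt (c :: r) + 2 = Q + wt s - wt r + 2 := fun c => by
      rw [wt_cons, wt_cons]; ring
    cases a <;> cases b
    · refine ⟨(T (sg false * Q) : RR) • v1, Submodule.smul_mem _ _ (by rwa [m1]), ?_⟩
      simp only [Bool.false_eq_true, if_false, if_true, map_smul, spinF_block_pre,
        spinF_strip_pre, Bool.true_eq_false, List.cons.injEq, true_and, t1]
      split_ifs <;> module
    · refine ⟨((T 1 - T (-3)) * T (1 - Q) : RR) •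
        ((if r = s then (T (wt r * (Q - 2)) : RR) • z else 0) + v2), Submodule.smul_mem _ _
          (add_mem ?_ ?_), ?_⟩
      · split_ifs with h
        · refine Submodule.smul_mem _ _ ?_
          rwa [show Q + wt (false :: s) - wt (true :: r) + 2 = Q by
            simp only [h, wt_cons, sg]; simp; ring]
        · exact zero_mem _
      · rwa [show Q + wt (false :: s) - wt (true :: r) + 2 = Q - 2 + wt s - wt r + 2 by
          simp only [wt_cons, sg]; simp; ring]
      · simp only [Bool.false_eq_true, if_false, if_true, map_smul, map_add, spinF_block_pre,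
          spinF_strip_pre, Bool.true_eq_false, List.cons.injEq, false_and, e2]
        split_ifs <;> simp only [map_smul, map_zero] <;> module
    · refine ⟨0, zero_mem _, ?_⟩
      simp
    · refine ⟨(T (sg true * Q) : RR) • v1, Submodule.smul_mem _ _ (by rwa [m1]), ?_⟩
      simp only [if_true, map_smul, map_zero, List.cons.injEq, true_and, t1]
      split_ifs <;> module

/-- The braiding is diagonal modulo the image of the lowering operator. -/
theorem block_eq (hx : x.length = p) (hx' : x'.length = p) (hy : y.length = q) :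
    ∃ v ∈ W q (wt y + wt x' - wt x + 2),
      stripL x (rho (block q 0 p) (bas (y ++ x'))) =
        (if x = x' then (T (wt x * wt y) : RR) • bas y else 0) + Fop v := by
  have := spinF_block x' x (wt y) (bas y) (hx.trans hx'.symm) (bas_mem' hy rfl)
  rwa [hx', spinF_suf_bas] at this

end Pool.Agent.Lib.MP_7bc610_gt.Ta
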