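import Pool.Agent.Lib.MP_7bc610_gt.Ta.SpinEv
import Pool.Agent.Lib.MP_7bc610_gt.Ta.SpinF

/-! The trace formula for the closure of a diagram around the standard torus. -/

namespace Pool.Agent.Lib.MP_7bc610_gt.Ta

open LaurentPolynomial Finset

variable {n p q : ℕ} {Q Q' : ℤ} {v : Vec} {w : Word}

/-- The trace on `W n Q`. -/
noncomputable def trW (n : ℕ) (Q : ℤ) (S : Vec →ₗ[RR] Vec) : RR :=
  ∑ u ∈ (words n).filter (fun u => wt u = Q), S (bas u) u

theorem trA_bas (u u' : List Bool) : bas u u' = if u = u' then 1 else 0 := by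
  simp [bas, Finsupp.single_apply]

theorem trA_mem {u : List Bool} :
    u ∈ (words n).filter (fun u => wt u = Q) ↔ u.length = n ∧ wt u = Q := by
  rw [mem_filter, mem_words]

theorem trA_eq {S S' : Vec →ₗ[RR] Vec}
    (h : ∀ u, u.length = n → wt u = Q → S (bas u) = S' (bas u)) (hv : v ∈ W n Q) : S v = S' v :=
  sub_eq_zero.1 ((Submodule.mem_bot RR).1 (W_induct (S := S - S') (N := ⊥)
    (fun u h1 h2 => (Submodule.mem_bot RR).2 (sub_eq_zero.2 (h u h1 h2))) hv))

theorem trA_exp (hv : v ∈ W n Q) :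
    v = ∑ u ∈ (words n).filter (fun u => wt u = Q), v u • bas u := by
  ext1 y
  simp only [Finsupp.finsetSum_apply, Finsupp.smul_apply, trA_bas, smul_eq_mul, mul_ite, mul_one,
    mul_zero, sum_ite_eq', trA_mem]
  split_ifs with h
  · rfl
  · exact W_apply hv h

theorem trA_exp' (hv : v ∈ W n Q) : v = ∑ u ∈ words n, v u • bas u := by
  ext1 y
  simp only [Finsupp.finsetSum_apply, Finsupp.smul_apply, trA_bas, smul_eq_mul, mul_ite, mul_one,
    mul_zero, sum_ite_eq', mem_words]
  split_ifs with h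
  · rfl
  · exact W_apply hv fun h' => h h'.1

theorem trA_app (S : Vec →ₗ[RR] Vec) (hv : v ∈ W n Q) (y : List Bool) :
    S v y = ∑ u ∈ (words n).filter (fun u => wt u = Q), v u * S (bas u) y := by
  conv_lhs => rw [trA_exp hv]
  simp only [map_sum, map_smul, Finsupp.finsetSum_apply, Finsupp.smul_apply, smul_eq_mul]

theorem trA_congr {S S' : Vec →ₗ[RR] Vec}
    (h : ∀ u, u.length = n → wt u = Q → S (bas u) = S' (bas u)) : trW n Q S = trW n Q S' :=
  sum_congr rfl fun u hu => by rw [h u (trA_mem.1 hu).1 (trA_mem.1 hu).2]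

theorem trA_add (S S' : Vec →ₗ[RR] Vec) : trW n Q (S + S') = trW n Q S + trW n Q S' := by
  simp [trW, sum_add_distrib]

theorem tr_comm {S S' : Vec →ₗ[RR] Vec} (h' : ∀ v ∈ W n Q, S' v ∈ W n Q')
    (h : ∀ v ∈ W n Q', S v ∈ W n Q) : trW n Q (S ∘ₗ S') = trW n Q' (S' ∘ₗ S) := by
  simp only [trW, LinearMap.comp_apply]
  rw [sum_congr rfl fun u hu => trA_app S (h' _ (bas_mem' (trA_mem.1 hu).1 (trA_mem.1 hu).2)) u,
    sum_comm]
  refine sum_congr rfl fun u hu => ?_
  rw [trA_app S' (h _ (bas_mem' (trA_mem.1 hu).1 (trA_mem.1 hu).2)) u]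
  exact sum_congr rfl fun _ _ => mul_comm _ _

theorem trA_wt_not (u : List Bool) : wt (u.map not) = -wt u := by
  induction u with
  | nil => rfl
  | cons a u ih =>
    rw [List.map_cons, wt_cons, wt_cons, ih]
    cases a <;> simp [sg] <;> ring

theorem trA_not_not (u : List Bool) : (u.map not).map not = u := by
  simp [Function.comp_def]

theorem trA_sum_not {M : Type} [AddCommMonoid M] (f : List Bool → M) :
    ∑ u ∈ (words n).filter (fun u => wt u = -Q), f u =
      ∑ u ∈ (words n).filter (fun u => wt u = Q), f (u.map not) := by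
  refine sum_nbij' (fun u => u.map not) (fun u => u.map not) (fun u hu => ?_) (fun u hu => ?_)
    (fun u _ => trA_not_not u) (fun u _ => trA_not_not u) fun u _ => by rw [trA_not_not]
  · rw [trA_mem] at hu ⊢
    rw [trA_wt_not, hu.2, List.length_map, neg_neg]
    exact ⟨hu.1, rfl⟩
  · rw [trA_mem] at hu ⊢
    rw [trA_wt_not, hu.2, List.length_map]
    exact ⟨hu.1, rfl⟩

theorem tr_conj {M S S' : Vec →ₗ[RR] Vec} (hM : ∀ v ∈ W n Q, M v ∈ W n (-Q))
    (hi : ∀ v ∈ W n Q, M v = 0 → v = 0) (h : ∀ v ∈ W n Q, S v ∈ W n Q)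
    (h' : ∀ v ∈ W n (-Q), S' v ∈ W n (-Q)) (hc : ∀ v ∈ W n Q, M (S v) = S' (M v)) :
    trW n Q S = trW n (-Q) S' := by
  let I := (words n).filter (fun u => wt u = Q)
  have hb : ∀ a : I, bas a ∈ W n Q := fun a => bas_mem' (trA_mem.1 a.2).1 (trA_mem.1 a.2).2
  let m : Matrix I I RR := Matrix.of fun a b => M (bas b) (a.1.map not)
  let s : Matrix I I RR := Matrix.of fun a b => S (bas b) a
  let s' : Matrix I I RR := Matrix.of fun a b => S' (bas (b.1.map not)) (a.1.map not)
  have h1 : m * s = s' * m := by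
    ext1 a b
    have h2 := DFunLike.congr_fun (hc _ (hb b)) (a.1.map not)
    rw [trA_app M (h _ (hb b)), trA_app S' (hM _ (hb b)), trA_sum_not, ← sum_coe_sort I,
      ← sum_coe_sort I] at h2
    simp only [Matrix.mul_apply, m, s, s', Matrix.of_apply]
    exact (sum_congr rfl fun _ _ => mul_comm _ _).trans
      (h2.trans (sum_congr rfl fun _ _ => mul_comm _ _))
  have hd : m.det ≠ 0 := fun h0 => by
    obtain ⟨c, hc0, hc1⟩ := Matrix.exists_mulVec_eq_zero_iff.2 h0
    have hz : ∑ a : I, c a • bas a ∈ W n Q :=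
      Submodule.sum_mem _ fun a _ => Submodule.smul_mem _ _ (hb a)
    have h3 : ∑ a : I, c a • bas a = 0 := by
      refine hi _ hz (Finsupp.ext fun y => ?_)
      by_cases hy : y.length = n ∧ wt y = -Q
      · have h4 := congrFun hc1 ⟨y.map not, trA_mem.2
          ⟨by rw [List.length_map, hy.1], by rw [trA_wt_not, hy.2, neg_neg]⟩⟩
        simp only [Matrix.mulVec, dotProduct, m, trA_not_not, Pi.zero_apply,
          Matrix.of_apply] at h4
        simp only [map_sum, map_smul, Finsupp.finsetSum_apply, Finsupp.smul_apply, smul_eq_mul,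
          Finsupp.zero_apply]
        exact (sum_congr rfl fun _ _ => mul_comm _ _).trans h4
      · exact W_apply (hM _ hz) hy
    refine hc0 (funext fun a => ?_)
    have h5 := congrArg (fun z : Vec => z a) h3
    simpa [Finsupp.finsetSum_apply, trA_bas, Subtype.coe_inj] using h5
  have h6 : m.det * s.trace = m.det * s'.trace := by
    have h7 : (m.adjugate * (m * s)).trace = (m.adjugate * (s' * m)).trace := by rw [h1]
    rwa [← Matrix.mul_assoc, Matrix.adjugate_mul, Matrix.trace_mul_comm m.adjugate,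
      Matrix.mul_assoc, Matrix.mul_adjugate, Matrix.smul_mul, Matrix.mul_smul, Matrix.one_mul,
      Matrix.mul_one, Matrix.trace_smul, Matrix.trace_smul] at h7
  have h8 := mul_left_cancel₀ hd h6
  unfold trW
  rw [trA_sum_not, ← sum_coe_sort I, ← sum_coe_sort I]
  exact h8

theorem tr_step {O A A' : Vec →ₗ[RR] Vec} (hQ : 0 ≤ Q)
    (hO : ∀ v ∈ W n (Q + 2), O v ∈ W n (Q + 2)) (hA' : ∀ v ∈ W n (Q + 2), A' v ∈ W n (Q + 2))
    (h1 : ∀ y, y.length = n → wt y = Q → ∃ v ∈ W n (Q + 2), O (bas y) = A (bas y) + Fop v)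
    (h2 : ∀ v ∈ W n (Q + 2), O (Fop v) = Fop (O v))
    (h3 : ∀ v ∈ W n (Q + 2), A (Fop v) = Fop (A' v)) :
    trW n Q O - trW n (Q + 2) O = trW n Q A - trW n (Q + 2) A' := by
  choose! Y hY hY' using h1
  have hF : ∀ v ∈ W n (Q + 2), Fop v ∈ W n Q := fun v hv => by
    simpa using F_mem hv
  have hL : ∀ v ∈ W n Q, lext Y v ∈ W n (Q + 2) := fun v hv =>
    W_induct (fun u h1 h2 => by rw [lext_bas]; exact hY u h1 h2) hv
  have e1 : ∀ u, u.length = n → wt u = Q → O (bas u) = (A + Fop ∘ₗ lext Y) (bas u) :=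
    fun u h1 h2 => by rw [LinearMap.add_apply, LinearMap.comp_apply, lext_bas, hY' u h1 h2]
  have e2 : ∀ v ∈ W n (Q + 2), O v = (A' + lext Y ∘ₗ Fop) v := fun v hv => by
    have h4 := trA_eq e1 (hF v hv)
    rw [h2 v hv, LinearMap.add_apply, h3 v hv, LinearMap.comp_apply, ← map_add, ← sub_eq_zero,
      ← map_sub] at h4
    exact sub_eq_zero.1 (F_inj 1 (by push_cast; omega) (Submodule.sub_mem _ (hO v hv)
      (Submodule.add_mem _ (hA' v hv) (hL _ (hF v hv)))) (by rwa [pow_one]))
  rw [trA_congr e1, trA_congr fun u h1 h2 => e2 _ (bas_mem' h1 h2), trA_add, trA_add,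
    tr_comm hL hF]
  ring

/-- Close up the `p` strands in the 3-sphere. -/
noncomputable def opO (p q : ℕ) (w : Word) : Vec →ₗ[RR] Vec :=
  ∑ x ∈ words p, (T (2 * wt x) : RR) • (stripL x ∘ₗ rho (w ++ block q 0 p) ∘ₗ pre x)

/-- Close up the `p` strands around the torus, with weight `A^j` per unit of flux. -/
noncomputable def opA (p q : ℕ) (w : Word) (j : ℤ) : Vec →ₗ[RR] Vec :=
  ∑ x ∈ words p, (T (wt x * j) : RR) • (stripR q x ∘ₗ rho w ∘ₗ pre x)

section Aux

variable {x x' y : List Bool}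

theorem trA_pre (x u : List Bool) : pre x (bas u) = bas (x ++ u) := lext_bas _ _

theorem trA_suf (x u : List Bool) : suf x (bas u) = bas (u ++ x) := lext_bas _ _

theorem trA_sL (h : x'.length = x.length) (u : List Bool) :
    stripL x (bas (x' ++ u)) = if x' = x then bas u else 0 := by
  rw [stripL, lext_bas, ← h, List.take_left, List.drop_left]

theorem trA_sR (h : y.length = q) (x x' : List Bool) :
    stripR q x (bas (y ++ x')) = if x' = x then bas y else 0 := by
  rw [stripR, lext_bas, ← h, List.take_left, List.drop_left]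

theorem trA_splitL {u : List Bool} (h : u.length = p + q) :
    ∃ x y : List Bool, x.length = p ∧ y.length = q ∧ u = x ++ y :=
  ⟨u.take p, u.drop p, by simp [h], by simp [h], by simp⟩

theorem trA_splitR {u : List Bool} (h : u.length = p + q) :
    ∃ x y : List Bool, x.length = p ∧ y.length = q ∧ u = y ++ x :=
  ⟨u.drop q, u.take q, by simp [h], by simp [h], by simp⟩

theorem trA_pre_mem (hx : x.length = p) (hv : v ∈ W q Q) : pre x v ∈ W (p + q) (wt x + Q) :=
  W_induct (fun u h1 h2 => by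
    rw [trA_pre]
    exact bas_mem' (by simp [hx, h1]) (by rw [wt_append, h2])) hv

theorem trA_sL_mem (hx : x.length = p) (hv : v ∈ W (p + q) (wt x + Q)) : stripL x v ∈ W q Q :=
  W_induct (fun u h1 h2 => by
    obtain ⟨x', y, h3, h4, rfl⟩ := trA_splitL h1
    rw [trA_sL (h3.trans hx.symm)]
    split_ifs with h
    · rw [wt_append, h] at h2
      exact bas_mem' h4 (add_left_cancel h2)
    · exact zero_mem _) hv

theorem trA_sR_mem (hv : v ∈ W (p + q) (wt x + Q)) : stripR q x v ∈ W q Q :=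
  W_induct (fun u h1 h2 => by
    obtain ⟨x', y, -, h4, rfl⟩ := trA_splitR h1
    rw [trA_sR h4]
    split_ifs with h
    · rw [wt_append, h, add_comm] at h2
      exact bas_mem' h4 (add_left_cancel h2)
    · exact zero_mem _) hv

theorem trA_valid {a b c : ℕ} {w w' : Word} (h : Valid a w b) (h' : Valid b w' c) :
    Valid a (w ++ w') c := by
  induction w generalizing a with
  | nil => exact (show a = b from h) ▸ h'
  | cons g w ih => exact ⟨h.1, ih h.2⟩

theorem trA_sL_app (x y : List Bool) (v : Vec) : stripL x v y = v (x ++ y) := by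
  refine DFunLike.congr_fun (F := Vec →ₗ[RR] RR) (f := Finsupp.lapply y ∘ₗ stripL x)
    (g := Finsupp.lapply (x ++ y)) (Finsupp.lhom_ext' fun u => LinearMap.ext_ring ?_) v
  change stripL x (bas u) y = bas u (x ++ y)
  rw [stripL, lext_bas, trA_bas]
  by_cases h : u = x ++ y
  · subst h
    simp [trA_bas]
  · rw [if_neg h]
    split_ifs with h1
    · rw [trA_bas, if_neg fun h2 => h (by rw [← List.take_append_drop x.length u, h1, h2])]
    · rfl

theorem trA_sR_app (hy : y.length = q) (x : List Bool) (v : Vec) :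
    stripR q x v y = v (y ++ x) := by
  refine DFunLike.congr_fun (F := Vec →ₗ[RR] RR) (f := Finsupp.lapply y ∘ₗ stripR q x)
    (g := Finsupp.lapply (y ++ x)) (Finsupp.lhom_ext' fun u => LinearMap.ext_ring ?_) v
  change stripR q x (bas u) y = bas u (y ++ x)
  rw [stripR, lext_bas, trA_bas]
  by_cases h : u = y ++ x
  · subst h hy
    simp [trA_bas]
  · rw [if_neg h]
    split_ifs with h1
    · rw [trA_bas, if_neg fun h2 => h (by rw [← h2, ← h1, List.take_append_drop])]
    · rfl

theorem trA_sL_F (hx : x.length = p) (hv : v ∈ W (p + q) Q) :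
    stripL x (Fop v) = (T (2 * wt x) : RR) • Fop (stripL x v) +
      ∑ x' ∈ words p, Fop (bas x') x • stripL x' v := by
  have h := trA_eq (S := stripL x ∘ₗ Fop) (S' := (T (2 * wt x) : RR) • (Fop ∘ₗ stripL x) +
    ∑ x' ∈ words p, Fop (bas x') x • stripL x') (fun u h1 _ => ?_) hv
  · simpa only [LinearMap.comp_apply, LinearMap.add_apply, LinearMap.smul_apply,
      LinearMap.sum_apply] using h
  obtain ⟨x₀, y, h3, -, rfl⟩ := trA_splitL h1
  have e1 : stripL x (suf y (Fop (bas x₀))) = Fop (bas x₀) x • bas y := by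
    refine trA_eq (S := stripL x ∘ₗ suf y) (S' := (Finsupp.lapply x).smulRight (bas y))
      (fun u h4 _ => ?_) (F_mem (bas_mem' h3 rfl))
    rw [LinearMap.comp_apply, trA_suf, trA_sL (h4.trans hx.symm)]
    simp [trA_bas]
  have e2 : stripL x ∘ₗ pre x₀ = if x₀ = x then LinearMap.id else 0 := lin_ext fun u => by
    rw [LinearMap.comp_apply, trA_pre, trA_sL (h3.trans hx.symm)]
    split_ifs <;> rfl
  have e3 : ∑ x' ∈ words p, Fop (bas x') x • stripL x' (bas (x₀ ++ y)) = Fop (bas x₀) x • bas y := by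
    rw [sum_congr rfl fun x' hx' => by rw [trA_sL (h3.trans (mem_words.1 hx').symm)]]
    simp [mem_words, h3]
  simp only [LinearMap.comp_apply, LinearMap.add_apply, LinearMap.smul_apply, LinearMap.sum_apply]
  rw [F_append, map_add, map_smul, e1, e3, ← LinearMap.comp_apply (stripL x) (pre x₀), e2,
    trA_sL (h3.trans hx.symm), add_comm]
  split_ifs with h
  · rw [h]; rfl
  · simp

theorem trA_sR_F (x : List Bool) (hv : v ∈ W (p + q) (wt x + (Q + 2))) :
    stripR q x (Fop v) = Fop (stripR q x v) +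
      ∑ x' ∈ words p, (T (2 * Q) * Fop (bas x') x) • stripR q x' v := by
  have h := trA_eq (S := stripR q x ∘ₗ Fop) (S' := Fop ∘ₗ stripR q x +
    ∑ x' ∈ words p, (T (2 * Q) * Fop (bas x') x) • stripR q x') (fun u h1 h2 => ?_) hv
  · simpa only [LinearMap.comp_apply, LinearMap.add_apply, LinearMap.smul_apply,
      LinearMap.sum_apply] using h
  obtain ⟨x₀, y, h3, hy, rfl⟩ := trA_splitR h1
  have e1 : stripR q x ∘ₗ pre y = (Finsupp.lapply x).smulRight (bas y) := lin_ext fun u => by
    rw [LinearMap.comp_apply, trA_pre, trA_sR hy]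
    simp [trA_bas]
  have e2 : stripR q x (suf x₀ (Fop (bas y))) = if x₀ = x then Fop (bas y) else 0 := by
    refine (trA_eq (S := stripR q x ∘ₗ suf x₀) (S' := if x₀ = x then LinearMap.id else 0)
      (fun u h4 _ => ?_) (F_mem (bas_mem' hy rfl))).trans (by split_ifs <;> rfl)
    rw [LinearMap.comp_apply, trA_suf, trA_sR h4]
    split_ifs <;> rfl
  have e3 : ∑ x' ∈ words p, (T (2 * Q) * Fop (bas x') x) • stripR q x' (bas (y ++ x₀)) =
      (T (2 * Q) * Fop (bas x₀) x) • bas y := by
    simp [trA_sR hy, mem_words, h3]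
  simp only [LinearMap.comp_apply, LinearMap.add_apply, LinearMap.smul_apply, LinearMap.sum_apply]
  rw [F_append, map_add, map_smul, e2, e3, ← LinearMap.comp_apply (stripR q x) (pre y), e1,
    trA_sR hy, LinearMap.smulRight_apply, Finsupp.lapply_apply, smul_smul]
  refine congrArg₂ (· + ·) ?_ (congrArg (· • bas y) ?_)
  · split_ifs <;> simp
  · by_cases h : wt y = Q
    · rw [h]
    · rw [W_apply (F_mem (bas_mem x₀)) fun h4 => h (by rw [wt_append] at h2; omega), mul_zero,
        mul_zero]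

theorem trA_key (S : Vec →ₗ[RR] Vec) (w : Word) (hx : x.length = p) (y : List Bool) :
    (T (2 * wt x) : RR) • S (rho w (pre x (Fop (bas y)))) = S (Fop (rho w (bas (x ++ y)))) -
      ∑ x' ∈ words p, Fop (bas x) x' • S (rho w (bas (x' ++ y))) := by
  have h1 : Fop (rho w (bas (x ++ y))) = rho w (Fop (bas (x ++ y))) :=
    DFunLike.congr_fun (F_rho w) _
  have h2 : suf y (Fop (bas x)) = ∑ x' ∈ words p, Fop (bas x) x' • bas (x' ++ y) := by
    conv_lhs => rw [trA_exp' (F_mem (bas_mem' hx rfl))]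
    simp only [map_sum, map_smul, trA_suf]
  rw [h1, F_append, h2]
  simp only [map_add, map_sum, map_smul, add_sub_cancel_left]

end Aux

theorem opO_mem (hw : Valid (p + q) w (p + q)) (hv : v ∈ W q Q) : opO p q w v ∈ W q Q := by
  simp only [opO, LinearMap.comp_apply, LinearMap.smul_apply, LinearMap.sum_apply]
  exact Submodule.sum_mem _ fun x hx => Submodule.smul_mem _ _ (trA_sL_mem (mem_words.1 hx)
    (rho_mem (trA_valid hw (valid_block p q)) (trA_pre_mem (mem_words.1 hx) hv)))

theorem opA_mem (hw : Valid (p + q) w (p + q)) (j : ℤ) (hv : v ∈ W q Q) :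
    opA p q w j v ∈ W q Q := by
  simp only [opA, LinearMap.comp_apply, LinearMap.smul_apply, LinearMap.sum_apply]
  exact Submodule.sum_mem _ fun x hx => Submodule.smul_mem _ _
    (trA_sR_mem (rho_mem hw (trA_pre_mem (mem_words.1 hx) hv)))

theorem opO_F (hw : Valid (p + q) w (p + q)) (hv : v ∈ W q Q) :
    opO p q w (Fop v) = Fop (opO p q w v) := by
  refine trA_eq (S := opO p q w ∘ₗ Fop) (S' := Fop ∘ₗ opO p q w) (fun y hy _ => ?_) hv
  simp only [opO, LinearMap.comp_apply, LinearMap.smul_apply, LinearMap.sum_apply, map_sum,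
    map_smul, trA_pre]
  rw [sum_congr rfl fun x hx => by
    rw [trA_key _ _ (mem_words.1 hx), trA_sL_F (mem_words.1 hx) (rho_mem
      (trA_valid hw (valid_block p q)) (bas_mem' (by simp [mem_words.1 hx, hy]) rfl))]]
  rw [sum_sub_distrib, sum_add_distrib, sum_comm, add_sub_cancel_right]

theorem opA_F (hw : Valid (p + q) w (p + q)) (hv : v ∈ W q (Q + 2)) :
    opA p q w (Q + 2) (Fop v) = Fop (opA p q w Q v) := by
  refine trA_eq (S := opA p q w (Q + 2) ∘ₗ Fop) (S' := Fop ∘ₗ opA p q w Q) (fun y hy hQ => ?_) hv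
  simp only [opA, LinearMap.comp_apply, LinearMap.smul_apply, LinearMap.sum_apply, map_sum,
    map_smul, trA_pre]
  rw [sum_congr rfl fun x hx => by
    rw [show wt x * (Q + 2) = wt x * Q + 2 * wt x by ring, T_add, mul_smul,
      trA_key _ _ (mem_words.1 hx), trA_sR_F x (rho_mem hw
        (bas_mem' (by simp [mem_words.1 hx, hy]) (by rw [wt_append, hQ]))),
      smul_sub, smul_add, smul_sum, smul_sum]]
  rw [sum_sub_distrib, sum_add_distrib, sum_comm, add_sub_assoc, add_eq_left, sub_eq_zero]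
  refine sum_congr rfl fun x _ => sum_congr rfl fun x' _ => ?_
  rw [smul_smul, smul_smul, ← mul_assoc, ← T_add]
  by_cases h : wt x' = wt x - 2
  · rw [h, show (wt x - 2) * Q + 2 * Q = wt x * Q by ring]
  · rw [W_apply (F_mem (bas_mem x)) fun h4 => h h4.2, mul_zero, mul_zero]

theorem opO_opA (hw : Valid (p + q) w (p + q)) {y : List Bool} (hy : y.length = q) :
    ∃ v ∈ W q (wt y + 2), opO p q w (bas y) = opA p q w (wt y + 2) (bas y) + Fop v := by
  have h : opO p q w (bas y) - opA p q w (wt y + 2) (bas y) ∈ (W q (wt y + 2)).map Fop := by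
    simp only [opO, opA, LinearMap.comp_apply, LinearMap.smul_apply, LinearMap.sum_apply,
      rho_append, ← sum_sub_distrib]
    refine Submodule.sum_mem _ fun x hx => ?_
    rw [show wt x * (wt y + 2) = 2 * wt x + wt x * wt y by ring, T_add, mul_smul, ← smul_sub]
    refine Submodule.smul_mem _ _ (W_induct (S := stripL x ∘ₗ rho (block q 0 p) -
      (T (wt x * wt y) : RR) • stripR q x) (fun u h1 h2 => ?_)
        (rho_mem hw (trA_pre_mem (mem_words.1 hx) (bas_mem' hy rfl))))
    obtain ⟨x', y', h3, h4, rfl⟩ := trA_splitR h1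
    obtain ⟨z, hz, e⟩ := block_eq (mem_words.1 hx) h3 h4
    rw [wt_append] at h2
    refine ⟨z, (show wt y' + wt x' - wt x + 2 = wt y + 2 by omega) ▸ hz, ?_⟩
    rw [LinearMap.sub_apply, LinearMap.comp_apply, LinearMap.smul_apply, e, trA_sR h4]
    by_cases h5 : x = x'
    · rw [if_pos h5, if_pos h5.symm, show wt y' = wt y by rw [h5] at h2; omega,
        add_sub_cancel_left]
    · rw [if_neg h5, if_neg (Ne.symm h5), smul_zero, zero_add, sub_zero]
  obtain ⟨z, hz, e⟩ := h
  exact ⟨z, hz, by rw [e, add_sub_cancel]⟩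

/-- Summation by parts. -/
theorem abel (m : ℕ) (a t t' : ℤ → RR) (hs : ∀ b : ℤ, 0 ≤ b → a (-b) = a b)
    (hd : ∀ b : ℤ, 0 ≤ b → a b - a (b + 1) = t b - t' (b + 1))
    (h0 : a (m + 1) = 0) (h0' : t' (m + 1) = 0) :
    (T 2 - T (-2)) * ∑ b ∈ Finset.Icc (-(m : ℤ)) m, T (4 * b) * a b =
      ∑ b ∈ Finset.Icc (-(m : ℤ)) m,
        ((if 0 ≤ b then t b * (T (4 * b + 2) - T (-(4 * b + 2))) else 0) -
          (if 1 ≤ b then t' b * (T (4 * b - 2) - T (-(4 * b - 2))) else 0)) := by
  have key : ∀ m : ℕ, (T 2 - T (-2)) * ∑ b ∈ Finset.Icc (-(m : ℤ)) m, T (4 * b) * a b =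
      ∑ b ∈ Finset.Icc (-(m : ℤ)) m,
        ((if 0 ≤ b then t b * (T (4 * b + 2) - T (-(4 * b + 2))) else 0) -
          (if 1 ≤ b then t' b * (T (4 * b - 2) - T (-(4 * b - 2))) else 0)) +
        (a (m + 1) - t' (m + 1)) * (T (4 * m + 2) - T (-(4 * m + 2))) := by
    intro m
    induction m with
    | zero =>
      have h := hd 0 le_rfl
      simp only [Nat.cast_zero, neg_zero, Icc_self, sum_singleton, mul_zero, T_zero, one_mul,
        le_refl, if_true, zero_add, show ¬ ((1 : ℤ) ≤ 0) by omega, if_false, sub_zero] at h ⊢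
      linear_combination (T 2 - T (-2) : RR) * h
    | succ m ih =>
      have e : Finset.Icc (-((m + 1 : ℕ) : ℤ)) ((m + 1 : ℕ) : ℤ) =
          insert (-((m : ℤ) + 1)) (insert ((m : ℤ) + 1) (Finset.Icc (-(m : ℤ)) m)) := by
        ext b
        simp only [mem_Icc, mem_insert]
        omega
      have n1 : (m : ℤ) + 1 ∉ Finset.Icc (-(m : ℤ)) m := by simp
      have n2 : -((m : ℤ) + 1) ∉ insert ((m : ℤ) + 1) (Finset.Icc (-(m : ℤ)) m) := by
        simp only [mem_Icc, mem_insert]
        omega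
      have h := hd (m + 1) (by omega)
      have s1 : (T 2 : RR) * T (-2) = 1 := by rw [← T_add]; simp
      rw [e, sum_insert n2, sum_insert n2, sum_insert n1, sum_insert n1, hs _ (by omega),
        if_neg (by omega), if_neg (by omega), if_pos (by omega), if_pos (by omega), Nat.cast_succ,
        show 4 * -((m : ℤ) + 1) = -(4 * m + 2) + -2 by ring,
        show -(4 * ((m : ℤ) + 1) + 2) = -(4 * m + 2) + -2 + -2 by ring,
        show 4 * ((m : ℤ) + 1) - 2 = 4 * m + 2 by ring,
        show 4 * ((m : ℤ) + 1) = 4 * m + 2 + 2 by ring]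
      simp only [T_add (4 * m + 2 + 2), T_add (4 * m + 2), T_add (-(4 * m + 2) + -2),
        T_add (-(4 * m + 2))]
      linear_combination ih + (T (4 * m + 2) * T 2 * T 2 - T (-(4 * m + 2)) * T (-2) * T (-2) : RR)
        * h + a (m + 1) * (T (-(4 * m + 2)) - T (4 * m + 2) : RR) * s1
  rw [key, h0, h0', sub_zero, zero_mul, add_zero]

theorem trA_fib {M : Type} [AddCommMonoid M] (m : ℕ) (f : List Bool → M) :
    ∑ y ∈ words (m + m), f y = ∑ b ∈ Finset.Icc (-(m : ℤ)) m,
      ∑ y ∈ (words (m + m)).filter (fun y => wt y = 2 * b), f y := by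
  rw [← sum_fiberwise_of_maps_to (t := Finset.Icc (-(m : ℤ)) m) (g := fun y => wt y / 2)
    fun y hy => ?_]
  · refine sum_congr rfl fun b _ => sum_congr (filter_congr fun y hy => ?_) fun _ _ => rfl
    obtain ⟨k, hk⟩ := even_wt y
    rw [mem_words.1 hy] at hk
    omega
  · have h := abs_le.1 (abs_wt_le y)
    rw [mem_words.1 hy] at h
    rw [mem_Icc]
    omega

theorem trA_pow (j : ℕ) (hv : v ∈ W n Q) : (Fop ^ j) v ∈ W n (Q - 2 * j) := by
  induction j with
  | zero => simpa using hv
  | succ j ih =>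
    rw [pow_succ', Module.End.mul_apply, show Q - 2 * ((j + 1 : ℕ) : ℤ) = Q - 2 * j - 2 by
      push_cast; ring]
    exact F_mem ih

theorem trA_zero (h : (n : ℤ) < Q) (S : Vec →ₗ[RR] Vec) : trW n Q S = 0 :=
  sum_eq_zero fun u hu => by
    have h1 := abs_le.1 (abs_wt_le u)
    rw [(trA_mem.1 hu).1, (trA_mem.1 hu).2] at h1
    omega

theorem trace_formula (hw : Valid (p + q) w (p + q)) (hp : Even p) (hq : Even q) :
    (T 2 - T (-2)) * stateSum (torusWord p q w) =
      ∑ x ∈ words p, ∑ y ∈ words q, rho w (bas (x ++ y)) (y ++ x) * psi (wt x) (wt y) := by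
  have hc := closure (trA_valid hw (valid_block p q)) (hp.add hq)
  obtain ⟨m, rfl⟩ := hq
  have h := abel m (fun b => trW (m + m) (2 * b) (opO p (m + m) w))
    (fun b => trW (m + m) (2 * b) (opA p (m + m) w (2 * b + 2)))
    (fun b => trW (m + m) (2 * b) (opA p (m + m) w (2 * b - 2))) (fun b hb => ?_) (fun b hb => ?_)
    (trA_zero (by push_cast; omega) _) (trA_zero (by push_cast; omega) _)
  · rw [stateSum_eq (valid_torusWord hw), torusWord, hc, sum_words_append, sum_comm, trA_fib,
      sum_comm (s := words p), trA_fib]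
    convert h using 2
    · refine sum_congr rfl fun b _ => ?_
      rw [trW, mul_sum]
      refine sum_congr rfl fun y hy => ?_
      simp only [opO, LinearMap.comp_apply, LinearMap.smul_apply, LinearMap.sum_apply, trA_pre,
        Finsupp.finsetSum_apply, Finsupp.smul_apply, smul_eq_mul, trA_sL_app, mul_sum]
      refine sum_congr rfl fun x _ => ?_
      rw [wt_append, (trA_mem.1 hy).2, ← mul_assoc, ← T_add]
      congr 2
      ring
    · rename_i b _
      have e : ∀ j, trW (m + m) (2 * b) (opA p (m + m) w j) =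
          ∑ y ∈ (words (m + m)).filter (fun y => wt y = 2 * b), ∑ x ∈ words p,
            T (wt x * j) * rho w (bas (x ++ y)) (y ++ x) := fun j =>
        sum_congr rfl fun y hy => by
          simp only [opA, LinearMap.comp_apply, LinearMap.smul_apply, LinearMap.sum_apply, trA_pre,
            Finsupp.finsetSum_apply, Finsupp.smul_apply, smul_eq_mul,
            trA_sR_app (trA_mem.1 hy).1]
      rw [sum_congr rfl fun y hy => by rw [(trA_mem.1 hy).2]]
      simp only [e, psi, mul_sub (rho w _ _), sum_sub_distrib, show 0 ≤ 2 * b ↔ 0 ≤ b by omega,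
        show 2 ≤ 2 * b ↔ 1 ≤ b by omega, show 2 * (2 * b) = 4 * b by ring, sum_mul]
      congr 1 <;> split_ifs <;>
        first
          | exact sum_congr rfl fun y _ => sum_congr rfl fun x _ => by ring
          | simp
  · obtain ⟨j, rfl⟩ := Int.eq_ofNat_of_zero_le hb
    rw [mul_neg]
    refine (tr_conj (M := Fop ^ (2 * j)) (fun v hv => ?_) (fun v hv => F_inj _ (by simp) hv)
      (fun v hv => opO_mem hw hv) (fun v hv => opO_mem hw hv) fun v hv => ?_).symm
    · rw [show -(2 * (j : ℤ)) = 2 * j - 2 * ((2 * j : ℕ) : ℤ) by push_cast; ring]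
      exact trA_pow _ hv
    · generalize 2 * j = k
      induction k with
      | zero => rfl
      | succ k ih =>
        rw [pow_succ', Module.End.mul_apply, Module.End.mul_apply, ih, opO_F hw (trA_pow k hv)]
  · rw [show 2 * (b + 1) - 2 = 2 * b by ring, show 2 * (b + 1) = 2 * b + 2 by ring]
    exact tr_step (by omega) (fun v hv => opO_mem hw hv) (fun v hv => opA_mem hw _ hv)
      (fun y hy e => e ▸ opO_opA hw hy) (fun v hv => opO_F hw hv) fun v hv => opA_F hw hv

end Pool.Agent.Lib.MP_7bc610_gt.Ta
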