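import Pool.Agent.Lib.MP_7bc610_gt.Ta.Cfg
import Pool.Agent.Lib.MP_7bc610_gt.Ta.SpinTrace
import Pool.Agent.Lib.MP_7bc610_gt.Ta.Good
import Pool.Agent.Lib.MP_7bc610_gt.Ta.Dual

/-! Assembly. -/

namespace Pool.Agent.Lib.MP_7bc610_gt.Ta

open Finset Equiv LaurentPolynomial

theorem fin_psi_pos (a b : ℤ) (hb : 1 ≤ b) : psi (2 * a) (2 * b) + psi (2 * (-a)) (2 * (-b)) =
    phi (a, b) + phi (-a, -b) := by
  have h1 : (0 : ℤ) ≤ 2 * b := by omega
  have h2 : (2 : ℤ) ≤ 2 * b := by omega
  have h3 : ¬ (0 : ℤ) ≤ 2 * (-b) := by omega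
  have h4 : ¬ (2 : ℤ) ≤ 2 * (-b) := by omega
  simp only [psi, phi, x1, x2, if_pos h1, if_pos h2, if_neg h3, if_neg h4, mul_sub, ← T_add]
  ring_nf

theorem psi_symm (v : ℤ × ℤ) :
    psi (2 * v.1) (2 * v.2) + psi (2 * (-v).1) (2 * (-v).2) = phi v + phi (-v) := by
  obtain ⟨a, b⟩ := v
  simp only [Prod.neg_mk]
  rcases lt_trichotomy b 0 with h | rfl | h
  · have := fin_psi_pos (-a) (-b) (by omega)
    rw [neg_neg, neg_neg] at this
    rw [add_comm, this, add_comm]
  · simp only [psi, phi, x1, x2, neg_zero, mul_zero, le_refl, if_true,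
      show ¬ (2 : ℤ) ≤ 0 by omega, if_false, mul_sub, ← T_add]
    ring_nf
  · exact fin_psi_pos a b h

theorem fin_mono_zero : mono 0 = 1 := by simp [mono]

theorem fin_mono_loop : mono 1 + mono (-1) = loopVal := by
  simp [mono, loopVal, sub_eq_add_neg]

theorem fin_triv {α : Type} [DecidableEq α] (ρ : α → ℤ) (Z : Finset α)
    (h : ∀ O ∈ Z, ρ O = 1 ∨ ρ O = -1) :
    ∑ S ∈ Z.powerset, mono (∑ O ∈ Z, if O ∈ S then ρ O else -ρ O) = loopVal ^ Z.card := by
  induction Z using Finset.induction_on with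
  | empty => simp [fin_mono_zero]
  | insert a Z ha ih =>
    rw [sum_powerset_insert ha, card_insert_of_notMem ha, pow_succ,
      ← ih fun O hO => h O (mem_insert_of_mem hO), ← sum_add_distrib, sum_mul]
    refine sum_congr rfl fun S hS => ?_
    have hn : a ∉ S := fun k => ha (mem_powerset.1 hS k)
    have : ∑ O ∈ Z, (if O ∈ insert a S then ρ O else -ρ O) =
        ∑ O ∈ Z, if O ∈ S then ρ O else -ρ O := by
      refine sum_congr rfl fun O hO => ?_
      have : O ≠ a := fun k => ha (k ▸ hO)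
      simp only [mem_insert, this, false_or]
    rw [sum_insert ha, sum_insert ha, if_neg hn, if_pos (mem_insert_self _ _), this, mono_add,
      mono_add, ← fin_mono_loop]
    rcases h a (mem_insert_self _ _) with k | k <;> rw [k]
    · ring
    · rw [neg_neg]; ring

theorem fin_pow_union {α M : Type} [DecidableEq α] [AddCommMonoid M] (A B : Finset α)
    (h : Disjoint A B) (F : Finset α → M) :
    ∑ S ∈ (A ∪ B).powerset, F S = ∑ S ∈ A.powerset, ∑ S' ∈ B.powerset, F (S ∪ S') := by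
  induction A using Finset.induction_on generalizing F with
  | empty => simp
  | insert a A ha ih =>
    have h' : Disjoint A B := h.mono_left (subset_insert _ _)
    have hb : a ∉ B := disjoint_left.1 h (mem_insert_self _ _)
    rw [insert_union, sum_powerset_insert (by simp [ha, hb]), sum_powerset_insert ha, ih h', ih h']
    simp only [insert_union]

theorem loops_sum {X : Type} [Fintype X] [DecidableEq X] {G : TD X} {r : ℝ} (hG : G.Good r)
    (H : Finset X) (ρ : Finset X → ℤ)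
    (hρ : ∀ O ∈ cyc (G.pi H), if G.cls O = 0 then (ρ O = 1 ∨ ρ O = -1) else ρ O = 0) :
    ∑ S ∈ (cyc (G.pi H)).powerset, mono (∑ O ∈ cyc (G.pi H), if O ∈ S then ρ O else -ρ O) *
        psi (2 * (∑ O ∈ S, G.cls O).1) (2 * (∑ O ∈ S, G.cls O).2) =
      loopVal ^ G.tr H * ∑ S ∈ (G.ess H).powerset, phi (∑ O ∈ S, G.cls O) := by
  set Z := (cyc (G.pi H)).filter fun O => G.cls O = 0 with hZ
  have hd : Disjoint (G.ess H) Z := by
    rw [disjoint_left]
    intro O h1 h2
    exact (TD.mem_ess.1 h1).2 (mem_filter.1 h2).2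
  have hu : cyc (G.pi H) = G.ess H ∪ Z := by
    rw [union_comm]
    exact (filter_union_filter_not_eq _ _).symm
  have h1 : ∀ O ∈ Z, ρ O = 1 ∨ ρ O = -1 := fun O hO => by
    have := hρ O (mem_filter.1 hO).1
    rwa [if_pos (mem_filter.1 hO).2] at this
  have h2 : ∀ O ∈ G.ess H, ρ O = 0 := fun O hO => by
    have := hρ O (TD.mem_ess.1 hO).1
    rwa [if_neg (TD.mem_ess.1 hO).2] at this
  have sym : ∑ S ∈ (G.ess H).powerset,
      psi (2 * (∑ O ∈ S, G.cls O).1) (2 * (∑ O ∈ S, G.cls O).2) =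
      ∑ S ∈ (G.ess H).powerset, phi (∑ O ∈ S, G.cls O) := by
    have c : ∀ F : ℤ × ℤ → RR, ∑ S ∈ (G.ess H).powerset, F (∑ O ∈ S, G.cls O) =
        ∑ S ∈ (G.ess H).powerset, F (-∑ O ∈ S, G.cls O) := by
      intro F
      refine sum_bij' (fun S _ => G.ess H \ S) (fun S _ => G.ess H \ S) ?_ ?_ ?_ ?_ ?_
      · exact fun S _ => mem_powerset.2 sdiff_subset
      · exact fun S _ => mem_powerset.2 sdiff_subset
      · exact fun S hS => Finset.sdiff_sdiff_eq_self (mem_powerset.1 hS)
      · exact fun S hS => Finset.sdiff_sdiff_eq_self (mem_powerset.1 hS)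
      · intro S hS
        have := sum_sdiff (f := G.cls) (mem_powerset.1 hS)
        rw [TD.sum_cls hG] at this
        rw [eq_neg_of_add_eq_zero_left this, neg_neg]
    have two : (2 : RR) ≠ 0 := by
      intro k
      have := congrArg (fun f : RR => f.coeff 0) (k.symm.trans (map_ofNat C 2).symm)
      simp at this
    apply mul_left_cancel₀ two
    rw [two_mul, two_mul]
    nth_rewrite 2 [c fun v => psi (2 * v.1) (2 * v.2)]
    nth_rewrite 2 [c phi]
    rw [← sum_add_distrib, ← sum_add_distrib]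
    exact sum_congr rfl fun S _ => psi_symm _
  rw [← sym, mul_sum]
  conv_lhs => rw [hu]
  rw [fin_pow_union _ _ hd]
  refine sum_congr rfl fun S hS => ?_
  rw [TD.tr, ← hZ, ← fin_triv ρ Z h1, sum_mul]
  refine sum_congr rfl fun S' hS' => ?_
  have hS1 := mem_powerset.1 hS
  have hS2 := mem_powerset.1 hS'
  have e1 : ∑ O ∈ S ∪ S', G.cls O = ∑ O ∈ S, G.cls O := by
    rw [sum_union (hd.mono hS1 hS2), sum_eq_zero (s := S') fun O hO => (mem_filter.1 (hS2 hO)).2,
      add_zero]
  have e2 : (∑ O ∈ G.ess H ∪ Z, if O ∈ S ∪ S' then ρ O else -ρ O) =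
      ∑ O ∈ Z, if O ∈ S' then ρ O else -ρ O := by
    rw [sum_union hd, sum_eq_zero (s := G.ess H) fun O hO => by rw [h2 O hO]; simp, zero_add]
    refine sum_congr rfl fun O hO => ?_
    have : O ∉ S := fun k => disjoint_left.1 hd (hS1 k) hO
    simp only [mem_union, this, false_or]
  rw [e1, e2]

variable {r p q : ℕ} {w : Word} {c : Bool}

theorem stateSum_model (ht : TorAlt r p q w) (h : Ok p q w c) :
    (T 2 - T (-2)) * stateSum (torusWord p q w) = (model h).Rsum := by
  have hG := good_model ht h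
  rw [trace_formula h.valid h.ep h.eq, cfg h]
  refine sum_congr rfl fun H hH => ?_
  have hp := model_pi h (mem_powerset.1 hH)
  rw [TD.term, mul_assoc, ← loops_sum hG H (fun O => ∑ y ∈ O, tw p q w c (hzOf c H) y.1 true)
    (fun O hO => rot h _ (hp ▸ hO)), hp, sum_invariant (nxP h (hzOf c H)) fun A =>
      mono (∑ y, tw p q w c (hzOf c H) y.1 (decide (y ∈ A))) *
        psi (2 * ((model h).cls A).1) (2 * ((model h).cls A).2)]
  refine congrArg₂ (· * ·) rfl (sum_congr rfl fun S hS => ?_)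
  have hS' := mem_powerset.1 hS
  have e1 : (model h).cls (S.biUnion id) = ∑ O ∈ S, (model h).cls O := sum_biUnion_cyc _ hS'
  rw [e1, sum_cyc (nxP h (hzOf c H))]
  refine congrArg₂ (· * ·) (congrArg mono (sum_congr rfl fun O hO => ?_)) rfl
  by_cases k : O ∈ S
  · rw [if_pos k]
    refine sum_congr rfl fun y hy => ?_
    rw [decide_eq_true (mem_biUnion.2 ⟨O, k, hy⟩)]
  · rw [if_neg k, ← rot_neg h _ hO]
    refine sum_congr rfl fun y hy => ?_
    rw [decide_eq_false]
    intro hy'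
    obtain ⟨O', o1, o2⟩ := mem_biUnion.1 hy'
    exact k ((eq_orb hO hy).trans (eq_orb (hS' o1) o2).symm ▸ o1)

theorem final (ht : TorAlt 6 p q w) (k : ℤ) :
    stateSum (torusWord p q w) ≠ loopVal * T k ∧ stateSum (torusWord p q w) ≠ -(loopVal * T k) := by
  obtain ⟨c, h⟩ := ht.ok
  have hG : (model h).Good 6 := by simpa using good_model ht h
  have hn := TD.not_triv hG
  have key : (T 2 - T (-2) : ℤ[T;T⁻¹]) * (loopVal * T k) = -(T (k + 4) - T (k - 4)) := by
    have e1 : (T (k + 4) : ℤ[T;T⁻¹]) = T 2 * T 2 * T k := by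
      rw [← T_add, ← T_add]; congr 1; ring
    have e2 : (T (k - 4) : ℤ[T;T⁻¹]) = T (-2) * T (-2) * T k := by
      rw [← T_add, ← T_add]; congr 1; ring
    rw [e1, e2, loopVal]
    ring
  constructor
  · intro e
    exact hn ⟨k, Or.inr (by rw [← stateSum_model ht h, e, key])⟩
  · intro e
    exact hn ⟨k, Or.inl (by rw [← stateSum_model ht h, e, mul_neg, key, neg_neg])⟩

end Pool.Agent.Lib.MP_7bc610_gt.Ta
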