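import Pool.Agent.Lib.MP_7bc610_gt.Ta.Walk

/-! The genus and the level of a state. -/

namespace Pool.Agent.Lib.MP_7bc610_gt.Ta

open Equiv Finset LaurentPolynomial

variable {X : Type} [Fintype X] [DecidableEq X]

namespace TD

variable {G : TD X} {H H' : Finset X} {y z e f : X} {u : ℤ × ℤ} {r : ℝ}

theorem gen_bc_sigma (H : Finset X) (t : X) : G.Bc H t (G.σ t) := ⟨_, bw_sigma t 0⟩

theorem gen_bc_alpha {t : X} (h : t ∈ H ∨ G.α t ∈ H) : G.Bc H t (G.α t) := ⟨_, bw_alpha h 0⟩

/-- A relation that is an equivalence and contains the steps contains `Bc`. -/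
theorem gen_bc_ind {R : X → X → Prop} (hR : Equivalence R) (h1 : ∀ t, R t (G.σ t))
    (h2 : ∀ t ∈ H, R t (G.α t)) {a b : X} (h : G.Bc H a b) : R a b := by
  obtain ⟨v, hv⟩ := h
  have : ∀ p q : X × (ℤ × ℤ), G.BW H p q → R p.1 q.1 := by
    intro p q hpq
    induction hpq with
    | rel p q hs =>
      cases hs with
      | face t x => exact h1 t
      | edge t x ht => exact h2 t ht
    | refl p => exact hR.refl _
    | symm p q _ ih => exact hR.symm ih
    | trans p q s _ _ ih ih' => exact hR.trans ih ih'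
  exact this _ _ hv

theorem bc_insert {a b : X} : G.Bc (insert y H) a b ↔
    G.Bc H a b ∨ (G.Bc H a y ∧ G.Bc H (G.α y) b) ∨ (G.Bc H a (G.α y) ∧ G.Bc H y b) := by
  have E := G.bc_equiv H
  constructor
  · intro h
    refine gen_bc_ind (R := fun a b => G.Bc H a b ∨ (G.Bc H a y ∧ G.Bc H (G.α y) b) ∨
      (G.Bc H a (G.α y) ∧ G.Bc H y b)) ⟨fun a => Or.inl (E.refl a), ?_, ?_⟩ ?_ ?_ h
    · rintro a b (h | ⟨h, h'⟩ | ⟨h, h'⟩)
      · exact Or.inl (E.symm h)
      · exact Or.inr (Or.inr ⟨E.symm h', E.symm h⟩)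
      · exact Or.inr (Or.inl ⟨E.symm h', E.symm h⟩)
    · rintro a b c (h | ⟨h, h'⟩ | ⟨h, h'⟩) (k | ⟨k, k'⟩ | ⟨k, k'⟩)
      · exact Or.inl (E.trans h k)
      · exact Or.inr (Or.inl ⟨E.trans h k, k'⟩)
      · exact Or.inr (Or.inr ⟨E.trans h k, k'⟩)
      · exact Or.inr (Or.inl ⟨h, E.trans h' k⟩)
      · exact Or.inr (Or.inl ⟨h, k'⟩)
      · exact Or.inl (E.trans h k')
      · exact Or.inr (Or.inr ⟨h, E.trans h' k⟩)
      · exact Or.inl (E.trans h k')
      · exact Or.inr (Or.inr ⟨h, k'⟩)
    · exact fun t => Or.inl (gen_bc_sigma H t)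
    · intro t ht
      rcases mem_insert.1 ht with rfl | ht
      · exact Or.inr (Or.inl ⟨E.refl _, E.refl _⟩)
      · exact Or.inl (gen_bc_alpha (Or.inl ht))
  · have E' := G.bc_equiv (insert y H)
    have m : ∀ {a b}, G.Bc H a b → G.Bc (insert y H) a b := fun h => h.mono (subset_insert _ _)
    have k : G.Bc (insert y H) y (G.α y) := gen_bc_alpha (Or.inl (mem_insert_self _ _))
    rintro (h | ⟨h, h'⟩ | ⟨h, h'⟩)
    · exact m h
    · exact E'.trans (m h) (E'.trans k (m h'))
    · exact E'.trans (m h) (E'.trans (E'.symm k) (m h'))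

theorem gen_comp_eq {a b : X} : G.comp H a = G.comp H b ↔ G.Bc H a b := by
  have E := G.bc_equiv H
  constructor
  · intro h
    rw [← mem_comp, h, mem_comp]
    exact E.refl b
  · intro h
    ext t
    simp only [mem_comp]
    exact ⟨fun k => E.trans (E.symm h) k, fun k => E.trans h k⟩

theorem kB_empty (G : TD X) : G.kB ∅ = G.V := by
  have : G.comp ∅ = orb G.σ := by
    funext a
    ext t
    rw [mem_comp, bc_empty, mem_orb]
  simp only [kB, V, cyc, this]

theorem gen_bc_same (h : G.Bc H y (G.α y)) {a b : X} : G.Bc (insert y H) a b ↔ G.Bc H a b := by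
  have E := G.bc_equiv H
  rw [bc_insert]
  constructor
  · rintro (k | ⟨k, k'⟩ | ⟨k, k'⟩)
    · exact k
    · exact E.trans k (E.trans h k')
    · exact E.trans k (E.trans (E.symm h) k')
  · exact Or.inl

theorem kB_same (h : G.Bc H y (G.α y)) : G.kB (insert y H) = G.kB H := by
  have : G.comp (insert y H) = G.comp H := by
    funext a
    ext t
    rw [mem_comp, mem_comp, gen_bc_same h]
  simp only [kB, this]

theorem kB_join (h : ¬ G.Bc H y (G.α y)) : G.kB (insert y H) + 1 = G.kB H := by
  classical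
  have E := G.bc_equiv H
  set A := G.comp H y with hA
  set B := G.comp H (G.α y) with hB
  have hAB : A ≠ B := fun k => h (gen_comp_eq.1 k)
  set R := ((univ.image (G.comp H)).erase A).erase B with hR
  have c1 : ∀ a, G.Bc H a y ∨ G.Bc H a (G.α y) → G.comp (insert y H) a = A ∪ B := by
    intro a ha
    ext t
    simp only [hA, hB, mem_union, mem_comp, bc_insert]
    constructor
    · rintro (k | ⟨k, k'⟩ | ⟨k, k'⟩)
      · rcases ha with ha | ha
        · exact Or.inl (E.trans (E.symm ha) k)
        · exact Or.inr (E.trans (E.symm ha) k)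
      · exact Or.inr k'
      · exact Or.inl k'
    · rintro (k | k) <;> rcases ha with ha | ha
      · exact Or.inl (E.trans ha k)
      · exact Or.inr (Or.inr ⟨ha, k⟩)
      · exact Or.inr (Or.inl ⟨ha, k⟩)
      · exact Or.inl (E.trans ha k)
  have c2 : ∀ a, ¬ (G.Bc H a y ∨ G.Bc H a (G.α y)) → G.comp (insert y H) a = G.comp H a := by
    intro a ha
    ext t
    simp only [mem_comp, bc_insert]
    tauto
  have e1 : univ.image (G.comp (insert y H)) = insert (A ∪ B) R := by
    ext C
    simp only [hR, mem_image, mem_univ, true_and, mem_insert, mem_erase]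
    constructor
    · rintro ⟨a, rfl⟩
      by_cases ha : G.Bc H a y ∨ G.Bc H a (G.α y)
      · exact Or.inl (c1 a ha)
      · rw [c2 a ha]
        exact Or.inr ⟨fun k => ha (Or.inr (gen_comp_eq.1 k)),
          fun k => ha (Or.inl (gen_comp_eq.1 k)), a, rfl⟩
    · rintro (rfl | ⟨k1, k2, a, rfl⟩)
      · exact ⟨y, c1 y (Or.inl (E.refl y))⟩
      · refine ⟨a, c2 a ?_⟩
        rintro (k | k)
        · exact k2 (gen_comp_eq.2 k)
        · exact k1 (gen_comp_eq.2 k)
  have n1 : A ∪ B ∉ R := by
    simp only [hR, mem_image, mem_univ, true_and, mem_erase]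
    rintro ⟨-, k2, a, k⟩
    apply k2
    have : y ∈ G.comp H a := by rw [k]; exact mem_union_left _ (mem_comp.2 (E.refl y))
    rw [← k]
    exact gen_comp_eq.2 (mem_comp.1 this)
  have mA : A ∈ univ.image (G.comp H) := mem_image.2 ⟨y, mem_univ _, rfl⟩
  have mB : B ∈ (univ.image (G.comp H)).erase A :=
    mem_erase.2 ⟨hAB.symm, mem_image.2 ⟨_, mem_univ _, rfl⟩⟩
  have k1 := card_erase_add_one mA
  have k2 := card_erase_add_one mB
  simp only [kB, e1, card_insert_of_notMem n1]
  rw [← k1, ← k2]

theorem gen_kB_step (G : TD X) (H : Finset X) (y : X) :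
    G.kB (insert y H) ≤ G.kB H ∧ G.kB H ≤ G.kB (insert y H) + 1 := by
  by_cases h : G.Bc H y (G.α y)
  · have := kB_same h; omega
  · have := kB_join h; omega

/-- Induction along a chain of subsets. -/
theorem gen_chain {P : Finset X → Prop} (h : H ⊆ H') (h0 : P H)
    (hs : ∀ K t, H ⊆ K → K ⊆ H' → t ∈ H' → t ∉ K → P K → P (insert t K)) : P H' := by
  have : ∀ S : Finset X, S ⊆ H' → P (H ∪ S) := by
    intro S
    induction S using Finset.induction_on with
    | empty => intro _; simpa using h0
    | insert t S _ ih =>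
      intro hS
      have h1 := ih ((subset_insert _ _).trans hS)
      rw [union_insert]
      by_cases ht : t ∈ H ∪ S
      · rwa [insert_eq_of_mem ht]
      · exact hs _ t subset_union_left (union_subset h ((subset_insert _ _).trans hS))
          (hS (mem_insert_self _ _)) ht h1
  simpa [union_eq_right.2 h] using this H' Subset.rfl

theorem kB_anti (h : H ⊆ H') : G.kB H' ≤ G.kB H :=
  gen_chain (P := fun K => G.kB K ≤ G.kB H) h le_rfl
    fun K t _ _ _ _ hK => (G.gen_kB_step K t).1.trans hK

theorem V_le (G : TD X) (H : Finset X) : G.V ≤ G.kB H + H.card := by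
  induction H using Finset.induction_on with
  | empty => simp [kB_empty]
  | insert t S ht ih =>
    have := (G.gen_kB_step S t).2
    rw [card_insert_of_notMem ht]
    omega

theorem kB_one (y : X) (h : ∀ a b, G.Bc H a b) : G.kB H = 1 := by
  rw [kB, card_eq_one]
  refine ⟨G.comp H y, ?_⟩
  ext C
  simp only [mem_image, mem_univ, true_and, mem_singleton]
  exact ⟨fun ⟨a, k⟩ => k ▸ gen_comp_eq.2 (h a y), fun k => ⟨y, k.symm⟩⟩

theorem gen_merge (hH : H ⊆ G.D) (hy : y ∈ G.D) (hn : y ∉ H)
    (hs : ¬ (G.pi H).SameCycle y (G.α y)) : Mrg (G.pi H) (G.pi (insert y H)) y (G.α y) := by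
  rw [pi_insert hH hy hn]
  exact merge hs

theorem gen_split (hH : H ⊆ G.D) (hy : y ∈ G.D) (hn : y ∉ H)
    (hs : (G.pi H).SameCycle y (G.α y)) : Mrg (G.pi (insert y H)) (G.pi H) y (G.α y) := by
  rw [pi_insert hH hy hn]
  exact split (ne_alpha hy) hs

theorem gen_step (hH : H ⊆ G.D) (hy : y ∈ G.D) (hn : y ∉ H) :
    ((¬ G.Bc H y (G.α y) ∨ (G.pi H).SameCycle y (G.α y)) ∧ G.gen (insert y H) = G.gen H) ∨
      (G.Bc H y (G.α y) ∧ ¬ (G.pi H).SameCycle y (G.α y) ∧ G.gen (insert y H) = G.gen H + 2 ∧
        ¬ G.Full H ∧ G.Full (insert y H)) := by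
  by_cases hs : (G.pi H).SameCycle y (G.α y)
  · have h1 := (gen_split hH hy hn hs).card
    have h2 := kB_same (bc_of_orb (mem_orb.2 hs))
    refine Or.inl ⟨Or.inr hs, ?_⟩
    simp only [gen, card_insert_of_notMem hn, h1, h2]
    push_cast
    ring
  · have h1 := (gen_merge hH hy hn hs).card
    by_cases hb : G.Bc H y (G.α y)
    · have h2 := kB_same hb
      obtain ⟨k1, k2⟩ := merge_in hH hy hn hs hb
      refine Or.inr ⟨hb, hs, ?_, fun hf => ?_, k2⟩
      · simp only [gen, card_insert_of_notMem hn, h1, h2]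
        push_cast
        ring
      · have : orb (G.pi H) y ∈ G.ess H := mem_ess.2 ⟨orb_mem_cyc _ _, k1⟩
        rw [hf.ess] at this
        exact notMem_empty _ this
    · have h2 := kB_join hb
      refine Or.inl ⟨Or.inl hb, ?_⟩
      simp only [gen, card_insert_of_notMem hn, h1, ← h2]
      push_cast
      ring

theorem gen_empty (G : TD X) : G.gen ∅ = 0 := by
  simp only [gen, kB_empty, pi_empty, V, card_empty]
  push_cast
  ring

theorem gen_both (hH : H ⊆ G.D) : (¬ G.Full H → G.gen H = 0) ∧ (G.gen H = 0 ∨ G.gen H = 2) := by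
  induction H using Finset.induction_on with
  | empty => simp [gen_empty]
  | insert t S ht ih =>
    have hS : S ⊆ G.D := (subset_insert _ _).trans hH
    obtain ⟨i1, i2⟩ := ih hS
    rcases gen_step hS (hH (mem_insert_self _ _)) ht with ⟨-, k⟩ | ⟨-, -, k, k1, k2⟩
    · rw [k]
      exact ⟨fun hf => i1 fun hf' => hf (hf'.mono (subset_insert _ _)), i2⟩
    · rw [k, i1 k1]
      exact ⟨fun hf => absurd k2 hf, Or.inr rfl⟩

theorem gen_zero (hH : H ⊆ G.D) (h : ¬ G.Full H) : G.gen H = 0 := (gen_both hH).1 h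

theorem gen_cases (hH : H ⊆ G.D) : G.gen H = 0 ∨ G.gen H = 2 := (gen_both hH).2

theorem gen_pot_perm (π : Perm X) (η : X → ℤ × ℤ) (h : ∀ t, ∑ z ∈ orb π t, η z = 0) :
    ∃ κ : X → ℤ × ℤ, ∀ t, κ (π t) + η (π t) = κ t := by
  classical
  have hr : ∀ t, ∃ a n, (π ^ (n : ℕ)) a = t ∧ a = (exists_orb (orb_mem_cyc π t)).choose := by
    intro t
    have h1 := (exists_orb (orb_mem_cyc π t)).choose_spec
    have h2 := self_mem_orb π t
    rw [h1, mem_orb] at h2
    obtain ⟨n, hn⟩ := h2.exists_nat_pow_eq
    exact ⟨_, n, hn, rfl⟩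
  choose a n hn ha using hr
  have haa : ∀ t, a (π t) = a t := by
    intro t
    have : orb π (π t) = orb π t :=
      orb_eq ((apply_mem_iff (orb_mem_cyc π t)).2 (self_mem_orb π t))
    rw [ha, ha]
    congr 1
    simp only [this]
  let S : X → ℕ → ℤ × ℤ := fun b k => ∑ i ∈ range k, η ((π ^ (i + 1)) b)
  have hS : ∀ b s t, (π ^ s) b = (π ^ t) b → S b s = S b t := by
    intro b
    obtain ⟨m, hm, hb, hmod, hsum⟩ := sum_orb_range π b
    have h0 : S b m = 0 := by
      have e1 := sum_range_succ' (fun i => η ((π ^ i) b)) m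
      have e2 := sum_range_succ (fun i => η ((π ^ i) b)) m
      rw [← hsum, h b, hb] at e2
      rw [e2] at e1
      simpa using e1.symm
    have hp : ∀ k, (π ^ (k + m)) b = (π ^ k) b := fun k => by
      rw [pow_add, Perm.mul_apply, hb]
    have h1 : ∀ k, S b (k + m) = S b k := by
      intro k
      induction k with
      | zero => simpa [S] using h0
      | succ k ih =>
        simp only [S] at ih ⊢
        rw [show k + 1 + m = k + m + 1 by ring, sum_range_succ, sum_range_succ, ih,
          show k + m + 1 = k + 1 + m by ring, hp]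
    have h2 : ∀ j k, S b (k + m * j) = S b k := by
      intro j k
      induction j with
      | zero => simp
      | succ j ih => rw [show k + m * (j + 1) = k + m * j + m by ring, h1, ih]
    intro s t hst
    rw [← Nat.mod_add_div s m, ← Nat.mod_add_div t m, h2, h2, hmod s t hst]
  refine ⟨fun t => -S (a t) (n t), fun t => ?_⟩
  have e : (π ^ n (π t)) (a t) = (π ^ (n t + 1)) (a t) := by
    rw [pow_succ', Perm.mul_apply, hn t, ← haa t, hn]
  have e2 : (π ^ (n t + 1)) (a t) = π t := by rw [pow_succ', Perm.mul_apply, hn t]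
  simp only [haa]
  rw [hS _ _ _ e]
  simp only [S, sum_range_succ, e2]
  abel

theorem gen_cls_add {π π' : Perm X} {a b : X} (h : Mrg π π' a b) :
    G.cls (orb π' a) = G.cls (orb π a) + G.cls (orb π b) := h.add G.η

theorem gen_pot (hG : G.Good r) (hH : H ⊆ G.D) : ∀ C, G.Closed H C → G.gen H = 0 →
    (∀ O ∈ G.ess H, ¬ O ⊆ C) → ∃ κ : X → ℤ × ℤ,
      (∀ t ∈ C, κ (G.σ t) + G.η (G.σ t) = κ t) ∧ ∀ t ∈ H, t ∈ C → κ (G.α t) = κ t := by
  induction H using Finset.induction_on with
  | empty =>
    intro C _ _ _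
    obtain ⟨κ, hκ⟩ := gen_pot_perm G.σ G.η hG.discB
    exact ⟨κ, fun t _ => hκ t, fun t ht => absurd ht (notMem_empty _)⟩
  | insert e S hn ih =>
    intro C hC h0 hO
    have hS : S ⊆ G.D := (subset_insert _ _).trans hH
    have he : e ∈ G.D := hH (mem_insert_self _ _)
    have hC' : G.Closed S C := ⟨hC.1, fun t ht => hC.2 t (mem_insert_of_mem ht)⟩
    have hea := hC.2 e (mem_insert_self _ _)
    have E := G.bc_equiv S
    rcases gen_step hS he hn with ⟨hcase, hg⟩ | ⟨-, -, hg, -, -⟩
    swap
    · have := gen_cases hS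
      omega
    have sub : ∀ (K : Finset X) t, G.Closed K C → t ∈ C → orb (G.pi K) t ⊆ C := fun K t hK ht z hz =>
      orb_induct (· ∈ C) (fun z hz => (hK.pi z).2 hz) ht hz
    have csub : ∀ t ∈ C, G.comp S t ⊆ C := by
      intro t ht z hz
      obtain ⟨v, hv⟩ := mem_comp.1 hz
      exact (BW.pot (M := ℤ) 0 (fun _ => 0) hC' (by simp) (by simp) hv ht).1
    have triv : ∀ t ∈ C, G.cls (orb (G.pi (insert e S)) t) = 0 := fun t ht => by
      by_contra k
      exact hO _ (mem_ess.2 ⟨orb_mem_cyc _ _, k⟩) (sub _ t hC ht)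
    have keep : ∀ O ∈ G.ess S, O ⊆ C → e ∈ O ∨ G.α e ∈ O := by
      intro O h1 h2
      by_contra k
      rw [not_or] at k
      have : O ∈ cyc (G.pi (insert e S)) := by
        by_cases hs : (G.pi S).SameCycle e (G.α e)
        · exact ((gen_split hS he hn hs).mem k.1 k.2).2 (mem_ess.1 h1).1
        · exact ((gen_merge hS he hn hs).mem k.1 k.2).1 (mem_ess.1 h1).1
      exact hO O (mem_ess.2 ⟨this, (mem_ess.1 h1).2⟩) h2
    by_cases hs : (G.pi S).SameCycle e (G.α e)
    · have hm := gen_split hS he hn hs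
      obtain ⟨κ, k1, k2⟩ := ih hS C hC' (hg ▸ h0) (by
        intro O h1 h2
        have h3 : e ∈ O := by
          rcases keep O h1 h2 with k | k
          · exact k
          · rw [eq_orb (mem_ess.1 h1).1 k]
            exact mem_orb.2 hs.symm
        apply (mem_ess.1 h1).2
        rw [eq_orb (mem_ess.1 h1).1 h3, gen_cls_add hm, triv e (h2 h3), triv _ (hea.2 (h2 h3)),
          add_zero])
      refine ⟨κ, k1, fun t ht htC => ?_⟩
      rcases mem_insert.1 ht with rfl | ht
      · have := (BW.pot (AddMonoidHom.id _) κ hC' k1 k2 (arc hS he hn hs) htC).2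
        rw [triv _ (hea.2 htC)] at this
        simpa using this
      · exact k2 t ht htC
    · have hb : ¬ G.Bc S e (G.α e) := hcase.resolve_right hs
      obtain ⟨κ, k1, k2⟩ := ih hS C hC' (hg ▸ h0) (by
        intro O h1 h2
        have key : ∀ t, (t = e ∨ t = G.α e) → t ∈ O → False := by
          intro t ht htO
          obtain ⟨O', o1, o2, o3⟩ := exists_other hG h1 htO
          have same : ∀ z ∈ O', (z = e ∨ z = G.α e) → z = t := by
            intro z hz hz'
            have hzt := mem_comp.1 (o3 hz)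
            rcases ht with rfl | rfl <;> rcases hz' with rfl | rfl
            · rfl
            · exact absurd hzt hb
            · exact absurd (E.symm hzt) hb
            · rfl
          have : t ∈ O' := by
            rcases keep O' o1 (o3.trans (csub t (h2 htO))) with k | k
            · exact same _ k (Or.inl rfl) ▸ k
            · exact same _ k (Or.inr rfl) ▸ k
          exact o2 ((eq_orb (mem_ess.1 o1).1 this).trans (eq_orb (mem_ess.1 h1).1 htO).symm)
        rcases keep O h1 h2 with k | k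
        · exact key e (Or.inl rfl) k
        · exact key _ (Or.inr rfl) k)
      have hB : G.Closed S (G.comp S (G.α e)) := closed_comp _
      refine ⟨fun t => κ t + if t ∈ G.comp S (G.α e) then κ e - κ (G.α e) else 0,
        fun t ht => ?_, fun t ht htC => ?_⟩
      · simp only [hB.1 t]
        rw [← k1 t ht]
        abel
      · rcases mem_insert.1 ht with rfl | ht
        · have n1 : t ∉ G.comp S (G.α t) := fun k => hb (E.symm (mem_comp.1 k))
          have n2 : G.α t ∈ G.comp S (G.α t) := mem_comp.2 (E.refl _)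
          simp only [if_pos n2, if_neg n1]
          abel
        · simp only [hB.2 t ht, k2 t ht htC]

/-- A planar black component all of whose boundary loops are inessential lies in a disc. -/
theorem holTriv (hG : G.Good r) (hH : H ⊆ G.D) (h0 : G.gen H = 0)
    (h : ∀ O ∈ G.ess H, ¬ O ⊆ G.comp H y) (hw : G.BW H (y, 0) (y, u)) : u = 0 := by
  obtain ⟨κ, k1, k2⟩ := gen_pot hG hH _ (closed_comp y) h0 h
  have := (BW.pot (AddMonoidHom.id _) κ (closed_comp y) k1 k2 hw
    (mem_comp.2 ((G.bc_equiv H).refl y))).2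
  simpa using this

theorem gen_full (hG : G.Good r) (hH : H ⊆ G.D) (h : G.Full H) : G.gen H = 2 := by
  refine (gen_cases hH).resolve_left fun h0 => ?_
  have he := h.ess
  obtain ⟨y, u, v, hu, -, hd⟩ := h
  apply hd
  rw [holTriv hG hH h0 (by simp [he]) hu]
  simp [det]

theorem lev_eq (G : TD X) (H : Finset X) :
    G.lev H = 2 * ((G.V : ℤ) - G.kB H) + G.gen H + (G.ess H).card := by
  simp only [lev, gen, card_cyc]
  push_cast
  ring

theorem ess_empty (hG : G.Good r) : G.ess ∅ = ∅ := by
  rw [eq_empty_iff_forall_notMem]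
  intro O hO
  obtain ⟨h1, h2⟩ := mem_ess.1 hO
  obtain ⟨t, rfl⟩ := exists_orb h1
  rw [pi_empty] at h2
  exact h2 (hG.discB t)

theorem tr_empty (hG : G.Good r) : G.tr ∅ = G.V := by
  have := G.card_cyc ∅
  rw [ess_empty hG, pi_empty] at this
  simpa [V] using this.symm

theorem gen_tr_sum (G : TD X) (H : Finset X) :
    (G.tr H : ℤ) = ∑ O ∈ cyc (G.pi H), if G.cls O = 0 then 1 else 0 := by
  rw [tr, card_filter]
  push_cast
  rfl

theorem gen_tr_mrg {K K' : Finset X} {a b : X} (h : Mrg (G.pi K) (G.pi K') a b) :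
    (G.tr K : ℤ) + (if G.cls (orb (G.pi K) a) + G.cls (orb (G.pi K) b) = 0 then 1 else 0) =
      G.tr K' + (if G.cls (orb (G.pi K) a) = 0 then 1 else 0) +
        (if G.cls (orb (G.pi K) b) = 0 then 1 else 0) := by
  rw [gen_tr_sum, gen_tr_sum, ← gen_cls_add h]
  exact h.sum _

theorem gen_mu_mrg {K K' : Finset X} {a b : X} (h : Mrg (G.pi K) (G.pi K') a b) :
    G.mu K + (|(G.cls (orb (G.pi K) a) + G.cls (orb (G.pi K) b)).1|,
        |(G.cls (orb (G.pi K) a) + G.cls (orb (G.pi K) b)).2|) =
      G.mu K' + (|(G.cls (orb (G.pi K) a)).1|, |(G.cls (orb (G.pi K) a)).2|) +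
        (|(G.cls (orb (G.pi K) b)).1|, |(G.cls (orb (G.pi K) b)).2|) := by
  rw [← gen_cls_add h]
  exact h.sum fun O => (|(G.cls O).1|, |(G.cls O).2|)

theorem gen_lev_step (hH : H ⊆ G.D) (hy : y ∈ G.D) (hn : y ∉ H) :
    G.lev H ≤ G.lev (insert y H) ∧
      (G.lev (insert y H) = G.lev H → G.mu (insert y H) ≤ G.mu H) := by
  simp only [lev, card_insert_of_notMem hn]
  push_cast
  by_cases hs : (G.pi H).SameCycle y (G.α y)
  · have h1 := gen_tr_mrg (gen_split hH hy hn hs)
    have h2 := gen_mu_mrg (gen_split hH hy hn hs)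
    generalize G.cls (orb (G.pi (insert y H)) y) = u at h1 h2
    generalize G.cls (orb (G.pi (insert y H)) (G.α y)) = v at h1 h2
    by_cases a : u = 0
    · subst a
      simp only [zero_add, if_true, Prod.fst_zero, Prod.snd_zero, abs_zero, Prod.mk_zero_zero,
        add_zero, add_left_inj] at h1 h2
      exact ⟨by omega, fun _ => h2.le⟩
    by_cases b : v = 0
    · subst b
      simp only [add_zero, if_true, Prod.fst_zero, Prod.snd_zero, abs_zero, Prod.mk_zero_zero,
        add_left_inj] at h1 h2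
      exact ⟨by omega, fun _ => h2.le⟩
    · simp only [if_neg a, if_neg b] at h1
      split_ifs at h1 <;> exact ⟨by omega, fun _ => by omega⟩
  · have h1 := gen_tr_mrg (gen_merge hH hy hn hs)
    have h2 := gen_mu_mrg (gen_merge hH hy hn hs)
    generalize G.cls (orb (G.pi H) y) = u at h1 h2
    generalize G.cls (orb (G.pi H) (G.α y)) = v at h1 h2
    refine ⟨by split_ifs at h1 <;> omega, fun _ => ?_⟩
    have a1 := congrArg Prod.fst h2
    have a2 := congrArg Prod.snd h2
    simp only [Prod.fst_add, Prod.snd_add] at a1 a2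
    have b1 := abs_add_le u.1 v.1
    have b2 := abs_add_le u.2 v.2
    exact ⟨by omega, by omega⟩

theorem lev_mono (hH' : H' ⊆ G.D) (h : H ⊆ H') : G.lev H ≤ G.lev H' :=
  gen_chain (P := fun K => G.lev H ≤ G.lev K) h le_rfl
    fun _ _ _ h2 h3 h4 hK => hK.trans (gen_lev_step (h2.trans hH') (hH' h3) h4).1

theorem lev_single (hG : G.Good r) (he : e ∈ G.D) : G.lev {e} = 2 := by
  have t0 := tr_empty hG
  have z : ∀ t, G.cls (orb (G.pi ∅) t) = 0 := fun t => by rw [pi_empty]; exact hG.discB t
  have e1 : ({e} : Finset X) = insert e ∅ := rfl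
  simp only [lev, card_singleton]
  by_cases hs : (G.pi ∅).SameCycle e (G.α e)
  · have hm := gen_split (empty_subset _) he (notMem_empty _) hs
    have h1 := gen_tr_mrg hm
    have h2 := gen_cls_add (G := G) hm
    rw [← e1] at hm h1 h2
    have h3 : G.cls (orb (G.pi {e}) e) ≠ 0 := by
      refine one_dart hG (singleton_subset_iff.2 he) (Or.inl (mem_singleton_self _)) ?_
      rintro t ht (k | k)
      · exact mem_singleton.1 k
      · have : t = G.α e := by rw [← mem_singleton.1 k, G.αα]
        exact absurd (mem_orb.1 (this ▸ ht)) hm.not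
    rw [z] at h2
    have h4 : G.cls (orb (G.pi {e}) (G.α e)) ≠ 0 := fun k => h3 (by simpa [k] using h2.symm)
    rw [← h2, if_pos rfl, if_neg h3, if_neg h4] at h1
    omega
  · have h1 := gen_tr_mrg (gen_merge (empty_subset _) he (notMem_empty _) hs)
    rw [← e1] at h1
    simp only [z, add_zero, if_true] at h1
    omega

theorem lev_two (hG : G.Good r) (hH : H ⊆ G.D) (hne : H.Nonempty) : 2 ≤ G.lev H := by
  obtain ⟨e, he⟩ := hne
  rw [← lev_single hG (hH he)]
  exact lev_mono hH (singleton_subset_iff.2 he)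

theorem mu_anti (hH' : H' ⊆ G.D) (h : H ⊆ H') (hl : G.lev H' = G.lev H) : G.mu H' ≤ G.mu H := by
  refine gen_chain (P := fun K => G.mu K ≤ G.mu H) h le_rfl fun K t h1 h2 h3 h4 hK => ?_
  refine le_trans ((gen_lev_step (h2.trans hH') (hH' h3) h4).2 ?_) hK
  have a := lev_mono (h2.trans hH') h1
  have b := lev_mono hH' (insert_subset h3 h2)
  have c := (gen_lev_step (h2.trans hH') (hH' h3) h4).1
  omega

theorem gen_pow_swap {R : Finset (Finset X)} {A B : Finset X} (hA : A ∉ R) (hB : B ∉ R)
    (h : G.cls A = G.cls B) :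
    ∑ S ∈ ((insert A R).filter fun O => G.cls O ≠ 0).powerset, phi (∑ O ∈ S, G.cls O) =
      ∑ S ∈ ((insert B R).filter fun O => G.cls O ≠ 0).powerset, phi (∑ O ∈ S, G.cls O) := by
  rw [filter_insert, filter_insert, h]
  split_ifs with k
  · have a : A ∉ R.filter fun O => G.cls O ≠ 0 := fun k => hA (mem_filter.1 k).1
    have b : B ∉ R.filter fun O => G.cls O ≠ 0 := fun k => hB (mem_filter.1 k).1
    rw [sum_powerset_insert a, sum_powerset_insert b]
    congr 1
    refine sum_congr rfl fun S hS => ?_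
    rw [sum_insert fun k => a (mem_powerset.1 hS k), sum_insert fun k => b (mem_powerset.1 hS k), h]
  · rfl

/-- Adding a crossing parallel to an old one splits off an inessential loop. -/
theorem term_par (hG : G.Good r) (hH : H ⊆ G.D) (he : e ∈ G.D) (hn : e ∉ H) (hf : f ∈ H)
    (h : G.Par e f) : G.term (insert e H) = T (-2) * loopVal * G.term H := by
  have bw := bw_par hf h
  have hH' : insert e H ⊆ G.D := insert_subset he hH
  have hb : G.Bc H e (G.α e) := ⟨0, bw ▸ bw_alpha (Or.inl (mem_insert_self e H)) 0⟩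
  have key : G.tr (insert e H) = G.tr H + 1 ∧
      ∑ S ∈ (G.ess (insert e H)).powerset, phi (∑ O ∈ S, G.cls O) =
        ∑ S ∈ (G.ess H).powerset, phi (∑ O ∈ S, G.cls O) := by
    by_cases hF : G.Full H
    · have hF' : G.Full (insert e H) := hF.mono (subset_insert _ _)
      have l1 := G.lev_eq H
      have l2 := G.lev_eq (insert e H)
      rw [gen_full hG hH hF, hF.ess] at l1
      rw [gen_full hG hH' hF', hF'.ess, kB_same hb, ← l1] at l2
      simp only [lev, card_insert_of_notMem hn] at l2
      rw [hF.ess, hF'.ess]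
      exact ⟨by omega, rfl⟩
    · have hF' : ¬ G.Full (insert e H) := by
        unfold Full at hF ⊢
        rwa [bw]
      have hs : (G.pi H).SameCycle e (G.α e) := by
        by_contra hs
        exact hF' (merge_in hH he hn hs hb).2
      have hm := gen_split hH he hn hs
      have h1 := gen_tr_mrg hm
      have h2 := gen_cls_add (G := G) hm
      have hne : orb (G.pi (insert e H)) e ≠ orb (G.pi (insert e H)) (G.α e) := fun k =>
        hm.not (mem_orb.1 (k ▸ self_mem_orb _ _))
      have hb' : G.Bc (insert e H) e (G.α e) := hb.mono (subset_insert _ _)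
      have one : G.cls (orb (G.pi (insert e H)) e) = 0 ∨
          G.cls (orb (G.pi (insert e H)) (G.α e)) = 0 := by
        by_contra k
        rw [not_or] at k
        have m1 : orb (G.pi (insert e H)) e ∈ G.ess (insert e H) := mem_ess.2 ⟨orb_mem_cyc _ _, k.1⟩
        have m2 : orb (G.pi (insert e H)) (G.α e) ∈ G.ess (insert e H) :=
          mem_ess.2 ⟨orb_mem_cyc _ _, k.2⟩
        have t12 := two hG m1 m2 hne (self_mem_orb _ _) (self_mem_orb _ _) hb'
        apply k.1
        refine holTriv hG hH (gen_zero hH hF) (y := e) (fun O hO hs' => ?_) (bw ▸ bw_orb e)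
        obtain ⟨o1, o2⟩ := mem_ess.1 hO
        have ne : e ∉ O := fun a => o2 (by rw [eq_orb o1 a, h2, t12, neg_add_cancel])
        have na : G.α e ∉ O := fun a => ne (by rw [eq_orb o1 a]; exact mem_orb.2 hs.symm)
        have m3 : O ∈ G.ess (insert e H) := mem_ess.2 ⟨(hm.mem ne na).2 o1, o2⟩
        obtain ⟨t, rfl⟩ := exists_orb o1
        have ht : G.Bc (insert e H) e t :=
          (mem_comp.1 (hs' (self_mem_orb _ _))).mono (subset_insert _ _)
        have E := G.bc_equiv (insert e H)
        have t13 := two hG m1 m3 (fun a => ne (a ▸ self_mem_orb _ _)) (self_mem_orb _ _)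
          (self_mem_orb _ _) ht
        have t23 := two hG m2 m3 (fun a => na (a ▸ self_mem_orb _ _)) (self_mem_orb _ _)
          (self_mem_orb _ _) (E.trans (E.symm hb') ht)
        rw [t13, t23, neg_neg] at t12
        apply o2
        have a1 := congrArg Prod.fst t12
        have a2 := congrArg Prod.snd t12
        simp only [Prod.fst_neg, Prod.snd_neg] at a1 a2
        exact Prod.ext (by simp only [Prod.fst_zero]; omega) (by simp only [Prod.snd_zero]; omega)
      obtain ⟨R, r1, r2, r3, r4, r5⟩ := hm.rest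
      simp only [ess, r4, r5]
      rcases one with k | k
      · rw [k, zero_add] at h1 h2
        rw [if_pos rfl, add_left_inj] at h1
        refine ⟨by omega, ?_⟩
        rw [filter_insert, if_neg (not_not.2 k)]
        exact gen_pow_swap r2 r3 h2.symm
      · rw [k, add_zero] at h1 h2
        rw [if_pos rfl, add_right_comm, add_left_inj] at h1
        refine ⟨by omega, ?_⟩
        rw [insert_comm, filter_insert, if_neg (not_not.2 k)]
        exact gen_pow_swap r1 r3 h2.symm
  simp only [term, key.1, key.2, card_insert_of_notMem hn]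
  rw [show (G.D.card : ℤ) - 2 * ((H.card + 1 : ℕ) : ℤ) = -2 + (G.D.card - 2 * H.card) by
    push_cast; ring, T_add]
  ring

end TD

end Pool.Agent.Lib.MP_7bc610_gt.Ta
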