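import Pool.Agent.Lib.MP_7bc610_gt.Ta.Model

/-! The involution at the crossings, smoothings, and the regions next to a strand. -/

namespace Pool.Agent.Lib.MP_7bc610_gt.Ta

open Finset Equiv

variable {p q l i j : ℕ} {w : Word} {c : Bool} {hz : ℕ → Bool} {y z : ℕ × ℕ} {v : ℤ × ℤ}

theorem crAt_eq : crAt w l = some i ↔ ∃ e, w[l]? = some (Kind.cr e, i) := by
  unfold crAt
  rcases h : w[l]? with _ | ⟨k, i'⟩
  · simp
  · cases k <;> simp

theorem alp_up (hc : crAt w l = some i) (hj : j = i ∨ j = i + 1) (hu : up c j = true) :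
    alp w c (l, j) = (l + 1, 2 * i + 1 - j) := by
  simp [alp, hu, hc, hj]

theorem alp_down (hc : crAt w l = some i) (hj : j = i ∨ j = i + 1) (hu : up c j = false) :
    alp w c (l + 1, j) = (l, 2 * i + 1 - j) := by
  simp [alp, hu, hc, hj]

theorem alp_cases (w : Word) (c : Bool) (y : ℕ × ℕ) : alp w c y = y ∨
    (up c y.2 = true ∧ ∃ i, crAt w y.1 = some i ∧ (y.2 = i ∨ y.2 = i + 1) ∧
      alp w c y = (y.1 + 1, 2 * i + 1 - y.2)) ∨
    (up c y.2 = false ∧ ∃ l i, y.1 = l + 1 ∧ crAt w l = some i ∧ (y.2 = i ∨ y.2 = i + 1) ∧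
      alp w c y = (l, 2 * i + 1 - y.2)) := by
  obtain ⟨l, j⟩ := y
  cases hu : up c j with
  | true =>
    rcases hc : crAt w l with _ | i
    · left; simp [alp, hu, hc]
    · by_cases hj : j = i ∨ j = i + 1
      · exact Or.inr (Or.inl ⟨rfl, i, rfl, hj, alp_up hc hj hu⟩)
      · left; simp [alp, hu, hc, hj]
  | false =>
    cases l with
    | zero => left; simp [alp, hu]
    | succ l =>
      rcases hc : crAt w l with _ | i
      · left; simp [alp, hu, hc]
      · by_cases hj : j = i ∨ j = i + 1
        · exact Or.inr (Or.inr ⟨rfl, l, i, rfl, hc, hj, alp_down hc hj hu⟩)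
        · left; simp [alp, hu, hc, hj]

theorem cr_mem (h : Ok p q w c) (hc : crAt w l = some i) (hj : j = i ∨ j = i + 1) :
    (l, j) ∈ segs p q w ∧ (l + 1, j) ∈ segs p q w := by
  obtain ⟨e, hl⟩ := crAt_eq.1 hc
  have := wd_succ h.valid hl
  have := lt_length hl
  simp only [mem_segs, Kind.inp, Kind.out] at *
  omega

theorem alp_mem (h : Ok p q w c) (hy : y ∈ segs p q w) : alp w c y ∈ segs p q w := by
  rcases alp_cases w c y with e | ⟨-, i, hc, hj, e⟩ | ⟨-, l, i, -, hc, hj, e⟩ <;> rw [e]
  · exact hy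
  · exact (cr_mem h hc (by omega)).2
  · exact (cr_mem h hc (by omega)).1

theorem alp_alp (w : Word) (c : Bool) (y : ℕ × ℕ) : alp w c (alp w c y) = y := by
  rcases alp_cases w c y with e | ⟨u, i, hc, hj, e⟩ | ⟨u, l, i, hl, hc, hj, e⟩
  · rw [e, e]
  · rw [e, alp_down hc (by omega) (by rw [up_flip hj, u]; rfl)]
    ext <;> simp only
    omega
  · rw [e, alp_up hc (by omega) (by rw [up_flip hj, u]; rfl)]
    ext <;> simp only <;> omega

theorem up_alp (h : alp w c y ≠ y) : up c (alp w c y).2 = !up c y.2 := by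
  rcases alp_cases w c y with e | ⟨u, i, hc, hj, e⟩ | ⟨u, l, i, hl, hc, hj, e⟩
  · exact absurd e h
  · rw [e]; exact up_flip hj
  · rw [e]; exact up_flip hj

theorem alP_invol (h : Ok p q w c) : Function.Involutive
    fun y : Seg p q w => (⟨alp w c y.1, alp_mem h y.2⟩ : Seg p q w) :=
  fun y => Subtype.ext (alp_alp w c y.1)

def alP (h : Ok p q w c) : Perm (Seg p q w) := (alP_invol h).toPerm

theorem alP_val (h : Ok p q w c) (y : Seg p q w) : (alP h y).1 = alp w c y.1 := rfl

/-- One strand for each crossing: the one entering it from below. -/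
def DD (p q : ℕ) (w : Word) (c : Bool) : Finset (Seg p q w) :=
  univ.filter fun y => up c y.1.2 = true ∧ alp w c y.1 ≠ y.1

/-- The smoothing described by a set of crossings. -/
def hzOf (c : Bool) (H : Finset (Seg p q w)) (l : ℕ) : Bool :=
  match crAt w l with
  | some i => if ∃ y ∈ H, y.1.1 = l then up c i else !up c i
  | none => true

theorem mem_DD {y : Seg p q w} : y ∈ DD p q w c ↔ up c y.1.2 = true ∧
    ∃ i, crAt w y.1.1 = some i ∧ (y.1.2 = i ∨ y.1.2 = i + 1) := by
  simp only [DD, mem_filter, mem_univ, true_and]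
  constructor
  · rintro ⟨u, hne⟩
    rcases alp_cases w c y.1 with e | ⟨-, i, hc, hj, -⟩ | ⟨u', -⟩
    · exact absurd e hne
    · exact ⟨u, i, hc, hj⟩
    · rw [u] at u'; cases u'
  · rintro ⟨u, i, hc, hj⟩
    refine ⟨u, fun e => ?_⟩
    have := alp_up hc hj u
    rw [show (y.1.1, y.1.2) = y.1 from rfl, e] at this
    have := congrArg Prod.fst this
    simp only at this
    omega

theorem DD_inj {y z : Seg p q w} (hy : y ∈ DD p q w c) (hz : z ∈ DD p q w c)
    (h : y.1.1 = z.1.1) : y = z := by
  obtain ⟨u, i, hc, hj⟩ := mem_DD.1 hy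
  obtain ⟨u', i', hc', hj'⟩ := mem_DD.1 hz
  rw [h, hc'] at hc
  obtain rfl : i' = i := Option.some.inj hc
  apply Subtype.ext
  refine Prod.ext h ?_
  have := up_succ c i'
  rcases hj with a | a <;> rcases hj' with b | b <;> rw [a] at u <;> rw [b] at u' <;>
    first | omega | (rw [u, u'] at this; cases this)

theorem exists_DD (h : Ok p q w c) (hc : crAt w l = some i) : ∃ y ∈ DD p q w c, y.1.1 = l := by
  cases u : up c i with
  | true => exact ⟨⟨(l, i), (cr_mem h hc (Or.inl rfl)).1⟩, mem_DD.2 ⟨u, i, hc, Or.inl rfl⟩, rfl⟩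
  | false =>
    exact ⟨⟨(l, i + 1), (cr_mem h hc (Or.inr rfl)).1⟩,
      mem_DD.2 ⟨by simp only; rw [up_succ, u]; rfl, i, hc, Or.inr rfl⟩, rfl⟩

theorem malp_nx_up (hc : crAt w l = some i) (hj : j = i ∨ j = i + 1) (hu : up c j = true) :
    nx p q w c hz (l, j) = if hz l = true then (l, 2 * i + 1 - j) else (l + 1, j) := by
  obtain ⟨e, hl⟩ := crAt_eq.1 hc
  have h1 : ¬ j < i := by omega
  have h2 : ¬ i + 2 ≤ j := by omega
  cases hh : hz l <;> simp [nx, hu, hl, h1, h2, turn, Kind.inp, hh]

theorem malp_nx_down (hc : crAt w l = some i) (hj : j = i ∨ j = i + 1) (hu : up c j = false) :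
    nx p q w c hz (l + 1, j) = if hz l = true then (l + 1, 2 * i + 1 - j) else (l, j) := by
  obtain ⟨e, hl⟩ := crAt_eq.1 hc
  have h1 : ¬ j < i := by omega
  have h2 : ¬ i + 2 ≤ j := by omega
  cases hh : hz l <;> simp [nx, hu, hl, h1, h2, turn, Kind.out, hh]

/-- A strand that does not enter a crossing has the same successor in every smoothing. -/
theorem malp_nx_indep (h : Ok p q w c) (hy : y ∈ segs p q w) (ha : alp w c y = y)
    (hz hz' : ℕ → Bool) : nx p q w c hz y = nx p q w c hz' y := by
  obtain ⟨l, j⟩ := y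
  cases hu : up c j with
  | true =>
    have hn : ∀ i, crAt w l = some i → ¬ (j = i ∨ j = i + 1) := by
      intro i hc hj
      rw [alp_up hc hj hu] at ha
      have := congrArg Prod.fst ha
      simp only at this
      omega
    rcases above h hz hy with ⟨z, v, ht⟩ | ⟨i, ⟨k, hl, hk, ht⟩, hj⟩
    · rw [ht.nx_up hu]
      symm
      apply Th.nx_up (v := v) _ hu
      generalize hy' : (l, j) = y at ht
      cases ht with
      | left l j i k hl hj => exact .left l j i k hl hj
      | right l j i k hl hj hj' => exact .right l j i k hl hj hj'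
      | vert l' j' i e hl hh hj =>
        obtain ⟨rfl, rfl⟩ := Prod.mk.inj hy'
        exact absurd hj (hn i (crAt_eq.2 ⟨e, hl⟩))
      | upper j hj => exact .upper j hj
      | side j hj => exact .side j hj
    · simp only at hl hk ht hj
      have hc : Cap w hz l i := ⟨k, hl, hk, ht⟩
      have hc' : Cap w hz' l i := by
        refine ⟨k, hl, hk, ?_⟩
        cases k with
        | cup => rfl
        | cap => rfl
        | cr e => exact absurd hj (hn i (crAt_eq.2 ⟨e, hl⟩))
      rw [hc.nx hj hu, hc'.nx hj hu]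
  | false =>
    have hn : ∀ l' i, l = l' + 1 → crAt w l' = some i → ¬ (j = i ∨ j = i + 1) := by
      intro l' i hl hc hj
      rw [hl, alp_down hc hj hu] at ha
      have := congrArg Prod.fst ha
      simp only at this
      omega
    rcases below h hz hy with ⟨z, v, ht⟩ | ⟨l', i, hl', ⟨k, hl, hk, ht⟩, hj⟩
    · rw [ht.nx_down hu]
      symm
      apply Th.nx_down (v := v) _ hu
      generalize hy' : (l, j) = y at ht
      cases ht with
      | left l j i k hl hj => exact .left l j i k hl hj
      | right l j i k hl hj hj' => exact .right l j i k hl hj hj'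
      | vert l' j' i e hl hh hj =>
        obtain ⟨rfl, rfl⟩ := Prod.mk.inj hy'
        exact absurd hj (hn l' i rfl (crAt_eq.2 ⟨e, hl⟩))
      | upper j hj => exact .upper j hj
      | side j hj => exact .side j hj
    · simp only at hl' hj
      subst hl'
      have hc : Cup w hz l' i := ⟨k, hl, hk, ht⟩
      have hc' : Cup w hz' l' i := by
        refine ⟨k, hl, hk, ?_⟩
        cases k with
        | cup => rfl
        | cap => rfl
        | cr e => exact absurd hj (hn l' i rfl (crAt_eq.2 ⟨e, hl⟩))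
      rw [hc.nx hj hu, hc'.nx hj hu]

theorem malp_hz_empty (hc : crAt w l = some i) :
    hzOf c (∅ : Finset (Seg p q w)) l = !up c i := by
  simp [hzOf, hc]

theorem malp_hz_mem {H : Finset (Seg p q w)} {y : Seg p q w} (hc : crAt w l = some i)
    (hy : y ∈ H) (hl : y.1.1 = l) : hzOf c H l = up c i := by
  have : ∃ y ∈ H, y.1.1 = l := ⟨y, hy, hl⟩
  simp only [hzOf, hc, if_pos this]

theorem malp_hz_not {H : Finset (Seg p q w)} (hH : H ⊆ DD p q w c) {y : Seg p q w}
    (hc : crAt w l = some i) (hD : y ∈ DD p q w c) (hy : y ∉ H) (hl : y.1.1 = l) :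
    hzOf c H l = !up c i := by
  have : ¬ ∃ y ∈ H, y.1.1 = l := by
    rintro ⟨z, hz, e⟩
    exact hy (DD_inj (hH hz) hD (e.trans hl.symm) ▸ hz)
  simp only [hzOf, hc, if_neg this]

theorem nx_hzOf (h : Ok p q w c) {H : Finset (Seg p q w)} (hH : H ⊆ DD p q w c) (y : Seg p q w) :
    nxP h (hzOf c H) y =
      nxP h (hzOf c (∅ : Finset (Seg p q w))) (if y ∈ H ∨ alP h y ∈ H then alP h y else y) := by
  apply Subtype.ext
  obtain ⟨⟨l, j⟩, hy⟩ := y
  have hD : ∀ z ∈ H, up c z.1.2 = true ∧ alp w c z.1 ≠ z.1 := fun z hz => by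
    simpa [DD] using hH hz
  rcases alp_cases w c (l, j) with e | ⟨u, i, hc, hj, e⟩ | ⟨u, l', i, hl, hc, hj, e⟩
  · have e' : alP h ⟨(l, j), hy⟩ = ⟨(l, j), hy⟩ := Subtype.ext e
    rw [e', ite_self, nxP_val, nxP_val]
    exact malp_nx_indep h hy e _ _
  · simp only at u hc hj e
    have hd : up c (2 * i + 1 - j) = false := by rw [up_flip hj, u]; rfl
    have hn : alP h ⟨(l, j), hy⟩ ∉ H := fun hm => by
      have := (hD _ hm).1
      rw [alP_val, e] at this
      simp only at this
      rw [hd] at this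
      cases this
    by_cases hm : (⟨(l, j), hy⟩ : Seg p q w) ∈ H
    · rw [if_pos (Or.inl hm), nxP_val, nxP_val, alP_val, e]
      simp only
      rw [malp_nx_up hc hj u, malp_nx_down hc (by omega) hd, malp_hz_mem hc hm rfl,
        malp_hz_empty hc, show 2 * i + 1 - (2 * i + 1 - j) = j by omega]
      cases up c i <;> simp
    · rw [if_neg (by rintro (a | a); exacts [hm a, hn a]), nxP_val, nxP_val]
      simp only
      rw [malp_nx_up hc hj u, malp_nx_up hc hj u, malp_hz_empty hc,
        malp_hz_not hH hc (mem_DD.2 ⟨u, i, hc, hj⟩) hm rfl]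
  · simp only at u hc hj e hl
    subst hl
    have hd : up c (2 * i + 1 - j) = true := by rw [up_flip hj, u]; rfl
    have hn : (⟨(l' + 1, j), hy⟩ : Seg p q w) ∉ H := fun hm => by
      have := (hD _ hm).1
      simp only at this
      rw [u] at this
      cases this
    have hv : (alP h ⟨(l' + 1, j), hy⟩).1 = (l', 2 * i + 1 - j) := e
    by_cases hm : alP h ⟨(l' + 1, j), hy⟩ ∈ H
    · rw [if_pos (Or.inr hm), nxP_val, nxP_val, hv]
      simp only
      rw [malp_nx_down hc hj u, malp_nx_up hc (by omega) hd,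
        malp_hz_mem hc hm (by rw [hv]), malp_hz_empty hc,
        show 2 * i + 1 - (2 * i + 1 - j) = j by omega]
      cases up c i <;> simp
    · rw [if_neg (by rintro (a | a); exacts [hn a, hm a]), nxP_val, nxP_val]
      simp only
      have hD' : alP h ⟨(l' + 1, j), hy⟩ ∈ DD p q w c :=
        mem_DD.2 ⟨by rw [hv]; exact hd, i, by rw [hv]; exact hc, by rw [hv]; simp only; omega⟩
      rw [malp_nx_down hc hj u, malp_nx_down hc hj u, malp_hz_empty hc,
        malp_hz_not hH hc hD' hm (by rw [hv])]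

/-- The region to the left (`b = true`, black) or to the right (`b = false`, white) of a strand. -/
def gap (c b : Bool) (y : ℕ × ℕ) : ℕ × ℕ := if up c y.2 = b then y else (y.1, y.2 + 1)

theorem Path.trans {a b d : ℕ × ℕ} {u v : ℤ × ℤ} {m k : ℕ} (h : Path p q w a b u m)
    (h' : Path p q w b d v k) : Path p q w a d (u + v) (m + k) := by
  induction h' with
  | nil => simpa using h
  | fwd _ hh ih => rw [← add_assoc, ← add_assoc]; exact ih.fwd hh
  | bwd _ hh ih => rw [← add_sub_assoc, ← add_assoc]; exact ih.bwd hh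

theorem Hop.path {a b : ℕ × ℕ} {u : ℤ × ℤ} {m : ℕ} (h : Hop p q w a b u m) :
    Path p q w a b u m := by
  simpa using (Path.nil a).fwd h

theorem Hop.path_rev {a b : ℕ × ℕ} {u : ℤ × ℤ} {m : ℕ} (h : Hop p q w a b u m) :
    Path p q w b a (-u) m := by
  simpa using (Path.nil b).bwd h

theorem Path.symm {a b : ℕ × ℕ} {u : ℤ × ℤ} {m : ℕ} (h : Path p q w a b u m) :
    Path p q w b a (-u) m := by
  induction h with
  | nil => simpa using Path.nil _
  | fwd _ hh ih =>
    have := hh.path_rev.trans ih
    rwa [← neg_add_rev, Nat.add_comm] at this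
  | bwd _ hh ih =>
    have := hh.path.trans ih
    rwa [← sub_eq_add_neg, ← neg_sub, Nat.add_comm] at this

theorem path_across (hy : y ∈ segs p q w) : Path p q w (gap c true y) (gap c false y) 0 1 := by
  obtain ⟨l, j⟩ := y
  obtain ⟨h1, h2⟩ := mem_segs.1 hy
  have hh : Hop p q w (l, j) (l, j + 1) 0 1 := .across l j h1 h2
  cases hu : up c j with
  | true => simpa [gap, hu] using hh.path
  | false => simpa [gap, hu] using hh.path_rev

theorem malp_hop (h : Ok p q w c) (b : Bool)
    (hh : ∀ l i, crAt w l = some i → hz l = (up c i != b)) (ht : Th p q w hz y z v) :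
    Hop p q w (gap c b y) (gap c b z) v 0 := by
  have hu := ht.up h
  unfold gap
  rw [hu]
  cases ht with
  | left l j i k hl hj =>
    split_ifs
    · exact .left l j i k hl hj.le
    · exact .left l (j + 1) i k hl hj
  | right l j i k hl hj hj' =>
    split_ifs
    · exact .right l j i k hl hj hj'.le
    · have := Hop.right (p := p) (q := q) l (j + 1) i k hl (by omega) hj'
      rwa [show j + 1 - k.inp + k.out = j - k.inp + k.out + 1 by omega] at this
  | vert l j i e hl h0 hj =>
    have h1 := hh l i (crAt_eq.2 ⟨e, hl⟩)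
    rw [h0] at h1
    have h2 : up c i = b := by simpa using h1
    have hw := wd_succ h.valid hl
    rcases hj with rfl | rfl
    · simp only [if_pos h2]
      exact .left l j j _ hl le_rfl
    · have h3 : ¬ up c (i + 1) = b := by rw [up_succ, h2]; simp
      simp only [if_neg h3]
      exact Hop.right (p := p) (q := q) l (i + 2) i _ hl le_rfl hw.1
  | upper j hj =>
    split_ifs
    · exact .upper j hj.le
    · exact .upper (j + 1) hj
  | side j hj =>
    split_ifs
    · exact .side j hj.le
    · exact .side (j + 1) hj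

theorem malp_cap (h : Ok p q w c) (hl : w[l]? = some (Kind.cap, i)) :
    Path p q w (l, i) (l, i + 2) 0 0 := by
  have hw := wd_succ h.valid hl
  have h1 : Hop p q w (l, i) (l + 1, i) 0 0 := .left l i i _ hl le_rfl
  have h2 : Hop p q w (l, i + 2) (l + 1, i) 0 0 := .right l (i + 2) i _ hl le_rfl hw.1
  simpa using h1.path.bwd h2

theorem malp_cup (h : Ok p q w c) (hl : w[l]? = some (Kind.cup, i)) :
    Path p q w (l + 1, i) (l + 1, i + 2) 0 0 := by
  have hw := wd_succ h.valid hl
  have h1 : Hop p q w (l, i) (l + 1, i) 0 0 := .left l i i _ hl le_rfl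
  have h2 : Hop p q w (l, i) (l + 1, i + 2) 0 0 := .right l i i _ hl le_rfl hw.1
  simpa using h1.path_rev.fwd h2

/-- The gaps next to the two ends of an extremum. -/
theorem malp_turn (b : Bool) (hj : j = i ∨ j = i + 1)
    (ho : up c i = b → Path p q w (l, i) (l, i + 2) 0 0) :
    Path p q w (gap c b (l, j)) (gap c b (l, 2 * i + 1 - j)) 0 0 := by
  have hs := up_succ c i
  by_cases hb : up c i = b
  · have hb' : ¬ up c (i + 1) = b := by rw [hs, hb]; simp
    rcases hj with rfl | rfl
    · rw [show 2 * j + 1 - j = j + 1 by omega]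
      simpa [gap, hb, hb'] using ho hb
    · rw [show 2 * i + 1 - (i + 1) = i by omega]
      simpa [gap, hb, hb'] using (ho hb).symm
  · have hb' : up c (i + 1) = b := by
      rw [hs]
      revert hb
      cases up c i <;> cases b <;> simp
    rcases hj with rfl | rfl
    · rw [show 2 * j + 1 - j = j + 1 by omega]
      simpa [gap, hb, hb'] using Path.nil _
    · rw [show 2 * i + 1 - (i + 1) = i by omega]
      simpa [gap, hb, hb'] using Path.nil _

theorem path_gap (h : Ok p q w c) (b : Bool) (hh : ∀ l i, crAt w l = some i → hz l = (up c i != b))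
    (hy : y ∈ segs p q w) :
    Path p q w (gap c b y) (gap c b (nx p q w c hz y)) (eta p q w c (nx p q w c hz y)) 0 := by
  rcases nx_cases h hz hy with ⟨-, -, t⟩ | ⟨-, -, t⟩ | ⟨-, -, e0, i, ⟨k, hl, hk, ht⟩, hj, e⟩ |
    ⟨-, -, e0, l, i, hl', ⟨k, hl, hk, ht⟩, hj, e⟩
  · exact (malp_hop h b hh t).path
  · simpa using (malp_hop h b hh t).path_rev
  · rw [e0, e]
    refine malp_turn (l := y.1) (j := y.2) b hj fun hb => ?_
    cases k with
    | cup => simp [Kind.inp] at hk
    | cap => exact malp_cap h hl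
    | cr e =>
      have := hh _ _ (crAt_eq.2 ⟨e, hl⟩)
      simp only [turn] at ht
      rw [ht, hb] at this
      simp at this
  · rw [e0, e]
    refine malp_turn (l := y.1) (j := y.2) b hj fun hb => ?_
    cases k with
    | cup => rw [hl']; exact malp_cup h hl
    | cap => simp [Kind.out] at hk
    | cr e =>
      have := hh _ _ (crAt_eq.2 ⟨e, hl⟩)
      simp only [turn] at ht
      rw [ht, hb] at this
      simp at this

theorem path_black (h : Ok p q w c) (y : Seg p q w) :
    Path p q w (gap c true y.1) (gap c true (nxP h (hzOf c (∅ : Finset (Seg p q w))) y).1)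
      (eta p q w c (nxP h (hzOf c (∅ : Finset (Seg p q w))) y).1) 0 := by
  refine path_gap h true (fun l i hc => ?_) y.2
  rw [malp_hz_empty hc]
  cases up c i <;> rfl

theorem path_white (h : Ok p q w c) (y : Seg p q w) :
    Path p q w (gap c false y.1)
      (gap c false (nxP h (hzOf c (∅ : Finset (Seg p q w))) (alP h y)).1)
      (eta p q w c (nxP h (hzOf c (∅ : Finset (Seg p q w))) (alP h y)).1) 0 := by
  have e : nxP h (hzOf c (∅ : Finset (Seg p q w))) (alP h y) = nxP h (hzOf c (DD p q w c)) y := by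
    rw [nx_hzOf h (Finset.Subset.refl _) y]
    split_ifs with hm
    · rfl
    · congr 1
      by_contra hy
      have hy' : alp w c y.1 ≠ y.1 := fun e => hy (Subtype.ext e)
      apply hm
      simp only [DD, mem_filter, mem_univ, true_and, alP_val, alp_alp]
      cases u : up c y.1.2 with
      | true => exact Or.inl ⟨rfl, hy'⟩
      | false => exact Or.inr ⟨by rw [up_alp hy', u]; rfl, hy'.symm⟩
  rw [e]
  refine path_gap h false (fun l i hc => ?_) y.2
  obtain ⟨z, hz, hl⟩ := exists_DD h hc
  rw [malp_hz_mem hc hz hl]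
  cases up c i <;> rfl

end Pool.Agent.Lib.MP_7bc610_gt.Ta
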