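import Pool.Agent.Lib.MP_7bc610_gt.Ta.MAlp

/-! Stream functions, and the abstract diagram of a diagram on the torus. -/

namespace Pool.Agent.Lib.MP_7bc610_gt.Ta

open Finset Equiv

variable {p q : ℕ} {w : Word} {c : Bool}

theorem mtd_row {M : Type} [AddCommMonoid M] {l : ℕ} (hl : l ≤ w.length) (f : ℕ × ℕ → M) :
    ∑ z : Seg p q w, (if z.1.1 = l then f z.1 else 0) = ∑ j ∈ range (wd (p + q) w l), f (l, j) := by
  rw [Finset.sum_coe_sort (segs p q w) (fun z => if z.1 = l then f z else 0), ← sum_filter]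
  symm
  refine sum_nbij' (fun j => (l, j)) (fun z => z.2) ?_ ?_ ?_ ?_ ?_
  · intro j hj
    simp only [mem_filter, mem_segs, mem_range] at hj ⊢
    exact ⟨⟨hl, hj⟩, trivial⟩
  · rintro ⟨a, b⟩ hz
    simp only [mem_filter, mem_segs, mem_range] at hz ⊢
    obtain ⟨⟨-, h2⟩, rfl⟩ := hz
    exact h2
  · intro j _
    rfl
  · rintro ⟨a, b⟩ hz
    simp only [mem_filter] at hz
    obtain ⟨-, rfl⟩ := hz
    rfl
  · intro j _
    rfl

/-- The class of a function on the strands in terms of the fluxes through the sides. -/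
theorem sum_eta (h : Ok p q w c) (S : ℕ × ℕ → ℤ)
    (h1 : ∀ j < q, S (w.length, j) = S (0, p + j)) (h2 : ∀ j < p, S (w.length, q + j) = S (0, j)) :
    ∑ z : Seg p q w, S z.1 • eta p q w c z.1 =
      (∑ j ∈ range p, (if up c j then 1 else -1) * S (0, j),
        ∑ j ∈ range q, (if up c j then 1 else -1) * S (0, p + j)) := by
  have hp := Nat.even_iff.1 h.ep
  have hq := Nat.even_iff.1 h.eq
  obtain ⟨f, hf⟩ : ∃ f : ℕ × ℕ → ℤ × ℤ, f = fun y => if up c y.2 = true then
    (if y.2 < p then ((S y, 0) : ℤ × ℤ) else (0, S y)) else 0 := ⟨_, rfl⟩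
  obtain ⟨g, hg⟩ : ∃ g : ℕ × ℕ → ℤ × ℤ, g = fun y => if up c y.2 = true then 0 else
    (if y.2 < q then ((0, -S y) : ℤ × ℤ) else (-S y, 0)) := ⟨_, rfl⟩
  have e : ∀ z : Seg p q w, S z.1 • eta p q w c z.1 =
      (if z.1.1 = 0 then f z.1 else 0) + (if z.1.1 = w.length then g z.1 else 0) := by
    intro z
    simp only [eta, hf, hg]
    split_ifs <;> simp
  rw [sum_congr rfl fun z _ => e z, sum_add_distrib, mtd_row (Nat.zero_le _), mtd_row le_rfl,
    wd_zero, wd_length h.valid, sum_range_add, add_comm p q, sum_range_add, hf, hg]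
  have a1 : ∀ j ∈ range p, (if up c j = true then
      (if j < p then ((S (0, j), 0) : ℤ × ℤ) else (0, S (0, j))) else 0) =
      ((if up c j = true then S (0, j) else 0), 0) := by
    intro j hj
    rw [if_pos (mem_range.1 hj)]
    split_ifs <;> rfl
  have a2 : ∀ j ∈ range q, (if up c (p + j) = true then
      (if p + j < p then ((S (0, p + j), 0) : ℤ × ℤ) else (0, S (0, p + j))) else 0) =
      (0, (if up c j = true then S (0, p + j) else 0)) := by
    intro j _
    rw [if_neg (show ¬ p + j < p by omega), up_congr (show (p + j) % 2 = j % 2 by omega)]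
    split_ifs <;> rfl
  have a3 : ∀ j ∈ range q, (if up c j = true then 0 else
      (if j < q then ((0, -S (w.length, j)) : ℤ × ℤ) else (-S (w.length, j), 0))) =
      (0, (if up c j = true then 0 else -S (0, p + j))) := by
    intro j hj
    rw [if_pos (mem_range.1 hj), h1 j (mem_range.1 hj)]
    split_ifs <;> rfl
  have a4 : ∀ j ∈ range p, (if up c (q + j) = true then 0 else
      (if q + j < q then ((0, -S (w.length, q + j)) : ℤ × ℤ) else (-S (w.length, q + j), 0))) =
      ((if up c j = true then 0 else -S (0, j)), 0) := by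
    intro j hj
    rw [if_neg (show ¬ q + j < q by omega), up_congr (show (q + j) % 2 = j % 2 by omega),
      h2 j (mem_range.1 hj)]
    split_ifs <;> rfl
  simp only
  rw [sum_congr rfl a1, sum_congr rfl a2, sum_congr rfl a3, sum_congr rfl a4]
  ext
  · simp only [Prod.fst_add, Prod.fst_sum, sum_const_zero, add_zero, zero_add]
    rw [← sum_add_distrib]
    refine sum_congr rfl fun j _ => ?_
    split_ifs <;> simp
  · simp only [Prod.snd_add, Prod.snd_sum, sum_const_zero, add_zero, zero_add]
    rw [← sum_add_distrib]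
    refine sum_congr rfl fun j _ => ?_
    split_ifs <;> simp

/-- The flux through the first `j` strands at height `l`. -/
def mtdF (c : Bool) (S : ℕ × ℕ → ℤ) (a : ℕ × ℕ) : ℤ :=
  ∑ i ∈ range a.2, (if up c i then 1 else -1) * S (a.1, i)

theorem mtdF_succ (S : ℕ × ℕ → ℤ) (l j : ℕ) :
    mtdF c S (l, j + 1) = mtdF c S (l, j) + (if up c j then 1 else -1) * S (l, j) := by
  simp only [mtdF, sum_range_succ]

theorem mtdF_two (S : ℕ × ℕ → ℤ) (l j : ℕ) : mtdF c S (l, j + 2) =
    mtdF c S (l, j) + (if up c j then 1 else -1) * (S (l, j) - S (l, j + 1)) := by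
  rw [mtdF_succ, mtdF_succ, up_succ]
  cases up c j <;> simp <;> ring

section
variable {S : ℕ × ℕ → ℤ} {h0 : ℕ → Bool}

theorem mtd_fix (hS : ∀ y ∈ segs p q w,
      S y + S (alp w c y) = S (nx p q w c h0 y) + S (nx p q w c h0 (alp w c y)))
    {y : ℕ × ℕ} (hy : y ∈ segs p q w) (ha : alp w c y = y) : S y = S (nx p q w c h0 y) := by
  have := hS y hy
  rw [ha] at this
  omega

theorem mtd_alp {y : ℕ × ℕ}
    (hn : nx p q w c (fun _ => true) y = nx p q w c (fun _ => false) y) : alp w c y = y := by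
  obtain ⟨l, j⟩ := y
  rcases alp_cases w c (l, j) with e | ⟨u, i, hc, hj, -⟩ | ⟨u, l', i, hl, hc, hj, -⟩
  · exact e
  · simp only at u hc hj
    rw [malp_nx_up hc hj u, malp_nx_up hc hj u] at hn
    simp at hn
  · simp only at u hc hj hl
    subst hl
    rw [malp_nx_down hc hj u, malp_nx_down hc hj u] at hn
    simp at hn

theorem mtd_thr (h : Ok p q w c) (hS : ∀ y ∈ segs p q w,
      S y + S (alp w c y) = S (nx p q w c h0 y) + S (nx p q w c h0 (alp w c y)))
    {y z : ℕ × ℕ} {v : ℤ × ℤ} (ht : ∀ hz, Th p q w hz y z v) : S y = S z := by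
  cases hu : up c y.2 with
  | true =>
    have := mtd_fix hS ((ht h0).mem h).1 (mtd_alp (by rw [(ht _).nx_up hu, (ht _).nx_up hu]))
    rwa [(ht _).nx_up hu] at this
  | false =>
    have hu' : up c z.2 = false := ((ht h0).up h).trans hu
    have := mtd_fix hS ((ht h0).mem h).2
      (mtd_alp (by rw [(ht _).nx_down hu', (ht _).nx_down hu']))
    rw [(ht _).nx_down hu'] at this
    exact this.symm

theorem mtd_cap (h : Ok p q w c) (hS : ∀ y ∈ segs p q w,
      S y + S (alp w c y) = S (nx p q w c h0 y) + S (nx p q w c h0 (alp w c y)))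
    {l i : ℕ} (hl : w[l]? = some (Kind.cap, i)) : S (l, i) = S (l, i + 1) := by
  have hc : ∀ hz, Cap w hz l i := fun hz => ⟨_, hl, rfl, rfl⟩
  have key : ∀ j, j = i ∨ j = i + 1 → up c j = true → S (l, j) = S (l, 2 * i + 1 - j) := by
    intro j hj hu
    have := mtd_fix hS ((hc h0).mem h hj)
      (mtd_alp (p := p) (q := q) (by rw [(hc _).nx hj hu, (hc _).nx hj hu]))
    rwa [(hc _).nx hj hu] at this
  cases hu : up c i with
  | true => rw [key i (Or.inl rfl) hu, show 2 * i + 1 - i = i + 1 by omega]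
  | false =>
    rw [key (i + 1) (Or.inr rfl) (by rw [up_succ, hu]; rfl), show 2 * i + 1 - (i + 1) = i by omega]

theorem mtd_cup (h : Ok p q w c) (hS : ∀ y ∈ segs p q w,
      S y + S (alp w c y) = S (nx p q w c h0 y) + S (nx p q w c h0 (alp w c y)))
    {l i : ℕ} (hl : w[l]? = some (Kind.cup, i)) : S (l + 1, i) = S (l + 1, i + 1) := by
  have hc : ∀ hz, Cup w hz l i := fun hz => ⟨_, hl, rfl, rfl⟩
  have key : ∀ j, j = i ∨ j = i + 1 → up c j = false →
      S (l + 1, j) = S (l + 1, 2 * i + 1 - j) := by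
    intro j hj hu
    have := mtd_fix hS ((hc h0).mem h hj)
      (mtd_alp (p := p) (q := q) (by rw [(hc _).nx hj hu, (hc _).nx hj hu]))
    rwa [(hc _).nx hj hu] at this
  cases hu : up c i with
  | false => rw [key i (Or.inl rfl) hu, show 2 * i + 1 - i = i + 1 by omega]
  | true =>
    rw [key (i + 1) (Or.inr rfl) (by rw [up_succ, hu]; rfl), show 2 * i + 1 - (i + 1) = i by omega]

theorem mtd_cr (h : Ok p q w c) (hS : ∀ y ∈ segs p q w,
      S y + S (alp w c y) = S (nx p q w c h0 y) + S (nx p q w c h0 (alp w c y)))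
    {l i : ℕ} (hc : crAt w l = some i) :
    S (l, i) - S (l, i + 1) = S (l + 1, i) - S (l + 1, i + 1) := by
  have e1 : 2 * i + 1 - i = i + 1 := by omega
  have e2 : 2 * i + 1 - (i + 1) = i := by omega
  cases hu : up c i with
  | true =>
    have hu' : up c (i + 1) = false := by rw [up_succ, hu]; rfl
    have := hS (l, i) (cr_mem h hc (Or.inl rfl)).1
    rw [alp_up hc (Or.inl rfl) hu, e1, malp_nx_up hc (Or.inl rfl) hu,
      malp_nx_down hc (Or.inr rfl) hu', e1, e2] at this
    split_ifs at this <;> omega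
  | false =>
    have hu' : up c (i + 1) = true := by rw [up_succ, hu]; rfl
    have := hS (l, i + 1) (cr_mem h hc (Or.inr rfl)).1
    rw [alp_up hc (Or.inr rfl) hu', e2, malp_nx_up hc (Or.inr rfl) hu',
      malp_nx_down hc (Or.inl rfl) hu, e1, e2] at this
    split_ifs at this <;> omega

theorem mtd_left (h : Ok p q w c) (hS : ∀ y ∈ segs p q w,
      S y + S (alp w c y) = S (nx p q w c h0 y) + S (nx p q w c h0 (alp w c y)))
    {l i j : ℕ} {k : Kind} (hl : w[l]? = some (k, i)) (hj : j ≤ i) :
    mtdF c S (l + 1, j) = mtdF c S (l, j) := by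
  refine sum_congr rfl fun a ha => ?_
  have ha' : a < j := mem_range.1 ha
  simp only
  rw [mtd_thr h hS fun hz => Th.left l a i k hl (by omega)]

theorem mtd_right (h : Ok p q w c) (hS : ∀ y ∈ segs p q w,
      S y + S (alp w c y) = S (nx p q w c h0 y) + S (nx p q w c h0 (alp w c y)))
    {l i j : ℕ} {k : Kind} (hl : w[l]? = some (k, i)) (hj : i + k.inp ≤ j)
    (hj' : j ≤ wd (p + q) w l) : mtdF c S (l + 1, j - k.inp + k.out) = mtdF c S (l, j) := by
  induction j, hj using Nat.le_induction with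
  | base =>
    have e := mtd_left h hS hl le_rfl
    rw [Nat.add_sub_cancel]
    cases k with
    | cup =>
      simp only [Kind.inp, Kind.out, add_zero]
      rw [mtdF_two, mtd_cup h hS hl, e]
      simp
    | cap =>
      simp only [Kind.inp, Kind.out, add_zero]
      rw [mtdF_two, mtd_cap h hS hl, e]
      simp
    | cr b =>
      simp only [Kind.inp, Kind.out]
      rw [mtdF_two, mtdF_two, mtd_cr h hS (crAt_eq.2 ⟨b, hl⟩), e]
  | succ j hj ih =>
    have ht : ∀ hz, Th p q w hz (l, j) (l + 1, j - k.inp + k.out) 0 :=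
      fun hz => Th.right l j i k hl hj hj'
    have hu : up c (j - k.inp + k.out) = up c j := (ht h0).up h
    rw [show j + 1 - k.inp + k.out = j - k.inp + k.out + 1 by omega, mtdF_succ, mtdF_succ,
      ih (by omega), mtd_thr h hS ht, hu]

theorem mtd_hop (h : Ok p q w c) (hS : ∀ y ∈ segs p q w,
      S y + S (alp w c y) = S (nx p q w c h0 y) + S (nx p q w c h0 (alp w c y)))
    {a b : ℕ × ℕ} {v : ℤ × ℤ} {m : ℕ} (hh : Hop p q w a b v m) (hm : m = 0) :
    mtdF c S b + det v (∑ z : Seg p q w, S z.1 • eta p q w c z.1) = mtdF c S a := by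
  have hp := Nat.even_iff.1 h.ep
  have hq := Nat.even_iff.1 h.eq
  have h1 : ∀ j < q, S (w.length, j) = S (0, p + j) :=
    fun j hj => mtd_thr h hS fun hz => Th.upper j hj
  have h2 : ∀ j < p, S (w.length, q + j) = S (0, j) :=
    fun j hj => mtd_thr h hS fun hz => Th.side j hj
  rw [sum_eta h S h1 h2]
  cases hh with
  | across l j _ _ => cases hm
  | left l j i k hl hj => rw [mtd_left h hS hl hj]; simp [det]
  | right l j i k hl hj hj' => rw [mtd_right h hS hl hj hj']; simp [det]
  | upper j hj =>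
    simp only [det, mtdF, sum_range_add]
    have : ∑ x ∈ range j, (if up c (p + x) = true then (1 : ℤ) else -1) * S (0, p + x) =
        ∑ x ∈ range j, (if up c x = true then (1 : ℤ) else -1) * S (w.length, x) := by
      refine sum_congr rfl fun x hx => ?_
      have hx' : x < j := mem_range.1 hx
      rw [h1 x (by omega), up_congr (show (p + x) % 2 = x % 2 by omega)]
    rw [this]
    ring
  | side j hj =>
    simp only [det, mtdF, sum_range_add]
    have a1 : ∑ x ∈ range j, (if up c (q + x) = true then (1 : ℤ) else -1) * S (w.length, q + x) =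
        ∑ x ∈ range j, (if up c x = true then (1 : ℤ) else -1) * S (0, x) := by
      refine sum_congr rfl fun x hx => ?_
      have hx' : x < j := mem_range.1 hx
      rw [h2 x (by omega), up_congr (show (q + x) % 2 = x % 2 by omega)]
    have a2 : ∑ x ∈ range q, (if up c x = true then (1 : ℤ) else -1) * S (w.length, x) =
        ∑ x ∈ range q, (if up c x = true then (1 : ℤ) else -1) * S (0, p + x) :=
      sum_congr rfl fun x hx => by rw [h1 x (mem_range.1 hx)]
    rw [a1, a2]
    ring

theorem mtd_path (h : Ok p q w c) (hS : ∀ y ∈ segs p q w,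
      S y + S (alp w c y) = S (nx p q w c h0 y) + S (nx p q w c h0 (alp w c y)))
    {a b : ℕ × ℕ} {v : ℤ × ℤ} {m : ℕ} (hh : Path p q w a b v m) (hm : m = 0) :
    mtdF c S b + det v (∑ z : Seg p q w, S z.1 • eta p q w c z.1) = mtdF c S a := by
  induction hh with
  | nil => simp [det]
  | fwd _ hh ih =>
    have e1 := ih (by omega)
    have e2 := mtd_hop h hS hh (by omega)
    simp only [det, Prod.fst_add, Prod.snd_add] at e1 e2 ⊢
    linarith
  | bwd _ hh ih =>
    have e1 := ih (by omega)
    have e2 := mtd_hop h hS hh (by omega)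
    simp only [det, Prod.fst_sub, Prod.snd_sub] at e1 e2 ⊢
    linarith

end

theorem stream_model (h : Ok p q w c) (s : Seg p q w → ℤ)
    (hs : ∀ y, s y + s (alP h y) = s (nxP h (hzOf c (∅ : Finset (Seg p q w))) y) +
      s (nxP h (hzOf c (∅ : Finset (Seg p q w))) (alP h y))) :
    ∃ F : ℕ × ℕ → ℤ, (∀ y : Seg p q w, F (gap c false y.1) = F (gap c true y.1) + s y) ∧
      ∀ a b v, Path p q w a b v 0 → F b + det v (∑ z, s z • eta p q w c z.1) = F a := by
  let S : ℕ × ℕ → ℤ := fun y => if hy : y ∈ segs p q w then s ⟨y, hy⟩ else 0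
  have hS0 : ∀ y : Seg p q w, S y.1 = s y := fun y => dif_pos y.2
  have hS : ∀ y ∈ segs p q w, S y + S (alp w c y) =
      S (nx p q w c (hzOf c (∅ : Finset (Seg p q w))) y) +
        S (nx p q w c (hzOf c (∅ : Finset (Seg p q w))) (alp w c y)) := by
    intro y hy
    have := hs ⟨y, hy⟩
    rw [← hS0, ← hS0, ← hS0, ← hS0] at this
    exact this
  refine ⟨mtdF c S, fun y => ?_, fun a b v hh => ?_⟩
  · obtain ⟨⟨l, j⟩, hy⟩ := y
    rw [← hS0]
    cases hu : up c j <;> simp [gap, hu, mtdF_succ]
  · have := mtd_path h hS hh rfl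
    simpa only [hS0] using this

noncomputable def model (h : Ok p q w c) : TD (Seg p q w) where
  σ := nxP h (hzOf c (∅ : Finset (Seg p q w)))
  α := alP h
  η := fun y => eta p q w c y.1
  D := DD p q w c
  αα := alP_invol h
  ne := by
    intro y hy hy'
    simp only [DD, mem_filter, mem_univ, true_and, alP_val] at hy hy'
    have := up_alp hy.2
    rw [hy.1, hy'.1] at this
    cases this
  cov := by
    intro y hy
    have hy' : alp w c y.1 ≠ y.1 := fun e => hy (Subtype.ext e)
    simp only [DD, mem_filter, mem_univ, true_and, alP_val, alp_alp]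
    cases u : up c y.1.2 with
    | true => exact Or.inl ⟨rfl, hy'⟩
    | false => exact Or.inr ⟨by rw [up_alp hy', u]; rfl, hy'.symm⟩
  stream := by
    intro s hs
    obtain ⟨F, h1, h2⟩ := stream_model h s hs
    refine ⟨fun y => F (gap c true y.1), fun y => h2 _ _ _ (path_black h y), fun y => ?_⟩
    have := h2 _ _ _ (path_white h y)
    rw [h1, h1] at this
    exact this

theorem model_pi (h : Ok p q w c) {H : Finset (Seg p q w)} (hH : H ⊆ DD p q w c) :
    (model h).pi H = nxP h (hzOf c H) := by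
  ext1 y
  exact (nx_hzOf h hH y).symm

end Pool.Agent.Lib.MP_7bc610_gt.Ta
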