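import Pool.Agent.Lib.MP_7bc610_gt.Ta.Defs
import Pool.Agent.Lib.MP_7bc610_gt.Ta.Abs

/-! The strands of a diagram on the torus and the permutations acting on them. -/

namespace Pool.Agent.Lib.MP_7bc610_gt.Ta

open Finset Equiv

/-- The strand at position `i` is oriented upwards (black is on its left). -/
def up (c : Bool) (i : ℕ) : Bool := c == decide (Even i)

/-- The piece contains extrema; for a crossing this is the horizontal smoothing. -/
def turn : Kind → Bool → Bool
  | .cr _, b => b
  | _, _ => true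

/-- The next strand, when the crossing at height `l` is smoothed horizontally iff `hz l`. -/
def nx (p q : ℕ) (w : Word) (c : Bool) (hz : ℕ → Bool) (y : ℕ × ℕ) : ℕ × ℕ :=
  if up c y.2 then
    match w[y.1]? with
    | none => if y.2 < q then (0, p + y.2) else (0, y.2 - q)
    | some (k, i) =>
      if y.2 < i then (y.1 + 1, y.2)
      else if i + k.inp ≤ y.2 then (y.1 + 1, y.2 - k.inp + k.out)
      else if turn k (hz y.1) then (y.1, 2 * i + 1 - y.2) else (y.1 + 1, y.2)
  else if y.1 = 0 then (if y.2 < p then (w.length, q + y.2) else (w.length, y.2 - p))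
  else
    match w[y.1 - 1]? with
    | none => y
    | some (k, i) =>
      if y.2 < i then (y.1 - 1, y.2)
      else if i + k.out ≤ y.2 then (y.1 - 1, y.2 - k.out + k.inp)
      else if turn k (hz (y.1 - 1)) then (y.1, 2 * i + 1 - y.2) else (y.1 - 1, y.2)

/-- The class picked up on arriving at a strand. -/
def eta (p q : ℕ) (w : Word) (c : Bool) (y : ℕ × ℕ) : ℤ × ℤ :=
  if up c y.2 then (if y.1 = 0 then (if y.2 < p then (1, 0) else (0, 1)) else 0)
  else if y.1 = w.length then (if y.2 < q then (0, -1) else (-1, 0)) else 0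

/-- The position of the crossing at height `l`, if there is one. -/
def crAt (w : Word) (l : ℕ) : Option ℕ :=
  match w[l]? with
  | some (.cr _, i) => some i
  | _ => none

/-- The other strand entering the same crossing. -/
def alp (w : Word) (c : Bool) (y : ℕ × ℕ) : ℕ × ℕ :=
  if up c y.2 then
    match crAt w y.1 with
    | some i => if y.2 = i ∨ y.2 = i + 1 then (y.1 + 1, 2 * i + 1 - y.2) else y
    | none => y
  else if y.1 = 0 then y
  else
    match crAt w (y.1 - 1) with
    | some i => if y.2 = i ∨ y.2 = i + 1 then (y.1 - 1, 2 * i + 1 - y.2) else y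
    | none => y

def segs (p q : ℕ) (w : Word) : Finset (ℕ × ℕ) :=
  (range (w.length + 1)).biUnion fun l => (range (wd (p + q) w l)).image fun i => (l, i)

structure Ok (p q : ℕ) (w : Word) (c : Bool) : Prop where
  valid : Valid (p + q) w (p + q)
  ep : Even p
  eq : Even q
  alt : ∀ (l : ℕ) (e : Bool) (i : ℕ), w[l]? = some (Kind.cr e, i) → e = up c i

/-- The strand `a` continues upwards as the strand `b`. -/
inductive Th (p q : ℕ) (w : Word) (hz : ℕ → Bool) : ℕ × ℕ → ℕ × ℕ → ℤ × ℤ → Prop where
  | left (l j i : ℕ) (k : Kind) : w[l]? = some (k, i) → j < i → Th p q w hz (l, j) (l + 1, j) 0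
  | right (l j i : ℕ) (k : Kind) : w[l]? = some (k, i) → i + k.inp ≤ j → j < wd (p + q) w l →
      Th p q w hz (l, j) (l + 1, j - k.inp + k.out) 0
  | vert (l j i : ℕ) (e : Bool) : w[l]? = some (.cr e, i) → hz l = false → j = i ∨ j = i + 1 →
      Th p q w hz (l, j) (l + 1, j) 0
  | upper (j : ℕ) : j < q → Th p q w hz (w.length, j) (0, p + j) (0, 1)
  | side (j : ℕ) : j < p → Th p q w hz (w.length, q + j) (0, j) (1, 0)

/-- The strands at positions `i, i + 1` at height `l` are joined by a maximum. -/
def Cap (w : Word) (hz : ℕ → Bool) (l i : ℕ) : Prop :=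
  ∃ k, w[l]? = some (k, i) ∧ k.inp = 2 ∧ turn k (hz l) = true

/-- The strands at positions `i, i + 1` at height `l + 1` are joined by a minimum. -/
def Cup (w : Word) (hz : ℕ → Bool) (l i : ℕ) : Prop :=
  ∃ k, w[l]? = some (k, i) ∧ k.out = 2 ∧ turn k (hz l) = true

variable {p q n m l i j : ℕ} {w : Word} {c : Bool} {hz : ℕ → Bool} {k : Kind} {y z : ℕ × ℕ}
  {v : ℤ × ℤ}

theorem mem_segs : y ∈ segs p q w ↔ y.1 ≤ w.length ∧ y.2 < wd (p + q) w y.1 := by
  obtain ⟨a, b⟩ := y
  simp only [segs, mem_biUnion, mem_range, mem_image, Prod.mk.injEq]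
  constructor
  · rintro ⟨l, hl, i, hi, rfl, rfl⟩
    exact ⟨by omega, hi⟩
  · rintro ⟨h1, h2⟩
    exact ⟨a, by omega, b, h2, rfl, rfl⟩

theorem wd_zero (n : ℕ) (w : Word) : wd n w 0 = n := by cases w <;> rfl

theorem wd_length (h : Valid n w m) : wd n w w.length = m := by
  induction w generalizing n with
  | nil => exact h
  | cons g w ih => exact ih h.2

theorem wd_succ (h : Valid n w m) (hl : w[l]? = some (k, i)) :
    i + k.inp ≤ wd n w l ∧ wd n w (l + 1) = wd n w l - k.inp + k.out := by
  induction w generalizing n l with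
  | nil => simp at hl
  | cons g w ih =>
    cases l with
    | zero =>
      obtain rfl : g = (k, i) := by simpa using hl
      exact ⟨h.1, by simp only [wd]⟩
    | succ l => exact ih h.2 (by simpa using hl)

theorem lt_length (hl : w[l]? = some (k, i)) : l < w.length := by
  by_contra h
  rw [List.getElem?_eq_none (by omega)] at hl
  cases hl

theorem exists_get (hl : l < w.length) : ∃ k i, w[l]? = some (k, i) :=
  ⟨w[l].1, w[l].2, List.getElem?_eq_getElem hl⟩

theorem io (k : Kind) : (k.inp = 0 ∧ k.out = 2 ∧ k = .cup) ∨ (k.inp = 2 ∧ k.out = 0 ∧ k = .cap) ∨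
    (k.inp = 2 ∧ k.out = 2 ∧ ∃ e, k = .cr e) := by
  cases k <;> simp [Kind.inp, Kind.out]

theorem up_congr (h : i % 2 = j % 2) : up c i = up c j := by
  simp only [up, Nat.even_iff, h]

theorem up_succ (c : Bool) (i : ℕ) : up c (i + 1) = !up c i := by
  cases c <;> by_cases h : Even i <;> simp [up, h, Nat.even_add_one]

theorem up_not (c : Bool) (i : ℕ) : up (!c) i = !up c i := by
  cases c <;> simp [up]

theorem Th.mem (h : Ok p q w c) (ht : Th p q w hz y z v) : y ∈ segs p q w ∧ z ∈ segs p q w := by
  simp only [mem_segs]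
  cases ht with
  | left l j i k hl hj =>
    have := wd_succ h.valid hl
    have := lt_length hl
    simp only
    omega
  | right l j i k hl hj hj' =>
    have := wd_succ h.valid hl
    have := lt_length hl
    simp only
    omega
  | vert l j i e hl _ hj =>
    have := wd_succ h.valid hl
    have := lt_length hl
    simp only [Kind.inp, Kind.out] at *
    omega
  | upper j hj => simp only [wd_zero, wd_length h.valid]; omega
  | side j hj => simp only [wd_zero, wd_length h.valid]; omega

theorem Th.up (h : Ok p q w c) (ht : Th p q w hz y z v) : up c z.2 = up c y.2 := by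
  have hp := Nat.even_iff.1 h.ep
  have hq := Nat.even_iff.1 h.eq
  apply up_congr
  cases ht with
  | left l j i k hl hj => rfl
  | right l j i k hl hj hj' => have := io k; simp only; omega
  | vert l j i e hl _ hj => rfl
  | upper j hj => simp only; omega
  | side j hj => simp only; omega

theorem Th.nx_up (ht : Th p q w hz y z v) (hu : Ta.up c y.2 = true) : nx p q w c hz y = z := by
  cases ht with
  | left l j i k hl hj => simp only at hu; simp [nx, hu, hl, hj]
  | right l j i k hl hj hj' =>
    simp only at hu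
    have : ¬ j < i := by omega
    simp [nx, hu, hl, hj, this]
  | vert l j i e hl hh hj =>
    simp only at hu
    have h1 : ¬ j < i := by omega
    have h2 : ¬ i + 2 ≤ j := by omega
    simp [nx, hu, hl, h1, h2, turn, hh, Kind.inp]
  | upper j hj => simp only at hu; simp [nx, hu, hj]
  | side j hj => simp only at hu; simp [nx, hu]

theorem Th.nx_down (ht : Th p q w hz y z v) (hu : Ta.up c z.2 = false) : nx p q w c hz z = y := by
  cases ht with
  | left l j i k hl hj => simp only at hu; simp [nx, hu, hl, hj]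
  | right l j i k hl hj hj' =>
    simp only at hu
    have h1 : ¬ j - k.inp + k.out < i := by omega
    have h2 : i ≤ j - k.inp := by omega
    have h3 : j - k.inp + k.inp = j := by omega
    simp [nx, hu, hl, h1, h2, h3]
  | vert l j i e hl hh hj =>
    simp only at hu
    have h1 : ¬ j < i := by omega
    have h2 : ¬ i + 2 ≤ j := by omega
    simp [nx, hu, hl, h1, h2, turn, hh, Kind.out]
  | upper j hj => simp only at hu; simp [nx, hu]
  | side j hj => simp only at hu; simp [nx, hu, hj]

theorem Cap.nx (hc : Cap w hz l i) (hj : j = i ∨ j = i + 1) (hu : up c j = true) :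
    nx p q w c hz (l, j) = (l, 2 * i + 1 - j) := by
  obtain ⟨k, hl, hk, ht⟩ := hc
  have h1 : ¬ j < i := by omega
  have h2 : ¬ i + 2 ≤ j := by omega
  simp [Ta.nx, hu, hl, h1, h2, hk, ht]

theorem Cup.nx (hc : Cup w hz l i) (hj : j = i ∨ j = i + 1) (hu : up c j = false) :
    nx p q w c hz (l + 1, j) = (l + 1, 2 * i + 1 - j) := by
  obtain ⟨k, hl, hk, ht⟩ := hc
  have h1 : ¬ j < i := by omega
  have h2 : ¬ i + 2 ≤ j := by omega
  simp [Ta.nx, hu, hl, h1, h2, hk, ht]

theorem Th.eta_up (h : Ok p q w c) (ht : Th p q w hz y z v) (hu : Ta.up c y.2 = true) :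
    eta p q w c z = v := by
  have hz' := (ht.up h).trans hu
  cases ht <;> simp only at hz' <;> simp [eta, *]

theorem Th.eta_down (ht : Th p q w hz y z v) (hu : Ta.up c y.2 = false) :
    eta p q w c y = -v := by
  cases ht with
  | left l j i k hl hj => simp only at hu; have := lt_length hl; simp [eta, hu]; omega
  | right l j i k hl hj hj' => simp only at hu; have := lt_length hl; simp [eta, hu]; omega
  | vert l j i e hl hh hj => simp only at hu; have := lt_length hl; simp [eta, hu]; omega
  | upper j hj => simp only at hu; simp [eta, hu, hj]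
  | side j hj => simp only at hu; simp [eta, hu]

/-- Every strand continues upwards or ends in a maximum. -/
theorem above (h : Ok p q w c) (hz : ℕ → Bool) (hy : y ∈ segs p q w) :
    (∃ z v, Th p q w hz y z v) ∨ ∃ i, Cap w hz y.1 i ∧ (y.2 = i ∨ y.2 = i + 1) := by
  obtain ⟨l, j⟩ := y
  obtain ⟨h1, h2⟩ := mem_segs.1 hy
  simp only at h1 h2 ⊢
  rcases h1.eq_or_lt with rfl | h1
  · rw [wd_length h.valid] at h2
    by_cases hj : j < q
    · exact Or.inl ⟨_, _, .upper j hj⟩
    · obtain ⟨j, rfl⟩ : ∃ t, j = q + t := ⟨j - q, by omega⟩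
      exact Or.inl ⟨_, _, .side j (by omega)⟩
  · obtain ⟨k, i, hl⟩ := exists_get h1
    by_cases a : j < i
    · exact Or.inl ⟨_, _, .left l j i k hl a⟩
    by_cases b : i + k.inp ≤ j
    · exact Or.inl ⟨_, _, .right l j i k hl b h2⟩
    have hk := io k
    by_cases t : turn k (hz l) = true
    · exact Or.inr ⟨i, ⟨k, hl, by omega, t⟩, by omega⟩
    · cases k with
      | cup => simp [turn] at t
      | cap => simp [turn] at t
      | cr e =>
        simp only [Kind.inp] at b
        exact Or.inl ⟨_, _, .vert l j i e hl (by simpa [turn] using t) (by omega)⟩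

/-- Every strand continues downwards or ends in a minimum. -/
theorem below (h : Ok p q w c) (hz : ℕ → Bool) (hy : z ∈ segs p q w) :
    (∃ y v, Th p q w hz y z v) ∨
      ∃ l i, z.1 = l + 1 ∧ Cup w hz l i ∧ (z.2 = i ∨ z.2 = i + 1) := by
  obtain ⟨l, j⟩ := z
  obtain ⟨h1, h2⟩ := mem_segs.1 hy
  simp only at h1 h2 ⊢
  cases l with
  | zero =>
    rw [wd_zero] at h2
    by_cases hj : j < p
    · exact Or.inl ⟨_, _, .side j hj⟩
    · obtain ⟨j, rfl⟩ : ∃ t, j = p + t := ⟨j - p, by omega⟩
      exact Or.inl ⟨_, _, .upper j (by omega)⟩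
  | succ l =>
    obtain ⟨k, i, hl⟩ := exists_get (show l < w.length by omega)
    have hw := wd_succ h.valid hl
    by_cases a : j < i
    · exact Or.inl ⟨_, _, .left l j i k hl a⟩
    by_cases b : i + k.out ≤ j
    · have := Th.right (p := p) (q := q) (hz := hz) l (j - k.out + k.inp) i k hl (by omega)
        (by omega)
      rw [show j - k.out + k.inp - k.inp + k.out = j by omega] at this
      exact Or.inl ⟨_, _, this⟩
    have hk := io k
    by_cases t : turn k (hz l) = true
    · exact Or.inr ⟨l, i, rfl, ⟨k, hl, by omega, t⟩, by omega⟩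
    · cases k with
      | cup => simp [turn] at t
      | cap => simp [turn] at t
      | cr e =>
        simp only [Kind.out] at b
        exact Or.inl ⟨_, _, .vert l j i e hl (by simpa [turn] using t) (by omega)⟩

theorem up_flip (hj : j = i ∨ j = i + 1) : up c (2 * i + 1 - j) = !up c j := by
  rcases hj with rfl | rfl
  · rw [show 2 * j + 1 - j = j + 1 by omega, up_succ]
  · rw [show 2 * i + 1 - (i + 1) = i by omega, up_succ, Bool.not_not]

/-- The four kinds of steps. -/
theorem nx_cases (h : Ok p q w c) (hz : ℕ → Bool) (hy : y ∈ segs p q w) :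
    (up c y.2 = true ∧ up c (nx p q w c hz y).2 = true ∧
      Th p q w hz y (nx p q w c hz y) (eta p q w c (nx p q w c hz y))) ∨
    (up c y.2 = false ∧ up c (nx p q w c hz y).2 = false ∧
      Th p q w hz (nx p q w c hz y) y (-eta p q w c (nx p q w c hz y))) ∨
    (up c y.2 = true ∧ up c (nx p q w c hz y).2 = false ∧ eta p q w c (nx p q w c hz y) = 0 ∧
      ∃ i, Cap w hz y.1 i ∧ (y.2 = i ∨ y.2 = i + 1) ∧ nx p q w c hz y = (y.1, 2 * i + 1 - y.2)) ∨
    (up c y.2 = false ∧ up c (nx p q w c hz y).2 = true ∧ eta p q w c (nx p q w c hz y) = 0 ∧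
      ∃ l i, y.1 = l + 1 ∧ Cup w hz l i ∧ (y.2 = i ∨ y.2 = i + 1) ∧
        nx p q w c hz y = (y.1, 2 * i + 1 - y.2)) := by
  obtain ⟨l, j⟩ := y
  cases hu : up c j with
  | true =>
    rcases above h hz hy with ⟨z, v, ht⟩ | ⟨i, hc, hj⟩
    · rw [ht.nx_up hu, ht.eta_up h hu]
      exact Or.inl ⟨rfl, (ht.up h).trans hu, ht⟩
    · simp only at hc hj
      have e := hc.nx (p := p) (q := q) hj hu
      have hf : up c (2 * i + 1 - j) = false := by rw [up_flip hj, hu]; rfl
      obtain ⟨k, hl, -⟩ := id hc
      have := lt_length hl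
      refine Or.inr (Or.inr (Or.inl ⟨rfl, by rw [e]; exact hf, ?_, i, hc, hj, e⟩))
      rw [e]
      simp [eta, hf]
      omega
  | false =>
    rcases below h hz hy with ⟨z, v, ht⟩ | ⟨l', i, hl, hc, hj⟩
    · have hz' : up c z.2 = false := (ht.up h).symm.trans hu
      rw [ht.nx_down hu, ht.eta_down hz', neg_neg]
      exact Or.inr (Or.inl ⟨rfl, hz', ht⟩)
    · simp only at hc hj hl
      subst hl
      have e := hc.nx (p := p) (q := q) hj hu
      have hf : up c (2 * i + 1 - j) = true := by rw [up_flip hj, hu]; rfl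
      refine Or.inr (Or.inr (Or.inr ⟨rfl, by rw [e]; exact hf, ?_, l', i, rfl, hc, hj, e⟩))
      rw [e]
      simp [eta, hf]

theorem Cap.mem (h : Ok p q w c) (hc : Cap w hz l i) (hj : j = i ∨ j = i + 1) :
    (l, j) ∈ segs p q w := by
  obtain ⟨k, hl, hk, -⟩ := hc
  have := wd_succ h.valid hl
  have := lt_length hl
  rw [mem_segs]
  simp only
  omega

theorem Cup.mem (h : Ok p q w c) (hc : Cup w hz l i) (hj : j = i ∨ j = i + 1) :
    (l + 1, j) ∈ segs p q w := by
  obtain ⟨k, hl, hk, -⟩ := hc
  have := wd_succ h.valid hl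
  have := lt_length hl
  rw [mem_segs]
  simp only
  omega

theorem nx_mem (h : Ok p q w c) (hz : ℕ → Bool) (hy : y ∈ segs p q w) :
    nx p q w c hz y ∈ segs p q w := by
  rcases nx_cases h hz hy with ⟨-, -, t⟩ | ⟨-, -, t⟩ | ⟨-, -, -, i, hc, hj, e⟩ |
    ⟨-, -, -, l, i, hl, hc, hj, e⟩
  · exact (t.mem h).2
  · exact (t.mem h).1
  · rw [e]; exact hc.mem h (by omega)
  · rw [e, hl]; exact hc.mem h (by omega)

theorem nx_inv (h : Ok p q w c) (hz : ℕ → Bool) (hy : y ∈ segs p q w) :
    nx p q w (!c) hz (nx p q w c hz y) = y := by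
  rcases nx_cases h hz hy with ⟨-, u, t⟩ | ⟨-, u, t⟩ | ⟨-, u, -, i, hc, hj, e⟩ |
    ⟨-, u, -, l, i, hl, hc, hj, e⟩
  · exact t.nx_down (by rw [up_not, u]; rfl)
  · exact t.nx_up (by rw [up_not, u]; rfl)
  · rw [e] at u ⊢
    rw [hc.nx (by omega) (by rw [up_not]; simp only at u; rw [u]; rfl)]
    ext <;> simp only
    omega
  · rw [e] at u ⊢
    rw [hl, hc.nx (by omega) (by rw [up_not]; simp only at u; rw [u]; rfl)]
    ext <;> simp only
    · omega
    · omega

abbrev Seg (p q : ℕ) (w : Word) : Type := {y : ℕ × ℕ // y ∈ segs p q w}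

theorem nx_inj (h : Ok p q w c) (hz : ℕ → Bool) : Function.Injective
    fun y : Seg p q w => (⟨nx p q w c hz y.1, nx_mem h hz y.2⟩ : Seg p q w) := by
  intro a b hab
  apply Subtype.ext
  rw [← nx_inv h hz a.2, ← nx_inv h hz b.2]
  exact congrArg (nx p q w (!c) hz) (congrArg Subtype.val hab)

/-- The loops of the smoothed diagram are the cycles of this permutation. -/
noncomputable def nxP (h : Ok p q w c) (hz : ℕ → Bool) : Perm (Seg p q w) :=
  Equiv.ofBijective _ (Finite.injective_iff_bijective.1 (nx_inj h hz))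

theorem nxP_val (h : Ok p q w c) (hz : ℕ → Bool) (y : Seg p q w) :
    (nxP h hz y).1 = nx p q w c hz y.1 := rfl

end Pool.Agent.Lib.MP_7bc610_gt.Ta
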