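import Pool.Agent.Lib.MP_7bc610_gt.Ta.Abs

/-! Cycles of a permutation, and how they change under multiplication by a transposition. -/

namespace Pool.Agent.Lib.MP_7bc610_gt.Ta

open Equiv Finset

variable {X : Type} [Fintype X] [DecidableEq X] {π π' : Perm X} {a b y z : X} {O : Finset X}

theorem mem_orb : z ∈ orb π y ↔ π.SameCycle y z := by
  simp [orb]

theorem self_mem_orb (π : Perm X) (y : X) : y ∈ orb π y :=
  mem_orb.2 (Perm.SameCycle.refl _ _)

theorem orb_eq (h : z ∈ orb π y) : orb π z = orb π y := by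
  have h' := mem_orb.1 h
  ext t
  rw [mem_orb, mem_orb]
  exact ⟨fun k => h'.trans k, fun k => h'.symm.trans k⟩

theorem orb_mem_cyc (π : Perm X) (y : X) : orb π y ∈ cyc π :=
  mem_image.2 ⟨y, mem_univ _, rfl⟩

theorem eq_orb (hO : O ∈ cyc π) (hy : y ∈ O) : O = orb π y := by
  obtain ⟨t, _, rfl⟩ := mem_image.1 hO
  exact (orb_eq hy).symm

theorem exists_orb (hO : O ∈ cyc π) : ∃ y, O = orb π y := by
  obtain ⟨t, _, rfl⟩ := mem_image.1 hO
  exact ⟨t, rfl⟩

theorem apply_mem_iff (hO : O ∈ cyc π) : π y ∈ O ↔ y ∈ O := by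
  obtain ⟨t, rfl⟩ := exists_orb hO
  rw [mem_orb, mem_orb]
  exact Perm.sameCycle_apply_right

theorem orb_induct (P : X → Prop) (h : ∀ t, P t → P (π t)) (hy : P y) (hz : z ∈ orb π y) :
    P z := by
  obtain ⟨n, rfl⟩ := (mem_orb.1 hz).exists_nat_pow_eq
  clear hz
  induction n with
  | zero => simpa using hy
  | succ n ih =>
    rw [pow_succ', Perm.mul_apply]
    exact h _ ih

theorem orb_congr (h : ∀ t ∈ orb π y, π' t = π t) : orb π' y = orb π y := by
  ext t
  constructor
  · intro ht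
    refine orb_induct (π := π') (fun t => t ∈ orb π y) (fun u hu => ?_) (self_mem_orb π y) ht
    rw [h u hu]
    exact (apply_mem_iff (orb_mem_cyc π y)).2 hu
  · intro ht
    refine (orb_induct (π := π) (fun t => t ∈ orb π y ∧ t ∈ orb π' y) (fun u hu => ?_)
      ⟨self_mem_orb π y, self_mem_orb π' y⟩ ht).2
    refine ⟨(apply_mem_iff (orb_mem_cyc π y)).2 hu.1, ?_⟩
    rw [← h u hu.1]
    exact (apply_mem_iff (orb_mem_cyc π' y)).2 hu.2

theorem perm_sum_biUnion {M : Type} [AddCommMonoid M] (f : X → M) {S : Finset (Finset X)}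
    (hS : S ⊆ cyc π) : ∑ t ∈ S.biUnion id, f t = ∑ O ∈ S, ∑ t ∈ O, f t := by
  refine sum_biUnion (t := id) ?_
  intro O hO O' hO' hne
  refine disjoint_left.2 fun t h1 h2 => hne ?_
  rw [eq_orb (hS (mem_coe.1 hO)) h1, eq_orb (hS (mem_coe.1 hO')) h2]

theorem perm_biUnion_closed (C : Finset X) (hC : ∀ t ∈ C, π t ∈ C) :
    ((cyc π).filter (· ⊆ C)).biUnion id = C := by
  ext t
  simp only [mem_biUnion, mem_filter, id]
  constructor
  · rintro ⟨O, ⟨_, h1⟩, h2⟩
    exact h1 h2
  · intro ht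
    exact ⟨orb π t, ⟨orb_mem_cyc π t, fun u hu => orb_induct (fun t => t ∈ C) hC ht hu⟩,
      self_mem_orb π t⟩

theorem sum_closed {M : Type} [AddCommMonoid M] (f : X → M) (C : Finset X)
    (hC : ∀ t ∈ C, π t ∈ C) :
    ∑ t ∈ C, f t = ∑ O ∈ (cyc π).filter (· ⊆ C), ∑ t ∈ O, f t := by
  rw [← perm_sum_biUnion f (filter_subset _ _), perm_biUnion_closed C hC]

theorem sum_cyc {M : Type} [AddCommMonoid M] (π : Perm X) (f : X → M) :
    ∑ t, f t = ∑ O ∈ cyc π, ∑ t ∈ O, f t := by
  rw [sum_closed (π := π) f univ fun t _ => mem_univ _,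
    filter_true_of_mem fun O _ => subset_univ O]

theorem sum_biUnion_cyc {M : Type} [AddCommMonoid M] (f : X → M) {S : Finset (Finset X)}
    (hS : S ⊆ cyc π) : ∑ t ∈ S.biUnion id, f t = ∑ O ∈ S, ∑ t ∈ O, f t :=
  perm_sum_biUnion f hS

/-- Invariant subsets are unions of cycles. -/
theorem sum_invariant {M : Type} [AddCommMonoid M] (π : Perm X) (F : Finset X → M) :
    ∑ A ∈ (univ : Finset (Finset X)).filter (fun A => ∀ t, π t ∈ A ↔ t ∈ A), F A =
      ∑ S ∈ (cyc π).powerset, F (S.biUnion id) := by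
  refine sum_nbij' (fun A => (cyc π).filter (· ⊆ A)) (fun S => S.biUnion id) ?_ ?_ ?_ ?_ ?_
  · intro A _
    exact mem_powerset.2 (filter_subset _ _)
  · intro S hS
    have hS' := mem_powerset.1 hS
    refine mem_filter.2 ⟨mem_univ _, fun t => ?_⟩
    simp only [mem_biUnion, id]
    constructor
    · rintro ⟨O, h1, h2⟩
      exact ⟨O, h1, (apply_mem_iff (hS' h1)).1 h2⟩
    · rintro ⟨O, h1, h2⟩
      exact ⟨O, h1, (apply_mem_iff (hS' h1)).2 h2⟩
  · intro A hA
    exact perm_biUnion_closed A fun t ht => ((mem_filter.1 hA).2 t).2 ht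
  · intro S hS
    have hS' := mem_powerset.1 hS
    ext O
    rw [mem_filter]
    constructor
    · rintro ⟨h1, h2⟩
      obtain ⟨t, rfl⟩ := exists_orb h1
      obtain ⟨O', h3, h4⟩ := mem_biUnion.1 (h2 (self_mem_orb π t))
      rw [← eq_orb (hS' h3) h4]
      exact h3
    · intro h
      exact ⟨hS' h, fun t ht => mem_biUnion.2 ⟨O, h, ht⟩⟩
  · intro A hA
    rw [perm_biUnion_closed A fun t ht => ((mem_filter.1 hA).2 t).2 ht]

theorem perm_orb_range (π : Perm X) (a : X) : ∃ m : ℕ, 0 < m ∧ (π ^ m) a = a ∧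
    (∀ s t : ℕ, (π ^ s) a = (π ^ t) a → s ≡ t [MOD m]) ∧
    ∀ (M : Type) [AddCommMonoid M] (f : X → M),
      ∑ t ∈ orb π a, f t = ∑ i ∈ range m, f ((π ^ i) a) := by
  have hp : a ∈ Function.periodicPts π := π.injective.mem_periodicPts a
  have hm : 0 < Function.minimalPeriod π a := Function.minimalPeriod_pos_of_mem_periodicPts hp
  have hmod : ∀ s : ℕ, (π ^ (s % Function.minimalPeriod π a)) a = (π ^ s) a := by
    intro s
    rw [Perm.coe_pow, Perm.coe_pow]
    exact Function.iterate_mod_minimalPeriod_eq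
  have hinj : ∀ s t : ℕ, s < Function.minimalPeriod π a → t < Function.minimalPeriod π a →
      (π ^ s) a = (π ^ t) a → s = t := by
    intro s t hs ht h
    rw [Perm.coe_pow, Perm.coe_pow] at h
    exact (Function.iterate_eq_iterate_iff_of_lt_minimalPeriod hs ht).1 h
  refine ⟨Function.minimalPeriod π a, hm, ?_, ?_, ?_⟩
  · rw [Perm.coe_pow]
    exact Function.iterate_minimalPeriod
  · intro s t h
    refine hinj _ _ (Nat.mod_lt _ hm) (Nat.mod_lt _ hm) ?_
    rw [hmod, hmod, h]
  · intro M _ f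
    have e : orb π a = (range (Function.minimalPeriod π a)).image fun i => (π ^ i) a := by
      ext t
      rw [mem_image, mem_orb]
      constructor
      · intro h
        obtain ⟨n, rfl⟩ := h.exists_nat_pow_eq
        exact ⟨_, mem_range.2 (Nat.mod_lt n hm), hmod n⟩
      · rintro ⟨i, _, rfl⟩
        exact ⟨i, by rw [zpow_natCast]⟩
    rw [e, sum_image]
    intro s hs t ht h
    exact hinj s t (mem_range.1 (mem_coe.1 hs)) (mem_range.1 (mem_coe.1 ht)) h

/-- Going once around the cycle of `a`, from `π a` to `a`. -/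
theorem orb_walk {M : Type} [AddCommMonoid M] (π : Perm X) (η : X → M) (a : X)
    (P : X → M → Prop) (h0 : P (π a) (η (π a)))
    (hs : ∀ t x, t ∈ orb π a → t ≠ a → P t x → P (π t) (x + η (π t))) :
    P a (∑ t ∈ orb π a, η t) := by
  obtain ⟨m, hm, h1, h2, h3⟩ := perm_orb_range π a
  have key : ∀ i, i < m → P ((π ^ (i + 1)) a) (∑ j ∈ range (i + 1), η ((π ^ (j + 1)) a)) := by
    intro i
    induction i with
    | zero =>
      intro _
      simpa using h0
    | succ i ih =>
      intro hi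
      have e : (π ^ (i + 1 + 1)) a = π ((π ^ (i + 1)) a) := by
        rw [pow_succ' π (i + 1), Perm.mul_apply]
      rw [sum_range_succ, e]
      refine hs _ _ (mem_orb.2 ⟨(i + 1 : ℕ), by rw [zpow_natCast]⟩) ?_ (ih (by omega))
      intro h
      have h4 := h2 (i + 1) 0 (by simpa using h)
      have h5 := Nat.le_of_dvd (by omega) ((Nat.modEq_zero_iff_dvd).1 h4)
      omega
  obtain ⟨k, rfl⟩ : ∃ k, m = k + 1 := ⟨m - 1, by omega⟩
  have h4 := key k (by omega)
  rw [sum_range_succ, h1] at h4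
  rw [h3 M η, sum_range_succ']
  simpa using h4

theorem sum_orb_range (π : Perm X) (a : X) : ∃ m : ℕ, 0 < m ∧ (π ^ m) a = a ∧
    (∀ s t : ℕ, (π ^ s) a = (π ^ t) a → s ≡ t [MOD m]) ∧
    ∀ (M : Type) [AddCommMonoid M] (f : X → M),
      ∑ t ∈ orb π a, f t = ∑ i ∈ range m, f ((π ^ i) a) :=
  perm_orb_range π a

/-- `π'` arises from `π` by merging the cycles of `a` and `b`. -/
structure Mrg (π π' : Perm X) (a b : X) : Prop where
  not : ¬ π.SameCycle a b
  disj : Disjoint (orb π a) (orb π b)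
  union : orb π' a = orb π a ∪ orb π b
  rest : ∃ R : Finset (Finset X), orb π a ∉ R ∧ orb π b ∉ R ∧ orb π' a ∉ R ∧
    cyc π = insert (orb π a) (insert (orb π b) R) ∧ cyc π' = insert (orb π' a) R

theorem perm_sameCycle_swap (h : ¬ π.SameCycle a b) : (π * swap a b).SameCycle a b := by
  by_contra hc
  set τ := π * swap a b with hτ
  have h0 : π a ∈ orb π a := (apply_mem_iff (orb_mem_cyc π a)).2 (self_mem_orb π a)
  have h1 : a ∈ orb π (π a) := by
    rw [orb_eq h0]
    exact self_mem_orb π a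
  have h2 : τ b = π a := by simp [hτ]
  have key := orb_induct (π := π) (fun t => t ∈ orb π a ∧ t ∈ orb τ b) (fun t ht => ?_)
    ⟨h0, by rw [← h2]; exact (apply_mem_iff (orb_mem_cyc τ b)).2 (self_mem_orb τ b)⟩ h1
  · exact hc (mem_orb.1 key.2).symm
  · refine ⟨(apply_mem_iff (orb_mem_cyc π a)).2 ht.1, ?_⟩
    have h3 : t ≠ a := by
      rintro rfl
      exact hc (mem_orb.1 ht.2).symm
    have h4 : t ≠ b := by
      rintro rfl
      exact h (mem_orb.1 ht.1)
    have h5 : τ t = π t := by rw [hτ, Perm.mul_apply, swap_apply_of_ne_of_ne h3 h4]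
    rw [← h5]
    exact (apply_mem_iff (orb_mem_cyc τ b)).2 ht.2

theorem merge (h : ¬ π.SameCycle a b) : Mrg π (π * swap a b) a b := by
  set τ := π * swap a b with hτ
  have hb : b ∈ orb τ a := mem_orb.2 (perm_sameCycle_swap h)
  have ha : a ∈ orb τ a := self_mem_orb τ a
  have hstep : ∀ t, t ∈ orb τ a → π t ∈ orb τ a := by
    intro t ht
    have e : π t = τ (swap a b t) := by rw [hτ, Perm.mul_apply, swap_apply_self]
    rw [e, apply_mem_iff (orb_mem_cyc τ a)]
    by_cases h1 : t = a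
    · rw [h1, swap_apply_left]; exact hb
    by_cases h2 : t = b
    · rw [h2, swap_apply_right]; exact ha
    rw [swap_apply_of_ne_of_ne h1 h2]
    exact ht
  have hoff : ∀ t, t ≠ a → t ≠ b → τ t = π t := fun t h1 h2 => by
    rw [hτ, Perm.mul_apply, swap_apply_of_ne_of_ne h1 h2]
  refine ⟨h, ?_, ?_, (cyc π).filter fun O => a ∉ O ∧ b ∉ O, ?_, ?_, ?_, ?_, ?_⟩
  · exact disjoint_left.2 fun t h1 h2 => h ((mem_orb.1 h1).trans (mem_orb.1 h2).symm)
  · ext t
    constructor
    · intro ht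
      refine orb_induct (π := τ) (fun t => t ∈ orb π a ∪ orb π b) (fun u hu => ?_)
        (mem_union_left _ (self_mem_orb π a)) ht
      have h3 : swap a b u ∈ orb π a ∪ orb π b := by
        by_cases h1 : u = a
        · rw [h1, swap_apply_left]; exact mem_union_right _ (self_mem_orb π b)
        by_cases h2 : u = b
        · rw [h2, swap_apply_right]; exact mem_union_left _ (self_mem_orb π a)
        rw [swap_apply_of_ne_of_ne h1 h2]
        exact hu
      rw [hτ, Perm.mul_apply]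
      rcases mem_union.1 h3 with h4 | h4
      · exact mem_union_left _ ((apply_mem_iff (orb_mem_cyc π a)).2 h4)
      · exact mem_union_right _ ((apply_mem_iff (orb_mem_cyc π b)).2 h4)
    · intro ht
      rcases mem_union.1 ht with h4 | h4
      · exact orb_induct (π := π) (fun t => t ∈ orb τ a) hstep ha h4
      · exact orb_induct (π := π) (fun t => t ∈ orb τ a) hstep hb h4
  · intro k
    exact (mem_filter.1 k).2.1 (self_mem_orb π a)
  · intro k
    exact (mem_filter.1 k).2.2 (self_mem_orb π b)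
  · intro k
    exact (mem_filter.1 k).2.1 ha
  · ext O
    rw [mem_insert, mem_insert, mem_filter]
    constructor
    · intro hO
      by_cases h1 : a ∈ O
      · exact Or.inl (eq_orb hO h1)
      by_cases h2 : b ∈ O
      · exact Or.inr (Or.inl (eq_orb hO h2))
      exact Or.inr (Or.inr ⟨hO, h1, h2⟩)
    · rintro (rfl | rfl | k)
      · exact orb_mem_cyc π a
      · exact orb_mem_cyc π b
      · exact k.1
  · ext O
    rw [mem_insert, mem_filter]
    constructor
    · intro hO
      by_cases h1 : a ∈ O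
      · exact Or.inl (eq_orb hO h1)
      by_cases h2 : b ∈ O
      · exact Or.inl ((eq_orb hO h2).trans (orb_eq hb))
      obtain ⟨t, rfl⟩ := exists_orb hO
      refine Or.inr ⟨?_, h1, h2⟩
      rw [← orb_congr (π := τ) (π' := π) (y := t) fun u hu =>
        (hoff u (fun k => h1 (k ▸ hu)) (fun k => h2 (k ▸ hu))).symm]
      exact orb_mem_cyc π t
    · rintro (rfl | ⟨hO, h1, h2⟩)
      · exact orb_mem_cyc τ a
      · obtain ⟨t, rfl⟩ := exists_orb hO
        rw [← orb_congr (π := π) (π' := τ) (y := t) fun u hu =>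
          hoff u (fun k => h1 (k ▸ hu)) (fun k => h2 (k ▸ hu))]
        exact orb_mem_cyc τ t

theorem perm_not_sameCycle_swap (hab : a ≠ b) (h : π.SameCycle a b) :
    ¬ (π * swap a b).SameCycle a b := by
  classical
  intro hc
  set τ := π * swap a b with hτ
  have hex : ∃ n : ℕ, (π ^ n) a = b := h.exists_nat_pow_eq
  set k := Nat.find hex with hk
  have hk1 : (π ^ k) a = b := Nat.find_spec hex
  have hk2 : ∀ i, i < k → (π ^ i) a ≠ b := fun i hi => Nat.find_min hex hi
  have hk0 : 0 < k := by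
    rcases Nat.eq_zero_or_pos k with e | e
    · rw [e] at hk1
      exact absurd (by simpa using hk1) hab
    · exact e
  have hne : ∀ i, 0 < i → i ≤ k → (π ^ i) a ≠ a := by
    intro i h0 hi e
    apply hk2 (k - i) (by omega)
    have e2 : (π ^ k) a = (π ^ (k - i)) ((π ^ i) a) := by
      rw [← Perm.mul_apply, ← pow_add, Nat.sub_add_cancel hi]
    rw [← hk1, e2, e]
  obtain ⟨i, h0, hi, e⟩ := orb_induct (π := τ) (y := b) (z := a)
    (fun t => ∃ i, 0 < i ∧ i ≤ k ∧ (π ^ i) a = t) (by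
      rintro t ⟨i, h0, hi, rfl⟩
      rcases eq_or_lt_of_le hi with e | e
      · refine ⟨1, one_pos, hk0, ?_⟩
        rw [e, hk1, hτ, Perm.mul_apply, swap_apply_right, pow_one]
      · refine ⟨i + 1, by omega, e, ?_⟩
        rw [hτ, Perm.mul_apply, swap_apply_of_ne_of_ne (hne i h0 hi) (hk2 i e), pow_succ',
          Perm.mul_apply]) ⟨k, hk0, le_rfl, hk1⟩ (mem_orb.2 hc.symm)
  exact hne i h0 hi e

theorem split (hab : a ≠ b) (h : π.SameCycle a b) : Mrg (π * swap a b) π a b := by
  have := merge (perm_not_sameCycle_swap hab h)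
  rwa [mul_assoc, swap_mul_self, mul_one] at this

theorem perm_mrg_ne (h : Mrg π π' a b) : orb π a ≠ orb π b := fun e =>
  h.not (mem_orb.1 (e ▸ self_mem_orb π b))

theorem Mrg.card (h : Mrg π π' a b) : (cyc π).card = (cyc π').card + 1 := by
  obtain ⟨R, h1, h2, h3, h4, h5⟩ := h.rest
  have h6 : orb π a ∉ insert (orb π b) R := by
    rw [mem_insert]
    exact fun k => k.elim (perm_mrg_ne h) h1
  rw [h4, h5, card_insert_of_notMem h6, card_insert_of_notMem h2, card_insert_of_notMem h3]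

theorem Mrg.sum {M : Type} [AddCommMonoid M] (h : Mrg π π' a b) (f : Finset X → M) :
    ∑ O ∈ cyc π, f O + f (orb π' a) = ∑ O ∈ cyc π', f O + f (orb π a) + f (orb π b) := by
  obtain ⟨R, h1, h2, h3, h4, h5⟩ := h.rest
  have h6 : orb π a ∉ insert (orb π b) R := by
    rw [mem_insert]
    exact fun k => k.elim (perm_mrg_ne h) h1
  rw [h4, h5, sum_insert h6, sum_insert h2, sum_insert h3]
  abel

theorem Mrg.mem (h : Mrg π π' a b) (ha : a ∉ O) (hb : b ∉ O) : O ∈ cyc π ↔ O ∈ cyc π' := by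
  obtain ⟨R, _, _, _, h4, h5⟩ := h.rest
  have e1 : O ≠ orb π a := fun e => ha (e ▸ self_mem_orb π a)
  have e2 : O ≠ orb π b := fun e => hb (e ▸ self_mem_orb π b)
  have e3 : O ≠ orb π' a := fun e => ha (e ▸ self_mem_orb π' a)
  rw [h4, h5, mem_insert, mem_insert, mem_insert]
  simp only [e1, e2, e3, false_or]

theorem Mrg.add {M : Type} [AddCommMonoid M] (h : Mrg π π' a b) (f : X → M) :
    ∑ t ∈ orb π' a, f t = ∑ t ∈ orb π a, f t + ∑ t ∈ orb π b, f t := by
  rw [h.union, sum_union h.disj]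

/-- Cancelling in pairs: only subsets of a set of representatives survive. -/
theorem toggle (R : X → X → Prop) (hR : Equivalence R) (D : Finset X) :
    ∃ Rep ⊆ D, (∀ e ∈ Rep, ∀ f ∈ Rep, R e f → e = f) ∧ (∀ e ∈ D, ∃ f ∈ Rep, R e f) ∧
      ∀ F : Finset X → ℤ,
        (∀ H ⊆ D, ∀ e ∈ D, e ∉ H → ∀ f ∈ H, R e f → F (insert e H) = - F H) →
        ∑ H ∈ D.powerset, F H = ∑ H ∈ Rep.powerset, F H := by
  induction D using Finset.strongInduction with
  | H D ih =>
  by_cases hD : ∀ e ∈ D, ∀ f ∈ D, R e f → e = f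
  · exact ⟨D, Subset.refl _, hD, fun e he => ⟨e, he, hR.refl e⟩, fun _ _ => rfl⟩
  push Not at hD
  obtain ⟨e, he, f, hf, hef, hne⟩ := hD
  obtain ⟨Rep, h1, h2, h3, h4⟩ := ih (D.erase f) (erase_ssubset hf)
  have he' : e ∈ D.erase f := mem_erase.2 ⟨hne, he⟩
  refine ⟨Rep, h1.trans (erase_subset _ _), h2, fun x hx => ?_, fun F hF => ?_⟩
  · by_cases hxf : x = f
    · obtain ⟨g, hg, k⟩ := h3 e he'
      exact ⟨g, hg, hxf ▸ hR.trans (hR.symm hef) k⟩
    · exact h3 x (mem_erase.2 ⟨hxf, hx⟩)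
  · rw [← h4 F fun H hH x hx => hF H (hH.trans (erase_subset _ _)) x (mem_of_mem_erase hx)]
    conv_lhs => rw [← insert_erase hf]
    rw [sum_powerset_insert (notMem_erase f D)]
    have h5 : ∑ H ∈ (D.erase f).powerset, F (insert f H) = 0 := by
      conv_lhs => rw [← insert_erase he']
      rw [sum_powerset_insert (notMem_erase e _), ← sum_add_distrib]
      refine sum_eq_zero fun H hH => ?_
      have hH' := mem_powerset.1 hH
      have h6 : insert f H ⊆ D :=
        insert_subset hf (hH'.trans ((erase_subset _ _).trans (erase_subset _ _)))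
      have h7 : e ∉ insert f H := by
        rw [mem_insert]
        exact fun k => k.elim hne fun k => notMem_erase e _ (hH' k)
      rw [Finset.insert_comm f e H, hF _ h6 e he h7 f (mem_insert_self f H) hef]
      ring
    rw [h5, add_zero]

end Pool.Agent.Lib.MP_7bc610_gt.Ta
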