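import Mathlib

/-! The rotation number of a simple periodic curve in Morse position. -/

namespace Pool.Agent.Lib.MP_7bc610_gt.Ta

open Finset

/-- A sequence of strands: `L` is the height, `Z` the horizontal position, `U` says that the
strand goes up. -/
structure Curve (L Z : ℕ → ℤ) (U : ℕ → Bool) : Prop where
  step : ∀ t, (U t = true ∧ U (t + 1) = true ∧ L (t + 1) = L t + 1) ∨
    (U t = false ∧ U (t + 1) = false ∧ L (t + 1) = L t - 1) ∨
    (U t ≠ U (t + 1) ∧ L (t + 1) = L t ∧ (Z (t + 1) = Z t + 1 ∨ Z (t + 1) = Z t - 1))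
  mono : ∀ s t, U s = U (s + 1) → U t = U (t + 1) →
    L (if U s then s else s + 1) = L (if U t then t else t + 1) →
    (Z (if U s then s else s + 1) < Z (if U t then t else t + 1) ↔
      Z (if U s then s + 1 else s) < Z (if U t then t + 1 else t))

/-- `+1` for a maximum passed from right to left, `-1` for a minimum passed from right to left. -/
def turnE (Z : ℕ → ℤ) (U : ℕ → Bool) (t : ℕ) : ℤ :=
  ((if U t then 1 else 0) - (if U (t + 1) then 1 else 0)) * (if Z (t + 1) < Z t then 1 else 0)

/-- The signed number of earlier strands to the left of the strand `t`. -/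
def umlWl (L Z : ℕ → ℤ) (U : ℕ → Bool) (t : ℕ) : ℤ :=
  ∑ u ∈ range t, (if L u = L t ∧ Z u < Z t then (if U u then 1 else -1) else 0)

def umlI (L Z : ℕ → ℤ) (U : ℕ → Bool) (t : ℕ) : ℤ :=
  ∑ u ∈ range t, turnE Z U u + umlWl L Z U t + (if U t then 1 else 0)

theorem uml_tel {L Z : ℕ → ℤ} {U : ℕ → Bool} (h : Curve L Z U) (t lo hi : ℕ)
    (hU : U t = U (t + 1)) (hlo : lo = if U t then t else t + 1)
    (hhi : hi = if U t then t + 1 else t) (hL : L hi = L lo + 1)
    (inj : ∀ s r, s ≤ t + 1 → r ≤ t + 1 → L s = L r → Z s = Z r → s = r)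
    (h0 : if U 0 then ¬ (L 0 = L hi ∧ Z 0 < Z hi) else ¬ (L 0 = L lo ∧ Z 0 < Z lo)) :
    ∑ u ∈ range t, (if L u = L lo ∧ Z u < Z lo then (if U u then 1 else -1) else 0 : ℤ) =
      ∑ u ∈ range t, (if L u = L hi ∧ Z u < Z hi then (if U u then 1 else -1) else 0 : ℤ) := by
  set ψ : ℕ → ℤ := fun u => if U u then (if L u = L hi ∧ Z u < Z hi then 1 else 0)
    else (if L u = L lo ∧ Z u < Z lo then 1 else 0) with hψ
  have key : ∀ u ∈ range t,
      (if L u = L lo ∧ Z u < Z lo then (if U u then 1 else -1) else 0 : ℤ) -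
        (if L u = L hi ∧ Z u < Z hi then (if U u then 1 else -1) else 0 : ℤ) = ψ (u + 1) - ψ u := by
    intro u hu
    have hu' : u < t := mem_range.1 hu
    have hlo' : lo ≤ t + 1 := by rw [hlo]; split_ifs <;> omega
    have hhi' : hi ≤ t + 1 := by rw [hhi]; split_ifs <;> omega
    have i1 := inj u lo (by omega) hlo'
    have i2 := inj u hi (by omega) hhi'
    have i3 := inj (u + 1) lo (by omega) hlo'
    have i4 := inj (u + 1) hi (by omega) hhi'
    have n1 : u ≠ lo := by rw [hlo]; split_ifs <;> omega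
    have n2 : u ≠ hi := by rw [hhi]; split_ifs <;> omega
    rcases h.step u with ⟨a, b, c⟩ | ⟨a, b, c⟩ | ⟨a, b, c⟩
    · have hm := h.mono u t (a.trans b.symm) hU
      rw [← hlo, ← hhi] at hm
      simp only [a, if_true] at hm
      simp only [hψ, a, b, if_true]
      have e : (L u = L lo ∧ Z u < Z lo) ↔ (L (u + 1) = L hi ∧ Z (u + 1) < Z hi) := by
        constructor
        · rintro ⟨x, y⟩; exact ⟨by omega, (hm x).1 y⟩
        · rintro ⟨x, y⟩; exact ⟨by omega, (hm (by omega)).2 y⟩
      simp only [e]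
    · have hm := h.mono u t (a.trans b.symm) hU
      rw [← hlo, ← hhi] at hm
      simp only [a, Bool.false_eq_true, if_false] at hm
      simp only [hψ, a, b, Bool.false_eq_true, if_false]
      have e : (L u = L hi ∧ Z u < Z hi) ↔ (L (u + 1) = L lo ∧ Z (u + 1) < Z lo) := by
        constructor
        · rintro ⟨x, y⟩; exact ⟨by omega, (hm (by omega)).2 y⟩
        · rintro ⟨x, y⟩; exact ⟨by omega, (hm x).1 y⟩
      simp only [e]
      split_ifs <;> omega
    · cases hu0 : U u with
      | true =>
        have hu1 : U (u + 1) = false := by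
          cases hh : U (u + 1) with
          | true => exact absurd (hu0.trans hh.symm) a
          | false => rfl
        have n3 : u + 1 ≠ lo := by
          rw [hlo]
          split_ifs with hh
          · rintro rfl; rw [hu1] at hh; cases hh
          · omega
        simp only [hψ, hu0, hu1, Bool.false_eq_true, if_true, if_false]
        have e : (L u = L lo ∧ Z u < Z lo) ↔ (L (u + 1) = L lo ∧ Z (u + 1) < Z lo) := by
          constructor
          · rintro ⟨x, y⟩
            refine ⟨by omega, ?_⟩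
            by_contra hc
            exact n3 (i3 (by omega) (by omega))
          · rintro ⟨x, y⟩
            refine ⟨by omega, ?_⟩
            by_contra hc
            exact n1 (i1 (by omega) (by omega))
        simp only [e]
      | false =>
        have hu1 : U (u + 1) = true := by
          cases hh : U (u + 1) with
          | true => rfl
          | false => exact absurd (hu0.trans hh.symm) a
        have n3 : u + 1 ≠ hi := by
          rw [hhi]
          split_ifs with hh
          · omega
          · rintro rfl; exact hh hu1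
        simp only [hψ, hu0, hu1, Bool.false_eq_true, if_true, if_false]
        have e : (L u = L hi ∧ Z u < Z hi) ↔ (L (u + 1) = L hi ∧ Z (u + 1) < Z hi) := by
          constructor
          · rintro ⟨x, y⟩
            refine ⟨by omega, ?_⟩
            by_contra hc
            exact n3 (i4 (by omega) (by omega))
          · rintro ⟨x, y⟩
            refine ⟨by omega, ?_⟩
            by_contra hc
            exact n2 (i2 (by omega) (by omega))
        simp only [e]
        split_ifs <;> omega
  have hs := sum_congr rfl key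
  rw [sum_sub_distrib, sum_range_sub] at hs
  have p0 : ψ 0 = 0 := by
    simp only [hψ]
    split_ifs with x y z
    · rw [if_pos x] at h0; exact absurd y h0
    · rfl
    · rw [if_neg x] at h0; exact absurd z h0
    · rfl
  have pt : ψ t = 0 := by
    simp only [hψ]
    split_ifs with x y z
    · rw [if_pos x] at hlo; subst hlo; omega
    · rfl
    · rw [if_neg x] at hhi; subst hhi; omega
    · rfl
  omega

theorem uml_step {L Z : ℕ → ℤ} {U : ℕ → Bool} (h : Curve L Z U) (t : ℕ)
    (inj : ∀ s r, s ≤ t + 1 → r ≤ t + 1 → L s = L r → Z s = Z r → s = r)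
    (h0 : U t = U (t + 1) → ∀ lo hi, (lo = t ∨ lo = t + 1) → (hi = t ∨ hi = t + 1) →
      L hi = L lo + 1 →
      if U 0 then ¬ (L 0 = L hi ∧ Z 0 < Z hi) else ¬ (L 0 = L lo ∧ Z 0 < Z lo)) :
    umlI L Z U (t + 1) = umlI L Z U t := by
  unfold umlI umlWl
  rw [sum_range_succ, sum_range_succ]
  rcases h.step t with ⟨a, b, c⟩ | ⟨a, b, c⟩ | ⟨a, b, c⟩
  · have := uml_tel h t t (t + 1) (a.trans b.symm) (by simp [a]) (by simp [a]) c inj
      (h0 (a.trans b.symm) t (t + 1) (Or.inl rfl) (Or.inr rfl) c)
    rw [this, if_neg (show ¬ (L t = L (t + 1) ∧ Z t < Z (t + 1)) by omega)]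
    simp [turnE, a, b]
  · have := uml_tel h t (t + 1) t (a.trans b.symm) (by simp [a]) (by simp [a]) (by omega) inj
      (h0 (a.trans b.symm) (t + 1) t (Or.inr rfl) (Or.inl rfl) (by omega))
    rw [this, if_neg (show ¬ (L t = L (t + 1) ∧ Z t < Z (t + 1)) by omega)]
    simp [turnE, a, b]
  · have e : ∀ u ∈ range t,
        (if L u = L (t + 1) ∧ Z u < Z (t + 1) then (if U u then 1 else -1) else 0 : ℤ) =
        (if L u = L t ∧ Z u < Z t then (if U u then 1 else -1) else 0 : ℤ) := by
      intro u hu
      have hu' : u < t := mem_range.1 hu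
      have i1 := inj u t (by omega) (by omega)
      have i2 := inj u (t + 1) (by omega) (by omega)
      have : (L u = L (t + 1) ∧ Z u < Z (t + 1)) ↔ (L u = L t ∧ Z u < Z t) := by
        constructor
        · rintro ⟨x, y⟩
          refine ⟨by omega, ?_⟩
          by_contra hc
          have := i1 (by omega) (by omega)
          omega
        · rintro ⟨x, y⟩
          refine ⟨by omega, ?_⟩
          by_contra hc
          have := i2 (by omega) (by omega)
          omega
      simp only [this]
    rw [sum_congr rfl e]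
    unfold turnE
    cases h1 : U t <;> cases h2 : U (t + 1) <;> simp only [h1, h2, ne_eq, not_true] at a <;>
      simp only [Bool.false_eq_true, if_true, if_false] <;> split_ifs <;> omega

theorem uml_shift_sum (f : ℕ → ℤ) (m : ℕ) (hf : ∀ t, f (t + m) = f t) (s : ℕ) :
    ∑ t ∈ range m, f (s + t) = ∑ t ∈ range m, f t := by
  induction s with
  | zero => simp
  | succ s ih =>
    have h1 := sum_range_succ (fun t => f (s + t)) m
    have h2 := sum_range_succ' (fun t => f (s + t)) m
    have h3 : ∑ t ∈ range m, f (s + 1 + t) = ∑ t ∈ range m, f (s + (t + 1)) :=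
      sum_congr rfl fun t _ => by rw [show s + 1 + t = s + (t + 1) by omega]
    have h4 := hf s
    simp only [add_zero] at h1 h2
    omega

theorem uml_turn_per {Z : ℕ → ℤ} {U : ℕ → Bool} {m : ℕ} {b : ℤ}
    (hZ : ∀ t, Z (t + m) = Z t + b) (hU : ∀ t, U (t + m) = U t) (t : ℕ) :
    turnE Z U (t + m) = turnE Z U t := by
  unfold turnE
  rw [show t + m + 1 = (t + 1) + m by omega, hZ, hZ, hU, hU]
  simp only [add_lt_add_iff_right]

theorem Curve.shift {L Z : ℕ → ℤ} {U : ℕ → Bool} (h : Curve L Z U) (s : ℕ) :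
    Curve (fun t => L (s + t)) (fun t => Z (s + t)) (fun t => U (s + t)) where
  step t := h.step (s + t)
  mono a b ha hb hl := by
    have := h.mono (s + a) (s + b) ha hb
    cases h1 : U (s + a) <;> cases h2 : U (s + b) <;>
      simp only [h1, h2, Bool.false_eq_true, if_true, if_false] at this hl ⊢ <;> exact this hl

theorem Curve.neg {L Z : ℕ → ℤ} {U : ℕ → Bool} (h : Curve L Z U) :
    Curve L (fun t => -Z t) U where
  step t := by
    rcases h.step t with a | a | ⟨a, b, c⟩
    · exact Or.inl a
    · exact Or.inr (Or.inl a)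
    · exact Or.inr (Or.inr ⟨a, b, by omega⟩)
  mono a b ha hb hl := by
    have := h.mono b a hb ha hl.symm
    simp only [neg_lt_neg_iff]
    exact this

theorem uml_iter {f : ℕ → ℤ} {m : ℕ} {a : ℤ} (hL : ∀ t, f (t + m) = f t + a) (r k : ℕ) :
    f (r + k * m) = f r + k * a := by
  induction k with
  | zero => simp
  | succ k ih =>
    rw [show r + (k + 1) * m = (r + k * m) + m by ring, hL, ih]
    push_cast
    ring

theorem uml_run {L Z : ℕ → ℤ} {U : ℕ → Bool} (s n : ℕ)
    (h : ∀ t, s ≤ t → t < s + n → umlI L Z U (t + 1) = umlI L Z U t) :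
    umlI L Z U (s + n) = umlI L Z U s := by
  induction n with
  | zero => rfl
  | succ n ih =>
    rw [← add_assoc, h (s + n) (by omega) (by omega), ih fun t a b => h t a (by omega)]

theorem uml_closed0 {L Z : ℕ → ℤ} {U : ℕ → Bool} (h : Curve L Z U) (n : ℕ)
    (hZ : Z (n + 1) = Z 0) (hU : U (n + 1) = true)
    (inj : ∀ s r, s ≤ n → r ≤ n → L s = L r → Z s = Z r → s = r)
    (hU0 : U 0 = true) (hUn : U n = false) (hLn : L n = L 0) (hmin : ∀ t, L 0 ≤ L t)
    (hc : (Z n = Z 0 + 1 ∧ ∀ t, L t = L 0 → Z 0 ≤ Z t) ∨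
      (Z n = Z 0 - 1 ∧ ∀ t, L t = L 0 → Z n ≤ Z t)) :
    ∑ t ∈ range (n + 1), turnE Z U t = 1 ∨ ∑ t ∈ range (n + 1), turnE Z U t = -1 := by
  have hn : 0 < n := by
    rcases Nat.eq_zero_or_pos n with rfl | hn
    · rw [hU0] at hUn; cases hUn
    · exact hn
  have run := uml_run (L := L) (Z := Z) (U := U) 0 n fun t _ ht =>
    uml_step h t (fun s r a b => inj s r (by omega) (by omega)) fun _ lo hi _ _ hl => by
      rw [if_pos hU0]
      have := hmin lo
      omega
  rw [zero_add] at run
  unfold umlI umlWl at run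
  simp only [range_zero, sum_empty, hU0, hUn, Bool.false_eq_true, if_true, if_false] at run
  rw [sum_range_succ]
  rcases hc with ⟨a, b⟩ | ⟨a, b⟩
  · have e : ∑ u ∈ range n, (if L u = L n ∧ Z u < Z n then (if U u then 1 else -1) else 0 : ℤ)
        = 1 := by
      rw [sum_eq_single 0]
      · rw [if_pos ⟨hLn.symm, by omega⟩, if_pos hU0]
      · intro u hu hu0
        rw [if_neg]
        rintro ⟨x, y⟩
        have := b u (by omega)
        exact hu0 (inj u 0 (mem_range.1 hu).le (by omega) (by omega) (by omega))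
      · intro hh; exact absurd (mem_range.2 hn) hh
    have f : turnE Z U n = -1 := by
      unfold turnE
      rw [hUn, hU, if_pos (show Z (n + 1) < Z n by omega)]
      simp
    right
    omega
  · have e : ∑ u ∈ range n, (if L u = L n ∧ Z u < Z n then (if U u then 1 else -1) else 0 : ℤ)
        = 0 := by
      refine sum_eq_zero fun u _ => ?_
      rw [if_neg]
      rintro ⟨x, y⟩
      have := b u (by omega)
      omega
    have f : turnE Z U n = 0 := by
      unfold turnE
      rw [if_neg (show ¬ Z (n + 1) < Z n by omega), mul_zero]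
    left
    omega

theorem uml_closed {L Z : ℕ → ℤ} {U : ℕ → Bool} (h : Curve L Z U) (m : ℕ) (hm : 0 < m)
    (hL : ∀ t, L (t + m) = L t) (hZ : ∀ t, Z (t + m) = Z t) (hU : ∀ t, U (t + m) = U t)
    (hi : ∀ s t, L s = L t → Z s = Z t → s ≡ t [MOD m]) :
    ∑ t ∈ range m, turnE Z U t = 1 ∨ ∑ t ∈ range m, turnE Z U t = -1 := by
  have hL' : ∀ t, L t = L (t % m) := fun t => by
    have := uml_iter (f := L) (m := m) (a := 0) (by simpa using hL) (t % m) (t / m)
    rw [mul_zero, add_zero, mul_comm, Nat.mod_add_div] at this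
    exact this
  have hZ' : ∀ t, Z t = Z (t % m) := fun t => by
    have := uml_iter (f := Z) (m := m) (a := 0) (by simpa using hZ) (t % m) (t / m)
    rw [mul_zero, add_zero, mul_comm, Nat.mod_add_div] at this
    exact this
  obtain ⟨z0, -, hz0⟩ := exists_min_image (range m) L ⟨0, mem_range.2 hm⟩
  obtain ⟨z, hz, hz1⟩ := exists_min_image ((range m).filter fun t => L t = L z0) Z
    ⟨z0 % m, mem_filter.2 ⟨mem_range.2 (Nat.mod_lt _ hm), (hL' z0).symm⟩⟩
  have hz2 : L z = L z0 := (mem_filter.1 hz).2
  have m1 : ∀ t, L z ≤ L t := fun t => by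
    rw [hz2, hL' t]; exact hz0 _ (mem_range.2 (Nat.mod_lt _ hm))
  have m2 : ∀ t, L t = L z → Z z ≤ Z t := fun t ht => by
    rw [hZ' t]
    exact hz1 _ (mem_filter.2 ⟨mem_range.2 (Nat.mod_lt _ hm), by rw [← hL' t, ht, hz2]⟩)
  obtain ⟨n, rfl⟩ : ∃ n, m = n + 1 := ⟨m - 1, by omega⟩
  have per := uml_turn_per (Z := Z) (U := U) (m := n + 1) (b := 0) (by simpa using hZ) hU
  have inj : ∀ s0 s r, s ≤ n → r ≤ n → L (s0 + s) = L (s0 + r) → Z (s0 + s) = Z (s0 + r) →
      s = r := fun s0 s r a b c d =>
    Nat.ModEq.eq_of_lt_of_lt (Nat.ModEq.add_left_cancel' s0 (hi _ _ c d)) (by omega) (by omega)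
  cases hUz : U z with
  | true =>
    rw [← uml_shift_sum _ _ per z]
    have a1 := hL z
    have a2 := hZ z
    have a3 := hU z
    have a4 := m1 (z + n)
    have a5 := m2 (z + n)
    have st := h.step (z + n)
    rw [show z + n + 1 = z + (n + 1) by omega] at st
    rcases st with ⟨a, b, c⟩ | ⟨a, b, c⟩ | ⟨a, b, c⟩
    · omega
    · rw [a3, hUz] at b; cases b
    · refine uml_closed0 (h.shift z) n a2 (a3.trans hUz) (inj z) hUz ?_ (by simp only [add_zero]; omega)
        (fun t => m1 _) (Or.inl ⟨by simp only [add_zero]; omega, fun t ht => m2 _ ht⟩)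
      rw [a3, hUz] at a
      simpa using a
  | false =>
    rw [← uml_shift_sum _ _ per (z + 1)]
    have a1 := hL z
    have a2 := hZ z
    have a3 := hU z
    have a4 := m1 (z + 1)
    have a5 := m2 (z + 1)
    have e : z + 1 + n = z + (n + 1) := by omega
    rcases h.step z with ⟨a, b, c⟩ | ⟨a, b, c⟩ | ⟨a, b, c⟩
    · rw [hUz] at a; cases a
    · omega
    · have hU1 : U (z + 1) = true := by rw [hUz] at a; simpa using a.symm
      refine uml_closed0 (h.shift (z + 1)) n (hZ (z + 1)) ((hU (z + 1)).trans hU1) (inj (z + 1))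
        hU1 (by simp only [e, a3, hUz]) (by simp only [e, add_zero]; omega)
        (fun t => by simp only [add_zero]; have := m1 (z + 1 + t); omega)
        (Or.inr ⟨by simp only [e, add_zero]; omega, fun t ht => ?_⟩)
      simp only [e, add_zero] at ht ⊢
      have := m2 (z + 1 + t) (by omega)
      omega

theorem uml_ess {L Z : ℕ → ℤ} {U : ℕ → Bool} (h : Curve L Z U) (m : ℕ) (hm : 0 < m) (a b : ℤ)
    (hL : ∀ t, L (t + m) = L t + a) (hZ : ∀ t, Z (t + m) = Z t + b) (hU : ∀ t, U (t + m) = U t)
    (hi : ∀ s t, L s = L t → Z s = Z t → s ≡ t [MOD m]) (hab : a ≠ 0 ∨ b < 0) :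
    ∑ t ∈ range m, turnE Z U t = 0 := by
  have inj0 : ∀ s t, s ≤ t → L s = L t → Z s = Z t → s = t := by
    intro s t hst x y
    obtain ⟨k, hk⟩ := (Nat.modEq_iff_dvd' hst).1 (hi s t x y)
    obtain rfl : t = s + k * m := by rw [mul_comm]; omega
    rw [uml_iter hL] at x
    rw [uml_iter hZ] at y
    have hk0 : (k : ℤ) = 0 := by
      rcases hab with hab | hab
      · exact (mul_eq_zero.1 (show (k : ℤ) * a = 0 by omega)).resolve_right hab
      · exact (mul_eq_zero.1 (show (k : ℤ) * b = 0 by omega)).resolve_right hab.ne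
    obtain rfl : k = 0 := by exact_mod_cast hk0
    simp
  have inj : ∀ s t, L s = L t → Z s = Z t → s = t := fun s t x y => by
    rcases le_total s t with e | e
    · exact inj0 s t e x y
    · exact (inj0 t s e x.symm y.symm).symm
  obtain ⟨M, hM⟩ : ∃ M : ℕ, ∀ u < m, |L u| ≤ M ∧ |Z u| ≤ M := by
    refine ⟨∑ u ∈ range m, ((L u).natAbs + (Z u).natAbs), fun u hu => ?_⟩
    have := single_le_sum (f := fun u => (L u).natAbs + (Z u).natAbs) (fun _ _ => Nat.zero_le _)
      (mem_range.2 hu)
    rw [← Int.natCast_natAbs, ← Int.natCast_natAbs]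
    constructor <;> exact_mod_cast (by omega)
  have far : ∀ u < m, ∀ t, (2 * M + 1) * m ≤ t → ¬ (L u = L t ∧ Z u < Z t) := by
    rintro u hu t ht ⟨x, y⟩
    have hk : 2 * M + 1 ≤ t / m := (Nat.le_div_iff_mul_le hm).2 ht
    have e1 := uml_iter hL (t % m) (t / m)
    have e2 := uml_iter hZ (t % m) (t / m)
    rw [mul_comm (t / m) m, Nat.mod_add_div] at e1 e2
    obtain ⟨b1, b2⟩ := hM u hu
    obtain ⟨b3, b4⟩ := hM (t % m) (Nat.mod_lt _ hm)
    have hk' : 2 * (M : ℤ) + 1 ≤ ((t / m : ℕ) : ℤ) := by exact_mod_cast hk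
    generalize ((t / m : ℕ) : ℤ) = k at *
    rw [abs_le] at b1 b2 b3 b4
    rcases hab with hab | hab
    · rcases lt_or_gt_of_ne hab with c | c
      · nlinarith
      · nlinarith
    · nlinarith
  set s := (2 * M + 1) * m with hs
  have run := uml_run (L := L) (Z := Z) (U := U) s m fun t ht _ =>
    uml_step h t (fun s r _ _ => inj s r) fun _ lo hi hlo hhi _ => by
      split_ifs
      · exact far 0 hm hi (by omega)
      · exact far 0 hm lo (by omega)
  unfold umlI at run
  have wl : umlWl L Z U (s + m) = umlWl L Z U s := by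
    unfold umlWl
    rw [add_comm s m, sum_range_add, sum_eq_zero, zero_add]
    · refine sum_congr rfl fun u _ => ?_
      rw [add_comm m u, add_comm m s, hL, hL, hZ, hZ, hU]
      simp only [add_left_inj, add_lt_add_iff_right]
    · intro u hu
      rw [if_neg (far u (mem_range.1 hu) _ (by omega))]
  rw [wl, hU, sum_range_add, uml_shift_sum _ _ (uml_turn_per hZ hU)] at run
  omega

theorem umlauf {L Z : ℕ → ℤ} {U : ℕ → Bool} (h : Curve L Z U) (m : ℕ) (hm : 0 < m) (a b : ℤ)
    (hL : ∀ t, L (t + m) = L t + a) (hZ : ∀ t, Z (t + m) = Z t + b) (hU : ∀ t, U (t + m) = U t)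
    (hi : ∀ s t, L s = L t → Z s = Z t → s ≡ t [MOD m]) :
    if a = 0 ∧ b = 0 then
      (∑ t ∈ range m, turnE Z U t = 1 ∨ ∑ t ∈ range m, turnE Z U t = -1)
    else ∑ t ∈ range m, turnE Z U t = 0 := by
  split_ifs with hab
  · obtain ⟨rfl, rfl⟩ := hab
    exact uml_closed h m hm (by simpa using hL) (by simpa using hZ) hU hi
  · by_cases hb : a ≠ 0 ∨ b < 0
    · exact uml_ess h m hm a b hL hZ hU hi hb
    · have := uml_ess h.neg m hm a (-b) hL (fun t => by simp only [hZ]; ring) hU
        (fun s t x y => hi s t x (by simpa using y)) (by omega)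
      have e : ∀ t ∈ range m, turnE Z U t + turnE (fun t => -Z t) U t =
          (if U t then 1 else 0 : ℤ) - (if U (t + 1) then 1 else 0) := by
        intro t _
        unfold turnE
        rcases h.step t with ⟨x, y, -⟩ | ⟨x, y, -⟩ | ⟨-, -, z⟩
        · simp [x, y]
        · simp [x, y]
        · rw [← mul_add]
          have : (if Z (t + 1) < Z t then 1 else 0 : ℤ) +
              (if -Z (t + 1) < -Z t then 1 else 0) = 1 := by split_ifs <;> omega
          rw [this, mul_one]
      have s := sum_congr rfl e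
      rw [sum_add_distrib, this, sum_range_sub' (fun t => (if U t then 1 else 0 : ℤ))] at s
      have := hU 0
      rw [zero_add] at this
      rw [this] at s
      omega

end Pool.Agent.Lib.MP_7bc610_gt.Ta
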