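import Pool.Agent.Lib.MP_7bc610_gt.Ta.MTD
import Pool.Agent.Lib.MP_7bc610_gt.Ta.Perm
import Pool.Agent.Lib.MP_7bc610_gt.Ta.Umlauf

/-! Rotation numbers of the loops of a smoothing. -/

namespace Pool.Agent.Lib.MP_7bc610_gt.Ta

open Finset Equiv

/-- The exponent of `-A^2` contributed by the step from `y` to the next strand; `b` says that the
spin agrees with the orientation. -/
def tw (p q : ℕ) (w : Word) (c : Bool) (hz : ℕ → Bool) (y : ℕ × ℕ) (b : Bool) : ℤ :=
  ((if up c y.2 then 1 else 0) - (if up c (nx p q w c hz y).2 then 1 else 0)) *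
    (if decide ((nx p q w c hz y).2 < y.2) = b then 1 else 0)

variable {p q : ℕ} {w : Word} {c : Bool}

theorem rot_level {hz : ℕ → Bool} {a b : ℕ × ℕ} {v : ℤ × ℤ} (ht : Th p q w hz a b v) (σ : ℤ) :
    (b.1 : ℤ) + (w.length + 1) * (σ + (v.1 + v.2)) = a.1 + (w.length + 1) * σ + 1 := by
  cases ht <;> simp <;> ring

theorem rot_mono {hz : ℕ → Bool} {a b a' b' : ℕ × ℕ} {v v' : ℤ × ℤ} (ht : Th p q w hz a b v)
    (ht' : Th p q w hz a' b' v') (hl : a.1 = a'.1) (B : ℕ) (hB : p + q ≤ B) (h1 : a.2 < B)
    (h2 : a'.2 < B) (h3 : b.2 < B) (h4 : b'.2 < B) (x x' : ℤ) :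
    x * B + a.2 < x' * B + a'.2 ↔ (x + v.1) * B + b.2 < (x' + v'.1) * B + b'.2 := by
  have tri : x * B = x' * B ∨ x * B + B ≤ x' * B ∨ x' * B + B ≤ x * B := by
    have hB0 : (0 : ℤ) ≤ B := Int.natCast_nonneg B
    rcases lt_trichotomy x x' with c | c | c
    · right; left; nlinarith
    · left; rw [c]
    · right; right; nlinarith
  rw [add_mul, add_mul]
  generalize x * B = P at *
  generalize x' * B = P' at *
  cases ht with
  | left l j i k e hj =>
    cases ht' with
    | left l' j' i' k' e' hj' => simp only [Prod.fst_zero, zero_mul, add_zero]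
    | right l' j' i' k' e' hj' hw =>
      simp only at hl h1 h2 h3 h4
      subst hl
      obtain ⟨rfl, rfl⟩ : k = k' ∧ i = i' := by simpa [e] using e'
      simp only [Prod.fst_zero, zero_mul, add_zero]
      omega
    | vert l' j' i' e0 e' hh hj' => simp only [Prod.fst_zero, zero_mul, add_zero]
    | upper j' hj' => have := lt_length e; simp only at hl; omega
    | side j' hj' => have := lt_length e; simp only at hl; omega
  | right l j i k e hj hw =>
    cases ht' with
    | left l' j' i' k' e' hj' =>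
      simp only at hl h1 h2 h3 h4
      subst hl
      obtain ⟨rfl, rfl⟩ : k = k' ∧ i = i' := by simpa [e] using e'
      simp only [Prod.fst_zero, zero_mul, add_zero]
      omega
    | right l' j' i' k' e' hj' hw' =>
      simp only at hl h1 h2 h3 h4
      subst hl
      obtain ⟨rfl, rfl⟩ : k = k' ∧ i = i' := by simpa [e] using e'
      simp only [Prod.fst_zero, zero_mul, add_zero]
      omega
    | vert l' j' i' e0 e' hh hj' =>
      simp only at hl h1 h2 h3 h4
      subst hl
      obtain ⟨rfl, rfl⟩ : k = .cr e0 ∧ i = i' := by simpa [e] using e'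
      simp only [Prod.fst_zero, zero_mul, add_zero, Kind.inp, Kind.out] at *
      omega
    | upper j' hj' => have := lt_length e; simp only at hl; omega
    | side j' hj' => have := lt_length e; simp only at hl; omega
  | vert l j i e1 e hh hj =>
    cases ht' with
    | left l' j' i' k' e' hj' => simp only [Prod.fst_zero, zero_mul, add_zero]
    | right l' j' i' k' e' hj' hw' =>
      simp only at hl h1 h2 h3 h4
      subst hl
      obtain ⟨rfl, rfl⟩ : .cr e1 = k' ∧ i = i' := by simpa [e] using e'
      simp only [Prod.fst_zero, zero_mul, add_zero, Kind.inp, Kind.out] at *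
      omega
    | vert l' j' i' e0 e' hh hj' => simp only [Prod.fst_zero, zero_mul, add_zero]
    | upper j' hj' => have := lt_length e; simp only at hl; omega
    | side j' hj' => have := lt_length e; simp only at hl; omega
  | upper j hj =>
    cases ht' with
    | left l' j' i' k' e' hj' => have := lt_length e'; simp only at hl; omega
    | right l' j' i' k' e' hj' hw' => have := lt_length e'; simp only at hl; omega
    | vert l' j' i' e0 e' hh hj' => have := lt_length e'; simp only at hl; omega
    | upper j' hj' => simp only [zero_mul, add_zero]; omega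
    | side j' hj' => simp only [zero_mul, add_zero, one_mul]; omega
  | side j hj =>
    cases ht' with
    | left l' j' i' k' e' hj' => have := lt_length e'; simp only at hl; omega
    | right l' j' i' k' e' hj' hw' => have := lt_length e'; simp only at hl; omega
    | vert l' j' i' e0 e' hh hj' => have := lt_length e'; simp only at hl; omega
    | upper j' hj' => simp only [zero_mul, add_zero, one_mul]; omega
    | side j' hj' => simp only [one_mul]; omega

theorem rot_lex {B : ℕ} {x x' : ℤ} {i i' : ℕ} (h1 : i < B) (h2 : i' < B)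
    (h : x * B + i = x' * B + i') : x = x' ∧ i = i' := by
  have hB0 : (0 : ℤ) ≤ B := Int.natCast_nonneg B
  have : x = x' := by
    rcases lt_trichotomy x x' with c | c | c
    · have : x * B + B ≤ x' * B := by nlinarith
      omega
    · exact c
    · have : x' * B + B ≤ x * B := by nlinarith
      omega
  subst this
  exact ⟨rfl, by omega⟩

theorem rot_curve (h : Ok p q w c) (hz : ℕ → Bool) (y : ℕ → ℕ × ℕ) (x : ℕ → ℤ × ℤ) (B : ℕ)
    (hB : p + q ≤ B) (hy : ∀ t, y t ∈ segs p q w) (hyB : ∀ t, (y t).2 < B)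
    (hn : ∀ t, y (t + 1) = nx p q w c hz (y t))
    (hx : ∀ t, x (t + 1) = x t + eta p q w c (y (t + 1))) :
    Curve (fun t => ((x t).1 + (x t).2) * ((w.length + 1 : ℕ) : ℤ) + (y t).1)
      (fun t => (x t).1 * B + (y t).2) (fun t => up c (y t).2) := by
  have th : ∀ t, up c (y t).2 = up c (y (t + 1)).2 → ∃ v,
      Th p q w hz (y (if up c (y t).2 then t else t + 1))
        (y (if up c (y t).2 then t + 1 else t)) v ∧
      x (if up c (y t).2 then t + 1 else t) = x (if up c (y t).2 then t else t + 1) + v := by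
    intro t ht
    have := nx_cases h hz (hy t)
    rw [← hn t] at this
    rcases this with ⟨a, b, e⟩ | ⟨a, b, e⟩ | ⟨a, b, -⟩ | ⟨a, b, -⟩
    · simp only [a, if_true]
      exact ⟨_, e, hx t⟩
    · simp only [a, Bool.false_eq_true, if_false]
      exact ⟨_, e, by rw [hx t]; ring⟩
    · rw [a, b] at ht; cases ht
    · rw [a, b] at ht; cases ht
  constructor
  · intro t
    have := nx_cases h hz (hy t)
    rw [← hn t] at this
    have hxt := hx t
    rcases this with ⟨a, b, e⟩ | ⟨a, b, e⟩ | ⟨a, b, e, i, -, hj, f⟩ | ⟨a, b, e, l, i, -, -, hj, f⟩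
    · refine Or.inl ⟨a, b, ?_⟩
      have := rot_level e ((x t).1 + (x t).2)
      simp only [hxt, Prod.fst_add, Prod.snd_add]
      push_cast
      linear_combination this
    · refine Or.inr (Or.inl ⟨a, b, ?_⟩)
      have := rot_level e ((x (t + 1)).1 + (x (t + 1)).2)
      simp only [hxt, Prod.fst_add, Prod.snd_add, Prod.fst_neg, Prod.snd_neg] at this ⊢
      push_cast
      linear_combination -this
    · rw [e, add_zero] at hxt
      refine Or.inr (Or.inr ⟨by simp [a, b], by simp only [hxt, f], ?_⟩)
      simp only [hxt, f]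
      omega
    · rw [e, add_zero] at hxt
      refine Or.inr (Or.inr ⟨by simp [a, b], by simp only [hxt, f], ?_⟩)
      simp only [hxt, f]
      omega
  · intro s t hs ht hl
    obtain ⟨v, a, b⟩ := th s hs
    obtain ⟨v', a', b'⟩ := th t ht
    have e := (rot_lex (Nat.lt_succ_of_le (mem_segs.1 (hy _)).1)
      (Nat.lt_succ_of_le (mem_segs.1 (hy _)).1) hl).2
    have := rot_mono a a' e B hB (hyB _) (hyB _) (hyB _) (hyB _)
      (x (if up c (y s).2 then s else s + 1)).1 (x (if up c (y t).2 then t else t + 1)).1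
    simp only [b, b', Prod.fst_add]
    exact this

theorem rot (h : Ok p q w c) (hz : ℕ → Bool) {O : Finset (Seg p q w)} (hO : O ∈ cyc (nxP h hz)) :
    if (model h).cls O = 0 then
      (∑ y ∈ O, tw p q w c hz y.1 true = 1 ∨ ∑ y ∈ O, tw p q w c hz y.1 true = -1)
    else ∑ y ∈ O, tw p q w c hz y.1 true = 0 := by
  obtain ⟨y0, rfl⟩ := exists_orb hO
  obtain ⟨m, hm, hp, hi, hs⟩ := sum_orb_range (nxP h hz) y0
  obtain ⟨B, hB0, hB, hB'⟩ : ∃ B : ℕ, 0 < B ∧ p + q ≤ B ∧ ∀ y : Seg p q w, y.1.2 < B :=
    ⟨p + q + 1 + ∑ y : Seg p q w, y.1.2, by omega, by omega, fun y => by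
      have := single_le_sum (f := fun y : Seg p q w => y.1.2) (fun _ _ => Nat.zero_le _)
        (mem_univ y)
      omega⟩
  set Y : ℕ → Seg p q w := fun t => (nxP h hz ^ t) y0 with hY
  have Ys : ∀ t, (Y (t + 1)).1 = nx p q w c hz (Y t).1 := fun t => by
    simp only [hY, pow_succ', Perm.mul_apply, nxP_val]
  have Yp : ∀ t, Y (t + m) = Y t := fun t => by simp only [hY, pow_add, Perm.mul_apply, hp]
  set x : ℕ → ℤ × ℤ := fun t => ∑ u ∈ range t, eta p q w c (Y (u + 1)).1 with hxd
  have xs : ∀ t, x (t + 1) = x t + eta p q w c (Y (t + 1)).1 := fun t => sum_range_succ _ t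
  have xm : x m = (model h).cls (orb (nxP h hz) y0) := by
    have e1 := hs (ℤ × ℤ) fun y => eta p q w c y.1
    have e2 := sum_range_succ (fun u => eta p q w c (Y u).1) m
    have e3 := sum_range_succ' (fun u => eta p q w c (Y u).1) m
    have e4 := Yp 0
    rw [zero_add] at e4
    rw [e3, e4] at e2
    exact (add_right_cancel e2).trans e1.symm
  have xp : ∀ t, x (t + m) = x t + x m := by
    intro t
    induction t with
    | zero => simp [hxd]
    | succ t ih =>
      rw [show t + 1 + m = t + m + 1 by omega, xs, xs, ih, show t + m + 1 = t + 1 + m by omega, Yp]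
      ring
  have cv := rot_curve h hz (fun t => (Y t).1) x B hB (fun t => (Y t).2) (fun t => hB' _) Ys xs
  have um := umlauf cv m hm (((x m).1 + (x m).2) * ((w.length + 1 : ℕ) : ℤ)) ((x m).1 * B)
    (fun t => by simp only [xp, Yp, Prod.fst_add, Prod.snd_add]; ring)
    (fun t => by simp only [xp, Yp, Prod.fst_add]; ring)
    (fun t => by simp only [Yp])
    (fun s t a b => hi s t (Subtype.ext (Prod.ext
      (rot_lex (Nat.lt_succ_of_le (mem_segs.1 (Y s).2).1)
        (Nat.lt_succ_of_le (mem_segs.1 (Y t).2).1) a).2 (rot_lex (hB' _) (hB' _) b).2)))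
  have e : ∀ t ∈ range m, turnE (fun t => (x t).1 * B + (Y t).1.2) (fun t => up c (Y t).1.2) t =
      tw p q w c hz (Y t).1 true := by
    intro t _
    have := nx_cases h hz (Y t).2
    have hxt := xs t
    unfold turnE tw
    rw [← Ys t] at this ⊢
    rcases this with ⟨a, b, -⟩ | ⟨a, b, -⟩ | ⟨-, -, e, -⟩ | ⟨-, -, e, -⟩
    · simp [a, b]
    · simp [a, b]
    · rw [e, add_zero] at hxt
      simp [hxt]
    · rw [e, add_zero] at hxt
      simp [hxt]
  rw [sum_congr rfl e] at um
  rw [hs ℤ fun y => tw p q w c hz y.1 true, ← xm]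
  have iff : (((x m).1 + (x m).2) * ((w.length + 1 : ℕ) : ℤ) = 0 ∧ (x m).1 * B = 0) ↔ x m = 0 := by
    constructor
    · rintro ⟨a, b⟩
      have b' := (mul_eq_zero.1 b).resolve_right (by exact_mod_cast hB0.ne')
      have a' := (mul_eq_zero.1 a).resolve_right (by omega)
      exact Prod.ext b' (by rw [b', zero_add] at a'; exact a')
    · intro a; simp [a]
  simp only [iff] at um
  exact um

theorem rot_neg (h : Ok p q w c) (hz : ℕ → Bool) {O : Finset (Seg p q w)}
    (hO : O ∈ cyc (nxP h hz)) :
    ∑ y ∈ O, tw p q w c hz y.1 false = -∑ y ∈ O, tw p q w c hz y.1 true := by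
  rw [eq_neg_iff_add_eq_zero, ← sum_add_distrib]
  have e : ∀ y ∈ O, tw p q w c hz y.1 false + tw p q w c hz y.1 true =
      (if up c y.1.2 then 1 else 0 : ℤ) - (if up c (nxP h hz y).1.2 then 1 else 0) := by
    intro y _
    unfold tw
    rw [nxP_val, ← mul_add]
    cases decide ((nx p q w c hz y.1).2 < y.1.2) <;> simp
  rw [sum_congr rfl e, sum_sub_distrib, sub_eq_zero]
  exact (sum_equiv (nxP h hz) (fun y => (apply_mem_iff hO).symm) fun _ _ => rfl).symm

end Pool.Agent.Lib.MP_7bc610_gt.Ta
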