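import Pool.Agent.Lib.MP_7bc610_gt.Ta.SpinDefs
import Pool.Agent.Lib.MP_7bc610_gt.H9Inv

/-! The state sum equals the partition function of the spin model. -/

namespace Pool.Agent.Lib.MP_7bc610_gt.Ta

open LaurentPolynomial Finset

variable {n : ℕ} {w : Word} {r : ℕ → ℕ → Prop} {v : Vec}

/-- Crossingless matchings of `n` points together with their vectors. -/
inductive Pl : ℕ → (ℕ → ℕ → Prop) → Vec → Prop where
  | nil : Pl 0 Eq (bas [])
  | cup {n i : ℕ} {r : ℕ → ℕ → Prop} {v : Vec} :
      Pl n r v → i ≤ n → Pl (n + 2) (cupR i r) (cupL i v)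

theorem se_mem (h : Pl n r v) : v ∈ W n 0 := by
  induction h with
  | nil => exact bas_mem' rfl rfl
  | cup _ hi ih => exact sd_cupL_mem hi ih

theorem se_equiv (h : Pl n r v) : Equivalence r := by
  induction h with
  | nil => exact eq_equivalence
  | cup _ _ ih => exact cupR_equiv ih _

theorem se_TT : (T (-2) : RR) * T 2 = 1 := by rw [← T_add]; rfl

theorem se_ext1 {Q : ℤ} (A B : Vec →ₗ[RR] Vec) (c : RR)
    (h : ∀ u, u.length = n → A (B (bas u)) = c • bas u) (hv : v ∈ W n Q) : A (B v) = c • v :=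
  sd_W_ext (S := A ∘ₗ B) (S' := c • LinearMap.id) (fun u h1 _ => h u h1) hv

theorem se_ext2 {Q : ℤ} (A B C D : Vec →ₗ[RR] Vec)
    (h : ∀ u, u.length = n → A (B (bas u)) = C (D (bas u))) (hv : v ∈ W n Q) :
    A (B v) = C (D v) :=
  sd_W_ext (S := A ∘ₗ B) (S' := C ∘ₗ D) (fun u h1 _ => h u h1) hv

theorem se_loop {i : ℕ} {Q : ℤ} (hi : i ≤ n) (hv : v ∈ W n Q) :
    capL i (cupL i v) = loopVal • v := by
  refine se_ext1 (capL i) (cupL i) loopVal (fun u h1 => ?_) hv
  obtain ⟨x, y, rfl, e⟩ := sd_split1 (u := u) (i := i) (by omega)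
  rw [sd_cupL_app e, map_sub, map_smul, sd_capL_app e, sd_capL_app e, smul_smul, ← sub_smul]
  simp only [capW, loopVal, mul_one]

theorem se_zig {i : ℕ} {Q : ℤ} (hi : i + 1 ≤ n) (hv : v ∈ W n Q) :
    capL i (cupL (i + 1) v) = v := by
  refine (se_ext1 (capL i) (cupL (i + 1)) 1 (fun u h1 => ?_) hv).trans (one_smul _ _)
  obtain ⟨x, y, rfl, e⟩ := sd_split1 (u := u) (i := i) (by omega)
  obtain ⟨a, y, rfl⟩ : ∃ a y', y = a :: y' := by
    cases y with
    | nil => simp at h1; omega
    | cons a y => exact ⟨a, y, rfl⟩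
  have k := sd_cupL_app (i := i + 1) (x := x ++ [a]) (by simp [e]) y
  simp only [List.append_assoc, List.singleton_append] at k
  rw [k, map_sub, map_smul, sd_capL_app e, sd_capL_app e, smul_smul]
  cases a
  · simp only [capW, zero_smul, mul_neg, se_TT, zero_sub, neg_smul, one_smul, neg_neg]
  · simp only [capW, one_smul, mul_zero, zero_smul, sub_zero]

theorem se_zag {i : ℕ} {Q : ℤ} (hi : i + 1 ≤ n) (hv : v ∈ W n Q) :
    capL (i + 1) (cupL i v) = v := by
  refine (se_ext1 (capL (i + 1)) (cupL i) 1 (fun u h1 => ?_) hv).trans (one_smul _ _)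
  obtain ⟨x, y, rfl, e⟩ := sd_split1 (u := u) (i := i) (by omega)
  obtain ⟨a, y, rfl⟩ : ∃ a y', y = a :: y' := by
    cases y with
    | nil => simp at h1; omega
    | cons a y => exact ⟨a, y, rfl⟩
  have k1 := sd_capL_app (i := i + 1) (x := x ++ [false]) (by simp [e]) true a y
  have k2 := sd_capL_app (i := i + 1) (x := x ++ [true]) (by simp [e]) false a y
  simp only [List.append_assoc, List.singleton_append] at k1 k2
  rw [sd_cupL_app e, map_sub, map_smul, k1, k2, smul_smul]
  cases a
  · simp only [capW, one_smul, mul_zero, zero_smul, sub_zero]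
  · simp only [capW, zero_smul, mul_neg, se_TT, zero_sub, neg_smul, one_smul, neg_neg]

theorem se_right {i j : ℕ} {Q : ℤ} (hi : i ≤ j) (hj : j + 2 ≤ n) (hv : v ∈ W n Q) :
    capL (j + 2) (cupL i v) = cupL i (capL j v) := by
  refine se_ext2 (capL (j + 2)) (cupL i) (cupL i) (capL j) (fun u h1 => ?_) hv
  obtain ⟨x', a, b, y, rfl, e'⟩ := sd_split2 (u := u) (i := j) (by omega)
  obtain ⟨x, z, rfl, e⟩ := sd_split1 (u := x') (i := i) (by omega)
  rw [List.length_append] at e'
  have k1 := sd_capL_app (i := j + 2) (x := x ++ false :: true :: z) (by simp; omega) a b y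
  have k2 := sd_capL_app (i := j + 2) (x := x ++ true :: false :: z) (by simp; omega) a b y
  rw [sd_capL_app (by simp; omega), map_smul]
  simp only [List.append_assoc, List.cons_append] at k1 k2 ⊢
  rw [sd_cupL_app e, sd_cupL_app e, map_sub, map_smul, k1, k2, smul_sub, smul_comm]

theorem se_left {i j : ℕ} {Q : ℤ} (hi : i ≤ j) (hj : j + 2 ≤ n) (hv : v ∈ W n Q) :
    capL i (cupL (j + 2) v) = cupL j (capL i v) := by
  refine se_ext2 (capL i) (cupL (j + 2)) (cupL j) (capL i) (fun u h1 => ?_) hv
  obtain ⟨x, a, b, y', rfl, e⟩ := sd_split2 (u := u) (i := i) (by omega)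
  obtain ⟨z, y, rfl, e'⟩ := sd_split1 (u := y') (i := j - i) (by simp at h1; omega)
  have k1 := sd_cupL_app (i := j + 2) (x := x ++ a :: b :: z) (by simp; omega) y
  have k2 := sd_cupL_app (i := j) (x := x ++ z) (by simp; omega) y
  simp only [List.append_assoc, List.cons_append] at k1 k2
  rw [sd_capL_app e, map_smul, k1, k2, map_sub, map_smul, sd_capL_app e, sd_capL_app e, smul_sub, smul_comm]

theorem se_cap {N : ℕ} (h : Pl N r v) : ∀ n i : ℕ, N = n + 2 → i ≤ n →
    ∃ v', Pl n (capR i r) v' ∧ capL i v = capVal i r • v' := by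
  induction h with
  | nil => intro n i h; omega
  | @cup n0 j r v h hj ih =>
    intro n i e hi
    obtain rfl : n0 = n := by omega
    have hm := se_mem h
    have he := se_equiv h
    rcases (by omega : i = j ∨ j = i + 1 ∨ i = j + 1 ∨ j + 2 ≤ i ∨ i + 2 ≤ j) with
      rfl | rfl | rfl | c | c
    · refine ⟨v, ?_, ?_⟩
      · rwa [(capR_cupR i).1]
      · rw [inv_val_loop, se_loop hi hm]
    · refine ⟨v, ?_, ?_⟩
      · rwa [(capR_zig he i).1]
      · rw [inv_val_zig he, se_zig hj hm, one_smul]
    · refine ⟨v, ?_, ?_⟩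
      · rwa [(capR_zag he j).1]
      · rw [inv_val_zag he, se_zag hi hm, one_smul]
    · obtain ⟨i, rfl⟩ : ∃ i', i = i' + 2 := ⟨i - 2, by omega⟩
      obtain ⟨n, rfl⟩ : ∃ n', n0 = n' + 2 := ⟨n0 - 2, by omega⟩
      have c' : j ≤ i := by omega
      obtain ⟨v', p1, p2⟩ := ih n i rfl (by omega)
      refine ⟨cupL j v', ?_, ?_⟩
      · rw [(capR_cupR_right c').1]
        exact p1.cup (by omega)
      · rw [inv_val_right c', se_right c' hi hm, p2, map_smul]
    · obtain ⟨j, rfl⟩ : ∃ j', j = j' + 2 := ⟨j - 2, by omega⟩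
      obtain ⟨n, rfl⟩ : ∃ n', n0 = n' + 2 := ⟨n0 - 2, by omega⟩
      have c' : i ≤ j := by omega
      obtain ⟨v', p1, p2⟩ := ih n i rfl (by omega)
      refine ⟨cupL j v', ?_, ?_⟩
      · rw [(capR_cupR_left c').1]
        exact p1.cup (by omega)
      · rw [inv_val_left c', se_left c' hj hm, p2, map_smul]

theorem Pl.cap {i : ℕ} (h : Pl (n + 2) r v) (hi : i ≤ n) :
    ∃ v', Pl n (capR i r) v' ∧ capL i v = capVal i r • v' :=
  se_cap h n i rfl hi

theorem se_zero {N : ℕ} (h : Pl N r v) (e : N = 0) : v = bas [] := by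
  induction h with
  | nil => rfl
  | cup => omega

theorem se_rho_cons (g : Kind × ℕ) (w : Word) (v : Vec) : rho (g :: w) v = rho w (gen g v) := by
  rw [rho, LinearMap.comp_apply]

theorem se_rho_nil (v : Vec) : rho [] v = v := by
  rw [rho, LinearMap.id_apply]

theorem ev_eq (hw : Valid n w 0) (h : Pl n r v) : ev w r = rho w v [] := by
  induction w generalizing n r v with
  | nil =>
    rw [se_rho_nil, se_zero h hw, bas, Finsupp.single_eq_same, ev]
  | cons g w ih =>
    obtain ⟨k, i⟩ := g
    obtain ⟨h1, h2⟩ := hw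
    rw [se_rho_cons]
    rcases k with _ | _ | e
    · rw [inv_cup, sd_gen_cup]
      exact ih h2 (h.cup h1)
    · simp only [Kind.inp, Kind.out] at h1 h2
      obtain ⟨n, rfl⟩ : ∃ n', n = n' + 2 := ⟨n - 2, by omega⟩
      obtain ⟨v', p1, p2⟩ := h.cap (i := i) (by omega)
      rw [inv_cap, sd_gen_cap, p2, map_smul, Finsupp.smul_apply, smul_eq_mul, ih h2 p1]
    · simp only [Kind.inp, Kind.out] at h1 h2
      obtain ⟨n, rfl⟩ : ∃ n', n = n' + 2 := ⟨n - 2, by omega⟩
      have hi : i ≤ n := by omega
      obtain ⟨v', p1, p2⟩ := h.cap hi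
      rw [ev, sd_gen_cr, p2, map_add, map_smul, map_smul, map_smul, map_smul, Finsupp.add_apply,
        Finsupp.smul_apply, Finsupp.smul_apply, Finsupp.smul_apply, smul_eq_mul, smul_eq_mul,
        smul_eq_mul, ih h2 h, ih h2 (p1.cup hi)]

theorem stateSum_eq (hw : Valid 0 w 0) : stateSum w = rho w (bas []) [] := ev_eq hw Pl.nil

/-- The mirror image of a word. -/
def seRev (x : List Bool) : List Bool := (x.map not).reverse

/-- The weight of nested minima. -/
noncomputable def seC : List Bool → RR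
  | [] => 1
  | a :: x => (if a then 1 else -T (-2)) * seC x

/-- The weight of nested maxima. -/
noncomputable def seD : List Bool → RR
  | [] => 1
  | a :: x => (if a then -T 2 else 1) * seD x

theorem seRev_cons (a : Bool) (x : List Bool) : seRev (a :: x) = seRev x ++ [!a] := by
  simp [seRev]

theorem seRev_length (x : List Bool) : (seRev x).length = x.length := by simp [seRev]

theorem se_CD (x : List Bool) : seC x * seD x = (-1) ^ x.length * T (2 * wt x) := by
  induction x with
  | nil => simp [seC, seD, wt]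
  | cons a x ih =>
    rw [seC, seD, mul_mul_mul_comm, ih, wt_cons, mul_add, T_add, List.length_cons, pow_succ]
    cases a
    · rw [if_neg (by simp), if_neg (by simp), show 2 * sg false = -2 from rfl]
      ring
    · rw [if_pos rfl, if_pos rfl, show 2 * sg true = 2 from rfl]
      ring

theorem se_cups (n : ℕ) :
    rho (cups n) (bas []) = ∑ x ∈ words n, seC x • bas (seRev x ++ x) := by
  induction n with
  | zero => simp [cups, words, se_rho_nil, seC, seRev]
  | succ n ih =>
    rw [cups, rho_append, LinearMap.comp_apply, ih, se_rho_cons, se_rho_nil, sd_gen_cup, map_sum,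
      sd_sum_words_succ]
    refine sum_congr rfl fun x hx => ?_
    rw [map_smul, sd_cupL_app ((seRev_length x).trans (mem_words.1 hx)), seRev_cons, seRev_cons,
      seC, seC, smul_sub, smul_smul]
    simp only [List.append_assoc, List.singleton_append, Bool.not_true, Bool.not_false, if_true,
      one_mul, Bool.false_eq_true, if_false, neg_mul, neg_smul, sub_eq_add_neg, mul_comm]

theorem se_caps (x y : List Bool) (h : y.length = x.length) :
    rho (caps x.length) (bas (seRev x ++ y)) [] = seD x * bas y x := by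
  induction x generalizing y with
  | nil =>
    obtain rfl : y = [] := List.length_eq_zero_iff.1 h
    simp [caps, se_rho_nil, seD, seRev]
  | cons a x ih =>
    obtain ⟨b, y, rfl⟩ : ∃ b y', y = b :: y' := by
      cases y with
      | nil => simp at h
      | cons b y => exact ⟨b, y, rfl⟩
    rw [List.length_cons, caps, se_rho_cons, sd_gen_cap, seRev_cons, List.append_assoc,
      List.singleton_append, sd_capL_app (seRev_length x), map_smul, Finsupp.smul_apply,
      smul_eq_mul, ih y (by simpa using h), seD]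
    cases a <;> cases b <;> simp [capW, bas, Finsupp.single_apply]

theorem closure (hw : Valid n w n) (hn : Even n) :
    rho (cups n ++ shift n w ++ caps n) (bas []) [] =
      ∑ x ∈ words n, T (2 * wt x) * rho w (bas x) x := by
  rw [rho_append, rho_append, LinearMap.comp_apply, LinearMap.comp_apply, se_cups, map_sum,
    map_sum, Finsupp.finsetSum_apply]
  refine sum_congr rfl fun x hx => ?_
  have hl := mem_words.1 hx
  have k1 := LinearMap.congr_fun (rho_shift (seRev x) w) (bas x)
  rw [LinearMap.comp_apply, LinearMap.comp_apply, sd_pre_bas, seRev_length, hl] at k1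
  have k2 := sd_W_ext
    (S := (Finsupp.lapply [] : Vec →ₗ[RR] RR) ∘ₗ rho (caps n) ∘ₗ pre (seRev x))
    (S' := seD x • (Finsupp.lapply x : Vec →ₗ[RR] RR)) (fun u h1 _ => by
      rw [LinearMap.comp_apply, LinearMap.comp_apply, sd_pre_bas, LinearMap.smul_apply,
        Finsupp.lapply_apply, Finsupp.lapply_apply, smul_eq_mul, ← hl,
        se_caps x u (h1.trans hl.symm)]) (rho_mem hw (bas_mem' hl rfl))
  rw [LinearMap.comp_apply, LinearMap.comp_apply, LinearMap.smul_apply, Finsupp.lapply_apply,
    Finsupp.lapply_apply, smul_eq_mul] at k2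
  rw [map_smul, map_smul, Finsupp.smul_apply, smul_eq_mul, k1, k2, ← mul_assoc, se_CD, hl,
    hn.neg_one_pow, one_mul]

end Pool.Agent.Lib.MP_7bc610_gt.Ta
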