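import Pool.Agent.Lib.MP_7bc610_gt.Ta.Gen

/-! Extracting a system of black cycles from a state with essential loops. -/

namespace Pool.Agent.Lib.MP_7bc610_gt.Ta

open Equiv Finset

variable {X : Type} [Fintype X] [DecidableEq X]

theorem sys_det_neg {u w : ℤ × ℤ} (h : det w u = 0) (hu : u.1 * u.2 < 0) :
    w = 0 ∨ w.1 * w.2 < 0 := by
  obtain ⟨a, b⟩ := u
  obtain ⟨c, d⟩ := w
  simp only [det] at h hu ⊢
  have ha : a ≠ 0 := fun e => by simp [e] at hu
  have hb : b ≠ 0 := fun e => by simp [e] at hu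
  by_cases hd : d = 0
  · left
    have : c * b = 0 := by rw [hd] at h; linarith
    have hc : c = 0 := (mul_eq_zero.1 this).resolve_right hb
    rw [hc, hd]
    rfl
  · right
    have h1 : 0 < (d * a) ^ 2 := by positivity
    have h2 : (c * d) * (a * b) = (d * a) ^ 2 := by
      have : c * b = d * a := by linarith
      calc (c * d) * (a * b) = (c * b) * (d * a) := by ring
        _ = (d * a) ^ 2 := by rw [this]; ring
    by_contra hn
    have := mul_nonpos_of_nonneg_of_nonpos (not_lt.1 hn) hu.le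
    linarith

theorem sys_det_sum {ι : Type} (S : Finset ι) (f : ι → ℤ × ℤ) (u : ℤ × ℤ)
    (h : ∀ i ∈ S, det (f i) u = 0) : det (∑ i ∈ S, f i) u = 0 := by
  have : det (∑ i ∈ S, f i) u = ∑ i ∈ S, det (f i) u := by
    simp only [det, Prod.fst_sum, Prod.snd_sum, Finset.sum_mul, Finset.sum_sub_distrib]
  rw [this]
  exact Finset.sum_eq_zero h

namespace TD

variable {G : TD X} {H H' O : Finset X} {S : Finset (Finset X)} {r : ℝ}

theorem sys_mu_ess (G : TD X) (H : Finset X) :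
    G.mu H = ∑ O ∈ G.ess H, (|(G.cls O).1|, |(G.cls O).2|) := by
  rw [mu, ess, Finset.sum_filter]
  refine Finset.sum_congr rfl fun O _ => ?_
  by_cases h : G.cls O = 0
  · simp [h]
  · simp [h]

theorem sys_mu_fst (G : TD X) (H : Finset X) :
    (G.mu H).1 = ∑ O ∈ G.ess H, |(G.cls O).1| := by
  rw [sys_mu_ess, Prod.fst_sum]

theorem sys_mu_snd (G : TD X) (H : Finset X) :
    (G.mu H).2 = ∑ O ∈ G.ess H, |(G.cls O).2| := by
  rw [sys_mu_ess, Prod.snd_sum]

theorem sys_mu_nonneg (G : TD X) (H : Finset X) : 0 ≤ (G.mu H).1 ∧ 0 ≤ (G.mu H).2 := by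
  rw [sys_mu_fst, sys_mu_snd]
  exact ⟨Finset.sum_nonneg fun _ _ => abs_nonneg _, Finset.sum_nonneg fun _ _ => abs_nonneg _⟩

theorem sys_mu_pos (hne : (G.ess H).Nonempty) : ¬ G.mu H ≤ 0 := by
  obtain ⟨O, hO⟩ := hne
  rintro ⟨h1, h2⟩
  rw [sys_mu_fst] at h1
  rw [sys_mu_snd] at h2
  have a1 := Finset.single_le_sum (f := fun O => |(G.cls O).1|) (fun _ _ => abs_nonneg _) hO
  have a2 := Finset.single_le_sum (f := fun O => |(G.cls O).2|) (fun _ _ => abs_nonneg _) hO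
  refine (mem_ess.1 hO).2 (Prod.ext ?_ ?_)
  · exact abs_nonpos_iff.1 (a1.trans h1)
  · exact abs_nonpos_iff.1 (a2.trans h2)

theorem cls_sub (hG : G.Good r) (hS : S ⊆ G.ess H) :
    2 * |(∑ O ∈ S, G.cls O).1| ≤ (G.mu H).1 ∧ 2 * |(∑ O ∈ S, G.cls O).2| ≤ (G.mu H).2 := by
  have h0 := sum_cls hG H
  rw [← Finset.sum_sdiff hS] at h0
  have e1 := congrArg Prod.fst h0
  have e2 := congrArg Prod.snd h0
  simp only [Prod.fst_add, Prod.snd_add, Prod.fst_sum, Prod.snd_sum, Prod.fst_zero,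
    Prod.snd_zero] at e1 e2
  rw [sys_mu_fst, sys_mu_snd, ← Finset.sum_sdiff hS, ← Finset.sum_sdiff hS, Prod.fst_sum,
    Prod.snd_sum]
  have a1 := Finset.abs_sum_le_sum_abs (fun O => (G.cls O).1) S
  have a2 := Finset.abs_sum_le_sum_abs (fun O => (G.cls O).2) S
  have b1 := Finset.abs_sum_le_sum_abs (fun O => (G.cls O).1) (G.ess H \ S)
  have b2 := Finset.abs_sum_le_sum_abs (fun O => (G.cls O).2) (G.ess H \ S)
  rw [eq_neg_of_add_eq_zero_left e1, abs_neg] at b1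
  rw [eq_neg_of_add_eq_zero_left e2, abs_neg] at b2
  constructor <;> linarith

theorem neg_cls (h : ∀ O ∈ G.ess H, (G.cls O).1 * (G.cls O).2 < 0) (hS : S ⊆ G.ess H) :
    ∑ O ∈ S, G.cls O = 0 ∨ (∑ O ∈ S, G.cls O).1 * (∑ O ∈ S, G.cls O).2 < 0 := by
  rcases S.eq_empty_or_nonempty with rfl | ⟨O, hO⟩
  · left
    exact Finset.sum_empty
  · refine sys_det_neg (sys_det_sum S _ _ fun O' hO' => ?_) (h O (hS hO))
    exact det_loops (Finset.Subset.refl H) (mem_ess.1 (hS hO)).1 (mem_ess.1 (hS hO')).1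

theorem pos_sub (hH : H' ⊆ H) (hO : O ∈ G.ess H) (hp : 0 ≤ (G.cls O).1 * (G.cls O).2) :
    ∀ O' ∈ cyc (G.pi H'), 0 ≤ (G.cls O').1 * (G.cls O').2 := by
  intro O' hO'
  by_contra hn
  have h1 := det_loops hH (mem_ess.1 hO).1 hO'
  have h2 : det (G.cls O) (G.cls O') = 0 := by
    simp only [det] at h1 ⊢
    linarith
  rcases sys_det_neg h2 (not_le.1 hn) with e | e
  · exact (mem_ess.1 hO).2 e
  · linarith

theorem sys_erase (hH : H ⊆ G.D) {y : X} (hy : y ∈ H) :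
    G.pi (H.erase y) = G.pi H * swap y (G.α y) := by
  have := pi_insert (G := G) ((Finset.erase_subset y H).trans hH) (hH hy)
    (Finset.notMem_erase y H)
  rw [Finset.insert_erase hy] at this
  rw [this, mul_assoc, swap_mul_self, mul_one]

theorem sys_remove (hH : H ⊆ G.D) {y : X} (hy : y ∈ H) (h : ¬ G.mu H ≤ G.mu (H.erase y)) :
    ¬ (G.pi H).SameCycle y (G.α y) ∧ G.cls (orb (G.pi H) y) ≠ 0 ∧
      G.cls (orb (G.pi H) (G.α y)) ≠ 0 := by
  have e := sys_erase hH hy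
  have hn : ¬ (G.pi H).SameCycle y (G.α y) := by
    intro hs
    have m := split (ne_alpha (hH hy)) hs
    rw [← e] at m
    have s := m.sum fun O => ((|(G.cls O).1|, |(G.cls O).2|) : ℤ × ℤ)
    have a : G.cls _ = G.cls _ + G.cls _ := m.add G.η
    change G.mu _ + _ = G.mu _ + _ + _ at s
    rw [a] at s
    have s1 := congrArg Prod.fst s
    have s2 := congrArg Prod.snd s
    simp only [Prod.fst_add, Prod.snd_add] at s1 s2
    have t1 := abs_add_le (G.cls (orb (G.pi (H.erase y)) y)).1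
      (G.cls (orb (G.pi (H.erase y)) (G.α y))).1
    have t2 := abs_add_le (G.cls (orb (G.pi (H.erase y)) y)).2
      (G.cls (orb (G.pi (H.erase y)) (G.α y))).2
    exact h ⟨by linarith, by linarith⟩
  have m := merge hn
  rw [← e] at m
  have s := m.sum fun O => ((|(G.cls O).1|, |(G.cls O).2|) : ℤ × ℤ)
  have a : G.cls _ = G.cls _ + G.cls _ := m.add G.η
  change G.mu _ + _ = G.mu _ + _ + _ at s
  rw [a] at s
  have s1 := congrArg Prod.fst s
  have s2 := congrArg Prod.snd s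
  simp only [Prod.fst_add, Prod.snd_add] at s1 s2
  refine ⟨hn, fun z => h ?_, fun z => h ?_⟩
  · simp only [z, Prod.fst_zero, Prod.snd_zero, zero_add, abs_zero, add_zero] at s1 s2
    exact ⟨by linarith, by linarith⟩
  · simp only [z, Prod.fst_zero, Prod.snd_zero, abs_zero, add_zero] at s1 s2
    exact ⟨by linarith, by linarith⟩

theorem sys_comp_eq {y z : X} (h : G.Bc H y z) : G.comp H z = G.comp H y := by
  ext t
  rw [mem_comp, mem_comp]
  exact ⟨fun a => (G.bc_equiv H).trans h a,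
    fun a => (G.bc_equiv H).trans ((G.bc_equiv H).symm h) a⟩

theorem sys_biUnion (y : X) : (orb (G.pi H) y).biUnion (G.comp H) = G.comp H y := by
  ext t
  rw [Finset.mem_biUnion]
  constructor
  · rintro ⟨z, hz, ht⟩
    rwa [sys_comp_eq (bc_of_orb hz)] at ht
  · exact fun ht => ⟨y, self_mem_orb _ _, ht⟩

/-- A loop without darts is a whole black component. -/
theorem sys_no_dart {y : X} (h : ∀ t ∈ orb (G.pi H) y, ¬ (t ∈ H ∨ G.α t ∈ H)) :
    G.comp H y ⊆ orb (G.pi H) y := by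
  have hO := orb_mem_cyc (G.pi H) y
  have hp : ∀ t ∈ orb (G.pi H) y, G.pi H t = G.σ t := fun t ht => by
    rw [pi_apply, if_neg (h t ht)]
  have hC : G.Closed H (orb (G.pi H) y) := by
    refine ⟨fun t => ⟨fun ht => ?_, fun ht => ?_⟩, fun t ht => ⟨fun a => ?_, fun a => ?_⟩⟩
    · have e : G.pi H ((G.pi H)⁻¹ (G.σ t)) = G.σ t := by simp
      have m : (G.pi H)⁻¹ (G.σ t) ∈ orb (G.pi H) y := by
        rw [← apply_mem_iff hO, e]
        exact ht
      rw [hp _ m] at e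
      rwa [G.σ.injective e] at m
    · rw [← hp t ht]
      exact (apply_mem_iff hO).2 ht
    · exact absurd (Or.inr (by rwa [G.αα])) (h _ a)
    · exact absurd (Or.inl ht) (h _ a)
  intro z hz
  obtain ⟨v, hv⟩ := mem_comp.1 hz
  exact (BW.pot (M := ℤ) 0 (fun _ => 0) hC (fun _ _ => by simp) (fun _ _ _ => rfl) hv
    (self_mem_orb _ _)).1

theorem sys_count (hG : G.Good r)
    (h : ∀ y ∈ H, G.cls (orb (G.pi H) y) ≠ 0 ∧ G.cls (orb (G.pi H) (G.α y)) ≠ 0) :
    2 * G.tr H + (G.ess H).card ≤ 2 * G.kB H := by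
  have e1 : ∑ O ∈ cyc (G.pi H), (if G.cls O = 0 then 2 else 1) =
      2 * G.tr H + (G.ess H).card := by
    rw [Finset.sum_ite, Finset.sum_const, Finset.sum_const, tr, ess, smul_eq_mul, smul_eq_mul,
      mul_one, mul_comm]
  have hm : ∀ O ∈ cyc (G.pi H), O.biUnion (G.comp H) ∈ univ.image (G.comp H) := by
    intro O hO
    obtain ⟨y, rfl⟩ := exists_orb hO
    rw [sys_biUnion]
    exact Finset.mem_image_of_mem _ (Finset.mem_univ y)
  rw [← e1, ← Finset.sum_fiberwise_of_maps_to hm, kB, mul_comm, ← smul_eq_mul]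
  refine Finset.sum_le_card_nsmul _ _ _ fun C _ => ?_
  set F := (cyc (G.pi H)).filter fun O => O.biUnion (G.comp H) = C with hF
  have mem : ∀ O ∈ F, ∃ y, O = orb (G.pi H) y ∧ G.comp H y = C := by
    intro O hO
    obtain ⟨h1, h2⟩ := Finset.mem_filter.1 hO
    obtain ⟨y, rfl⟩ := exists_orb h1
    exact ⟨y, rfl, by rwa [sys_biUnion] at h2⟩
  by_cases ht : ∃ O ∈ F, G.cls O = 0
  · obtain ⟨O, hO, h0⟩ := ht
    obtain ⟨y, rfl, hy⟩ := mem O hO
    have sub : G.comp H y ⊆ orb (G.pi H) y := by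
      refine sys_no_dart fun t ht a => ?_
      rcases a with a | a
      · exact (h t a).1 (by rw [orb_eq ht]; exact h0)
      · exact (h _ a).2 (by rw [G.αα, orb_eq ht]; exact h0)
    have : F = {orb (G.pi H) y} := by
      refine Finset.eq_singleton_iff_unique_mem.2 ⟨hO, fun O' hO' => ?_⟩
      obtain ⟨z, rfl, hz⟩ := mem O' hO'
      refine orb_eq (sub ?_)
      rw [hy, ← hz]
      exact mem_comp.2 ((G.bc_equiv H).refl z)
    rw [this, Finset.sum_singleton, if_pos h0]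
  · have hne : ∀ O ∈ F, G.cls O ≠ 0 := fun O hO e => ht ⟨O, hO, e⟩
    rw [Finset.sum_congr rfl fun O hO => if_neg (hne O hO), Finset.sum_const, smul_eq_mul,
      mul_one]
    by_contra hc
    have tw : ∀ O ∈ F, ∀ O' ∈ F, O ≠ O' → G.cls O = - G.cls O' := by
      intro O hO O' hO' hn
      obtain ⟨y, e, hy⟩ := mem O hO
      obtain ⟨z, e', hz⟩ := mem O' hO'
      refine two hG (mem_ess.2 ⟨(Finset.mem_filter.1 hO).1, hne O hO⟩)
        (mem_ess.2 ⟨(Finset.mem_filter.1 hO').1, hne O' hO'⟩) hn (e ▸ self_mem_orb _ y)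
        (e' ▸ self_mem_orb _ z) (mem_comp.1 ?_)
      rw [hy, ← hz]
      exact mem_comp.2 ((G.bc_equiv H).refl z)
    obtain ⟨a, b, c, ha, hb, hc', n1, n2, n3⟩ := Finset.two_lt_card_iff.1 (not_le.1 hc)
    have t1 := tw a ha b hb n1
    have t2 := tw a ha c hc' n2
    have t3 := tw b hb c hc' n3
    refine hne c hc' (Prod.ext ?_ ?_)
    · have u1 := congrArg Prod.fst t1
      have u2 := congrArg Prod.fst t2
      have u3 := congrArg Prod.fst t3
      simp only [Prod.fst_neg, Prod.fst_zero] at u1 u2 u3 ⊢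
      omega
    · have u1 := congrArg Prod.snd t1
      have u2 := congrArg Prod.snd t2
      have u3 := congrArg Prod.snd t3
      simp only [Prod.snd_neg, Prod.snd_zero] at u1 u2 u3 ⊢
      omega

/-- A minimal substate: every crossing lies between two different essential loops. -/
theorem extract (hG : G.Good r) (hH : H ⊆ G.D) (hne : (G.ess H).Nonempty) :
    ∃ H0 ⊆ H, G.mu H ≤ G.mu H0 ∧ 2 * (H0.card : ℤ) ≤ G.lev H0 ∧
      ∀ y ∈ H0, ¬ (G.pi H0).SameCycle y (G.α y) ∧ G.cls (orb (G.pi H0) y) ≠ 0 ∧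
        G.cls (orb (G.pi H0) (G.α y)) ≠ 0 := by
  classical
  obtain ⟨H0, h0, hmin⟩ := Finset.exists_min_image
    (H.powerset.filter fun K => G.mu H ≤ G.mu K) Finset.card
    ⟨H, Finset.mem_filter.2 ⟨Finset.mem_powerset_self H, le_rfl⟩⟩
  obtain ⟨h1, h2⟩ := Finset.mem_filter.1 h0
  rw [Finset.mem_powerset] at h1
  have hD := h1.trans hH
  have key : ∀ y ∈ H0, ¬ (G.pi H0).SameCycle y (G.α y) ∧ G.cls (orb (G.pi H0) y) ≠ 0 ∧
      G.cls (orb (G.pi H0) (G.α y)) ≠ 0 := by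
    intro y hy
    refine sys_remove hD hy fun hle => ?_
    have := hmin (H0.erase y) (Finset.mem_filter.2
      ⟨Finset.mem_powerset.2 ((Finset.erase_subset y H0).trans h1), h2.trans hle⟩)
    exact absurd (Finset.card_erase_lt_of_mem hy) (not_lt.2 this)
  refine ⟨H0, h1, h2, ?_, key⟩
  have nf : ¬ G.Full H0 := by
    intro hf
    refine sys_mu_pos hne (h2.trans ?_)
    rw [sys_mu_ess, hf.ess, Finset.sum_empty]
  have g0 := gen_zero hD nf
  have cnt := sys_count hG fun y hy => (key y hy).2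
  have cc := G.card_cyc H0
  simp only [gen] at g0
  simp only [lev]
  omega

theorem sys_of_state (hG : G.Good r) (hH : H ⊆ G.D)
    (hp : ∀ O ∈ cyc (G.pi H), 0 ≤ (G.cls O).1 * (G.cls O).2) :
    ∃ v, G.Sys H.card v ∧ 2 • v = G.mu H := by
  set P := (cyc (G.pi H)).filter fun O => 0 ≤ (G.cls O).1 ∧ 0 ≤ (G.cls O).2 with hP
  have hs : P ⊆ cyc (G.pi H) := Finset.filter_subset _ _
  refine ⟨∑ O ∈ P, G.cls O, ⟨H, hH, fun y => if y ∈ P.biUnion id then 1 else 0, rfl,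
    fun y => ?_, fun y => ?_, ?_⟩, ?_⟩
  · refine if_congr ?_ rfl rfl
    simp only [Finset.mem_biUnion, id]
    exact exists_congr fun O => and_congr_right fun hO => apply_mem_iff (hs hO)
  · by_cases e : y ∈ P.biUnion id
    · exact Or.inr (if_pos e)
    · exact Or.inl (if_neg e)
  · simp only [ite_smul, one_smul, zero_smul]
    rw [Finset.sum_ite_mem, Finset.univ_inter, sum_biUnion_cyc _ hs]
    rfl
  · have t0 : ∑ O ∈ cyc (G.pi H), G.cls O = 0 := by
      have := cls_closed hG (C := univ) fun t _ => Finset.mem_univ _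
      rw [cls, sum_cyc (G.pi H)] at this
      exact this
    rw [← Finset.sum_filter_add_sum_filter_not (cyc (G.pi H))
      (fun O => 0 ≤ (G.cls O).1 ∧ 0 ≤ (G.cls O).2)] at t0
    rw [mu, ← Finset.sum_filter_add_sum_filter_not (cyc (G.pi H))
      (fun O => 0 ≤ (G.cls O).1 ∧ 0 ≤ (G.cls O).2), two_nsmul]
    congr 1
    · refine Finset.sum_congr rfl fun O hO => ?_
      obtain ⟨-, a, b⟩ := Finset.mem_filter.1 hO
      rw [abs_of_nonneg a, abs_of_nonneg b]
    · rw [hP, eq_neg_of_add_eq_zero_left t0, ← Finset.sum_neg_distrib]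
      refine Finset.sum_congr rfl fun O hO => ?_
      obtain ⟨m, hn⟩ := Finset.mem_filter.1 hO
      have q := hp O m
      have ab : (G.cls O).1 ≤ 0 ∧ (G.cls O).2 ≤ 0 := by
        rw [not_and_or, not_le, not_le] at hn
        rcases hn with a | a
        · exact ⟨a.le, by nlinarith⟩
        · exact ⟨by nlinarith, a.le⟩
      rw [abs_of_nonpos ab.1, abs_of_nonpos ab.2]
      rfl

theorem short (hG : G.Good r) (hH : H ⊆ G.D) (hO : O ∈ G.ess H)
    (hp : 0 ≤ (G.cls O).1 * (G.cls O).2) :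
    ∃ L v, G.Sys L v ∧ 0 ≤ v.1 ∧ 0 ≤ v.2 ∧ v ≠ 0 ∧ 2 * (L : ℤ) ≤ G.lev H ∧ G.mu H ≤ 2 • v := by
  obtain ⟨H0, h1, h2, h3, -⟩ := extract hG hH ⟨O, hO⟩
  obtain ⟨v, hv, e⟩ := sys_of_state hG (h1.trans hH) (pos_sub h1 hO hp)
  obtain ⟨n1, n2⟩ := G.sys_mu_nonneg H0
  rw [← e] at n1 n2 h2
  simp only [two_nsmul, Prod.fst_add, Prod.snd_add] at n1 n2
  refine ⟨H0.card, v, hv, by linarith, by linarith, fun z => ?_, h3.trans (lev_mono hH h1), h2⟩
  rw [z, smul_zero] at h2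
  exact sys_mu_pos ⟨O, hO⟩ h2

theorem walk_of_sys {L : ℕ} {v : ℤ × ℤ} (h : G.dual.Sys L v) (hv : v ≠ 0) :
    ∃ y u, u ≠ 0 ∧ G.BW G.D (y, 0) (y, u) := by
  obtain ⟨H, hH, s, -, h1, -, h3⟩ := h
  have hH' : H ⊆ G.D := hH
  have e : G.dual.pi H = G.pi (G.D \ H) := by
    rw [← dual_pi (G := G) Finset.sdiff_subset, Finset.sdiff_sdiff_eq_self hH']
  rw [e] at h1
  by_contra hn
  refine hv ?_
  rw [← h3, sum_cyc (G.pi (G.D \ H))]
  refine Finset.sum_eq_zero fun O hO => ?_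
  obtain ⟨y, rfl⟩ := exists_orb hO
  have h0 : G.cls (orb (G.pi (G.D \ H)) y) = 0 := by
    by_contra hc
    exact hn ⟨y, _, hc, (bw_orb y).mono Finset.sdiff_subset⟩
  have hs : ∀ t ∈ orb (G.pi (G.D \ H)) y, s t • G.dual.η t = s y • G.dual.η t := by
    intro t ht
    rw [orb_induct (fun t => s t = s y) (fun t a => (h1 t).trans a) rfl ht]
  rw [Finset.sum_congr rfl hs, ← Finset.smul_sum]
  have z : ∑ t ∈ orb (G.pi (G.D \ H)) y, G.dual.η t = 0 := by
    have a1 := congrArg Prod.fst h0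
    have a2 := congrArg Prod.snd h0
    simp only [cls, Prod.fst_sum, Prod.snd_sum, Prod.fst_zero, Prod.snd_zero] at a1 a2
    refine Prod.ext ?_ ?_
    · rw [Prod.fst_sum]
      exact a1
    · rw [Prod.snd_sum]
      change ∑ t ∈ orb (G.pi (G.D \ H)) y, -(G.η t).2 = 0
      rw [Finset.sum_neg_distrib, a2, neg_zero]
  rw [z, smul_zero]

end TD

theorem x_le {u v : ℤ × ℤ} (h1 : |u.1| ≤ v.1) (h2 : |u.2| ≤ v.2) (hv : v ≠ 0) :
    x1 u ≤ x1 v ∧ x2 u < x1 v ∧ 1 ≤ x1 v := by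
  obtain ⟨a, b⟩ := u
  obtain ⟨c, d⟩ := v
  simp only [x1, x2] at h1 h2 ⊢
  rw [abs_le] at h1 h2
  obtain ⟨p1, p2⟩ := h1
  obtain ⟨q1, q2⟩ := h2
  have hc : 0 ≤ c := by omega
  have hd : 0 ≤ d := by omega
  have h3 : 1 ≤ c + d := by
    by_contra hn
    exact hv (Prod.ext (by simp only [Prod.fst_zero]; omega) (by simp only [Prod.snd_zero]; omega))
  have hcd : 0 ≤ c * d := mul_nonneg hc hd
  refine ⟨?_, ?_, by nlinarith⟩
  · rcases le_total 0 (a + 1) with s | s <;> rcases le_total 0 (b + 1) with t | t <;> nlinarith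
  · rcases le_total 0 (a + 1) with s | s <;> rcases le_total 0 (b - 1) with t | t <;> nlinarith

theorem x_neg {u : ℤ × ℤ} (h : u.1 * u.2 < 0) :
    x1 u < 0 ∧ x2 u ≤ 0 ∧ (x2 u < 0 ∨ x2 (-u) < 0) := by
  obtain ⟨a, b⟩ := u
  simp only [x1, x2, Prod.fst_neg, Prod.snd_neg] at h ⊢
  rcases mul_neg_iff.1 h with ⟨p, q⟩ | ⟨p, q⟩
  · exact ⟨by nlinarith, by nlinarith, Or.inl (by nlinarith)⟩
  · exact ⟨by nlinarith, by nlinarith, Or.inr (by nlinarith)⟩

end Pool.Agent.Lib.MP_7bc610_gt.Ta
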